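import Pool.Agent.H63.MA.APh
import Pool.Agent.H63.MA.ATupA

/-!
# MB-BDEF: definitions for the asymptotic formula (analytic part)

As in `MA/ADef`, but the set `E` of special primes may contain good primes (then all the sets `g a` have to avoid `E`), and there is an
additional phase `ex`: for `w ∈ E` a vector `η w` with the phase `∑_{w ∈ E} η w · x_a * LL w (pi v)` for every `v ∈ g a` (it comes from the
local conditions at the primes of `E`).
* `BS2 D b E`: `E` is a set of primes outside `S0` and `b` is supported on `S0 ∪ E`.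
* `mu2 D P b η a w = lam w * dord b (θ_a) w + η w · x_a`: the coefficient of `LL w (pi v)`, `v ∈ g a`, `w ∈ E`, in the total phase `ph2`.
* `Adm2`, `Cond2`, `TT2`, `TN2`: as `Adm`, `Cond`, `TT`, `TN` in `MA/APh`, `MA/ADef`, with the condition that all `g a` are disjoint from `E`.
* `UN D N E Y`: the number of pairwise disjoint `N`-tuples of finite sets of good primes, disjoint from `E`, with product of norms `≤ Y`.
* `GS D c b E η H Y`: the sum over all refined families `g : c.J → GF Y`; `FG D c b E η`: the good families `(θ_i)`.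
* `cQ D c f`: the class of `f : Fin N → Finset (Pl K)` in `(ZMod p)^m ⊗ (ZMod p)^r`.
-/

set_option autoImplicit false

open scoped NumberField
open IsDedekindDomain
open scoped Classical

noncomputable section

namespace H63.MA

variable {K : Type} [Field K] [NumberField K] {p : ℕ} {ζ : K} {m N : ℕ}

/-- `E` is a set of primes outside `S0` and `b` is supported on `S0 ∪ E` -/
def BS2 (D : RD0 K p ζ) (b : Fin m → Kˣ) (E : Finset (Pl K)) : Prop :=
  (∀ v ∈ E, v ∉ D.S0) ∧ ∀ k v, v ∉ D.S0 → v ∉ E → ord v (b k) = 0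

section J

variable {J : Type} [Fintype J]

/-- the extra phase -/
def ex (D : RD0 K p ζ) (P : PD p m J) (E : Finset (Pl K)) (η : Pl K → Fin m → ZMod p)
    (g : J → Finset (Pl K)) : ZMod p :=
  ∑ a, ∑ v ∈ g a, ∑ w ∈ E, dt (η w) (P.x a) * D.LL w (D.pi v)

/-- the total phase -/
def ph2 (D : RD0 K p ζ) (P : PD p m J) (b : Fin m → Kˣ) (E : Finset (Pl K))
    (η : Pl K → Fin m → ZMod p) (g : J → Finset (Pl K)) : ZMod p :=
  ph D P b g + ex D P E η g

/-- the coefficient of `LL w (pi v)` for `v ∈ g a` -/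
def mu2 (D : RD K p ζ) (P : PD p m J) (b : Fin m → Kˣ) (η : Pl K → Fin m → ZMod p) (a : J)
    (w : Pl K) : ZMod p := D.lam w * dord b (P.θ a) w + dt (η w) (P.x a)

/-- admissible families -/
def Adm2 (D : RD0 K p ζ) (E : Finset (Pl K)) (g : J → Finset (Pl K)) : Prop :=
  Adm D g ∧ ∀ a, Disjoint (g a) E

/-- the conditions -/
def Cond2 {t : ℕ} (E : Finset (Pl K)) (blk : J → Fin t) (Y : Fin t → ℝ) (Lg : Finset J) (z : ℝ)
    (g : J → Finset (Pl K)) : Prop :=
  Cond blk Y Lg z g ∧ ∀ a, Disjoint (g a) E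

/-- the sum over the large variables -/
def TT2 {t : ℕ} (D : RD0 K p ζ) (P : PD p m J) (b : Fin m → Kˣ) (E : Finset (Pl K))
    (η : Pl K → Fin m → ZMod p) (blk : J → Fin t) (Y : Fin t → ℝ) (X : ℝ) (Lg : Finset J) (z : ℝ)
    (s : J → Finset (Pl K)) (h : (J → Fin D.r → ZMod p) → ℂ) : ℂ :=
  ∑ g ∈ Fintype.piFinset (fun a => if a ∈ Lg then GF D X else {s a}),
    if Cond2 E blk Y Lg z g then h (fun a => qf D (g a)) * ep p (ph2 D P b E η g) else 0

/-- the number of terms of `TT2` -/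
def TN2 {t : ℕ} (D : RD0 K p ζ) (E : Finset (Pl K)) (blk : J → Fin t) (Y : Fin t → ℝ) (X : ℝ)
    (Lg : Finset J) (z : ℝ) (s : J → Finset (Pl K)) : ℝ :=
  ∑ g ∈ Fintype.piFinset (fun a => if a ∈ Lg then GF D X else {s a}),
    if Cond2 E blk Y Lg z g then 1 else 0

end J

/-- the number of disjoint tuples of finite sets of good primes avoiding `E` -/
def UN (D : RD0 K p ζ) (N : ℕ) (E : Finset (Pl K)) (Y : ℝ) : ℝ :=
  (((Fintype.piFinset fun _ : Fin N => GF D Y).filter fun n =>
    Dj n ∧ (∀ i, Disjoint (n i) E) ∧ ∏ i, nr (n i) ≤ Y).card : ℝ)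

/-- the class of `f` in `(ZMod p)^m ⊗ (ZMod p)^r` -/
def cQ (D : RD0 K p ζ) (c : CD p m N) (f : Fin N → Finset (Pl K)) : Fin m → Fin D.r → ZMod p :=
  fun k j => ∑ i, c.x i k * qf D (f i) j

/-- the class of a refined family -/
def cJ [NeZero p] (D : RD0 K p ζ) (c : CD p m N) (q : c.J → Fin D.r → ZMod p) :
    Fin m → Fin D.r → ZMod p := fun k j => ∑ a, c.pd.x a k * q a j

/-- the refined sum -/
def GS [NeZero p] (D : RD0 K p ζ) (c : CD p m N) (b : Fin m → Kˣ) (E : Finset (Pl K))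
    (η : Pl K → Fin m → ZMod p) (H : (Fin m → Fin D.r → ZMod p) → ℂ) (Y : ℝ) : ℂ :=
  ∑ g ∈ Fintype.piFinset (fun _ : c.J => GF D Y),
    if Dj g ∧ (∀ a, Disjoint (g a) E) ∧ ∏ a, nr (g a) ≤ Y ∧ Sp c b g then
      H (cJ D c fun a => qf D (g a)) * ep p (ph2 D c.pd b E η g) else 0

/-- the good families: pairwise unlinked, and unlinked with the primes of `E` -/
def FG [NeZero p] (D : RD K p ζ) (c : CD p m N) (b : Fin m → Kˣ) (E : Finset (Pl K))
    (η : Pl K → Fin m → ZMod p) : Finset (Fin N → Fin m → ZMod p) :=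
  Finset.univ.filter fun θ => (∀ i, θ i ∈ c.Θ i) ∧
    (∀ i j, dt (θ i) (c.x j) + dt (θ j) (c.x i) = 0) ∧
    ∀ i, ∀ w ∈ E, D.lam w * dord b (θ i) w + dt (η w) (c.x i) = 0

end H63.MA
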