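import Pool.Agent.H63.MB.BDef

/-!
# MB-BPHA: the total phase `ph2` as a function of one and of two variables

These are the statements `ph_one`, `ph_two` of `MA/APh` (read that file: all its auxiliary lemmas may be used, or copied with new names) for the phase `ph2 = ph + ex`, with `BS2` in place of `BSup` (`E` is now an arbitrary finite
set of primes outside `S0` on which `b` may be supported, and all `g a` are disjoint from `E`).
* `aph_rec2`: the proof of `aph_rec` (it only uses `rec1` and that `ord w (b k) = 0` for `w ∉ S0 ∪ E`, `w ∉ S0` for `w ∈ E`).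
* `ph_one2`: the proof of `ph_one` with `aph_rec2`; the new term is `ex (update g a n) = const + ∑_{v ∈ n} ∑_{w ∈ E} dt (η w) (x a) * LL w (pi v)` (the summands of `ex` with index `≠ a` do not depend on `n`).
* `ph_two2`: `ph_two` (it has no hypothesis on `b`, `Adm` follows from `Adm2`) and `ex (update (update g a n) a' n') = (term a, depends on n) + (term a', depends on n') + const`.

-/

set_option autoImplicit false

open scoped NumberField
open IsDedekindDomain
open scoped Classical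

noncomputable section

namespace H63.MA

variable {K : Type} [Field K] [NumberField K] {p : ℕ} {ζ : K} {m : ℕ} {J : Type} [Fintype J]

theorem aph_rec2 (D : RD K p ζ) (b : Fin m → Kˣ) (E : Finset (Pl K)) (hb : BS2 D.toRD0 b E)
    (θ : Fin m → ZMod p) : ∃ κ : Fin D.r → ZMod p, ∀ v, D.Gd v →
      dt θ (fun k => D.LL v (b k)) =
        ∑ w ∈ E, D.lam w * dord b θ w * D.LL w (D.pi v) + dt κ (D.q v) := by
  choose κ hκ using fun k => D.rec1 (b k)
  refine ⟨fun i => ∑ k, θ k * κ k i, fun v hv => ?_⟩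
  have h1 : ∀ k, D.LL v (b k) = ∑ i, κ k i * D.q v i +
      ∑ w ∈ E, D.lam w * (ord w (b k) : ZMod p) * D.LL w (D.pi v) := by
    intro k
    rw [hκ k v hv]
    congr 1
    rw [finsum_eq_sum_of_support_subset (s := E)]
    · refine Finset.sum_congr rfl fun w hw => ?_
      rw [if_neg (hb.1 w hw)]
    · intro w hw
      by_contra hwE
      apply hw
      have hwE' : w ∉ E := fun h => hwE (Finset.mem_coe.2 h)
      show (if w ∈ D.S0 then 0 else D.lam w * (ord w (b k) : ZMod p) * D.LL w (D.pi v)) = 0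
      by_cases hw0 : w ∈ D.S0
      · rw [if_pos hw0]
      · rw [if_neg hw0, hb.2 k w hw0 hwE']
        simp
  unfold dt dord
  simp only [h1, mul_add, Finset.sum_add_distrib]
  rw [add_comm]
  congr 1
  · simp only [Finset.mul_sum, Finset.sum_mul]
    rw [Finset.sum_comm]
    refine Finset.sum_congr rfl fun w _ => Finset.sum_congr rfl fun k _ => ?_
    ring
  · simp only [Finset.mul_sum, Finset.sum_mul]
    rw [Finset.sum_comm]
    refine Finset.sum_congr rfl fun w _ => Finset.sum_congr rfl fun k _ => ?_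
    ring


theorem bpha_one (hp : p.Prime) (hζ : IsPrimitiveRoot ζ p) (D : RD K p ζ) (P : PD p m J)
    (b : Fin m → Kˣ) (E : Finset (Pl K)) (hb : BS2 D.toRD0 b E) (g : J → Finset (Pl K))
    (hg : Adm D.toRD0 g) (a : J) :
    ∃ (c : ZMod p) (κ : Fin D.r → ZMod p), ∀ n : Finset (Pl K),
      Adm D.toRD0 (Function.update g a n) →
        ph D.toRD0 P b (Function.update g a n) = c + ∑ v ∈ n,
          (∑ w ∈ E, D.lam w * dord b (P.θ a) w * D.LL w (D.pi v) +
            ∑ l ∈ Finset.univ.erase a, P.lk a l * ∑ w ∈ g l, D.LL w (D.pi v) + dt κ (D.q v)) := by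
  obtain ⟨κ', hκ'⟩ := aph_rec2 D b E hb (P.θ a)
  refine ⟨∑ l ∈ Finset.univ.erase a, ∑ v ∈ g l, dt (P.θ l) (fun k => D.LL v (b k)) +
    ∑ l ∈ Finset.univ.erase a, ∑ l' ∈ Finset.univ.erase a,
      dt (P.θ l) (P.x l') * Lf D.toRD0 (g l) (pf D.toRD0 (g l')),
    fun j => κ' j + ∑ l ∈ Finset.univ.erase a, dt (P.θ a) (P.x l) *
      ∑ i, D.eta i j * qf D.toRD0 (g l) i, fun n hn => ?_⟩
  have hne : ∀ l ∈ Finset.univ.erase a, Function.update g a n l = g l := fun l hl =>
    Function.update_of_ne (Finset.ne_of_mem_erase hl) _ _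
  have haa : Function.update g a n a = n := Function.update_self _ _ _
  have hng : ∀ v ∈ n, D.Gd v := by
    have := hn.1 a
    rwa [haa] at this
  have hdis : ∀ l ∈ Finset.univ.erase a, Disjoint n (g l) := by
    intro l hl
    have := hn.2 a l (Finset.ne_of_mem_erase hl).symm
    rwa [haa, hne l hl] at this
  unfold ph
  rw [aph_split _ a, ← Finset.add_sum_erase Finset.univ _ (Finset.mem_univ a), haa]
  have e1 : ∑ l ∈ Finset.univ.erase a, ∑ v ∈ Function.update g a n l,
      dt (P.θ l) (fun k => D.LL v (b k)) =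
      ∑ l ∈ Finset.univ.erase a, ∑ v ∈ g l, dt (P.θ l) (fun k => D.LL v (b k)) :=
    Finset.sum_congr rfl fun l hl => by rw [hne l hl]
  have e2 : ∑ l ∈ Finset.univ.erase a, ∑ l' ∈ Finset.univ.erase a,
      dt (P.θ l) (P.x l') * Lf D.toRD0 (Function.update g a n l)
        (pf D.toRD0 (Function.update g a n l')) =
      ∑ l ∈ Finset.univ.erase a, ∑ l' ∈ Finset.univ.erase a,
      dt (P.θ l) (P.x l') * Lf D.toRD0 (g l) (pf D.toRD0 (g l')) :=
    Finset.sum_congr rfl fun l hl => Finset.sum_congr rfl fun l' hl' => by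
      rw [hne l hl, hne l' hl']
  have e3 : ∑ l ∈ Finset.univ.erase a, (dt (P.θ a) (P.x l) * Lf D.toRD0 n
        (pf D.toRD0 (Function.update g a n l)) +
      dt (P.θ l) (P.x a) * Lf D.toRD0 (Function.update g a n l) (pf D.toRD0 n)) =
      ∑ l ∈ Finset.univ.erase a, P.lk a l * ∑ v ∈ n, ∑ w ∈ g l, D.LL w (D.pi v) +
      ∑ l ∈ Finset.univ.erase a, dt (P.θ a) (P.x l) *
        aphE D (qf D.toRD0 (g l)) (qf D.toRD0 n) := by
    rw [← Finset.sum_add_distrib]
    refine Finset.sum_congr rfl fun l hl => ?_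
    rw [hne l hl, aph_swap hp hζ D hng (hg.1 l) (hdis l hl), aph_W hp hζ D.toRD0 (hg.1 l),
      Finset.sum_comm]
    unfold PD.lk
    ring
  have e4 : ∑ v ∈ n, dt (P.θ a) (fun k => D.LL v (b k)) =
      ∑ v ∈ n, ∑ w ∈ E, D.lam w * dord b (P.θ a) w * D.LL w (D.pi v) +
        dt κ' (qf D.toRD0 n) := by
    rw [← aph_dt_qf, ← Finset.sum_add_distrib]
    exact Finset.sum_congr rfl fun v hv => hκ' v (hng v hv)
  have e5 : ∑ v ∈ n, dt (fun j => κ' j + ∑ l ∈ Finset.univ.erase a, dt (P.θ a) (P.x l) *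
      ∑ i, D.eta i j * qf D.toRD0 (g l) i) (D.q v) = dt κ' (qf D.toRD0 n) +
      ∑ l ∈ Finset.univ.erase a, dt (P.θ a) (P.x l) *
        aphE D (qf D.toRD0 (g l)) (qf D.toRD0 n) := by
    rw [aph_dt_qf]
    unfold dt aphE
    simp only [add_mul, Finset.sum_add_distrib]
    congr 1
    have f1 : ∀ l, (∑ k, P.θ a k * P.x l k) * ∑ i, ∑ j, D.eta i j * qf D.toRD0 (g l) i *
        qf D.toRD0 n j = ∑ j, (∑ k, P.θ a k * P.x l k) *
          (∑ i, D.eta i j * qf D.toRD0 (g l) i) * qf D.toRD0 n j := by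
      intro l
      rw [Finset.sum_comm, Finset.mul_sum]
      refine Finset.sum_congr rfl fun j _ => ?_
      rw [mul_assoc]
      congr 1
      rw [Finset.sum_mul]
    simp only [f1]
    rw [Finset.sum_comm]
    refine Finset.sum_congr rfl fun j _ => ?_
    rw [Finset.sum_mul]
  have e6 : ∑ v ∈ n, ∑ l ∈ Finset.univ.erase a, P.lk a l * ∑ w ∈ g l, D.LL w (D.pi v) =
      ∑ l ∈ Finset.univ.erase a, P.lk a l * ∑ v ∈ n, ∑ w ∈ g l, D.LL w (D.pi v) := by
    rw [Finset.sum_comm]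
    refine Finset.sum_congr rfl fun l _ => ?_
    rw [Finset.mul_sum]
  rw [e1, e2, e3, e4, P.self a]
  have e7 : ∀ X Y Z : Pl K → ZMod p, ∑ v ∈ n, (X v + Y v + Z v) =
      ∑ v ∈ n, X v + ∑ v ∈ n, Y v + ∑ v ∈ n, Z v := by
    intro X Y Z
    rw [Finset.sum_add_distrib, Finset.sum_add_distrib]
  rw [e7, e5, e6]
  ring

/-- the extra phase, split at one index -/
theorem bpha_ex (D : RD0 K p ζ) (P : PD p m J) (E : Finset (Pl K)) (η : Pl K → Fin m → ZMod p)
    (g : J → Finset (Pl K)) (a : J) (n : Finset (Pl K)) :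
    ex D P E η (Function.update g a n) =
      ∑ v ∈ n, ∑ w ∈ E, dt (η w) (P.x a) * D.LL w (D.pi v) +
        ∑ l ∈ Finset.univ.erase a, ∑ v ∈ g l, ∑ w ∈ E, dt (η w) (P.x l) * D.LL w (D.pi v) := by
  unfold ex
  rw [← Finset.add_sum_erase Finset.univ _ (Finset.mem_univ a), Function.update_self]
  congr 1
  refine Finset.sum_congr rfl fun l hl => ?_
  rw [Function.update_of_ne (Finset.ne_of_mem_erase hl)]

theorem ph_one2 (hp : p.Prime) (hζ : IsPrimitiveRoot ζ p) (D : RD K p ζ) (P : PD p m J)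
    (b : Fin m → Kˣ) (E : Finset (Pl K)) (η : Pl K → Fin m → ZMod p) (hb : BS2 D.toRD0 b E)
    (g : J → Finset (Pl K)) (hg : Adm2 D.toRD0 E g) (a : J) :
    ∃ (c : ZMod p) (κ : Fin D.r → ZMod p), ∀ n : Finset (Pl K),
      Adm2 D.toRD0 E (Function.update g a n) →
        ph2 D.toRD0 P b E η (Function.update g a n) = c + ∑ v ∈ n,
          (∑ w ∈ E, mu2 D P b η a w * D.LL w (D.pi v) +
            ∑ l ∈ Finset.univ.erase a, P.lk a l * ∑ w ∈ g l, D.LL w (D.pi v) + dt κ (D.q v)) := by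

  obtain ⟨c, κ, h⟩ := bpha_one hp hζ D P b E hb g hg.1 a
  refine ⟨c + ∑ l ∈ Finset.univ.erase a, ∑ v ∈ g l, ∑ w ∈ E,
    dt (η w) (P.x l) * D.LL w (D.pi v), κ, fun n hn => ?_⟩
  unfold ph2
  rw [h n hn.1, bpha_ex]
  have e : ∀ v, ∑ w ∈ E, mu2 D P b η a w * D.LL w (D.pi v) =
      ∑ w ∈ E, D.lam w * dord b (P.θ a) w * D.LL w (D.pi v) +
        ∑ w ∈ E, dt (η w) (P.x a) * D.LL w (D.pi v) := by
    intro v
    rw [← Finset.sum_add_distrib]
    refine Finset.sum_congr rfl fun w _ => ?_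
    unfold mu2
    ring
  simp only [e]
  simp only [Finset.sum_add_distrib]
  ring

theorem ph_two2 (hp : p.Prime) (hζ : IsPrimitiveRoot ζ p) (D : RD K p ζ) (P : PD p m J)
    (b : Fin m → Kˣ) (E : Finset (Pl K)) (η : Pl K → Fin m → ZMod p) (g : J → Finset (Pl K))
    (a a' : J) (haa : a ≠ a') :
    ∃ c₁ c₂ : Finset (Pl K) → ZMod p, ∀ n n' : Finset (Pl K),
      Adm2 D.toRD0 E (Function.update (Function.update g a n) a' n') →
        ph2 D.toRD0 P b E η (Function.update (Function.update g a n) a' n') =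
          c₁ n + c₂ n' + P.lk a a' * Lf D.toRD0 n (pf D.toRD0 n') -
            dt (P.θ a') (P.x a) * ∑ i, ∑ j, D.eta i j * qf D.toRD0 n' i * qf D.toRD0 n j := by

  obtain ⟨c₁, c₂, h⟩ := ph_two hp hζ D P b g a a' haa
  refine ⟨fun n => c₁ n + ∑ l ∈ Finset.univ.erase a', ∑ v ∈ Function.update g a n l, ∑ w ∈ E,
    dt (η w) (P.x l) * D.LL w (D.pi v), fun n' => c₂ n' + ∑ v ∈ n', ∑ w ∈ E,
    dt (η w) (P.x a') * D.LL w (D.pi v), fun n n' hn => ?_⟩
  unfold ph2
  rw [h n n' hn.1, bpha_ex]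
  beta_reduce
  ring

end H63.MA
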