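import Pool.Agent.H63.MB.BPhB
import Pool.Agent.H63.MA.AKC

/-!
# MB-BKM: the main term when everything is unlinked

`kpm2`: if everything is unlinked and all `mu2 D P b η a w`, `a ∈ Lg`, `w ∈ E`, are `0`, then `TT2` is a constant `c₀` (depending only on `b, E, η, Lg, s, h`) times the number of terms `TN2`, up to a small error.

Proof (compare `kpc` in `MA/AKC`; `akcC`, `akc_orth`, `akc_inv`, `akc_norm`, `akc_shift` can be used). By `ph_cls2`, `ph2 g = f (classes)` for all `g` in the sum. Let `Φ` be the function `q ↦ h(q) ep(f(q))` on `((ZMod p)^r)^{Lg}`, the classes of the small variables being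
those of `s` (for `l ∉ Lg`: `q l = qf (s l)`). As in `kpc` write `Φ(q) = ∑_χ c_χ ep(∑_{a ∈ Lg} χ_a · q_a)`, `|c_χ| ≤ 1` (`akc_inv`, `akc_norm`, with index type `J × Fin r`, `Φ` made independent of the coordinates outside `Lg`; then `c_χ ≠ 0` only for `χ` supported on `Lg`, and
one sums only over these, or one uses the index type `{a // a ∈ Lg} × Fin r`). `c₀ = c_0` is the average of `Φ` and the term `χ = 0` of `TT2` is `c_0 * TN2`. For `χ ≠ 0` choose `a₁ ∈ Lg` with `χ_{a₁} ≠ 0` and estimate the sum over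
`g a₁` by `lemA` with `E = ∅`, `H = 1`, `κ = χ_{a₁}`, `F = E ∪` the union of all the other sets (small and large), at the two points `Y_i / bn` and `z₂`, then sum over the other large variables by `ks`, exactly as in `kpc`
(only `F` is larger; `2^{#E} ≤ nr E ≤ z₁`). If the `s l` are not pairwise disjoint or not disjoint from `E` then `TT2 = TN2 = 0`.
Vanishing: let `a ≠ a' ∈ Lg`, `x a = x a'`, `bp b (θ a - θ a')` not a `p`-th power, `h` invariant under the shifts of this pair. By `ph_cls2`, `Φ(q + shift by t) = Φ(q) ep(κ · t)`, so `c_0 = ep(κ · t) c_0` for all `t` (`akc_shift`) and `c_0 = 0` if `κ ≠ 0`. If `κ = 0` then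
`LL v (bp b (θ a - θ a')) = κ · q v = 0` for all good `v`, which contradicts `D.non` (with `F = ∅`).
-/

set_option autoImplicit false

open scoped NumberField
open IsDedekindDomain
open scoped Classical

noncomputable section

namespace H63.MA

/-- the phase as a function of one large variable -/
def BkmPhase {K : Type} [Field K] [NumberField K] {p : ℕ} {ζ : K} {J : Type} [Fintype J]
    (D : RD K p ζ) (E : Finset (Pl K)) (Lg : Finset J) (s : J → Finset (Pl K)) (a : J)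
    (Ψ : (J → Finset (Pl K)) → ℂ) (g : J → Finset (Pl K)) : Prop :=
  Adm2 D.toRD0 E g → ∃ (μ : Pl K → ZMod p) (κ : Fin D.r → ZMod p)
    (H : (Fin D.r → ZMod p) → ℂ) (c : ZMod p), (∀ q, ‖H q‖ ≤ 1) ∧
    ((∃ w ∈ akbE E Lg s, μ w ≠ 0) ∨ ((∀ q, H q = 1) ∧ κ ≠ 0)) ∧
    ∀ n : Finset (Pl K), Adm2 D.toRD0 E (Function.update g a n) →
      Ψ (Function.update g a n) =
        ep p c * (H (qf D.toRD0 n) * ep p (∑ v ∈ n, fE D.toRD0 (akbE E Lg s) μ κ v))

theorem bkm_core {K : Type} [Field K] [NumberField K] {p : ℕ} {ζ : K} {t : ℕ} {J : Type}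
    [Fintype J] (D : RD K p ζ)
    (blk : J → Fin t) (C A δ : ℝ) (hC : 0 < C) (hA : 0 ≤ A) (hδ : 0 < δ) (hδ1 : δ < 1)
    (hlem : AkbLem D C A δ)
    (X z₁ z₂ : ℝ) (hz₁ : 1 ≤ z₁) (hz₂ : 1 ≤ z₂) (Y : Fin t → ℝ) (hY : ∀ i, 0 < Y i ∧ Y i ≤ X)
    (E : Finset (Pl K)) (hb : ∀ v ∈ E, v ∉ D.S0) (hE : nr E ≤ z₁)
    (Lg : Finset J) (s : J → Finset (Pl K))
    (hs : ∀ l, l ∉ Lg → (∀ v ∈ s l, D.Gd v) ∧ nr (s l) ≤ z₁)
    (Ψ : (J → Finset (Pl K)) → ℂ) (a : J) (ha : a ∈ Lg)
    (g : J → Finset (Pl K)) (hga : g a = ∅)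
    (hgs : ∀ l, l ∉ Lg → g l = s l) (hgL : ∀ l ∈ Lg, l ≠ a → g l ∈ GF D.toRD0 X)
    (hΨ : BkmPhase D E Lg s a Ψ g) :
    ‖∑ n ∈ GF D.toRD0 X, if Cond2 E blk Y Lg z₂ (Function.update g a n) then
      Ψ (Function.update g a n) else 0‖ ≤
    2 * C * z₁ ^ (((Fintype.card J : ℝ) + 1) * (A + 1)) * z₂ ^ (-δ) *
      (if ∀ i, bn blk i g ≤ Y i then
        (2 : ℝ) ^ (∑ l ∈ Lg.erase a, (g l).card) * (Y (blk a) / bn blk (blk a) g) else 0) := by
  have hbn0 : ∀ i, 0 < bn blk i g := fun i => lt_of_lt_of_le one_pos (akb_one_le_bn blk i g)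
  by_cases hex : ∃ n₀ ∈ GF D.toRD0 X, Cond2 E blk Y Lg z₂ (Function.update g a n₀)
  swap
  · have h0 : ∑ n ∈ GF D.toRD0 X, (if Cond2 E blk Y Lg z₂ (Function.update g a n) then
        Ψ (Function.update g a n) else 0) = 0 := by
      apply Finset.sum_eq_zero
      intro n hn
      rw [if_neg]
      intro hc
      exact hex ⟨n, hn, hc⟩
    rw [h0, norm_zero]
    have hd : 0 ≤ Y (blk a) / bn blk (blk a) g := div_nonneg (hY _).1.le (hbn0 _).le
    split_ifs
    · positivity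
    · rw [mul_zero]
  obtain ⟨n₀, hn₀, ⟨c1, c2, c3⟩, c4⟩ := hex
  have hupd : ∀ l, l ≠ a → ∀ n, Function.update g a n l = g l := fun l hl n =>
    Function.update_of_ne hl n g
  have hdis : ∀ l l', l ≠ l' → Disjoint (g l) (g l') := by
    intro l l' hll
    by_cases hl : l = a
    · rw [hl, hga]
      exact Finset.disjoint_empty_left _
    · by_cases hl' : l' = a
      · rw [hl', hga]
        exact Finset.disjoint_empty_right _
      · have := c1 l l' hll
        rwa [hupd l hl, hupd l' hl'] at this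
  have hdE : ∀ l, Disjoint (g l) E := by
    intro l
    by_cases hl : l = a
    · rw [hl, hga]
      exact Finset.disjoint_empty_left _
    · have := c4 l
      rwa [hupd l hl] at this
  have hGd : ∀ l, ∀ v ∈ g l, D.Gd v := by
    intro l v hv
    by_cases hl : l ∈ Lg
    · by_cases hla : l = a
      · rw [hla, hga] at hv
        exact absurd hv (Finset.notMem_empty v)
      · exact ((akb_mem_GF D.toRD0).1 (hgL l hl hla)).2 v hv
    · rw [hgs l hl] at hv
      exact (hs l hl).1 v hv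
  have hadm : Adm2 D.toRD0 E g := ⟨⟨hGd, hdis⟩, hdE⟩
  have hbnY : ∀ i, bn blk i g ≤ Y i := by
    intro i
    have h1 : bn blk i (Function.update g a n₀) ≤ Y i := c3 i
    by_cases hi : i = blk a
    · rw [hi] at h1 ⊢
      rw [akb_bn_same blk a g hga] at h1
      have h2 := one_le_nr n₀
      have h3 := hbn0 (blk a)
      nlinarith
    · rwa [akb_bn_ne blk a i hi] at h1
  rw [if_pos hbnY]
  obtain ⟨y, hy⟩ : ∃ y, y = Y (blk a) / bn blk (blk a) g := ⟨_, rfl⟩
  have hyiff : ∀ n : Finset (Pl K), nr n * bn blk (blk a) g ≤ Y (blk a) ↔ nr n ≤ y := by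
    intro n
    rw [hy, le_div_iff₀ (hbn0 _)]
  have hn₀y : nr n₀ ≤ y := by
    rw [← hyiff, ← akb_bn_same blk a g hga]
    exact c3 (blk a)
  have hzy : z₂ < y := by
    have h1 := c2 a ha
    rw [Function.update_self] at h1
    linarith
  have hy1 : 1 ≤ y := by linarith
  have hyX : y ≤ X := by
    rw [hy]
    exact (div_le_self (hY _).1.le (akb_one_le_bn blk _ g)).trans (hY _).2
  rw [← hy]
  obtain ⟨μ, κ, H, c, hHn, hne, hph⟩ := hΨ hadm
  obtain ⟨nL, hnL⟩ : ∃ nL : Finset J, nL = Finset.univ.filter (fun l => l ∉ Lg) := ⟨_, rfl⟩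
  have hmL : ∀ l, l ∈ nL ↔ l ∉ Lg := by
    intro l
    rw [hnL, Finset.mem_filter]
    exact ⟨fun h => h.2, fun h => ⟨Finset.mem_univ _, h⟩⟩
  obtain ⟨E', hE'⟩ : ∃ E' : Finset (Pl K), E' = E ∪ nL.biUnion s := ⟨_, rfl⟩
  have hakE : akbE E Lg s = E' := by
    rw [hE', hnL]
    rfl
  rw [hakE] at hne hph
  obtain ⟨F, hF⟩ : ∃ F : Finset (Pl K), F = E' ∪ (Lg.erase a).biUnion g := ⟨_, rfl⟩
  have hE'S : ∀ w ∈ E', w ∉ D.S0 := by
    intro w hw
    rw [hE', Finset.mem_union] at hw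
    rcases hw with hw | hw
    · exact hb w hw
    · obtain ⟨l, hl, hwl⟩ := Finset.mem_biUnion.1 hw
      exact ((hs l ((hmL l).1 hl)).1 w hwl).1
  have hlem' := hlem E' F μ κ H hE'S (by rw [hF]; exact Finset.subset_union_left) hHn hne
  -- the conditions
  have hcond : ∀ n ∈ GF D.toRD0 X, Cond2 E blk Y Lg z₂ (Function.update g a n) ↔
      (Disjoint n F ∧ z₂ < nr n ∧ nr n ≤ y) := by
    intro n hn
    rw [akb_mem_GF] at hn
    constructor
    · rintro ⟨⟨d1, d2, d3⟩, d0⟩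
      have dn : ∀ l, l ≠ a → Disjoint n (g l) := by
        intro l hl
        have := d1 a l hl.symm
        rwa [Function.update_self, hupd l hl] at this
      refine ⟨?_, ?_, ?_⟩
      · rw [hF, hE', Finset.disjoint_union_right, Finset.disjoint_union_right]
        refine ⟨⟨?_, ?_⟩, ?_⟩
        · have := d0 a
          rwa [Function.update_self] at this
        · rw [Finset.disjoint_biUnion_right]
          intro l hl
          have hl' := (hmL l).1 hl
          rw [← hgs l hl']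
          apply dn
          rintro rfl
          exact hl' ha
        · rw [Finset.disjoint_biUnion_right]
          intro l hl
          exact dn l (Finset.ne_of_mem_erase hl)
      · have := d2 a ha
        rwa [Function.update_self] at this
      · rw [← hyiff, ← akb_bn_same blk a g hga]
        exact d3 (blk a)
    · rintro ⟨d1, d2, d3⟩
      rw [hF, hE', Finset.disjoint_union_right, Finset.disjoint_union_right] at d1
      obtain ⟨⟨d0, d4⟩, d5⟩ := d1
      rw [Finset.disjoint_biUnion_right] at d4 d5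
      have dn : ∀ l, l ≠ a → Disjoint n (g l) := by
        intro l hl
        by_cases hlL : l ∈ Lg
        · exact d5 l (Finset.mem_erase.2 ⟨hl, hlL⟩)
        · rw [hgs l hlL]
          exact d4 l ((hmL l).2 hlL)
      refine ⟨⟨?_, ?_, ?_⟩, ?_⟩
      · intro l l' hll
        by_cases hl : l = a
        · have hl' : l' ≠ a := by
            rintro rfl
            exact hll hl
          rw [hl, Function.update_self, hupd l' hl']
          exact dn l' hl'
        · by_cases hl' : l' = a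
          · rw [hl', Function.update_self, hupd l hl]
            exact (dn l hl).symm
          · rw [hupd l hl, hupd l' hl']
            exact hdis l l' hll
      · intro l hl
        by_cases hla : l = a
        · rw [hla, Function.update_self]
          exact d2
        · have := c2 l hl
          rwa [hupd l hla] at this ⊢
      · intro i
        change bn blk i (Function.update g a n) ≤ Y i
        by_cases hi : i = blk a
        · rw [hi, akb_bn_same blk a g hga, hyiff]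
          exact d3
        · rw [akb_bn_ne blk a i hi]
          exact hbnY i
      · intro l
        by_cases hla : l = a
        · rw [hla, Function.update_self]
          exact d0
        · rw [hupd l hla]
          exact hdE l
  -- the sum
  obtain ⟨T, hT⟩ : ∃ T : Finset (Pl K) → ℂ, ∀ n, T n =
      H (qf D.toRD0 n) * ep p (∑ v ∈ n, fE D.toRD0 E' μ κ v) := ⟨_, fun _ => rfl⟩
  have hterm : ∀ n ∈ GF D.toRD0 X, Cond2 E blk Y Lg z₂ (Function.update g a n) →
      Ψ (Function.update g a n) = ep p c * T n := by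
    intro n hn hc
    have hn' := (akb_mem_GF D.toRD0).1 hn
    have hadm' : Adm2 D.toRD0 E (Function.update g a n) := by
      refine ⟨⟨?_, hc.1.1⟩, hc.2⟩
      intro l v hv
      by_cases hl : l = a
      · rw [hl, Function.update_self] at hv
        exact hn'.2 v hv
      · rw [hupd l hl] at hv
        exact hGd l v hv
    rw [hph n hadm', hT]
  have hsum : ∑ n ∈ GF D.toRD0 X, (if Cond2 E blk Y Lg z₂ (Function.update g a n) then
      Ψ (Function.update g a n) else 0) =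
      ep p c * (∑ n ∈ (GF D.toRD0 y).filter (fun n => Disjoint n F), T n -
        ∑ n ∈ (GF D.toRD0 z₂).filter (fun n => Disjoint n F), T n) := by
    have hsub : (GF D.toRD0 z₂).filter (fun n => Disjoint n F) ⊆
        (GF D.toRD0 y).filter (fun n => Disjoint n F) := by
      intro n hn
      rw [Finset.mem_filter, akb_mem_GF] at hn ⊢
      exact ⟨⟨hn.1.1.trans hzy.le, hn.1.2⟩, hn.2⟩
    rw [← Finset.sum_sdiff_eq_sub hsub, Finset.mul_sum, ← Finset.sum_filter]
    have hset : (GF D.toRD0 X).filter (fun n => Cond2 E blk Y Lg z₂ (Function.update g a n)) =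
        (GF D.toRD0 y).filter (fun n => Disjoint n F) \
          (GF D.toRD0 z₂).filter (fun n => Disjoint n F) := by
      ext n
      rw [Finset.mem_filter, Finset.mem_sdiff, Finset.mem_filter, Finset.mem_filter]
      constructor
      · rintro ⟨hn, hc⟩
        have h1 := (hcond n hn).1 hc
        rw [akb_mem_GF] at hn
        refine ⟨⟨?_, h1.1⟩, ?_⟩
        · rw [akb_mem_GF]
          exact ⟨h1.2.2, hn.2⟩
        · rintro ⟨h2, _⟩
          rw [akb_mem_GF] at h2
          exact absurd h2.1 (not_le.2 h1.2.1)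
      · rintro ⟨⟨h1, h2⟩, h3⟩
        have h1' := (akb_mem_GF D.toRD0).1 h1
        have hX : n ∈ GF D.toRD0 X := by
          rw [akb_mem_GF]
          exact ⟨h1'.1.trans hyX, h1'.2⟩
        refine ⟨hX, (hcond n hX).2 ⟨h2, ?_, h1'.1⟩⟩
        by_contra h4
        apply h3
        rw [akb_mem_GF]
        exact ⟨⟨not_lt.1 h4, h1'.2⟩, h2⟩
    rw [← hset]
    apply Finset.sum_congr rfl
    intro n hn
    rw [Finset.mem_filter] at hn
    exact hterm n hn.1 hn.2
  rw [hsum, norm_mul, ep_norm, one_mul]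
  have b1 := hlem' y hy1
  have b2 := hlem' z₂ hz₂
  have e1 : ∀ S : Finset (Finset (Pl K)), ∑ n ∈ S, H (qf D.toRD0 n) *
      ep p (∑ v ∈ n, fE D.toRD0 E' μ κ v) = ∑ n ∈ S, T n := fun S =>
    Finset.sum_congr rfl fun n _ => (hT n).symm
  rw [e1] at b1 b2
  refine (norm_sub_le _ _).trans ((add_le_add b1 b2).trans ?_)
  have hy0 : 0 < y := by linarith
  have hz0 : 0 < z₂ := by linarith
  have q1 : y ^ (1 - δ) ≤ y * z₂ ^ (-δ) := by
    rw [show 1 - δ = 1 + -δ by ring, Real.rpow_add hy0, Real.rpow_one]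
    apply mul_le_mul_of_nonneg_left _ hy0.le
    exact Real.rpow_le_rpow_of_nonpos hz0 hzy.le (by linarith)
  have q2 : z₂ ^ (1 - δ) ≤ y ^ (1 - δ) := Real.rpow_le_rpow hz0.le hzy.le (by linarith)
  have hnE' : nr E' ≤ z₁ ^ (Fintype.card J + 1) := by
    have i1 : nr (nL.biUnion s) ≤ z₁ ^ nL.card :=
      akb_nr_biUnion nL s z₁ hz₁ fun l hl => (hs l ((hmL l).1 hl)).2
    have i2 : z₁ ^ nL.card ≤ z₁ ^ Fintype.card J :=
      pow_le_pow_right₀ hz₁ (Finset.card_le_univ _)
    rw [hE', pow_succ]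
    calc nr (E ∪ nL.biUnion s) ≤ nr E * nr (nL.biUnion s) := akb_nr_union _ _
      _ ≤ z₁ * z₁ ^ Fintype.card J :=
          mul_le_mul hE (i1.trans i2) (akb_nr_pos _).le (by linarith)
      _ = _ := by ring
  have q3 : (nr E') ^ A * (2 : ℝ) ^ E'.card ≤ z₁ ^ (((Fintype.card J : ℝ) + 1) * (A + 1)) := by
    calc (nr E') ^ A * (2 : ℝ) ^ E'.card ≤ (nr E') ^ A * nr E' :=
          mul_le_mul_of_nonneg_left (two_pow_le_nr E') (Real.rpow_nonneg (akb_nr_pos _).le _)
      _ = (nr E') ^ (A + 1) := by rw [Real.rpow_add (akb_nr_pos _), Real.rpow_one]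
      _ ≤ (z₁ ^ (Fintype.card J + 1)) ^ (A + 1) :=
          Real.rpow_le_rpow (akb_nr_pos _).le hnE' (by linarith)
      _ = _ := by
          rw [← Real.rpow_natCast, ← Real.rpow_mul (by linarith)]
          push_cast
          rfl
  have q4 : (2 : ℝ) ^ F.card ≤ 2 ^ E'.card * 2 ^ (∑ l ∈ Lg.erase a, (g l).card) := by
    rw [← pow_add]
    apply pow_le_pow_right₀ (by norm_num)
    rw [hF]
    exact (Finset.card_union_le _ _).trans (Nat.add_le_add_left Finset.card_biUnion_le _)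
  have r1 : 0 ≤ (nr E') ^ A := Real.rpow_nonneg (akb_nr_pos _).le _
  have r2 : 0 ≤ z₂ ^ (-δ) := Real.rpow_nonneg hz0.le _
  have r3 : 0 ≤ y ^ (1 - δ) := Real.rpow_nonneg hy0.le _
  calc C * (nr E') ^ A * 2 ^ F.card * y ^ (1 - δ) + C * (nr E') ^ A * 2 ^ F.card * z₂ ^ (1 - δ)
      ≤ C * (nr E') ^ A * 2 ^ F.card * y ^ (1 - δ) +
        C * (nr E') ^ A * 2 ^ F.card * y ^ (1 - δ) := by
        gcongr
    _ = 2 * C * ((nr E') ^ A * 2 ^ F.card) * y ^ (1 - δ) := by ring
    _ ≤ 2 * C * ((nr E') ^ A * (2 ^ E'.card * 2 ^ (∑ l ∈ Lg.erase a, (g l).card))) *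
        (y * z₂ ^ (-δ)) := by
        gcongr
    _ = 2 * C * ((nr E') ^ A * 2 ^ E'.card) * z₂ ^ (-δ) *
        (2 ^ (∑ l ∈ Lg.erase a, (g l).card) * y) := by ring
    _ ≤ 2 * C * z₁ ^ (((Fintype.card J : ℝ) + 1) * (A + 1)) * z₂ ^ (-δ) *
        (2 ^ (∑ l ∈ Lg.erase a, (g l).card) * y) := by
        gcongr

theorem bkm_outer {K : Type} [Field K] [NumberField K] {p : ℕ} {ζ : K} {t : ℕ} {J : Type}
    [Fintype J] (D : RD K p ζ)
    (blk : J → Fin t) (C A δ : ℝ) (hC : 0 < C) (hA : 0 ≤ A) (hδ : 0 < δ) (hδ1 : δ < 1)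
    (hlem : AkbLem D C A δ) (C₂ A₂ : ℝ)
    (hks : ∀ (Lg : Finset J) (s : J → Finset (Pl K))
      (Y : Fin t → ℝ) (X : ℝ), 1 ≤ X → (∀ i, 0 < Y i ∧ Y i ≤ X) → ∀ a ∈ Lg,
      ∑ g ∈ (fam K X Lg (Lg.erase a) s).filter (fun g => ∀ i, bn blk i g ≤ Y i),
        (2 : ℝ) ^ (∑ l ∈ Lg.erase a, (g l).card) * (Y (blk a) / bn blk (blk a) g) ≤
        C₂ * (∏ i, Y i) / sn Lg s * (1 + Real.log X) ^ A₂)
    (X z₁ z₂ : ℝ) (hX : 1 ≤ X) (hz₁ : 1 ≤ z₁) (hz₂ : 1 ≤ z₂) (Y : Fin t → ℝ)
    (hY : ∀ i, 0 < Y i ∧ Y i ≤ X)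
    (E : Finset (Pl K)) (hb : ∀ v ∈ E, v ∉ D.S0) (hE : nr E ≤ z₁)
    (Lg : Finset J) (s : J → Finset (Pl K))
    (hs : ∀ l, l ∉ Lg → (∀ v ∈ s l, D.Gd v) ∧ nr (s l) ≤ z₁)
    (Ψ : (J → Finset (Pl K)) → ℂ) (a : J) (ha : a ∈ Lg)
    (hΨ : ∀ g : J → Finset (Pl K), (∀ l, l ∉ Lg → g l = s l) → BkmPhase D E Lg s a Ψ g) :
    ‖∑ g ∈ Fintype.piFinset (fun l => if l ∈ Lg then GF D.toRD0 X else {s l}),
      if Cond2 E blk Y Lg z₂ g then Ψ g else 0‖ ≤
    (∏ i, Y i) / sn Lg s * (2 * C * C₂ * z₁ ^ (((Fintype.card J : ℝ) + 1) * (A + 1)) *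
        z₂ ^ (-δ) * (1 + Real.log X) ^ A₂) := by
  obtain ⟨c₀, hc₀⟩ : ∃ c₀ : ℝ, c₀ = 2 * C * z₁ ^ (((Fintype.card J : ℝ) + 1) * (A + 1)) *
      z₂ ^ (-δ) := ⟨_, rfl⟩
  have hc₀0 : 0 ≤ c₀ := by
    rw [hc₀]
    positivity
  obtain ⟨Bd, hBd⟩ : ∃ Bd : (J → Finset (Pl K)) → ℝ, ∀ g, Bd g =
      (if ∀ i, bn blk i g ≤ Y i then
        (2 : ℝ) ^ (∑ l ∈ Lg.erase a, (g l).card) * (Y (blk a) / bn blk (blk a) g) else 0) :=
    ⟨_, fun _ => rfl⟩
  have hBd0 : ∀ g, 0 ≤ Bd g := by
    intro g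
    have hd : 0 ≤ Y (blk a) / bn blk (blk a) g :=
      div_nonneg (hY _).1.le (zero_le_one.trans (akb_one_le_bn blk _ g))
    rw [hBd]
    split_ifs
    · positivity
    · exact le_rfl
  obtain ⟨tt, htt⟩ : ∃ tt : J → Finset (Finset (Pl K)), tt = fun l =>
      if l ∈ Lg then GF D.toRD0 X else {s l} := ⟨_, rfl⟩
  have htta : tt a = GF D.toRD0 X := by
    rw [htt]
    exact if_pos ha
  have hTT : ∑ g ∈ Fintype.piFinset tt, (if Cond2 E blk Y Lg z₂ g then Ψ g else 0) =
      ∑ g ∈ Fintype.piFinset (Function.update tt a {∅}), ∑ n ∈ GF D.toRD0 X,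
        if Cond2 E blk Y Lg z₂ (Function.update g a n) then Ψ (Function.update g a n) else 0 := by
    rw [← htta]
    exact akb_split tt a ∅ (fun g => if Cond2 E blk Y Lg z₂ g then Ψ g else 0)
  have hmem : ∀ g ∈ Fintype.piFinset (Function.update tt a {∅}), g a = ∅ ∧
      (∀ l, l ∉ Lg → g l = s l) ∧ ∀ l ∈ Lg, l ≠ a → g l ∈ GF D.toRD0 X := by
    intro g hg
    rw [Fintype.mem_piFinset] at hg
    refine ⟨?_, ?_, ?_⟩
    · have := hg a
      rwa [Function.update_self, Finset.mem_singleton] at this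
    · intro l hl
      have hla : l ≠ a := by
        rintro rfl
        exact hl ha
      have := hg l
      rw [Function.update_of_ne hla, htt] at this
      change g l ∈ (if l ∈ Lg then GF D.toRD0 X else {s l}) at this
      rwa [if_neg hl, Finset.mem_singleton] at this
    · intro l hl hla
      have := hg l
      rw [Function.update_of_ne hla, htt] at this
      change g l ∈ (if l ∈ Lg then GF D.toRD0 X else {s l}) at this
      rwa [if_pos hl] at this
  have hsub : Fintype.piFinset (Function.update tt a {∅}) ⊆ fam K X Lg (Lg.erase a) s := by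
    intro g hg
    obtain ⟨g1, g2, g3⟩ := hmem g hg
    unfold fam
    rw [Fintype.mem_piFinset]
    intro l
    by_cases hl : l ∈ Lg
    · by_cases hla : l = a
      · have h3 : l ∉ Lg.erase a := by
          rw [hla]
          exact Finset.notMem_erase a Lg
        rw [if_neg h3, if_pos hl, Finset.mem_singleton, hla]
        exact g1
      · rw [if_pos (Finset.mem_erase.2 ⟨hla, hl⟩), mem_AF]
        exact ((akb_mem_GF D.toRD0).1 (g3 l hl hla)).1
    · have h3 : l ∉ Lg.erase a := fun h => hl (Finset.mem_of_mem_erase h)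
      rw [if_neg h3, if_neg hl, Finset.mem_singleton]
      exact g2 l hl
  have hks' := hks Lg s Y X hX hY a ha
  rw [← htt, hTT]
  calc ‖∑ g ∈ Fintype.piFinset (Function.update tt a {∅}), ∑ n ∈ GF D.toRD0 X,
        (if Cond2 E blk Y Lg z₂ (Function.update g a n) then Ψ (Function.update g a n) else 0)‖
      ≤ ∑ g ∈ Fintype.piFinset (Function.update tt a {∅}), c₀ * Bd g := by
        refine (norm_sum_le _ _).trans (Finset.sum_le_sum fun g hg => ?_)
        obtain ⟨g1, g2, g3⟩ := hmem g hg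
        rw [hc₀, hBd]
        exact bkm_core D blk C A δ hC hA hδ hδ1 hlem X z₁ z₂ hz₁ hz₂ Y hY E hb hE
          Lg s hs Ψ a ha g g1 g2 g3 (hΨ g g2)
    _ ≤ ∑ g ∈ fam K X Lg (Lg.erase a) s, c₀ * Bd g :=
        Finset.sum_le_sum_of_subset_of_nonneg hsub fun g _ _ => mul_nonneg hc₀0 (hBd0 g)
    _ = c₀ * ∑ g ∈ (fam K X Lg (Lg.erase a) s).filter (fun g => ∀ i, bn blk i g ≤ Y i),
        (2 : ℝ) ^ (∑ l ∈ Lg.erase a, (g l).card) * (Y (blk a) / bn blk (blk a) g) := by
        rw [← Finset.mul_sum, Finset.sum_filter]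
        congr 1
        exact Finset.sum_congr rfl fun g _ => hBd g
    _ ≤ c₀ * (C₂ * (∏ i, Y i) / sn Lg s * (1 + Real.log X) ^ A₂) :=
        mul_le_mul_of_nonneg_left hks' hc₀0
    _ = _ := by
        rw [hc₀]
        ring

theorem kpm2 {K : Type} [Field K] [NumberField K] {p : ℕ} {ζ : K} {m t : ℕ} {J : Type}
    [Fintype J] (hp : p.Prime) (hp2 : MOne p K) (hζ : IsPrimitiveRoot ζ p) (D : RD K p ζ)
    (P : PD p m J) (blk : J → Fin t) (A : ℝ) :
    ∃ (B₁ : ℕ) (X₀ : ℝ), 3 ≤ X₀ ∧ ∀ (b : Fin m → Kˣ) (E : Finset (Pl K))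
      (η : Pl K → Fin m → ZMod p), BS2 D.toRD0 b E → ∀ (Lg : Finset J) (s : J → Finset (Pl K)),
        (∀ l, l ∉ Lg → ∀ v ∈ s l, D.Gd v) →
      ∀ h : (J → Fin D.r → ZMod p) → ℂ, (∀ q, ‖h q‖ ≤ 1) →
        (∀ a ∈ Lg, ∀ a' ∈ Lg, P.lk a a' = 0) →
        (∀ a ∈ Lg, ∀ l, l ∉ Lg → s l ≠ ∅ → P.lk a l = 0) →
        (∀ a ∈ Lg, ∀ w ∈ E, mu2 D P b η a w = 0) →
        ∃ c₀ : ℂ, ‖c₀‖ ≤ 1 ∧
          ((∃ a ∈ Lg, ∃ a' ∈ Lg, a ≠ a' ∧ P.x a = P.x a' ∧
            ¬ IsPow p (bp b (P.θ a - P.θ a')) ∧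
            ∀ (q : J → Fin D.r → ZMod p) (u : Fin D.r → ZMod p),
              h (Function.update (Function.update q a (q a + u)) a' (q a' - u)) = h q) →
            c₀ = 0) ∧
          ∀ (X z₁ z₂ : ℝ), X₀ ≤ X → 1 ≤ z₁ → z₁ ^ B₁ ≤ z₂ → Real.log X ^ B₁ ≤ z₂ →
            ∀ (Y : Fin t → ℝ), (∀ i, 0 < Y i ∧ Y i ≤ X) → nr E ≤ z₁ →
              (∀ l, l ∉ Lg → nr (s l) ≤ z₁) →
              ‖TT2 D.toRD0 P b E η blk Y X Lg z₂ s h -
                c₀ * (TN2 D.toRD0 E blk Y X Lg z₂ s : ℂ)‖ ≤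
              (∏ i, Y i) / sn Lg s * Real.log X ^ (-A) := by
  have hNZ : NeZero p := ⟨hp.ne_zero⟩
  obtain ⟨C₁, A₁, δ, hC₁, hA₁, hδ, hδ1, hlem⟩ := lemA hp hζ D
  obtain ⟨C₂, A₂, hC₂, hA₂, hks⟩ := ks K blk
  obtain ⟨N, hN⟩ : ∃ N : ℝ, N = (p : ℝ) ^ Fintype.card (J × Fin D.r) := ⟨_, rfl⟩
  have hp1 : (1 : ℝ) ≤ p := by exact_mod_cast hp.one_lt.le
  have hN1 : 1 ≤ N := by
    rw [hN]
    exact one_le_pow₀ hp1
  obtain ⟨B₁, X₀, hX₀, hnum⟩ := akb_num (N * (2 * C₁ * C₂))
    (((Fintype.card J : ℝ) + 1) * (A₁ + 1)) A₂ δ A (by positivity) (by positivity) hA₂ hδ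
  refine ⟨B₁, X₀, hX₀, ?_⟩
  intro b E η hb Lg s hs h hh hlk hlk2 hmu
  obtain ⟨f, hf1, hf2⟩ := ph_cls2 hp hp2 hζ D P b E η hb Lg s hlk hlk2 hmu
  obtain ⟨w, hw⟩ : ∃ w : (J × Fin D.r → ZMod p) → J → Fin D.r → ZMod p, ∀ q l, w q l =
      if l ∈ Lg then (fun i => q (l, i)) else qf D.toRD0 (s l) := ⟨_, fun _ _ => rfl⟩
  obtain ⟨Φ, hΦ⟩ : ∃ Φ : (J × Fin D.r → ZMod p) → ℂ, ∀ q, Φ q =
      h (w q) * ep p (f (w q)) := ⟨_, fun _ => rfl⟩
  have hΦ1 : ∀ q, ‖Φ q‖ ≤ 1 := by
    intro q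
    rw [hΦ, norm_mul, ep_norm, mul_one]
    exact hh _
  -- the nonzero coefficients
  have hsupp : ∀ χ : J × Fin D.r → ZMod p, akcC p Φ χ ≠ 0 → ∀ l, l ∉ Lg → ∀ i, χ (l, i) = 0 := by
    intro χ hχ l hl i
    obtain ⟨T, hT⟩ : ∃ T : J × Fin D.r → ZMod p, T = Pi.single (l, i) 1 := ⟨_, rfl⟩
    have hsh : ∀ q, Φ (q + T) = Φ q * ep p 0 := by
      intro q
      have e1 : w (q + T) = w q := by
        funext l'
        rw [hw, hw]
        by_cases hl' : l' ∈ Lg
        · rw [if_pos hl', if_pos hl']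
          funext i'
          rw [Pi.add_apply, hT, Pi.single_eq_of_ne, add_zero]
          intro hc
          rw [Prod.mk.injEq] at hc
          exact hl (hc.1 ▸ hl')
        · rw [if_neg hl', if_neg hl']
      rw [hΦ, hΦ, e1, ep_zero, mul_one]
    have h1 := akc_shift hp Φ T 0 hsh χ
    have h2 : ∑ x, χ x * T x = χ (l, i) := by
      rw [Finset.sum_eq_single (l, i)]
      · rw [hT, Pi.single_eq_same, mul_one]
      · intro x _ hx
        rw [hT, Pi.single_eq_of_ne hx, mul_zero]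
      · intro hc
        exact absurd (Finset.mem_univ _) hc
    rw [h2, zero_sub] at h1
    have h3 : ep p (-χ (l, i)) = 1 := by
      have h4 : (ep p (-χ (l, i)) - 1) * akcC p Φ χ = 0 := by
        rw [sub_mul, one_mul, ← h1, sub_self]
      rcases mul_eq_zero.1 h4 with h5 | h5
      · exact sub_eq_zero.1 h5
      · exact absurd h5 hχ
    rw [ep_eq_one hp, neg_eq_zero] at h3
    exact h3
  have hcoef : ∀ χ : J × Fin D.r → ZMod p, χ ≠ 0 → akcC p Φ χ ≠ 0 →
      ∃ a₁ ∈ Lg, (fun i => χ (a₁, i)) ≠ 0 := by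
    intro χ hχ0 hχ
    by_contra hno
    apply hχ0
    funext x
    obtain ⟨l, i⟩ := x
    by_cases hl : l ∈ Lg
    · by_contra hc
      exact hno ⟨l, hl, fun h0 => hc (congrFun h0 i)⟩
    · exact hsupp χ hχ l hl i
  refine ⟨akcC p Φ 0, akc_norm hp Φ hΦ1 0, ?_, ?_⟩
  · rintro ⟨a, ha, a', ha', haa, hxx, hpow, hinv⟩
    obtain ⟨κ, hκ1, hκ2⟩ := hf2 a ha a' ha' haa hxx
    have hκ0 : κ ≠ 0 := by
      intro hκ
      obtain ⟨v, hv1, _, _, hv4⟩ := D.non _ hpow ∅
      apply hv4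
      rw [← hκ2 v hv1, hκ]
      unfold dt
      simp
    obtain ⟨i, hi⟩ := Function.ne_iff.1 hκ0
    obtain ⟨tv, htv⟩ : ∃ tv : Fin D.r → ZMod p, tv = Pi.single i 1 := ⟨_, rfl⟩
    obtain ⟨T, hT⟩ : ∃ T : J × Fin D.r → ZMod p, ∀ x, T x =
        (if x.1 = a then tv x.2 else 0) - (if x.1 = a' then tv x.2 else 0) := ⟨_, fun _ => rfl⟩
    have hsh : ∀ q, Φ (q + T) = Φ q * ep p (dt κ tv) := by
      intro q
      have e1 : w (q + T) = Function.update (Function.update (w q) a (w q a + tv)) a'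
          (w q a' - tv) := by
        funext l
        by_cases hl' : l = a'
        · rw [hl', Function.update_self, hw, hw, if_pos ha', if_pos ha']
          funext i'
          rw [Pi.sub_apply, Pi.add_apply, hT]
          change q (a', i') + ((if a' = a then tv i' else 0) - (if a' = a' then tv i' else 0)) = _
          rw [if_neg haa.symm, if_pos rfl]
          ring
        · rw [Function.update_of_ne hl']
          by_cases hl : l = a
          · rw [hl, Function.update_self, hw, hw, if_pos ha, if_pos ha]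
            funext i'
            rw [Pi.add_apply, Pi.add_apply, hT]
            change q (a, i') + ((if a = a then tv i' else 0) - (if a = a' then tv i' else 0)) = _
            rw [if_pos rfl, if_neg haa]
            ring
          · rw [Function.update_of_ne hl, hw, hw]
            by_cases hlL : l ∈ Lg
            · rw [if_pos hlL, if_pos hlL]
              funext i'
              rw [Pi.add_apply, hT]
              change q (l, i') + ((if l = a then tv i' else 0) - (if l = a' then tv i' else 0)) = _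
              rw [if_neg hl, if_neg hl']
              ring
            · rw [if_neg hlL, if_neg hlL]
      rw [hΦ, hΦ, e1, hinv, hκ1, ep_add hp]
      ring
    have h1 := akc_shift hp Φ T (dt κ tv) hsh 0
    have h2 : ∑ x, (0 : J × Fin D.r → ZMod p) x * T x = 0 := by
      apply Finset.sum_eq_zero
      intro x _
      rw [Pi.zero_apply, zero_mul]
    rw [h2, sub_zero] at h1
    by_contra hne
    have h3 : ep p (dt κ tv) = 1 := by
      have h4 : (ep p (dt κ tv) - 1) * akcC p Φ 0 = 0 := by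
        rw [sub_mul, one_mul, ← h1, sub_self]
      rcases mul_eq_zero.1 h4 with h5 | h5
      · exact sub_eq_zero.1 h5
      · exact absurd h5 hne
    rw [ep_eq_one hp] at h3
    rw [htv] at h3
    unfold dt at h3
    apply hi
    simpa [Pi.single_apply] using h3
  intro X z₁ z₂ hX hz₁ hB1 hB2 Y hY hE hsz
  have hz₂ : 1 ≤ z₂ := (one_le_pow₀ hz₁).trans hB1
  have hX1 : 1 ≤ X := by linarith
  have hlX : 0 ≤ Real.log X := Real.log_nonneg hX1
  have hsn : 0 < sn Lg s := by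
    unfold sn
    exact Finset.prod_pos fun l _ => akb_nr_pos _
  have hPY : 0 < ∏ i, Y i := Finset.prod_pos fun i _ => (hY i).1
  have hq0 : 0 ≤ (∏ i, Y i) / sn Lg s := div_nonneg hPY.le hsn.le
  have hnum' := hnum X z₁ z₂ hX hz₁ hB1 hB2
  obtain ⟨R, hR⟩ : ∃ R : ℝ, R = 2 * C₁ * C₂ * z₁ ^ (((Fintype.card J : ℝ) + 1) * (A₁ + 1)) *
      z₂ ^ (-δ) * (1 + Real.log X) ^ A₂ := ⟨_, rfl⟩
  have hR0 : 0 ≤ R := by
    rw [hR]
    positivity
  have hNR : N * R ≤ Real.log X ^ (-A) := by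
    rw [hR]
    calc N * (2 * C₁ * C₂ * z₁ ^ (((Fintype.card J : ℝ) + 1) * (A₁ + 1)) *
        z₂ ^ (-δ) * (1 + Real.log X) ^ A₂) = N * (2 * C₁ * C₂) *
          z₁ ^ (((Fintype.card J : ℝ) + 1) * (A₁ + 1)) * z₂ ^ (-δ) *
          (1 + Real.log X) ^ A₂ := by ring
      _ ≤ _ := hnum'
  have hs' : ∀ l, l ∉ Lg → (∀ v ∈ s l, D.Gd v) ∧ nr (s l) ≤ z₁ := fun l hl =>
    ⟨hs l hl, hsz l hl⟩
  -- the phase for one character
  obtain ⟨Ψ, hΨ⟩ : ∃ Ψ : (J × Fin D.r → ZMod p) → (J → Finset (Pl K)) → ℂ, ∀ χ g, Ψ χ g =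
      ep p (∑ x : J × Fin D.r, χ x * qf D.toRD0 (g x.1) x.2) := ⟨_, fun _ _ => rfl⟩
  have hone : ∀ χ : J × Fin D.r → ZMod p, χ ≠ 0 → ‖akcC p Φ χ *
      ∑ g ∈ Fintype.piFinset (fun l => if l ∈ Lg then GF D.toRD0 X else {s l}),
      (if Cond2 E blk Y Lg z₂ g then Ψ χ g else 0)‖ ≤ (∏ i, Y i) / sn Lg s * R := by
    intro χ hχ0
    by_cases hχ : akcC p Φ χ = 0
    · rw [hχ, zero_mul, norm_zero]
      exact mul_nonneg hq0 hR0
    obtain ⟨a₁, ha₁, hχ₁⟩ := hcoef χ hχ0 hχ
    rw [norm_mul]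
    have h1 : ‖∑ g ∈ Fintype.piFinset (fun l => if l ∈ Lg then GF D.toRD0 X else {s l}),
        (if Cond2 E blk Y Lg z₂ g then Ψ χ g else 0)‖ ≤ (∏ i, Y i) / sn Lg s * R := by
      rw [hR]
      refine bkm_outer D blk C₁ A₁ δ hC₁ hA₁ hδ hδ1 hlem C₂ A₂ hks X z₁ z₂ hX1 hz₁ hz₂ Y
        hY E hb.1 hE Lg s hs' (Ψ χ) a₁ ha₁ ?_
      intro g hgs hadm
      refine ⟨fun _ => 0, fun i => χ (a₁, i), fun _ => 1,
        ∑ l ∈ Finset.univ.erase a₁, ∑ i, χ (l, i) * qf D.toRD0 (g l) i,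
        fun _ => by rw [norm_one], Or.inr ⟨fun _ => rfl, hχ₁⟩, ?_⟩
      intro n hn
      rw [hΨ, one_mul, ← ep_add hp]
      congr 1
      rw [Fintype.sum_prod_type, ← Finset.add_sum_erase _ _ (Finset.mem_univ a₁), add_comm]
      congr 1
      · apply Finset.sum_congr rfl
        intro l hl
        change ∑ y, χ (l, y) * qf D.toRD0 (Function.update g a₁ n l) y = _
        rw [Function.update_of_ne (Finset.ne_of_mem_erase hl)]
      · change ∑ y, χ (a₁, y) * qf D.toRD0 (Function.update g a₁ n a₁) y = _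
        rw [Function.update_self]
        have e1 : ∀ v, fE D.toRD0 (akbE E Lg s) (fun _ => 0) (fun i => χ (a₁, i)) v =
            ∑ i, χ (a₁, i) * D.q v i := by
          intro v
          unfold fE dt
          simp
        simp only [e1]
        rw [Finset.sum_comm]
        apply Finset.sum_congr rfl
        intro i _
        rw [← Finset.mul_sum]
        congr 1
        unfold qf
        rw [Finset.sum_apply]
    calc ‖akcC p Φ χ‖ * _ ≤ 1 * ((∏ i, Y i) / sn Lg s * R) :=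
          mul_le_mul (akc_norm hp Φ hΦ1 χ) h1 (norm_nonneg _) zero_le_one
      _ = _ := one_mul _
  have hTT : TT2 D.toRD0 P b E η blk Y X Lg z₂ s h =
      ∑ χ : J × Fin D.r → ZMod p, akcC p Φ χ *
      ∑ g ∈ Fintype.piFinset (fun l => if l ∈ Lg then GF D.toRD0 X else {s l}),
      (if Cond2 E blk Y Lg z₂ g then Ψ χ g else 0) := by
    unfold TT2
    simp only [Finset.mul_sum]
    rw [Finset.sum_comm]
    apply Finset.sum_congr rfl
    intro g hg
    rw [Fintype.mem_piFinset] at hg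
    by_cases hc : Cond2 E blk Y Lg z₂ g
    · rw [if_pos hc]
      have hgs : ∀ l, l ∉ Lg → g l = s l := by
        intro l hl
        have := hg l
        rwa [if_neg hl, Finset.mem_singleton] at this
      have hadm : Adm2 D.toRD0 E g := by
        refine ⟨⟨?_, hc.1.1⟩, hc.2⟩
        intro l v hv
        by_cases hl : l ∈ Lg
        · have := hg l
          rw [if_pos hl, akb_mem_GF] at this
          exact this.2 v hv
        · rw [hgs l hl] at hv
          exact hs l hl v hv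
      rw [hf1 g hadm hgs]
      have e1 := akc_inv hp Φ (fun x : J × Fin D.r => qf D.toRD0 (g x.1) x.2)
      have e2 : w (fun x : J × Fin D.r => qf D.toRD0 (g x.1) x.2) =
          fun a => qf D.toRD0 (g a) := by
        funext l
        rw [hw]
        by_cases hl : l ∈ Lg
        · rw [if_pos hl]
        · rw [if_neg hl, hgs l hl]
      rw [hΦ, e2] at e1
      rw [e1]
      apply Finset.sum_congr rfl
      intro χ _
      rw [if_pos hc, hΨ]
    · rw [if_neg hc]
      symm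
      apply Finset.sum_eq_zero
      intro χ _
      rw [if_neg hc, mul_zero]
  have hTN : (TN2 D.toRD0 E blk Y X Lg z₂ s : ℂ) =
      ∑ g ∈ Fintype.piFinset (fun l => if l ∈ Lg then GF D.toRD0 X else {s l}),
      (if Cond2 E blk Y Lg z₂ g then Ψ 0 g else 0) := by
    unfold TN2
    push_cast
    apply Finset.sum_congr rfl
    intro g _
    by_cases hc : Cond2 E blk Y Lg z₂ g
    · rw [if_pos hc, if_pos hc, hΨ]
      simp only [Pi.zero_apply, zero_mul, Finset.sum_const_zero]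
      rw [ep_zero]
      norm_num
    · rw [if_neg hc, if_neg hc]
      norm_num
  rw [hTT, hTN, ← Finset.sum_erase_eq_sub (Finset.mem_univ (0 : J × Fin D.r → ZMod p))]
  refine (norm_sum_le _ _).trans ((Finset.sum_le_sum fun χ hχ =>
    hone χ (Finset.ne_of_mem_erase hχ)).trans ?_)
  rw [Finset.sum_const, nsmul_eq_mul]
  have e1 : (((Finset.univ.erase (0 : J × Fin D.r → ZMod p)).card : ℕ) : ℝ) ≤ N := by
    have h1 : (Finset.univ.erase (0 : J × Fin D.r → ZMod p)).card ≤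
        p ^ Fintype.card (J × Fin D.r) := by
      refine (Finset.card_le_card (Finset.erase_subset _ _)).trans (le_of_eq ?_)
      rw [Finset.card_univ, Fintype.card_fun, ZMod.card]
    rw [hN]
    exact_mod_cast h1
  calc _ ≤ N * ((∏ i, Y i) / sn Lg s * R) :=
        mul_le_mul_of_nonneg_right e1 (mul_nonneg hq0 hR0)
    _ = (∏ i, Y i) / sn Lg s * (N * R) := by ring
    _ ≤ _ := mul_le_mul_of_nonneg_left hNR hq0

end H63.MA
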