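import Pool.Agent.H63.MB.BPhA

/-!
# MB-BPHB: the total phase `ph2` as a function of the classes

`ph_cls2` is `ph_cls` of `MA/APh` for `ph2`. Follow its proof (file `MA/APh`, read the header there). Changes: `κ'_a` is now defined by `aph_rec2` for `θ_a`; for a good `v` and `a ∈ Lg`
`dt (θ_a) (LL v (b k))_k + ∑_{w ∈ E} dt (η w) (x a) * LL w (pi v) = ∑_{w ∈ E} mu2 D P b η a w * LL w (pi v) + κ'_a · q v = κ'_a · q v` by the hypothesis `h3`. So for an admissible `g` the linear terms of `a ∈ Lg` (from `ph` and from `ex`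
together) are `κ'_a · qf (g a)`; the terms of `ex` with index `l ∉ Lg` are constant (`g l = s l`) and go to `c₀`. The rest (the terms with two indices) is unchanged.
Second claim: as before with `κ = κ'_a - κ'_{a'}`. Since `x a = x a'`, `0 = mu2 a w - mu2 a' w = lam w * dord b (θ_a - θ_{a'}) w` for `w ∈ E`, and `κ · q v = ∑_k (θ_a k - θ_{a'} k) LL v (b k) = LL v (bp b (θ_a - θ_{a'}))` for all good `v`
(`aph_bp`; good primes are outside `S0`).
-/

set_option autoImplicit false

open scoped NumberField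
open IsDedekindDomain
open scoped Classical

noncomputable section

namespace H63.MA

variable {K : Type} [Field K] [NumberField K] {p : ℕ} {ζ : K} {m : ℕ} {J : Type} [Fintype J]

theorem ph_cls2 (hp : p.Prime) (hp2 : MOne p K) (hζ : IsPrimitiveRoot ζ p) (D : RD K p ζ)
    (P : PD p m J) (b : Fin m → Kˣ) (E : Finset (Pl K)) (η : Pl K → Fin m → ZMod p)
    (hb : BS2 D.toRD0 b E) (Lg : Finset J) (s : J → Finset (Pl K))
    (h1 : ∀ a ∈ Lg, ∀ a' ∈ Lg, P.lk a a' = 0)
    (h2 : ∀ a ∈ Lg, ∀ l, l ∉ Lg → s l ≠ ∅ → P.lk a l = 0)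
    (h3 : ∀ a ∈ Lg, ∀ w ∈ E, mu2 D P b η a w = 0) :
    ∃ f : (J → Fin D.r → ZMod p) → ZMod p,
      (∀ g : J → Finset (Pl K), Adm2 D.toRD0 E g → (∀ l, l ∉ Lg → g l = s l) →
        ph2 D.toRD0 P b E η g = f fun a => qf D.toRD0 (g a)) ∧
      ∀ a ∈ Lg, ∀ a' ∈ Lg, a ≠ a' → P.x a = P.x a' → ∃ κ : Fin D.r → ZMod p,
        (∀ (q : J → Fin D.r → ZMod p) (t : Fin D.r → ZMod p),
          f (Function.update (Function.update q a (q a + t)) a' (q a' - t)) = f q + dt κ t) ∧
        ∀ v, D.Gd v → dt κ (D.q v) = D.LL v (bp b (P.θ a - P.θ a')) := by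
  have : Fact p.Prime := ⟨hp⟩
  choose κ' hκ' using fun a => aph_rec2 D b E hb (P.θ a)
  obtain ⟨c, hc⟩ : ∃ c : J → J → ZMod p, ∀ a a', dt (P.θ a) (P.x a') = c a a' :=
    ⟨fun a a' => dt (P.θ a) (P.x a'), fun _ _ => rfl⟩
  have hcc : ∀ a, c a a = 0 := fun a => by rw [← hc]; exact P.self a
  have hlk : ∀ a l, P.lk a l = 0 → c l a = -c a l := by
    intro a l h
    unfold PD.lk at h
    rw [hc, hc] at h
    linear_combination h
  obtain ⟨ρ, hρ⟩ := exists_injective_nat (Fin m → ZMod p)
  obtain ⟨c', hc'⟩ : ∃ c' : J → J → ZMod p, ∀ a a',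
      (if ρ (P.x a) < ρ (P.x a') then c a a' else 0) = c' a a' :=
    ⟨fun a a' => if ρ (P.x a) < ρ (P.x a') then c a a' else 0, fun _ _ => rfl⟩
  obtain ⟨Lo, hLo⟩ : ∃ Lo : Finset J, Lo = Finset.univ \ Lg := ⟨_, rfl⟩
  have hmLo : ∀ l, l ∈ Lo ↔ l ∉ Lg := by
    intro l
    rw [hLo, Finset.mem_sdiff]
    simp
  have hsum : ∀ F : J → ZMod p, ∑ l, F l = ∑ l ∈ Lg, F l + ∑ l ∈ Lo, F l := by
    intro F
    rw [hLo, add_comm]
    exact (Finset.sum_sdiff (Finset.subset_univ Lg)).symm
  refine ⟨fun q => ∑ l ∈ Lo, ∑ v ∈ s l, dt (P.θ l) (fun k => D.LL v (b k)) +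
    ∑ l ∈ Lo, ∑ v ∈ s l, ∑ w ∈ E, dt (η w) (P.x l) * D.LL w (D.pi v) +
    ∑ l ∈ Lo, ∑ l' ∈ Lo, c l l' * Lf D.toRD0 (s l) (pf D.toRD0 (s l')) +
    ∑ a ∈ Lg, dt (κ' a) (q a) +
    ∑ a ∈ Lg, ∑ l ∈ Lo, c a l * aphE D (qf D.toRD0 (s l)) (q a) +
    ∑ a ∈ Lg, ∑ a' ∈ Lg, c' a a' * aphE D (q a') (q a), ?_, ?_⟩
  · intro g hg2 hgs
    have hg := hg2.1
    have hgs' : ∀ l ∈ Lo, g l = s l := fun l hl => hgs l ((hmLo l).1 hl)
    have e0 : ∀ a ∈ Lg, ∀ v, D.Gd v → dt (P.θ a) (fun k => D.LL v (b k)) +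
        ∑ w ∈ E, dt (η w) (P.x a) * D.LL w (D.pi v) = dt (κ' a) (D.q v) := by
      intro a ha v hv
      rw [hκ' a v hv]
      have : ∑ w ∈ E, D.lam w * dord b (P.θ a) w * D.LL w (D.pi v) +
          ∑ w ∈ E, dt (η w) (P.x a) * D.LL w (D.pi v) = 0 := by
        rw [← Finset.sum_add_distrib]
        refine Finset.sum_eq_zero fun w hw => ?_
        have h5 := h3 a ha w hw
        unfold mu2 at h5
        rw [← add_mul, h5, zero_mul]
      linear_combination this
    have e1 : ∑ a ∈ Lg, ∑ v ∈ g a, dt (P.θ a) (fun k => D.LL v (b k)) +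
        ∑ a ∈ Lg, ∑ v ∈ g a, ∑ w ∈ E, dt (η w) (P.x a) * D.LL w (D.pi v) =
        ∑ a ∈ Lg, dt (κ' a) (qf D.toRD0 (g a)) := by
      rw [← Finset.sum_add_distrib]
      refine Finset.sum_congr rfl fun a ha => ?_
      rw [← aph_dt_qf, ← Finset.sum_add_distrib]
      exact Finset.sum_congr rfl fun v hv => e0 a ha v (hg.1 a v hv)
    have e7 : ∑ l ∈ Lo, ∑ v ∈ g l, ∑ w ∈ E, dt (η w) (P.x l) * D.LL w (D.pi v) =
        ∑ l ∈ Lo, ∑ v ∈ s l, ∑ w ∈ E, dt (η w) (P.x l) * D.LL w (D.pi v) :=
      Finset.sum_congr rfl fun l hl => by rw [hgs' l hl]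
    have e2 : ∑ l ∈ Lo, ∑ v ∈ g l, dt (P.θ l) (fun k => D.LL v (b k)) =
        ∑ l ∈ Lo, ∑ v ∈ s l, dt (P.θ l) (fun k => D.LL v (b k)) :=
      Finset.sum_congr rfl fun l hl => by rw [hgs' l hl]
    obtain ⟨W, hW⟩ : ∃ W : J → J → ZMod p, ∀ a a', Lf D.toRD0 (g a) (pf D.toRD0 (g a')) = W a a' :=
      ⟨_, fun _ _ => rfl⟩
    have hsw : ∀ a a', a ≠ a' → W a a' - W a' a = aphE D (qf D.toRD0 (g a')) (qf D.toRD0 (g a)) := by
      intro a a' h
      rw [← hW, ← hW, aph_swap hp hζ D (hg.1 a) (hg.1 a') (hg.2 a a' h)]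
      ring
    have e3 : ∑ a, ∑ a', dt (P.θ a) (P.x a') * Lf D.toRD0 (g a) (pf D.toRD0 (g a')) =
        ∑ a ∈ Lg, ∑ a' ∈ Lg, c a a' * W a a' +
        ∑ a ∈ Lg, ∑ l ∈ Lo, (c a l * W a l + c l a * W l a) +
        ∑ l ∈ Lo, ∑ l' ∈ Lo, c l l' * W l l' := by
      simp only [hc, hW]
      rw [hsum]
      simp only [hsum]
      simp only [Finset.sum_add_distrib]
      rw [Finset.sum_comm (s := Lo) (t := Lg)]
      ring
    have e4 : ∑ l ∈ Lo, ∑ l' ∈ Lo, c l l' * W l l' =
        ∑ l ∈ Lo, ∑ l' ∈ Lo, c l l' * Lf D.toRD0 (s l) (pf D.toRD0 (s l')) :=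
      Finset.sum_congr rfl fun l hl => Finset.sum_congr rfl fun l' hl' => by
        rw [← hW, hgs' l hl, hgs' l' hl']
    have e5 : ∑ a ∈ Lg, ∑ l ∈ Lo, (c a l * W a l + c l a * W l a) =
        ∑ a ∈ Lg, ∑ l ∈ Lo, c a l * aphE D (qf D.toRD0 (s l)) (qf D.toRD0 (g a)) := by
      refine Finset.sum_congr rfl fun a ha => Finset.sum_congr rfl fun l hl => ?_
      have hlo := (hmLo l).1 hl
      have hal : a ≠ l := fun h => hlo (h ▸ ha)
      by_cases hs : s l = ∅
      · have f1 : W a l = 0 := by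
          rw [← hW, hgs' l hl, hs]
          exact aph_W_empty hp hζ D.toRD0 (hg.1 a)
        have f2 : W l a = 0 := by
          rw [← hW, hgs' l hl, hs]
          unfold Lf
          rw [Finset.sum_empty]
        have f3 : qf D.toRD0 (s l) = 0 := by
          rw [hs]
          unfold qf
          rw [Finset.sum_empty]
        rw [f1, f2, f3, aphE_zero]
        ring
      · have f1 := hlk a l (h2 a ha l hlo hs)
        have f2 := hsw a l hal
        rw [hgs' l hl] at f2
        rw [f1, ← f2]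
        ring
    have e6 : ∑ a ∈ Lg, ∑ a' ∈ Lg, c a a' * W a a' =
        ∑ a ∈ Lg, ∑ a' ∈ Lg, c' a a' * aphE D (qf D.toRD0 (g a')) (qf D.toRD0 (g a)) := by
      have f1 : ∀ a ∈ Lg, ∀ a' ∈ Lg, c a a' = c' a a' - c' a' a := by
        intro a ha a' ha'
        rw [← hc', ← hc']
        rcases lt_trichotomy (ρ (P.x a)) (ρ (P.x a')) with h | h | h
        · rw [if_pos h, if_neg (not_lt.2 h.le), sub_zero]
        · rw [if_neg h.not_lt, if_neg h.symm.not_lt, sub_zero, ← hc, ← hρ h]
          exact P.self a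
        · rw [if_neg (not_lt.2 h.le), if_pos h, zero_sub, hlk a a' (h1 a ha a' ha'), neg_neg]
      have f2 : ∑ a ∈ Lg, ∑ a' ∈ Lg, c a a' * W a a' =
          ∑ a ∈ Lg, ∑ a' ∈ Lg, c' a a' * W a a' - ∑ a ∈ Lg, ∑ a' ∈ Lg, c' a' a * W a a' := by
        rw [← Finset.sum_sub_distrib]
        refine Finset.sum_congr rfl fun a ha => ?_
        rw [← Finset.sum_sub_distrib]
        refine Finset.sum_congr rfl fun a' ha' => ?_
        rw [f1 a ha a' ha']
        ring
      rw [f2, Finset.sum_comm (f := fun a a' => c' a' a * W a a'), ← Finset.sum_sub_distrib]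
      refine Finset.sum_congr rfl fun a ha => ?_
      rw [← Finset.sum_sub_distrib]
      refine Finset.sum_congr rfl fun a' ha' => ?_
      by_cases h : a = a'
      · subst h
        have f3 : c' a a = 0 := by
          rw [← hc', if_neg (lt_irrefl _)]
        rw [f3]
        ring
      · rw [← hsw a a' h]
        ring
    unfold ph2 ph ex
    rw [hsum, hsum fun l => ∑ v ∈ g l, ∑ w ∈ E, dt (η w) (P.x l) * D.LL w (D.pi v), e2, e3, e4,
      e5, e6, e7]
    beta_reduce
    rw [← e1]
    ring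
  · intro a ha a' ha' haa hx
    refine ⟨κ' a - κ' a', ?_, ?_⟩
    · intro q t
      obtain ⟨e, he⟩ : ∃ e : J → ZMod p, ∀ l, (if l = a then (1 : ZMod p) else
          if l = a' then -1 else 0) = e l := ⟨_, fun _ => rfl⟩
      have hq : ∀ l, Function.update (Function.update q a (q a + t)) a' (q a' - t) l =
          q l + e l • t := by
        intro l
        rw [← he]
        by_cases hl' : l = a'
        · subst hl'
          rw [Function.update_self, if_neg (Ne.symm haa), if_pos rfl, neg_smul, one_smul,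
            sub_eq_add_neg]
        · rw [Function.update_of_ne hl']
          by_cases hl : l = a
          · subst hl
            rw [Function.update_self, if_pos rfl, one_smul]
          · rw [Function.update_of_ne hl, if_neg hl, if_neg hl', zero_smul, add_zero]
      have hE : ∀ F : J → ZMod p, ∑ l ∈ Lg, e l * F l = F a - F a' := by
        intro F
        have g1 : ∀ l ∈ Lg, e l * F l = (if l = a then F l else 0) - (if l = a' then F l else 0) := by
          intro l _
          rw [← he]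
          by_cases hl : l = a
          · have hl' : l ≠ a' := fun h => haa (hl ▸ h)
            rw [if_pos hl, if_pos hl, if_neg hl']
            ring
          · rw [if_neg hl, if_neg hl]
            by_cases hl' : l = a'
            · rw [if_pos hl', if_pos hl']
              ring
            · rw [if_neg hl', if_neg hl']
              ring
        rw [Finset.sum_congr rfl g1, Finset.sum_sub_distrib, Finset.sum_ite_eq' Lg a,
          Finset.sum_ite_eq' Lg a', if_pos ha, if_pos ha']
      have hca : ∀ l, c l a = c l a' := by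
        intro l
        rw [← hc, ← hc, hx]
      have hcl : ∀ l ∈ Lg, c a l = c a' l := by
        intro l hl
        have f1 := hlk a l (h1 a ha l hl)
        have f2 := hlk a' l (h1 a' ha' l hl)
        have f3 := hca l
        linear_combination f1 - f2 - f3
      have hclo : ∀ l ∈ Lo, s l ≠ ∅ → c a l = c a' l := by
        intro l hl hs
        have f1 := hlk a l (h2 a ha l ((hmLo l).1 hl) hs)
        have f2 := hlk a' l (h2 a' ha' l ((hmLo l).1 hl) hs)
        have f3 := hca l
        linear_combination f1 - f2 - f3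
      have hca' : ∀ l, c' l a = c' l a' := by
        intro l
        rw [← hc', ← hc', hx, hca l]
      have hcl' : ∀ l ∈ Lg, c' a l = c' a' l := by
        intro l hl
        rw [← hc', ← hc', hx, hcl l hl]
      simp only [hq]
      have t1 : ∑ l ∈ Lg, dt (κ' l) (q l + e l • t) =
          ∑ l ∈ Lg, dt (κ' l) (q l) + dt (κ' a - κ' a') t := by
        have g1 : ∀ l ∈ Lg, dt (κ' l) (q l + e l • t) = dt (κ' l) (q l) + e l * dt (κ' l) t := by
          intro l _
          unfold dt
          rw [Finset.mul_sum, ← Finset.sum_add_distrib]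
          refine Finset.sum_congr rfl fun i _ => ?_
          rw [Pi.add_apply, Pi.smul_apply, smul_eq_mul]
          ring
        rw [Finset.sum_congr rfl g1, Finset.sum_add_distrib, hE fun l => dt (κ' l) t]
        congr 1
        unfold dt
        rw [← Finset.sum_sub_distrib]
        refine Finset.sum_congr rfl fun i _ => ?_
        rw [Pi.sub_apply]
        ring
      have t2 : ∑ b ∈ Lg, ∑ l ∈ Lo, c b l * aphE D (qf D.toRD0 (s l)) (q b + e b • t) =
          ∑ b ∈ Lg, ∑ l ∈ Lo, c b l * aphE D (qf D.toRD0 (s l)) (q b) := by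
        have g1 : ∀ b ∈ Lg, ∑ l ∈ Lo, c b l * aphE D (qf D.toRD0 (s l)) (q b + e b • t) =
            ∑ l ∈ Lo, c b l * aphE D (qf D.toRD0 (s l)) (q b) +
            e b * ∑ l ∈ Lo, c b l * aphE D (qf D.toRD0 (s l)) t := by
          intro b _
          rw [Finset.mul_sum, ← Finset.sum_add_distrib]
          refine Finset.sum_congr rfl fun l _ => ?_
          rw [aphE_add]
          ring
        rw [Finset.sum_congr rfl g1, Finset.sum_add_distrib,
          hE fun b => ∑ l ∈ Lo, c b l * aphE D (qf D.toRD0 (s l)) t]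
        have g2 : ∑ l ∈ Lo, c a l * aphE D (qf D.toRD0 (s l)) t =
            ∑ l ∈ Lo, c a' l * aphE D (qf D.toRD0 (s l)) t := by
          refine Finset.sum_congr rfl fun l hl => ?_
          by_cases hs : s l = ∅
          · have f3 : qf D.toRD0 (s l) = 0 := by
              rw [hs]
              unfold qf
              rw [Finset.sum_empty]
            rw [f3, aphE_zero]
            ring
          · rw [hclo l hl hs]
        rw [g2]
        ring
      have t3 : ∑ b ∈ Lg, ∑ b' ∈ Lg, c' b b' * aphE D (q b' + e b' • t) (q b + e b • t) =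
          ∑ b ∈ Lg, ∑ b' ∈ Lg, c' b b' * aphE D (q b') (q b) := by
        have g1 : ∀ b ∈ Lg, ∑ b' ∈ Lg, c' b b' * aphE D (q b' + e b' • t) (q b + e b • t) =
            ∑ b' ∈ Lg, c' b b' * aphE D (q b') (q b) +
            e b * ∑ b' ∈ Lg, c' b b' * aphE D (q b') t +
            ∑ b' ∈ Lg, e b' * (c' b b' * (aphE D t (q b) + e b * aphE D t t)) := by
          intro b _
          rw [Finset.mul_sum, ← Finset.sum_add_distrib, ← Finset.sum_add_distrib]
          refine Finset.sum_congr rfl fun b' _ => ?_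
          rw [aphE_lin]
          ring
        have g3 : ∀ b ∈ Lg, ∑ b' ∈ Lg, e b' * (c' b b' * (aphE D t (q b) + e b * aphE D t t)) = 0 := by
          intro b _
          rw [hE fun b' => c' b b' * (aphE D t (q b) + e b * aphE D t t), hca' b, sub_self]
        rw [Finset.sum_congr rfl g1, Finset.sum_add_distrib, Finset.sum_add_distrib,
          Finset.sum_eq_zero g3, hE fun b => ∑ b' ∈ Lg, c' b b' * aphE D (q b') t]
        have g2 : ∑ b' ∈ Lg, c' a b' * aphE D (q b') t = ∑ b' ∈ Lg, c' a' b' * aphE D (q b') t :=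
          Finset.sum_congr rfl fun l hl => by rw [hcl' l hl]
        rw [g2]
        ring
      rw [t1, t2, t3]
      ring
    · intro v hv
      have e0 : dt (P.θ a) (fun k => D.LL v (b k)) - dt (P.θ a') (fun k => D.LL v (b k)) =
          dt (κ' a) (D.q v) - dt (κ' a') (D.q v) := by
        rw [hκ' a v hv, hκ' a' v hv]
        have : ∑ w ∈ E, D.lam w * dord b (P.θ a) w * D.LL w (D.pi v) =
            ∑ w ∈ E, D.lam w * dord b (P.θ a') w * D.LL w (D.pi v) := by
          refine Finset.sum_congr rfl fun w hw => ?_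
          have h5 := h3 a ha w hw
          have h6 := h3 a' ha' w hw
          unfold mu2 at h5 h6
          rw [← hx] at h6
          linear_combination (D.LL w (D.pi v)) * (h5 - h6)
        rw [this]
        ring
      rw [aph_bp hp hζ D.toRD0 b _ hv.1]
      have g1 : dt (κ' a - κ' a') (D.q v) = dt (κ' a) (D.q v) - dt (κ' a') (D.q v) := by
        unfold dt
        rw [← Finset.sum_sub_distrib]
        refine Finset.sum_congr rfl fun i _ => ?_
        rw [Pi.sub_apply]
        ring
      rw [g1, ← e0]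
      unfold dt
      rw [← Finset.sum_sub_distrib]
      refine Finset.sum_congr rfl fun i _ => ?_
      rw [Pi.sub_apply]
      ring

end H63.MA
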