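import Pool.Agent.H63.MB.BDef

/-!
# MB-BUD: splitting off finitely many primes (finite identities)

`SD D N W`: the pairwise disjoint `N`-tuples of subsets of `W` consisting of good primes.
* `un_dec`: for `Z ⊆ F`: `UN D N Z y = ∑_{s ∈ SD D N (F ∖ Z)} UN D N F (y / ∏ nr (s i))`: `n i ↦ (n i ∩ (F ∖ Z), n i ∖ F)`, a bijection between the tuples counted by `UN D N Z y` and the pairs `(s, n')`, `s ∈ SD`, `n'` counted by `UN D N F (y / ∏ nr (s i))`
  (`nr_union`; the condition `n i ∈ GF y` follows from `∏ nr ≤ y` and goodness, as every factor is `≥ 1`).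
* `sd_sum`: for a set `A ⊆ Fin N` of indices: `∑_{s ∈ SD D N W, s i = ∅ for i ∉ A} ∏ 1/nr (s i) = ∏_{v ∈ W good} (1 + #A / nm v)`: a tuple `s` is the same as a function from the good primes of `W` to `A ∪ {none}`; induction on `W` (`Finset.induction_on`): a new good prime is put into one of the
  `s i`, `i ∈ A`, or into none.
* `un_good`: `UN D N E y` depends only on the good primes of `E`.
* `un_nonneg`; `un_trivial`: for `1 ≤ y` the number of tuples with `nr (n i) ≤ z` for some `i` is at most `C y (1 + log y)^{N-2} (1 + log z)` if `N ≥ 2`, and at most `C z` if `N = 1`: single out the variable `i` (`i` is one of `N` indices): for fixed `n i` the others are at most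
  `C (y / nr (n i)) (1 + log y)^{N-2}` tuples (`af_tup_one` for the index type `{j // j ≠ i}`; no tuples if `y < nr (n i)`), and `∑_{n ∈ AF z} 1/nr n ≤ C (1 + log z)` (`af_inv`); for `N = 1` use `af_card`. Stated uniformly as `≤ C (1 + log z) y (1 + log y)^{N-2}` for `N ≥ 2`.
-/

set_option autoImplicit false

open scoped NumberField
open IsDedekindDomain Filter Topology
open scoped Classical

noncomputable section

namespace H63.MA

variable {K : Type} [Field K] [NumberField K] {p : ℕ} {ζ : K}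

/-- disjoint tuples of sets of good primes of `W` -/
def SD (D : RD0 K p ζ) (N : ℕ) (W : Finset (Pl K)) : Finset (Fin N → Finset (Pl K)) :=
  (Fintype.piFinset fun _ : Fin N => W.powerset).filter fun s => Dj s ∧ ∀ i, ∀ v ∈ s i, D.Gd v

theorem bud_mem_UT {D : RD0 K p ζ} {N : ℕ} {E : Finset (Pl K)} {y : ℝ}
    {n : Fin N → Finset (Pl K)} :
    n ∈ (Fintype.piFinset fun _ : Fin N => GF D y).filter (fun n =>
      Dj n ∧ (∀ i, Disjoint (n i) E) ∧ ∏ i, nr (n i) ≤ y) ↔
    (∀ i, ∀ v ∈ n i, D.Gd v) ∧ Dj n ∧ (∀ i, Disjoint (n i) E) ∧ ∏ i, nr (n i) ≤ y := by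
  rw [Finset.mem_filter, Fintype.mem_piFinset]
  constructor
  · rintro ⟨h1, h2, h3, h4⟩
    exact ⟨fun i => (atupa_mem_GF.1 (h1 i)).2, h2, h3, h4⟩
  · rintro ⟨h1, h2, h3, h4⟩
    exact ⟨fun i => atupa_mem_GF.2 ⟨(atupa_le_prod n i).trans h4, h1 i⟩, h2, h3, h4⟩

theorem bud_mem_SD {D : RD0 K p ζ} {N : ℕ} {W : Finset (Pl K)} {s : Fin N → Finset (Pl K)} :
    s ∈ SD D N W ↔ (∀ i, s i ⊆ W) ∧ Dj s ∧ ∀ i, ∀ v ∈ s i, D.Gd v := by
  unfold SD
  rw [Finset.mem_filter, Fintype.mem_piFinset]
  simp only [Finset.mem_powerset]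

theorem bud_prod_pos {N : ℕ} (s : Fin N → Finset (Pl K)) : 0 < ∏ i, nr (s i) :=
  Finset.prod_pos fun i _ => lt_of_lt_of_le one_pos (one_le_nr (s i))

theorem un_dec (D : RD0 K p ζ) (N : ℕ) (Z F : Finset (Pl K)) (hZF : Z ⊆ F) (y : ℝ) :
    UN D N Z y = ∑ s ∈ SD D N (F \ Z), UN D N F (y / ∏ i, nr (s i)) := by
  set UZ := (Fintype.piFinset fun _ : Fin N => GF D y).filter (fun n =>
      Dj n ∧ (∀ i, Disjoint (n i) Z) ∧ ∏ i, nr (n i) ≤ y) with hUZ
  have h1 : UZ.card = ∑ s ∈ SD D N (F \ Z),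
      (UZ.filter fun n => (fun i => n i ∩ (F \ Z)) = s).card := by
    apply Finset.card_eq_sum_card_fiberwise
    intro n hn
    rw [Finset.mem_coe, hUZ, bud_mem_UT] at hn
    rw [Finset.mem_coe, bud_mem_SD]
    refine ⟨fun i => Finset.inter_subset_right, fun i j hij => ?_, fun i v hv => ?_⟩
    · exact (hn.2.1 i j hij).mono Finset.inter_subset_left Finset.inter_subset_left
    · exact hn.1 i v (Finset.mem_inter.1 hv).1
  have h2 : UN D N Z y = (UZ.card : ℝ) := rfl
  rw [h2, h1]
  push_cast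
  refine Finset.sum_congr rfl fun s hs => ?_
  rw [bud_mem_SD] at hs
  obtain ⟨hsW, hsD, hsG⟩ := hs
  have hsp := bud_prod_pos s
  have h3 : UN D N F (y / ∏ i, nr (s i)) = (((Fintype.piFinset fun _ : Fin N =>
      GF D (y / ∏ i, nr (s i))).filter (fun n =>
      Dj n ∧ (∀ i, Disjoint (n i) F) ∧ ∏ i, nr (n i) ≤ y / ∏ i, nr (s i))).card : ℝ) := rfl
  rw [h3]
  congr 1
  have key : ∀ n : Fin N → Finset (Pl K), (∀ i, Disjoint (n i) Z) →
      (fun i => n i ∩ (F \ Z)) = s → ∀ i, n i = s i ∪ n i \ F := by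
    intro n hn hns i
    have h4 : n i ∩ (F \ Z) = s i := congrFun hns i
    ext v
    rw [Finset.mem_union, ← h4, Finset.mem_inter, Finset.mem_sdiff, Finset.mem_sdiff]
    constructor
    · intro hv
      by_cases hF : v ∈ F
      · exact Or.inl ⟨hv, hF, fun hZ => Finset.disjoint_left.1 (hn i) hv hZ⟩
      · exact Or.inr ⟨hv, hF⟩
    · rintro (h | h)
      · exact h.1
      · exact h.1
  refine Finset.card_nbij' (fun n i => n i \ F) (fun n i => s i ∪ n i) ?_ ?_ ?_ ?_
  · intro n hn
    rw [Finset.mem_coe, Finset.mem_filter, hUZ, bud_mem_UT] at hn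
    obtain ⟨⟨h4, h5, h6, h7⟩, h8⟩ := hn
    rw [Finset.mem_coe, bud_mem_UT]
    refine ⟨fun i v hv => h4 i v (Finset.mem_sdiff.1 hv).1, fun i j hij =>
      (h5 i j hij).mono Finset.sdiff_subset Finset.sdiff_subset, fun i => Finset.sdiff_disjoint, ?_⟩
    rw [le_div_iff₀ hsp, mul_comm, ← Finset.prod_mul_distrib]
    refine le_trans (le_of_eq (Finset.prod_congr rfl fun i _ => ?_)) h7
    rw [← nr_union]
    · rw [← key n h6 h8 i]
    · exact Finset.disjoint_of_subset_left ((hsW i).trans Finset.sdiff_subset)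
        Finset.disjoint_sdiff
  · intro n hn
    rw [Finset.mem_coe, bud_mem_UT] at hn
    obtain ⟨h4, h5, h6, h7⟩ := hn
    have hdis : ∀ i j, Disjoint (s i) (n j) := fun i j =>
      Finset.disjoint_of_subset_left ((hsW i).trans Finset.sdiff_subset) (h6 j).symm
    rw [Finset.mem_coe, Finset.mem_filter, hUZ, bud_mem_UT]
    refine ⟨⟨fun i v hv => ?_, fun i j hij => ?_, fun i => ?_, ?_⟩, ?_⟩
    · rcases Finset.mem_union.1 hv with hv | hv
      · exact hsG i v hv
      · exact h4 i v hv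
    · show Disjoint (s i ∪ n i) (s j ∪ n j)
      rw [Finset.disjoint_union_left, Finset.disjoint_union_right, Finset.disjoint_union_right]
      exact ⟨⟨hsD i j hij, hdis i j⟩, (hdis j i).symm, h5 i j hij⟩
    · show Disjoint (s i ∪ n i) Z
      rw [Finset.disjoint_union_left]
      exact ⟨Finset.disjoint_of_subset_left (hsW i) Finset.sdiff_disjoint,
        Finset.disjoint_of_subset_right hZF (h6 i)⟩
    · rw [le_div_iff₀ hsp, mul_comm, ← Finset.prod_mul_distrib] at h7
      refine le_trans (le_of_eq (Finset.prod_congr rfl fun i _ => ?_)) h7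
      exact nr_union (hdis i i)
    · funext i
      show (s i ∪ n i) ∩ (F \ Z) = s i
      rw [Finset.union_inter_distrib_right, Finset.inter_eq_left.2 (hsW i)]
      have h8 : n i ∩ (F \ Z) = ∅ := by
        rw [← Finset.disjoint_iff_inter_eq_empty]
        exact Finset.disjoint_of_subset_right Finset.sdiff_subset (h6 i)
      rw [h8, Finset.union_empty]
  · intro n hn
    rw [Finset.mem_coe, Finset.mem_filter, hUZ, bud_mem_UT] at hn
    funext i
    exact (key n hn.1.2.2.1 hn.2 i).symm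
  · intro n hn
    rw [Finset.mem_coe, bud_mem_UT] at hn
    funext i
    show (s i ∪ n i) \ F = n i
    rw [Finset.union_sdiff_distrib, Finset.sdiff_eq_empty_iff_subset.2
      ((hsW i).trans Finset.sdiff_subset), Finset.empty_union]
    exact Finset.sdiff_eq_self_of_disjoint (hn.2.2.1 i)

theorem bud_split {N : ℕ} (G : Finset (Pl K)) (h : Pl K → Option (Fin N) → ℝ)
    (h0 : ∀ v, h v none = 1) :
    ∏ v ∈ G, ∑ o, h v o =
      ∑ s ∈ (Fintype.piFinset fun _ : Fin N => G.powerset).filter (fun s => Dj s),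
        ∏ i, ∏ v ∈ s i, h v (some i) := by
  rw [← Finset.prod_attach G (fun v => ∑ o, h v o), ← Finset.univ_eq_attach,
    Finset.prod_univ_sum]
  refine Finset.sum_bij (fun φ _ => fun i => aexpPart G φ (some i)) ?_ ?_ ?_ ?_
  · intro φ _
    rw [Finset.mem_filter, Fintype.mem_piFinset]
    refine ⟨fun i => ?_, ?_⟩
    · rw [Finset.mem_powerset]
      intro v hv
      exact (aexp_mem_part.1 hv).1
    · intro t t' htt'
      rw [Finset.disjoint_left]
      intro v hv hv'
      obtain ⟨h1, h2⟩ := aexp_mem_part.1 hv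
      obtain ⟨h3, h4⟩ := aexp_mem_part.1 hv'
      exact htt' (Option.some_injective _ (h2.symm.trans h4))
  · intro φ _ ψ _ hφψ
    funext v
    rcases hv : φ v with _ | i
    · rcases hw : ψ v with _ | j
      · rfl
      · exfalso
        have h1 : v.1 ∈ aexpPart G ψ (some j) := aexp_mem_part.2 ⟨v.2, hw⟩
        have h2 : aexpPart G φ (some j) = aexpPart G ψ (some j) := congrFun hφψ j
        rw [← h2] at h1
        obtain ⟨h3, h4⟩ := aexp_mem_part.1 h1
        rw [hv] at h4
        exact absurd h4 (by simp)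
    · have h1 : v.1 ∈ aexpPart G φ (some i) := aexp_mem_part.2 ⟨v.2, hv⟩
      have h2 : aexpPart G φ (some i) = aexpPart G ψ (some i) := congrFun hφψ i
      rw [h2] at h1
      obtain ⟨h3, h4⟩ := aexp_mem_part.1 h1
      exact h4.symm
  · intro s hs
    rw [Finset.mem_filter, Fintype.mem_piFinset] at hs
    obtain ⟨hs1, hs2⟩ := hs
    refine ⟨fun v => if hv : ∃ i, v.1 ∈ s i then some hv.choose else none,
      Fintype.mem_piFinset.2 fun _ => Finset.mem_univ _, ?_⟩
    funext i
    ext v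
    rw [aexp_mem_part]
    constructor
    · rintro ⟨hv, h1⟩
      by_cases h2 : ∃ i, v ∈ s i
      · rw [dif_pos h2] at h1
        have h3 := Option.some_injective _ h1
        rw [← h3]
        exact h2.choose_spec
      · rw [dif_neg h2] at h1
        exact absurd h1 (by simp)
    · intro hv
      have hvn : v ∈ G := Finset.mem_powerset.1 (hs1 i) hv
      refine ⟨hvn, ?_⟩
      have h2 : ∃ i, v ∈ s i := ⟨i, hv⟩
      rw [dif_pos h2]
      congr 1
      by_contra hne
      exact Finset.disjoint_left.1 (hs2 _ _ hne) h2.choose_spec hv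
  · intro φ _
    rw [← Finset.prod_fiberwise Finset.univ φ, Fintype.prod_option]
    have h1 : ∏ v : {v // v ∈ G} with φ v = none, h v (φ v) = 1 := by
      apply Finset.prod_eq_one
      intro v hv
      rw [(Finset.mem_filter.1 hv).2, h0]
    rw [h1, one_mul]
    refine Finset.prod_congr rfl fun t _ => ?_
    unfold aexpPart
    rw [Finset.prod_map]
    refine Finset.prod_congr (by ext; simp) fun v hv => ?_
    have hv2 : φ v = some t := by simpa using hv
    rw [hv2]
    rfl

theorem bud_SD_eq (D : RD0 K p ζ) (N : ℕ) (W : Finset (Pl K)) :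
    SD D N W = (Fintype.piFinset fun _ : Fin N => (W.filter fun v => D.Gd v).powerset).filter
      (fun s => Dj s) := by
  ext s
  rw [bud_mem_SD, Finset.mem_filter, Fintype.mem_piFinset]
  constructor
  · rintro ⟨h1, h2, h3⟩
    refine ⟨fun i => Finset.mem_powerset.2 fun v hv => ?_, h2⟩
    exact Finset.mem_filter.2 ⟨h1 i hv, h3 i v hv⟩
  · rintro ⟨h1, h2⟩
    exact ⟨fun i v hv => (Finset.mem_filter.1 (Finset.mem_powerset.1 (h1 i) hv)).1, h2,
      fun i v hv => (Finset.mem_filter.1 (Finset.mem_powerset.1 (h1 i) hv)).2⟩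

theorem sd_sum (D : RD0 K p ζ) (N : ℕ) (W : Finset (Pl K)) (A : Finset (Fin N)) :
    ∑ s ∈ (SD D N W).filter (fun s => ∀ i, i ∉ A → s i = ∅), ∏ i, (nr (s i))⁻¹ =
      ∏ v ∈ W.filter (fun v => D.Gd v), (1 + (A.card : ℝ) / nm v) := by
  have h1 := bud_split (N := N) (W.filter fun v => D.Gd v)
    (fun v o => match o with
      | none => 1
      | some i => if i ∈ A then ((nm v : ℝ))⁻¹ else 0) (fun _ => rfl)
  have h2 : ∀ v : Pl K, ∑ o : Option (Fin N), (match o with
      | none => (1 : ℝ)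
      | some i => if i ∈ A then ((nm v : ℝ))⁻¹ else 0) = 1 + (A.card : ℝ) / nm v := by
    intro v
    rw [Fintype.sum_option]
    simp [div_eq_mul_inv]
  rw [Finset.prod_congr rfl fun v _ => h2 v] at h1
  rw [h1, ← bud_SD_eq, Finset.sum_filter]
  refine Finset.sum_congr rfl fun s _ => ?_
  by_cases hs : ∀ i, i ∉ A → s i = ∅
  · rw [if_pos hs]
    refine Finset.prod_congr rfl fun i _ => ?_
    by_cases hi : i ∈ A
    · simp only [hi, if_true]
      unfold nr
      rw [Finset.prod_inv_distrib]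
    · rw [hs i hi]
      simp [nr]
  · rw [if_neg hs]
    push Not at hs
    obtain ⟨i, hi, hne⟩ := hs
    symm
    apply Finset.prod_eq_zero (Finset.mem_univ i)
    obtain ⟨v, hv⟩ := hne
    apply Finset.prod_eq_zero hv
    simp [hi]

theorem un_good (D : RD0 K p ζ) (N : ℕ) (E : Finset (Pl K)) (y : ℝ) :
    UN D N E y = UN D N (E.filter fun v => D.Gd v) y := by
  have h1 : (Fintype.piFinset fun _ : Fin N => GF D y).filter (fun n =>
      Dj n ∧ (∀ i, Disjoint (n i) E) ∧ ∏ i, nr (n i) ≤ y) =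
      (Fintype.piFinset fun _ : Fin N => GF D y).filter (fun n =>
      Dj n ∧ (∀ i, Disjoint (n i) (E.filter fun v => D.Gd v)) ∧ ∏ i, nr (n i) ≤ y) := by
    ext n
    rw [bud_mem_UT, bud_mem_UT]
    constructor
    · rintro ⟨h1, h2, h3, h4⟩
      exact ⟨h1, h2, fun i => Finset.disjoint_of_subset_right (Finset.filter_subset _ _) (h3 i), h4⟩
    · rintro ⟨h1, h2, h3, h4⟩
      refine ⟨h1, h2, fun i => ?_, h4⟩
      rw [Finset.disjoint_left]
      intro v hv hvE
      exact Finset.disjoint_left.1 (h3 i) hv (Finset.mem_filter.2 ⟨hvE, h1 i v hv⟩)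
  unfold UN
  rw [h1]

theorem un_small_one (D : RD0 K p ζ) : ∃ C : ℝ, 0 < C ∧ ∀ y z : ℝ, 1 ≤ y → 1 ≤ z →
    (((Fintype.piFinset fun _ : Fin 1 => GF D y).filter fun n =>
      Dj n ∧ ∏ i, nr (n i) ≤ y ∧ ∃ i, nr (n i) ≤ z).card : ℝ) ≤ C * z := by
  obtain ⟨C, hC, h⟩ := af_card K
  refine ⟨C, hC, fun y z _ hz => le_trans ?_ (h z hz)⟩
  have h1 : ((Fintype.piFinset fun _ : Fin 1 => GF D y).filter fun n =>
      Dj n ∧ ∏ i, nr (n i) ≤ y ∧ ∃ i, nr (n i) ≤ z).card ≤ (AF K z).card := by
    apply Finset.card_le_card_of_injOn (fun n => n 0)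
    · intro n hn
      rw [Finset.mem_coe, Finset.mem_filter] at hn
      obtain ⟨i, hi⟩ := hn.2.2.2
      rw [Finset.mem_coe, mem_AF]
      have h2 : i = 0 := Subsingleton.elim _ _
      rw [h2] at hi
      exact hi
    · intro n _ n' _ hnn
      funext i
      have h2 : i = 0 := Subsingleton.elim _ _
      rw [h2]
      exact hnn
  exact_mod_cast h1

theorem bud_small_i (D : RD0 K p ζ) (N : ℕ) (hN : 2 ≤ N) (i : Fin N) : ∃ C : ℝ, 0 < C ∧
    ∀ y z : ℝ, 1 ≤ y → 1 ≤ z →
    (((Fintype.piFinset fun _ : Fin N => GF D y).filter fun n =>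
      ∏ i, nr (n i) ≤ y ∧ nr (n i) ≤ z).card : ℝ) ≤
      C * (1 + Real.log z) * y * (1 + Real.log y) ^ (N - 2) := by
  have hne : Nonempty {j : Fin N // j ≠ i} := by
    have h1 : 1 < Fintype.card (Fin N) := by rw [Fintype.card_fin]; omega
    obtain ⟨j, hj⟩ := Fintype.exists_ne_of_one_lt_card h1 i
    exact ⟨⟨j, hj⟩⟩
  obtain ⟨C, hC, h⟩ := af_tup_one K {j : Fin N // j ≠ i}
  obtain ⟨C', hC', h'⟩ := af_inv K
  have hcard : Fintype.card {j : Fin N // j ≠ i} - 1 = N - 2 := by
    rw [Fintype.card_subtype_compl, Fintype.card_fin, Fintype.card_subtype_eq]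
    omega
  rw [hcard] at h
  refine ⟨C * C', by positivity, fun y z hy hz => ?_⟩
  have hLy : 0 ≤ Real.log y := Real.log_nonneg hy
  set T := (Fintype.piFinset fun _ : Fin N => GF D y).filter fun n =>
      ∏ i, nr (n i) ≤ y ∧ nr (n i) ≤ z with hT
  have h1 : T.card = ∑ m ∈ AF K z, (T.filter fun n => n i = m).card := by
    apply Finset.card_eq_sum_card_fiberwise
    intro n hn
    rw [Finset.mem_coe, hT, Finset.mem_filter] at hn
    rw [Finset.mem_coe, mem_AF]
    exact hn.2.2
  have h2 : ∀ m ∈ AF K z, ((T.filter fun n => n i = m).card : ℝ) ≤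
      C * y * (1 + Real.log y) ^ (N - 2) * (nr m)⁻¹ := by
    intro m _
    have hm1 := one_le_nr m
    have hm0 : 0 < nr m := by linarith
    have hsplit : ∀ n : Fin N → Finset (Pl K), n i = m →
        ∏ j, nr (n j) = nr m * ∏ j : {j : Fin N // j ≠ i}, nr (n j) := by
      intro n hn
      rw [← Finset.mul_prod_erase Finset.univ (fun j => nr (n j)) (Finset.mem_univ i), hn]
      congr 1
      exact Finset.prod_subtype (Finset.univ.erase i) (fun j => by simp) (fun j => nr (n j))
    have hsub : ∀ n ∈ T.filter (fun n => n i = m),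
        ∏ j : {j : Fin N // j ≠ i}, nr (n j) ≤ y / nr m := by
      intro n hn
      rw [Finset.mem_filter, hT, Finset.mem_filter] at hn
      rw [le_div_iff₀ hm0, mul_comm, ← hsplit n hn.2]
      exact hn.1.2.1
    rcases lt_or_ge y (nr m) with hlt | hge
    · have h3 : T.filter (fun n => n i = m) = ∅ := by
        rw [Finset.eq_empty_iff_forall_notMem]
        intro n hn
        have h4 := hsub n hn
        have h5 : y / nr m < 1 := by rwa [div_lt_one hm0]
        have h6 : 1 ≤ ∏ j : {j : Fin N // j ≠ i}, nr (n j) := atupa_prod_one (fun j : {j : Fin N // j ≠ i} => n j) _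
        linarith
      rw [h3, Finset.card_empty, Nat.cast_zero]
      positivity
    · have hy' : 1 ≤ y / nr m := by rwa [one_le_div hm0]
      have h3 : (T.filter fun n => n i = m).card ≤
          ((Fintype.piFinset fun _ : {j : Fin N // j ≠ i} => AF K (y / nr m)).filter
            (fun g => ∏ a, nr (g a) ≤ y / nr m)).card := by
        apply Finset.card_le_card_of_injOn (fun n (j : {j : Fin N // j ≠ i}) => n j)
        · intro n hn
          have h4 := hsub n hn
          rw [Finset.mem_coe, Finset.mem_filter, Fintype.mem_piFinset]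
          refine ⟨fun j => ?_, h4⟩
          rw [mem_AF]
          exact (atupa_le_prod (fun j : {j : Fin N // j ≠ i} => n j) j).trans h4
        · intro n hn n' hn' hnn
          rw [Finset.mem_coe, Finset.mem_filter] at hn hn'
          funext j
          by_cases hj : j = i
          · rw [hj, hn.2, hn'.2]
          · exact congrFun hnn ⟨j, hj⟩
      have h4 := h (y / nr m) hy'
      have h5 : Real.log (y / nr m) ≤ Real.log y := by
        apply Real.log_le_log (by positivity)
        exact div_le_self (by linarith) hm1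
      have h6 : 0 ≤ Real.log (y / nr m) := Real.log_nonneg hy'
      calc ((T.filter fun n => n i = m).card : ℝ) ≤
          C * (y / nr m) * (1 + Real.log (y / nr m)) ^ (N - 2) := by
            refine le_trans (Nat.cast_le.2 h3) (le_trans (le_of_eq ?_) h4)
            congr 2
            ext g
            simp only [Finset.mem_filter, Fintype.mem_piFinset]
        _ ≤ C * (y / nr m) * (1 + Real.log y) ^ (N - 2) := by gcongr
        _ = _ := by rw [div_eq_mul_inv]; ring
  rw [h1]
  push_cast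
  refine (Finset.sum_le_sum h2).trans ?_
  rw [← Finset.mul_sum]
  have h3 := h' z hz
  calc C * y * (1 + Real.log y) ^ (N - 2) * ∑ m ∈ AF K z, (nr m)⁻¹
      ≤ C * y * (1 + Real.log y) ^ (N - 2) * (C' * (1 + Real.log z)) := by gcongr
    _ = _ := by ring

theorem un_small_two (D : RD0 K p ζ) (N : ℕ) (hN : 2 ≤ N) : ∃ C : ℝ, 0 < C ∧
    ∀ y z : ℝ, 1 ≤ y → 1 ≤ z →
    (((Fintype.piFinset fun _ : Fin N => GF D y).filter fun n =>
      Dj n ∧ ∏ i, nr (n i) ≤ y ∧ ∃ i, nr (n i) ≤ z).card : ℝ) ≤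
      C * (1 + Real.log z) * y * (1 + Real.log y) ^ (N - 2) := by
  choose C hC h using bud_small_i D N hN
  have hne : (Finset.univ : Finset (Fin N)).Nonempty := ⟨⟨0, by omega⟩, Finset.mem_univ _⟩
  refine ⟨∑ i, C i, Finset.sum_pos (fun i _ => hC i) hne, fun y z hy hz => ?_⟩
  have h1 : ((Fintype.piFinset fun _ : Fin N => GF D y).filter fun n =>
      Dj n ∧ ∏ i, nr (n i) ≤ y ∧ ∃ i, nr (n i) ≤ z) ⊆
      Finset.univ.biUnion fun i => (Fintype.piFinset fun _ : Fin N => GF D y).filter fun n =>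
      ∏ i, nr (n i) ≤ y ∧ nr (n i) ≤ z := by
    intro n hn
    rw [Finset.mem_filter] at hn
    obtain ⟨i, hi⟩ := hn.2.2.2
    rw [Finset.mem_biUnion]
    exact ⟨i, Finset.mem_univ _, Finset.mem_filter.2 ⟨hn.1, hn.2.2.1, hi⟩⟩
  have h2 := (Finset.card_le_card h1).trans Finset.card_biUnion_le
  calc (((Fintype.piFinset fun _ : Fin N => GF D y).filter fun n =>
      Dj n ∧ ∏ i, nr (n i) ≤ y ∧ ∃ i, nr (n i) ≤ z).card : ℝ)
      ≤ ∑ i : Fin N, (((Fintype.piFinset fun _ : Fin N => GF D y).filter fun n =>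
      ∏ i, nr (n i) ≤ y ∧ nr (n i) ≤ z).card : ℝ) := by exact_mod_cast h2
    _ ≤ ∑ i, C i * (1 + Real.log z) * y * (1 + Real.log y) ^ (N - 2) :=
        Finset.sum_le_sum fun i _ => h i y z hy hz
    _ = _ := by
        rw [Finset.sum_mul, Finset.sum_mul, Finset.sum_mul]

end H63.MA
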