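import Pool.Agent.H63.MB.BUc
import Pool.Agent.H63.MB.BUd

/-!
# MB-BUE: the density of disjoint tuples of sets of good primes

`un_lim` (`N ≥ 1`): for every finite set `E` of primes `UN D N E y / (y (log y)^{N-1})` converges, to `u E` say. `un_lim_rel`: if `Z` consists of good primes, the limits satisfy `u ∅ = u Z * ∏_{v ∈ Z} (1 + N / nm v)`.

Proof of `un_lim`. For `T ≥ 3` let `F = F_T = E ∪ S0 ∪ {v : nm v ≤ T}`. By `un_dec` (`Z = E`) `UN D N E y = ∑_{s ∈ SD D N (F ∖ E)} UN D N F (y / ∏ nr (s i))`. Let `g_T(y) = ∑_s TI K F N (y / ∏ nr (s i))`. Terms with `y < ∏ nr (s i)` are `0` in both sums (`N ≥ 1`: a factor `< 1` is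
impossible), so by `un_ti`, `|UN D N E y - g_T(y)| ≤ C T^{-1/4} y (1 + log y)^{N-1} ∑_s ∏ 1/nr (s i)`, and by `sd_sum` (`A` = everything) `∑_s ∏ 1/nr (s i) ≤ ∏_{v ∈ F} (1 + 1/nm v)^N ≤ ∏_{v ∈ E ∪ S0} 2^N * ∏_{nm v ≤ T} (1 - 1/nm v)^{-N} ≤ C_E (log T)^{3N}` (`mert_low`).
By `ti_lim`, `g_T(y) / (y (log y)^{N-1})` converges as `y → ∞` (`TI K F N (y/c) / (y (log y)^{N-1}) → τ / c`). So for every `ε > 0` there is `T` such that `UN D N E y / (y (log y)^{N-1})` differs by at most `ε` from a convergent function for all large `y`; hence it is Cauchy for `y → ∞`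
and converges (`cauchySeq`/`Cauchy (map f atTop)`, completeness of `ℝ`).
Proof of `un_lim_rel`: `un_dec` with `∅ ⊆ Z`: `UN D N ∅ y = ∑_{s ∈ SD D N Z} UN D N Z (y / ∏ nr (s i))`; divide by `y (log y)^{N-1}`, let `y → ∞` and use `sd_sum` (`A` = everything).
-/

set_option autoImplicit false

open scoped NumberField
open IsDedekindDomain Filter Topology
open scoped Classical

noncomputable section

namespace H63.MA

variable {K : Type} [Field K] [NumberField K] {p : ℕ} {ζ : K}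

theorem bue_cauchy (f : ℝ → ℝ) (h : ∀ ε : ℝ, 0 < ε → ∃ (g : ℝ → ℝ) (l : ℝ),
    Tendsto g atTop (𝓝 l) ∧ ∀ᶠ y in atTop, |f y - g y| ≤ ε) :
    ∃ u : ℝ, Tendsto f atTop (𝓝 u) := by
  have hc : Cauchy (map f atTop) := by
    rw [Metric.cauchy_iff]
    refine ⟨inferInstance, fun ε hε => ?_⟩
    obtain ⟨g, l, hg, hfg⟩ := h (ε / 6) (by positivity)
    have h1 := (Metric.tendsto_nhds.1 hg) (ε / 6) (by positivity)
    refine ⟨f '' {y | |f y - g y| ≤ ε / 6 ∧ dist (g y) l < ε / 6}, ?_, ?_⟩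
    · rw [mem_map]
      filter_upwards [hfg, h1] with y hy1 hy2
      exact ⟨y, ⟨hy1, hy2⟩, rfl⟩
    · rintro _ ⟨x, ⟨hx1, hx2⟩, rfl⟩ _ ⟨y, ⟨hy1, hy2⟩, rfl⟩
      rw [Real.dist_eq] at *
      rw [abs_le] at hx1 hy1
      rw [abs_lt] at hx2 hy2 ⊢
      obtain ⟨a1, a2⟩ := hx1
      obtain ⟨b1, b2⟩ := hy1
      obtain ⟨c1, c2⟩ := hx2
      obtain ⟨d1, d2⟩ := hy2
      constructor <;> linarith
  obtain ⟨u, hu⟩ := CompleteSpace.complete hc
  exact ⟨u, hu⟩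

theorem bue_scale (h : ℝ → ℝ) (k : ℕ) (τ c : ℝ) (hc : 0 < c)
    (hh : Tendsto (fun y : ℝ => h y / (y * Real.log y ^ k)) atTop (𝓝 τ)) :
    Tendsto (fun y : ℝ => h (y / c) / (y * Real.log y ^ k)) atTop (𝓝 (τ * c⁻¹)) := by
  have hdiv : Tendsto (fun y : ℝ => y / c) atTop atTop := tendsto_id.atTop_div_const hc
  have h1 : Tendsto (fun y : ℝ => h (y / c) / (y / c * Real.log (y / c) ^ k)) atTop (𝓝 τ) :=
    hh.comp hdiv
  have hlog : Tendsto (fun y : ℝ => Real.log y) atTop atTop := Real.tendsto_log_atTop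
  have h2 : Tendsto (fun y : ℝ => 1 - Real.log c / Real.log y) atTop (𝓝 (1 - 0)) :=
    tendsto_const_nhds.sub (hlog.const_div_atTop _)
  have h3 : Tendsto (fun y : ℝ => h (y / c) / (y / c * Real.log (y / c) ^ k) *
      (c⁻¹ * (1 - Real.log c / Real.log y) ^ k)) atTop (𝓝 (τ * (c⁻¹ * (1 - 0) ^ k))) :=
    h1.mul (tendsto_const_nhds.mul (h2.pow k))
  rw [sub_zero, one_pow, mul_one] at h3
  refine h3.congr' ?_
  filter_upwards [eventually_gt_atTop (max c 1)] with y hy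
  have hyc : c < y := lt_of_le_of_lt (le_max_left _ _) hy
  have hy1 : 1 < y := lt_of_le_of_lt (le_max_right _ _) hy
  have hy0 : 0 < y := by linarith
  have hl : 0 < Real.log y := Real.log_pos hy1
  have hyc1 : 1 < y / c := by rwa [lt_div_iff₀ hc, one_mul]
  have hlc : 0 < Real.log (y / c) := Real.log_pos hyc1
  have e1 : 1 - Real.log c / Real.log y = Real.log (y / c) / Real.log y := by
    rw [Real.log_div hy0.ne' hc.ne']
    field_simp
  rw [e1, div_pow]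
  have hne : Real.log (y / c) ^ k ≠ 0 := (pow_pos hlc k).ne'
  have hne2 : Real.log y ^ k ≠ 0 := (pow_pos hl k).ne'
  field_simp

theorem bue_bern (N : ℕ) (n : ℕ) (hn : 2 ≤ n) :
    1 + (N : ℝ) / n ≤ ((1 - (n : ℝ)⁻¹)⁻¹) ^ N := by
  have hn0 : (2 : ℝ) ≤ n := by exact_mod_cast hn
  have hx0 : (0 : ℝ) < (n : ℝ)⁻¹ := by positivity
  have hx1 : (n : ℝ)⁻¹ ≤ 1 / 2 := by
    rw [inv_le_comm₀ (by linarith) (by norm_num)]
    norm_num
    linarith
  have h1 : 1 + (N : ℝ) * (n : ℝ)⁻¹ ≤ (1 + (n : ℝ)⁻¹) ^ N :=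
    one_add_mul_le_pow (by linarith) N
  have h2 : 1 + (n : ℝ)⁻¹ ≤ (1 - (n : ℝ)⁻¹)⁻¹ := by
    obtain ⟨x, hx⟩ : ∃ x : ℝ, x = (n : ℝ)⁻¹ := ⟨_, rfl⟩
    rw [← hx] at hx0 hx1 ⊢
    rw [inv_eq_one_div, le_div_iff₀ (by linarith)]
    nlinarith
  calc 1 + (N : ℝ) / n = 1 + (N : ℝ) * (n : ℝ)⁻¹ := by rw [div_eq_mul_inv]
    _ ≤ (1 + (n : ℝ)⁻¹) ^ N := h1
    _ ≤ _ := pow_le_pow_left₀ (by linarith) h2 N

theorem bue_fac (v : Pl K) : 0 < 1 - (nm v : ℝ)⁻¹ ∧ 1 - (nm v : ℝ)⁻¹ ≤ 1 := by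
  have h1 : (1 : ℝ) < nm v := by exact_mod_cast one_lt_nm v
  have h2 := inv_lt_one_of_one_lt₀ h1
  have h3 : (0 : ℝ) < (nm v : ℝ)⁻¹ := by positivity
  constructor <;> linarith

theorem bue_prod_pos (F : Finset (Pl K)) : 0 < ∏ v ∈ F, (1 - (nm v : ℝ)⁻¹) :=
  Finset.prod_pos fun v _ => (bue_fac v).1

theorem bue_sd_le (D : RD0 K p ζ) (N : ℕ) (W F : Finset (Pl K)) (hW : W ⊆ F) :
    ∑ s ∈ SD D N W, (∏ i, nr (s i))⁻¹ ≤ ((∏ v ∈ F, (1 - (nm v : ℝ)⁻¹))⁻¹) ^ N := by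
  have h1 := sd_sum D N W Finset.univ
  have h2 : (SD D N W).filter (fun s => ∀ i, i ∉ (Finset.univ : Finset (Fin N)) → s i = ∅) =
      SD D N W := by
    apply Finset.filter_true_of_mem
    intro s _ i hi
    exact absurd (Finset.mem_univ i) hi
  rw [h2, Finset.card_univ, Fintype.card_fin] at h1
  have h3 : ∑ s ∈ SD D N W, (∏ i, nr (s i))⁻¹ = ∑ s ∈ SD D N W, ∏ i, (nr (s i))⁻¹ := by
    refine Finset.sum_congr rfl fun s _ => ?_
    rw [Finset.prod_inv_distrib]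
  rw [h3, h1, ← Finset.prod_inv_distrib, ← Finset.prod_pow]
  have hsub : W.filter (fun v => D.Gd v) ⊆ F := (Finset.filter_subset _ _).trans hW
  rw [← Finset.prod_sdiff hsub]
  have h4 : ∏ v ∈ W.filter (fun v => D.Gd v), (1 + (N : ℝ) / nm v) ≤
      ∏ v ∈ W.filter (fun v => D.Gd v), ((1 - (nm v : ℝ)⁻¹)⁻¹) ^ N := by
    refine Finset.prod_le_prod (fun v _ => by positivity) fun v _ => ?_
    exact bue_bern N (nm v) (one_lt_nm v)
  have h5 : 1 ≤ ∏ v ∈ F \ W.filter (fun v => D.Gd v), ((1 - (nm v : ℝ)⁻¹)⁻¹) ^ N := by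
    have h6 : ∀ A : Finset (Pl K), 1 ≤ ∏ v ∈ A, ((1 - (nm v : ℝ)⁻¹)⁻¹) ^ N := by
      intro A
      induction A using Finset.induction_on with
      | empty => simp
      | insert v A hv ih =>
        rw [Finset.prod_insert hv]
        refine one_le_mul_of_one_le_of_one_le (one_le_pow₀ ?_) ih
        rw [one_le_inv₀ (bue_fac v).1]
        exact (bue_fac v).2
    exact h6 _
  have h7 : 0 ≤ ∏ v ∈ W.filter (fun v => D.Gd v), ((1 - (nm v : ℝ)⁻¹)⁻¹) ^ N :=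
    Finset.prod_nonneg fun v _ => pow_nonneg (inv_nonneg.2 (bue_fac v).1.le) N
  calc _ ≤ _ := h4
    _ = 1 * ∏ v ∈ W.filter (fun v => D.Gd v), ((1 - (nm v : ℝ)⁻¹)⁻¹) ^ N := (one_mul _).symm
    _ ≤ _ := mul_le_mul_of_nonneg_right h5 h7

theorem bue_union (A B : Finset (Pl K)) :
    (∏ v ∈ A, (1 - (nm v : ℝ)⁻¹)) * (∏ v ∈ B, (1 - (nm v : ℝ)⁻¹)) ≤
      ∏ v ∈ A ∪ B, (1 - (nm v : ℝ)⁻¹) := by
  have h1 : A ∪ B = A ∪ (B \ A) := Finset.union_sdiff_self_eq_union.symm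
  rw [h1, Finset.prod_union Finset.disjoint_sdiff]
  apply mul_le_mul_of_nonneg_left _ (bue_prod_pos A).le
  have h2 : B \ A ⊆ B := Finset.sdiff_subset
  rw [← Finset.prod_sdiff h2]
  calc _ ≤ 1 * ∏ v ∈ B \ A, (1 - (nm v : ℝ)⁻¹) :=
        mul_le_mul_of_nonneg_right (acntA_prod_le _) (bue_prod_pos _).le
    _ = _ := one_mul _

theorem bue_small_un (D : RD0 K p ζ) (N : ℕ) (F : Finset (Pl K)) {y : ℝ} (hy : y < 1) :
    UN D N F y = 0 := by
  unfold UN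
  rw [Nat.cast_eq_zero, Finset.card_eq_zero, Finset.filter_eq_empty_iff]
  rintro n _ ⟨_, _, h⟩
  have := atupa_prod_one n Finset.univ
  linarith

theorem bue_small_ti (F : Finset (Pl K)) (N : ℕ) {y : ℝ} (hy0 : 0 ≤ y) (hy : y < 1) :
    TI K F N y = 0 := by
  unfold TI
  rw [Nat.cast_eq_zero, Finset.card_eq_zero, Finset.filter_eq_empty_iff]
  intro I hI h
  rw [Fintype.mem_piFinset] at hI
  have h1 : ∀ i, (1 : ℝ) ≤ (Ideal.absNorm (I i) : ℝ) := by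
    intro i
    have h2 := hI i
    rw [acG, Finset.mem_filter, mem_IN hy0] at h2
    exact asq_norm_pos h2.1.2
  have h3 : (1 : ℝ) ≤ ∏ i, (Ideal.absNorm (I i) : ℝ) := by
    have : ∏ i : Fin N, (1 : ℝ) ≤ ∏ i, (Ideal.absNorm (I i) : ℝ) :=
      Finset.prod_le_prod (fun _ _ => zero_le_one) fun i _ => h1 i
    rwa [Finset.prod_const_one] at this
  linarith

theorem bue_diff (D : RD0 K p ζ) (N : ℕ) (F : Finset (Pl K)) (Q : ℝ) (hQ : 0 ≤ Q)
    (h : ∀ y : ℝ, 1 ≤ y → |UN D N F y - TI K F N y| ≤ Q * y * (1 + Real.log y) ^ (N - 1))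
    (y c : ℝ) (hy : 1 ≤ y) (hc : 1 ≤ c) :
    |UN D N F (y / c) - TI K F N (y / c)| ≤ Q * y * (1 + Real.log y) ^ (N - 1) * c⁻¹ := by
  have hc0 : 0 < c := by linarith
  have hly : 0 ≤ Real.log y := Real.log_nonneg hy
  by_cases h1 : 1 ≤ y / c
  · have h2 := h (y / c) h1
    have h3 : Real.log (y / c) ≤ Real.log y := by
      apply Real.log_le_log (by linarith)
      rw [div_le_iff₀ hc0]
      nlinarith
    have h4 : 0 ≤ Real.log (y / c) := Real.log_nonneg h1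
    calc _ ≤ _ := h2
      _ ≤ Q * (y / c) * (1 + Real.log y) ^ (N - 1) := by
        apply mul_le_mul_of_nonneg_left _ (by positivity)
        exact pow_le_pow_left₀ (by linarith) (by linarith) _
      _ = _ := by rw [div_eq_mul_inv]; ring
  · rw [bue_small_un D N F (lt_of_not_ge h1), bue_small_ti F N (by positivity) (lt_of_not_ge h1),
      sub_zero, abs_zero]
    positivity

theorem bue_small_T (A : ℝ) (M : ℝ) (ε : ℝ) (hε : 0 < ε) :
    ∃ T : ℝ, 3 ≤ T ∧ A * T ^ (-(1 / 4) : ℝ) * Real.log T ^ M ≤ ε := by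
  have h1 : Tendsto (fun T : ℝ => Real.log T ^ M / T ^ (1 / 4 : ℝ)) atTop (𝓝 0) :=
    (isLittleO_log_rpow_rpow_atTop M (by norm_num : (0 : ℝ) < 1 / 4)).tendsto_div_nhds_zero
  have h2 : Tendsto (fun T : ℝ => A * (Real.log T ^ M / T ^ (1 / 4 : ℝ))) atTop (𝓝 (A * 0)) :=
    h1.const_mul A
  rw [mul_zero] at h2
  have h3 := (h2.eventually (gt_mem_nhds hε)).and (eventually_ge_atTop (3 : ℝ))
  obtain ⟨T, hT1, hT2⟩ := h3.exists
  refine ⟨T, hT2, ?_⟩
  have hT0 : 0 < T := by linarith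
  have e1 : A * T ^ (-(1 / 4) : ℝ) * Real.log T ^ M = A * (Real.log T ^ M / T ^ (1 / 4 : ℝ)) := by
    rw [Real.rpow_neg hT0.le]
    ring
  rw [e1]
  exact hT1.le

theorem un_lim (D : RD0 K p ζ) (N : ℕ) (hN : 1 ≤ N) (E : Finset (Pl K)) :
    ∃ u : ℝ, 0 ≤ u ∧
      Tendsto (fun y : ℝ => UN D N E y / (y * Real.log y ^ (N - 1))) atTop (𝓝 u) := by
  have hex : ∃ u : ℝ, Tendsto (fun y : ℝ => UN D N E y / (y * Real.log y ^ (N - 1))) atTop
      (𝓝 u) := by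
    apply bue_cauchy
    intro ε hε
    obtain ⟨C, hC, hun⟩ := un_ti D N hN
    obtain ⟨cm, hcm, hmert⟩ := mert_low K
    obtain ⟨P0, hP0⟩ : ∃ P0 : ℝ, P0 = ∏ v ∈ E ∪ D.S0, (1 - (nm v : ℝ)⁻¹) := ⟨_, rfl⟩
    have hP0pos : 0 < P0 := by
      rw [hP0]
      exact bue_prod_pos _
    obtain ⟨A, hA⟩ : ∃ A : ℝ, A = C * ((P0 * cm)⁻¹) ^ N * 2 ^ (N - 1) := ⟨_, rfl⟩
    obtain ⟨T, hT3, hT⟩ := bue_small_T A (3 * (N : ℝ)) ε hε
    have hT1 : 1 ≤ T := by linarith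
    have hT0 : 0 < T := by linarith
    have hlT : 0 < Real.log T := Real.log_pos (by linarith)
    obtain ⟨G, hG⟩ : ∃ G : Finset (Pl K), G = (acntb_fin K T).toFinset := ⟨_, rfl⟩
    have hGm : ∀ v, v ∈ G ↔ (nm v : ℝ) ≤ T := by
      intro v
      rw [hG, Set.Finite.mem_toFinset]
      rfl
    obtain ⟨F, hF⟩ : ∃ F : Finset (Pl K), F = (E ∪ D.S0) ∪ G := ⟨_, rfl⟩
    have hEF : E ⊆ F := by
      rw [hF]
      exact (Finset.subset_union_left).trans Finset.subset_union_left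
    have hS : ∀ v ∈ D.S0, v ∈ F := by
      intro v hv
      rw [hF, Finset.mem_union, Finset.mem_union]
      exact Or.inl (Or.inr hv)
    have hTF : ∀ v : Pl K, (nm v : ℝ) ≤ T → v ∈ F := by
      intro v hv
      rw [hF, Finset.mem_union]
      exact Or.inr ((hGm v).2 hv)
    have hunF := hun T hT1 F hS hTF
    obtain ⟨τ, hτ⟩ := ti_lim K F N hN
    have hsum : ∑ s ∈ SD D N (F \ E), (∏ i, nr (s i))⁻¹ ≤
        ((P0 * cm)⁻¹) ^ N * Real.log T ^ (3 * (N : ℝ)) := by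
      refine (bue_sd_le D N (F \ E) F Finset.sdiff_subset).trans ?_
      have h1 : P0 * (cm * Real.log T ^ (-3 : ℝ)) ≤ ∏ v ∈ F, (1 - (nm v : ℝ)⁻¹) := by
        rw [hF]
        refine le_trans ?_ (bue_union _ _)
        rw [← hP0]
        apply mul_le_mul_of_nonneg_left _ hP0pos.le
        exact hmert T hT3 G fun v hv => (hGm v).1 hv
      have h2 : 0 < P0 * (cm * Real.log T ^ (-3 : ℝ)) := by positivity
      have h3 : (∏ v ∈ F, (1 - (nm v : ℝ)⁻¹))⁻¹ ≤ (P0 * (cm * Real.log T ^ (-3 : ℝ)))⁻¹ :=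
        inv_anti₀ h2 h1
      refine (pow_le_pow_left₀ (inv_nonneg.2 (bue_prod_pos F).le) h3 N).trans (le_of_eq ?_)
      rw [← mul_assoc, mul_inv, mul_pow]
      congr 1
      rw [Real.rpow_neg hlT.le, inv_inv, ← Real.rpow_mul_natCast hlT.le]
    refine ⟨fun y => (∑ s ∈ SD D N (F \ E), TI K F N (y / ∏ i, nr (s i))) /
      (y * Real.log y ^ (N - 1)), ∑ s ∈ SD D N (F \ E), τ * (∏ i, nr (s i))⁻¹, ?_, ?_⟩
    · have h1 : Tendsto (fun y : ℝ => ∑ s ∈ SD D N (F \ E), TI K F N (y / ∏ i, nr (s i)) /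
          (y * Real.log y ^ (N - 1))) atTop (𝓝 (∑ s ∈ SD D N (F \ E),
            τ * (∏ i, nr (s i))⁻¹)) := by
        refine tendsto_finset_sum _ fun s _ => ?_
        exact bue_scale _ _ τ _ (lt_of_lt_of_le one_pos (atupa_prod_one s Finset.univ)) hτ
      refine h1.congr fun y => ?_
      rw [Finset.sum_div]
    · filter_upwards [eventually_ge_atTop (Real.exp 1)] with y hy
      have hy0 : 0 < y := lt_of_lt_of_le (Real.exp_pos 1) hy
      have hy1 : 1 ≤ y := le_trans (by rw [← Real.exp_zero]; exact Real.exp_le_exp.2 (by norm_num)) hy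
      have hly : 1 ≤ Real.log y := by
        rw [Real.le_log_iff_exp_le hy0]
        exact hy
      have hden : 0 < y * Real.log y ^ (N - 1) := by positivity
      rw [← sub_div, abs_div, abs_of_pos hden, div_le_iff₀ hden]
      rw [un_dec D N E F hEF y, ← Finset.sum_sub_distrib]
      have hQ : 0 ≤ C * T ^ (-(1 / 4) : ℝ) := by positivity
      calc |∑ s ∈ SD D N (F \ E), (UN D N F (y / ∏ i, nr (s i)) -
            TI K F N (y / ∏ i, nr (s i)))|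
          ≤ ∑ s ∈ SD D N (F \ E), |UN D N F (y / ∏ i, nr (s i)) -
            TI K F N (y / ∏ i, nr (s i))| := Finset.abs_sum_le_sum_abs _ _
        _ ≤ ∑ s ∈ SD D N (F \ E), C * T ^ (-(1 / 4) : ℝ) * y * (1 + Real.log y) ^ (N - 1) *
              (∏ i, nr (s i))⁻¹ := Finset.sum_le_sum fun s _ =>
            bue_diff D N F _ hQ hunF y _ hy1 (atupa_prod_one s Finset.univ)
        _ = C * T ^ (-(1 / 4) : ℝ) * y * (1 + Real.log y) ^ (N - 1) *
              ∑ s ∈ SD D N (F \ E), (∏ i, nr (s i))⁻¹ := by rw [Finset.mul_sum]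
        _ ≤ C * T ^ (-(1 / 4) : ℝ) * y * (2 * Real.log y) ^ (N - 1) *
              (((P0 * cm)⁻¹) ^ N * Real.log T ^ (3 * (N : ℝ))) := by
            apply mul_le_mul _ hsum (Finset.sum_nonneg fun s _ =>
              inv_nonneg.2 (le_trans zero_le_one (atupa_prod_one s Finset.univ))) (by positivity)
            apply mul_le_mul_of_nonneg_left _ (by positivity)
            exact pow_le_pow_left₀ (by linarith) (by linarith) _
        _ = (A * T ^ (-(1 / 4) : ℝ) * Real.log T ^ (3 * (N : ℝ))) *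
              (y * Real.log y ^ (N - 1)) := by
            rw [hA, mul_pow]
            ring
        _ ≤ ε * (y * Real.log y ^ (N - 1)) := mul_le_mul_of_nonneg_right hT hden.le
  obtain ⟨u, hu⟩ := hex
  refine ⟨u, ?_, hu⟩
  refine ge_of_tendsto hu ?_
  filter_upwards [eventually_ge_atTop (1 : ℝ)] with y hy
  have : 0 ≤ Real.log y := Real.log_nonneg hy
  have h0 : 0 ≤ UN D N E y := by
    unfold UN
    exact Nat.cast_nonneg _
  positivity

theorem un_lim_rel (D : RD0 K p ζ) (N : ℕ) (hN : 1 ≤ N) (Z : Finset (Pl K))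
    (hZ : ∀ v ∈ Z, D.Gd v) (u u' : ℝ)
    (h : Tendsto (fun y : ℝ => UN D N ∅ y / (y * Real.log y ^ (N - 1))) atTop (𝓝 u))
    (h' : Tendsto (fun y : ℝ => UN D N Z y / (y * Real.log y ^ (N - 1))) atTop (𝓝 u')) :
    u = u' * ∏ v ∈ Z, (1 + (N : ℝ) / nm v) := by
  have h1 : Tendsto (fun y : ℝ => ∑ s ∈ SD D N (Z \ ∅), UN D N Z (y / ∏ i, nr (s i)) /
      (y * Real.log y ^ (N - 1))) atTop (𝓝 (∑ s ∈ SD D N (Z \ ∅),
        u' * (∏ i, nr (s i))⁻¹)) := by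
    refine tendsto_finset_sum _ fun s _ => ?_
    exact bue_scale _ _ u' _ (lt_of_lt_of_le one_pos (atupa_prod_one s Finset.univ)) h'
  have h2 : Tendsto (fun y : ℝ => UN D N ∅ y / (y * Real.log y ^ (N - 1))) atTop
      (𝓝 (∑ s ∈ SD D N (Z \ ∅), u' * (∏ i, nr (s i))⁻¹)) := by
    refine h1.congr fun y => ?_
    rw [un_dec D N ∅ Z (Finset.empty_subset _) y, Finset.sum_div]
  rw [tendsto_nhds_unique h h2, ← Finset.mul_sum]
  congr 1
  have h3 := sd_sum D N (Z \ ∅) Finset.univ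
  have h4 : (SD D N (Z \ ∅)).filter (fun s => ∀ i, i ∉ (Finset.univ : Finset (Fin N)) → s i = ∅) =
      SD D N (Z \ ∅) := by
    apply Finset.filter_true_of_mem
    intro s _ i hi
    exact absurd (Finset.mem_univ i) hi
  rw [h4, Finset.card_univ, Fintype.card_fin] at h3
  have h5 : ∑ s ∈ SD D N (Z \ ∅), (∏ i, nr (s i))⁻¹ =
      ∑ s ∈ SD D N (Z \ ∅), ∏ i, (nr (s i))⁻¹ := by
    refine Finset.sum_congr rfl fun s _ => ?_
    rw [Finset.prod_inv_distrib]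
  rw [h5, h3, Finset.sdiff_empty, Finset.filter_true_of_mem hZ]

end H63.MA
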