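import Pool.Agent.H63.MB.BUe

/-!
# MB-BUF: many primes with nontrivial class

`div_q`: for `κ ≠ 0` and every `M` there is a finite set `Z` of good primes `v` with `κ · q v ≠ 0` and `∑_{v ∈ Z} 1/nm v ≥ M`.
Proof. Otherwise the set `Z∞` of the good `v` with `κ · q v ≠ 0` has `∑_{v ∈ Z∞} 1/nm v < ∞` (all finite partial sums are `≤ M`). Let `N = 1`. `UN D 1 Z y` is the number of `n ∈ GF y` with `n ∩ Z = ∅` (for a `1`-tuple). Let `u` be the limit of `UN D 1 ∅ y / y` (`un_lim`); `u > 0` by `acntb_one`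
(for `F` = the set of the primes in `S0` or of norm `≤ T₀`, the numbers `UN D 1 ∅ y ≥ #{n ∈ GF y : n ∩ F = ∅, …} ≥ c y`). For every finite `Z ⊆ Z∞` the limit for `Z` is `u ∏_{v ∈ Z} (1 + 1/nm v)^{-1} ≥ u e^{-M} = c' > 0` (`un_lim_rel`). Choose `T` with
`∑_{v ∈ Z∞, nm v > T} 1/nm v ≤ η` where `C η ≤ c'/8` (`C` from `af_card`) and `Z = {v ∈ Z∞ : nm v ≤ T}`. The number of `n ∈ GF y` with `n ∩ Z = ∅` which contain some `v ∈ Z∞` is at most `∑_{v ∈ Z∞, T < nm v ≤ y} C y / nm v ≤ c' y / 8` (`acntc_mem` or: removing `v`, `af_card`). The other `n` with `n ∩ Z = ∅` have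
`∑_{v ∈ n} κ · q v = 0`. So `|∑_{n ∈ GF y, n ∩ Z = ∅} ep(∑_{v ∈ n} κ · q v)| ≥ #{n : n ∩ Z = ∅} - 2 c' y / 8 ≥ c' y / 2` for large `y`; but by `lemA` (`E = ∅`, `F = Z`, `H = 1`, `κ`) it is `≤ C 2^{#Z} y^{1-δ}`. Contradiction.
`div_prod`: for `N ≥ 1`, `κ ≠ 0`, `ε > 0` there is a finite set `Z` of good primes with `κ · q v ≠ 0` and `∏_{v ∈ Z} (1 + (N-1)/nm v) ≤ ε ∏_{v ∈ Z} (1 + N/nm v)`: each quotient of factors is `1 - 1/(nm v + N) ≤ exp(-1/(nm v + N)) ≤ exp(-1/((N+1) nm v))`; take `M` in `div_q` with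
`exp(-M/(N+1)) ≤ ε`.
-/

set_option autoImplicit false

open scoped NumberField
open IsDedekindDomain Filter Topology
open scoped Classical

noncomputable section

namespace H63.MA

variable {K : Type} [Field K] [NumberField K] {p : ℕ} {ζ : K}

/-- the number of finite sets of good primes avoiding `E` -/
theorem buf_UN_one (D : RD0 K p ζ) (E : Finset (Pl K)) (y : ℝ) :
    UN D 1 E y = (((GF D y).filter fun n => Disjoint n E).card : ℝ) := by
  unfold UN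
  congr 1
  refine Finset.card_bij (fun n _ => n 0) ?_ ?_ ?_
  · intro n hn
    rw [Finset.mem_filter, Fintype.mem_piFinset] at hn
    rw [Finset.mem_filter]
    exact ⟨hn.1 0, hn.2.2.1 0⟩
  · intro n _ n' _ h
    funext i
    rw [Subsingleton.elim i 0]
    exact h
  · intro n hn
    rw [Finset.mem_filter] at hn
    refine ⟨fun _ => n, ?_, rfl⟩
    rw [Finset.mem_filter, Fintype.mem_piFinset]
    refine ⟨fun _ => hn.1, ?_, fun _ => hn.2, ?_⟩
    · intro a a' h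
      exact absurd (Subsingleton.elim a a') h
    · have h1 := hn.1
      rw [GF, Finset.mem_filter, mem_AF] at h1
      simpa using h1.1

theorem buf_nm_pos (v : Pl K) : (0 : ℝ) < nm v := by
  have h1 : (1 : ℝ) < nm v := by exact_mod_cast one_lt_nm v
  linarith

theorem buf_nr_single (v : Pl K) : nr ({v} : Finset (Pl K)) = (nm v : ℝ) := by
  unfold nr
  rw [Finset.prod_singleton]

theorem buf_nm_le {v : Pl K} {n : Finset (Pl K)} (h : v ∈ n) : (nm v : ℝ) ≤ nr n := by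
  rw [← buf_nr_single v]
  exact nr_mono (Finset.singleton_subset_iff.2 h)

/-- number of sets containing a given prime -/
theorem buf_mem (D : RD0 K p ζ) {C : ℝ}
    (hC : ∀ y : ℝ, 1 ≤ y → ((AF K y).card : ℝ) ≤ C * y) (v : Pl K) (y : ℝ)
    (hvy : (nm v : ℝ) ≤ y) :
    (((GF D y).filter fun n => v ∈ n).card : ℝ) ≤ C * y * (nm v : ℝ)⁻¹ := by
  have hv := buf_nm_pos v
  have h1 : ((GF D y).filter fun n => v ∈ n).card ≤ (AF K (y * (nm v : ℝ)⁻¹)).card := by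
    refine Finset.card_le_card_of_injOn (fun n => n.erase v) ?_ ?_
    · intro n hn
      rw [Finset.mem_coe, Finset.mem_filter, GF, Finset.mem_filter, mem_AF] at hn
      rw [Finset.mem_coe, mem_AF]
      have h2 : nr n = nr (n.erase v) * (nm v : ℝ) := by
        unfold nr
        rw [Finset.prod_erase_mul n _ hn.2]
      rw [le_mul_inv_iff₀ hv, ← h2]
      exact hn.1.1
    · intro n hn n' hn' h
      rw [Finset.mem_coe, Finset.mem_filter] at hn hn'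
      have h3 : n.erase v = n'.erase v := h
      rw [← Finset.insert_erase hn.2, ← Finset.insert_erase hn'.2, h3]
  have h4 : 1 ≤ y * (nm v : ℝ)⁻¹ := by
    rw [le_mul_inv_iff₀ hv, one_mul]
    exact hvy
  calc (((GF D y).filter fun n => v ∈ n).card : ℝ) ≤ ((AF K (y * (nm v : ℝ)⁻¹)).card : ℝ) := by
        exact_mod_cast h1
    _ ≤ C * (y * (nm v : ℝ)⁻¹) := hC _ h4
    _ = C * y * (nm v : ℝ)⁻¹ := by ring

/-- the density of all sets of good primes is positive -/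
theorem buf_pos (D : RD0 K p ζ) (u : ℝ)
    (hu : Tendsto (fun y : ℝ => UN D 1 ∅ y / (y * Real.log y ^ (1 - 1))) atTop (𝓝 u)) : 0 < u := by
  obtain ⟨κ, T₀, hκ, h⟩ := acntb_one D
  set F : Finset (Pl K) := D.S0 ∪ (AF K T₀).biUnion id with hF
  have hFm : ∀ v, v ∈ F ↔ v ∈ D.S0 ∨ (nm v : ℝ) ≤ T₀ := by
    intro v
    rw [hF, Finset.mem_union, Finset.mem_biUnion]
    refine or_congr Iff.rfl ⟨?_, ?_⟩
    · rintro ⟨n, hn, hv⟩
      rw [mem_AF] at hn
      exact (buf_nm_le hv).trans hn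
    · intro hv
      exact ⟨{v}, by rw [mem_AF, buf_nr_single]; exact hv, Finset.mem_singleton_self v⟩
  obtain ⟨y₁, hy₁, h1⟩ := h T₀ le_rfl F hFm
  have hP := acntb_P F
  have hc : 0 < κ * ∏ v ∈ F, (1 - (nm v : ℝ)⁻¹) := mul_pos hκ hP
  refine lt_of_lt_of_le hc (ge_of_tendsto hu ?_)
  filter_upwards [eventually_ge_atTop y₁] with y hy
  have hy0 : 0 < y := by linarith
  have h2 := h1 y hy
  rw [Nat.sub_self, pow_zero, mul_one, le_div_iff₀ hy0]
  refine h2.trans ?_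
  rw [buf_UN_one]
  have h3 : ((GF D y).filter fun n => Disjoint n F ∧ y / 2 < nr n) ⊆
      (GF D y).filter fun n => Disjoint n (∅ : Finset (Pl K)) := by
    intro n hn
    rw [Finset.mem_filter] at hn ⊢
    exact ⟨hn.1, Finset.disjoint_empty_right _⟩
  exact_mod_cast Finset.card_le_card h3

theorem buf_prod_le (Z : Finset (Pl K)) (M : ℝ) (h : ∑ v ∈ Z, (nm v : ℝ)⁻¹ ≤ M) :
    ∏ v ∈ Z, (1 + ((1 : ℕ) : ℝ) / nm v) ≤ Real.exp M := by
  calc ∏ v ∈ Z, (1 + ((1 : ℕ) : ℝ) / nm v) ≤ ∏ v ∈ Z, Real.exp ((nm v : ℝ)⁻¹) := by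
        refine Finset.prod_le_prod (fun v _ => ?_) fun v _ => ?_
        · have := buf_nm_pos v
          positivity
        · have h1 := Real.add_one_le_exp ((nm v : ℝ)⁻¹)
          rw [Nat.cast_one, one_div]
          linarith
    _ = Real.exp (∑ v ∈ Z, (nm v : ℝ)⁻¹) := (Real.exp_sum _ _).symm
    _ ≤ Real.exp M := Real.exp_le_exp.2 h

theorem div_q (hp : p.Prime) (hζ : IsPrimitiveRoot ζ p) (D : RD K p ζ) (κ : Fin D.r → ZMod p)
    (hκ : κ ≠ 0) (M : ℝ) : ∃ Z : Finset (Pl K), (∀ v ∈ Z, D.Gd v ∧ dt κ (D.q v) ≠ 0) ∧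
      M ≤ ∑ v ∈ Z, (nm v : ℝ)⁻¹ := by
  by_contra hcon
  have hM : ∀ Z : Finset (Pl K), (∀ v ∈ Z, D.Gd v ∧ dt κ (D.q v) ≠ 0) →
      ∑ v ∈ Z, (nm v : ℝ)⁻¹ ≤ M := by
    intro Z hZ
    by_contra h1
    exact hcon ⟨Z, hZ, (not_le.1 h1).le⟩
  set B : Set (Pl K) := {v | D.Gd v ∧ dt κ (D.q v) ≠ 0} with hB
  set f : Pl K → ℝ := B.indicator fun v => (nm v : ℝ)⁻¹ with hf
  have hf0 : ∀ v, 0 ≤ f v := fun v =>
    Set.indicator_nonneg (fun v _ => inv_nonneg.2 (buf_nm_pos v).le) v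
  have hsum : Summable f := by
    refine summable_of_sum_le (c := M) hf0 fun s => ?_
    have h1 : ∑ v ∈ s, f v = ∑ v ∈ s.filter (fun v => v ∈ B), (nm v : ℝ)⁻¹ := by
      rw [Finset.sum_filter]
      refine Finset.sum_congr rfl fun v _ => ?_
      rw [hf, Set.indicator_apply]
    rw [h1]
    exact hM _ fun v hv => (Finset.mem_filter.1 hv).2
  obtain ⟨u, hu0, hu⟩ := un_lim D.toRD0 1 le_rfl ∅
  have hupos := buf_pos D.toRD0 u hu
  obtain ⟨C, hC, hCA⟩ := af_card K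
  set c' : ℝ := u * Real.exp (-M) with hc'
  have hc'0 : 0 < c' := mul_pos hupos (Real.exp_pos _)
  set η : ℝ := c' / (8 * C) with hη
  have hη0 : 0 < η := by positivity
  obtain ⟨s, hs⟩ := summable_iff_vanishing_norm.1 hsum η hη0
  set Z : Finset (Pl K) := s.filter (fun v => v ∈ B) with hZ
  have hZB : ∀ v ∈ Z, D.Gd v ∧ dt κ (D.q v) ≠ 0 := fun v hv => (Finset.mem_filter.1 hv).2
  obtain ⟨u', hu'0, hu'⟩ := un_lim D.toRD0 1 le_rfl Z
  have hrel := un_lim_rel D.toRD0 1 le_rfl Z (fun v hv => (hZB v hv).1) u u' hu hu'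
  have hu'c : c' ≤ u' := by
    have h1 := buf_prod_le Z M (hM Z hZB)
    have h2 : u ≤ u' * Real.exp M := by
      rw [hrel]
      exact mul_le_mul_of_nonneg_left h1 hu'0
    rw [hc', Real.exp_neg, mul_inv_le_iff₀ (Real.exp_pos M)]
    exact h2
  obtain ⟨C2, A2, δ, hC2, hA2, hδ, hδ1, hA⟩ := alem_one hp hζ D
  -- the main estimate
  have hmain : ∀ᶠ y : ℝ in atTop, c' / 2 * y ≤ C2 * 2 ^ Z.card * y ^ (1 - δ) := by
    have h1 : ∀ᶠ y : ℝ in atTop, 3 / 4 * c' < UN D.toRD0 1 Z y / (y * Real.log y ^ (1 - 1)) :=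
      hu'.eventually (lt_mem_nhds (by linarith))
    filter_upwards [h1, eventually_ge_atTop 1] with y hy1 hy
    have hy0 : 0 < y := by linarith
    rw [Nat.sub_self, pow_zero, mul_one, lt_div_iff₀ hy0, buf_UN_one] at hy1
    have h2 := hA ∅ Z (fun _ => 0) κ (by simp) (Finset.empty_subset _) (Or.inr hκ) y hy
    have h3 : nr (∅ : Finset (Pl K)) = 1 := by unfold nr; simp
    rw [h3, Real.one_rpow, mul_one] at h2
    refine le_trans ?_ h2
    set G : Finset (Finset (Pl K)) := (GF D.toRD0 y).filter fun n => Disjoint n Z with hG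
    set G1 : Finset (Finset (Pl K)) := G.filter fun n => ∃ v ∈ n, v ∈ B with hG1
    set G0 : Finset (Finset (Pl K)) := G.filter fun n => ¬ ∃ v ∈ n, v ∈ B with hG0
    have hcard : G1.card + G0.card = G.card := Finset.card_filter_add_card_filter_not _
    have hcardR : (G1.card : ℝ) + G0.card = G.card := by exact_mod_cast hcard
    have hsplit : ∑ n ∈ G, ep p (∑ v ∈ n, fE D.toRD0 ∅ (fun _ => 0) κ v) =
        ∑ n ∈ G1, ep p (∑ v ∈ n, fE D.toRD0 ∅ (fun _ => 0) κ v) + (G0.card : ℂ) := by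
      rw [← Finset.sum_filter_add_sum_filter_not G (fun n => ∃ v ∈ n, v ∈ B)]
      congr 1
      have h4 : ∀ n ∈ G0, ep p (∑ v ∈ n, fE D.toRD0 ∅ (fun _ => 0) κ v) = 1 := by
        intro n hn
        rw [hG0, Finset.mem_filter, hG, Finset.mem_filter, GF, Finset.mem_filter] at hn
        have h5 : ∑ v ∈ n, fE D.toRD0 ∅ (fun _ => 0) κ v = 0 := by
          refine Finset.sum_eq_zero fun v hv => ?_
          have h6 : ¬ v ∈ B := fun h => hn.2 ⟨v, hv, h⟩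
          have h7 : D.Gd v := hn.1.1.2 v hv
          have h8 : dt κ (D.q v) = 0 := by
            by_contra h9
            exact h6 ⟨h7, h9⟩
          rw [fE, Finset.sum_empty, zero_add, h8]
        rw [h5, ep_zero]
      rw [← hG0, Finset.sum_congr rfl h4, Finset.sum_const, nsmul_eq_mul, mul_one]
    have hG1b : (G1.card : ℝ) ≤ c' / 8 * y := by
      set W : Finset (Pl K) := ((AF K y).biUnion id).filter (fun v => v ∈ B ∧ v ∉ Z) with hW
      have h4 : G1 ⊆ W.biUnion fun v => (GF D.toRD0 y).filter fun n => v ∈ n := by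
        intro n hn
        rw [hG1, Finset.mem_filter, hG, Finset.mem_filter] at hn
        obtain ⟨⟨hn1, hn2⟩, v, hv, hvB⟩ := hn
        rw [Finset.mem_biUnion]
        refine ⟨v, ?_, Finset.mem_filter.2 ⟨hn1, hv⟩⟩
        rw [hW, Finset.mem_filter, Finset.mem_biUnion]
        refine ⟨⟨n, (Finset.mem_filter.1 hn1).1, hv⟩, hvB, ?_⟩
        exact Finset.disjoint_left.1 hn2 hv
      have h5 : (G1.card : ℝ) ≤ ∑ v ∈ W, (((GF D.toRD0 y).filter fun n => v ∈ n).card : ℝ) := by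
        have h6 := (Finset.card_le_card h4).trans Finset.card_biUnion_le
        exact_mod_cast h6
      have h7 : ∀ v ∈ W, (((GF D.toRD0 y).filter fun n => v ∈ n).card : ℝ) ≤
          C * y * f v := by
        intro v hv
        rw [hW, Finset.mem_filter, Finset.mem_biUnion] at hv
        obtain ⟨⟨n, hn, hvn⟩, hvB, -⟩ := hv
        rw [mem_AF] at hn
        have h8 := buf_mem D.toRD0 hCA v y ((buf_nm_le hvn).trans hn)
        rw [hf, Set.indicator_of_mem hvB]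
        exact h8
      have h9 : Disjoint W s := by
        rw [Finset.disjoint_left]
        intro v hv hvs
        rw [hW, Finset.mem_filter] at hv
        exact hv.2.2 (Finset.mem_filter.2 ⟨hvs, hv.2.1⟩)
      have h10 := hs W h9
      have h11 : ∑ v ∈ W, f v ≤ η := (le_abs_self _).trans h10.le
      calc (G1.card : ℝ) ≤ ∑ v ∈ W, C * y * f v := h5.trans (Finset.sum_le_sum h7)
        _ = C * y * ∑ v ∈ W, f v := by rw [Finset.mul_sum]
        _ ≤ C * y * η := mul_le_mul_of_nonneg_left h11 (by positivity)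
        _ = c' / 8 * y := by rw [hη]; field_simp
    have hnorm1 : ‖∑ n ∈ G1, ep p (∑ v ∈ n, fE D.toRD0 ∅ (fun _ => 0) κ v)‖ ≤ (G1.card : ℝ) := by
      refine (norm_sum_le _ _).trans ?_
      have h4 : ∀ n ∈ G1, ‖ep p (∑ v ∈ n, fE D.toRD0 ∅ (fun _ => 0) κ v)‖ ≤ 1 := by
        intro n _
        exact (ep_norm p _).le
      refine (Finset.sum_le_sum h4).trans ?_
      rw [Finset.sum_const, nsmul_eq_mul, mul_one]
    rw [hsplit]
    have h12 : (G0.card : ℝ) - (G1.card : ℝ) ≤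
        ‖∑ n ∈ G1, ep p (∑ v ∈ n, fE D.toRD0 ∅ (fun _ => 0) κ v) + (G0.card : ℂ)‖ := by
      have h13 := norm_sub_norm_le (G0.card : ℂ)
        (-∑ n ∈ G1, ep p (∑ v ∈ n, fE D.toRD0 ∅ (fun _ => 0) κ v))
      rw [norm_neg, sub_neg_eq_add, Complex.norm_natCast] at h13
      rw [add_comm]
      linarith
    refine le_trans ?_ h12
    have h14 : (G.card : ℝ) = (((GF D.toRD0 y).filter fun n => Disjoint n Z).card : ℝ) := rfl
    rw [← h14] at hy1
    nlinarith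
  have hlim : Tendsto (fun y : ℝ => C2 * 2 ^ Z.card * y ^ (-δ)) atTop (𝓝 (C2 * 2 ^ Z.card * 0)) :=
    (tendsto_rpow_neg_atTop hδ).const_mul _
  rw [mul_zero] at hlim
  have hsmall : ∀ᶠ y : ℝ in atTop, C2 * 2 ^ Z.card * y ^ (-δ) < c' / 2 :=
    hlim.eventually (gt_mem_nhds (by linarith))
  obtain ⟨y, ⟨hy1, hy2⟩, hy3⟩ := ((hmain.and hsmall).and (eventually_gt_atTop 0)).exists
  have h4 : y ^ (1 - δ) = y ^ (-δ) * y := by
    rw [show (1 : ℝ) - δ = -δ + 1 by ring, Real.rpow_add hy3, Real.rpow_one]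
  rw [h4, ← mul_assoc] at hy1
  have h5 := le_of_mul_le_mul_right hy1 hy3
  linarith

theorem div_prod (hp : p.Prime) (hζ : IsPrimitiveRoot ζ p) (D : RD K p ζ) (N : ℕ) (hN : 1 ≤ N)
    (κ : Fin D.r → ZMod p) (hκ : κ ≠ 0) (ε : ℝ) (hε : 0 < ε) :
    ∃ Z : Finset (Pl K), (∀ v ∈ Z, D.Gd v ∧ dt κ (D.q v) ≠ 0) ∧
      ∏ v ∈ Z, (1 + ((N - 1 : ℕ) : ℝ) / nm v) ≤ ε * ∏ v ∈ Z, (1 + (N : ℝ) / nm v) := by
  obtain ⟨Z, hZ, hsum⟩ := div_q hp hζ D κ hκ (-((N : ℝ) + 1) * Real.log ε)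
  refine ⟨Z, hZ, ?_⟩
  have hN0 : (0 : ℝ) < (N : ℝ) + 1 := by positivity
  have h1 : ∀ v ∈ Z, 1 + ((N - 1 : ℕ) : ℝ) / nm v ≤
      Real.exp (-(((N : ℝ) + 1)⁻¹ * (nm v : ℝ)⁻¹)) * (1 + (N : ℝ) / nm v) := by
    intro v _
    have hv : (1 : ℝ) < nm v := by exact_mod_cast one_lt_nm v
    have hv0 : (0 : ℝ) < nm v := by linarith
    have h2 := Real.add_one_le_exp (-(((N : ℝ) + 1)⁻¹ * (nm v : ℝ)⁻¹))
    have h3 : (0 : ℝ) < 1 + (N : ℝ) / nm v := by positivity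
    refine le_trans ?_ (mul_le_mul_of_nonneg_right h2 h3.le)
    rw [Nat.cast_sub hN, Nat.cast_one]
    have hN1 : (1 : ℝ) ≤ N := by exact_mod_cast hN
    have h4 : (-(((N : ℝ) + 1)⁻¹ * (nm v : ℝ)⁻¹) + 1) * (1 + (N : ℝ) / nm v) -
        (1 + ((N : ℝ) - 1) / nm v) =
        (nm v : ℝ)⁻¹ * (1 - ((N : ℝ) + 1)⁻¹ * (1 + (N : ℝ) / nm v)) := by
      field_simp
      ring
    have h5 : ((N : ℝ) + 1)⁻¹ * (1 + (N : ℝ) / nm v) ≤ 1 := by
      rw [inv_mul_le_iff₀ hN0, mul_one]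
      have h6 : (N : ℝ) / nm v ≤ N := div_le_self (by linarith) hv.le
      linarith
    have h7 : 0 ≤ (nm v : ℝ)⁻¹ * (1 - ((N : ℝ) + 1)⁻¹ * (1 + (N : ℝ) / nm v)) :=
      mul_nonneg (inv_nonneg.2 hv0.le) (by linarith)
    linarith
  have h0 : ∀ v ∈ Z, 0 ≤ 1 + ((N - 1 : ℕ) : ℝ) / nm v := by
    intro v _
    have := buf_nm_pos v
    positivity
  have h2 : ∏ v ∈ Z, (1 + ((N - 1 : ℕ) : ℝ) / nm v) ≤
      ∏ v ∈ Z, (Real.exp (-(((N : ℝ) + 1)⁻¹ * (nm v : ℝ)⁻¹)) * (1 + (N : ℝ) / nm v)) :=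
    Finset.prod_le_prod h0 h1
  rw [Finset.prod_mul_distrib, ← Real.exp_sum] at h2
  refine h2.trans (mul_le_mul_of_nonneg_right ?_ (Finset.prod_nonneg fun v _ => ?_))
  · rw [Finset.sum_neg_distrib, ← Finset.mul_sum]
    rw [← Real.exp_log hε, Real.exp_le_exp]
    have h3 : ((N : ℝ) + 1)⁻¹ * (-((N : ℝ) + 1) * Real.log ε) ≤
        ((N : ℝ) + 1)⁻¹ * ∑ v ∈ Z, (nm v : ℝ)⁻¹ :=
      mul_le_mul_of_nonneg_left hsum (inv_nonneg.2 hN0.le)
    have h4 : ((N : ℝ) + 1)⁻¹ * (-((N : ℝ) + 1) * Real.log ε) = -Real.log ε := by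
      field_simp
    linarith
  · have := buf_nm_pos v
    positivity

end H63.MA
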