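import Mathlib

/-!
# MB-BUA: convolution with a sequence of positive density (real analysis)

`a n ≥ 0` with `(∑_{k ≤ n} a k) / n → α`.
* `bu_log`: `(∑_{n ≤ y} a n (1/n) (log (y/n))^k) / (log y)^{k+1} → α / (k+1)`, `y → ∞` real.
* `bu_conv`: if `f y / (y (log y)^k) → β` and `|f y| ≤ C y (1 + log y)^k` for `y ≥ 1`, then `(∑_{n ≤ y} a n f(y/n)) / (y (log y)^{k+1}) → α β / (k+1)`.
-/

set_option autoImplicit false

open Filter Topology

noncomputable section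

namespace H63.MA

/-- summation by parts -/
theorem bua_abel (b g : ℕ → ℝ) (M : ℕ) (hM : 1 ≤ M) :
    ∑ n ∈ Finset.Icc 1 M, b n * g n = (∑ k ∈ Finset.Icc 1 M, b k) * g M +
      ∑ n ∈ Finset.Ico 1 M, (∑ k ∈ Finset.Icc 1 n, b k) * (g n - g (n + 1)) := by
  induction M, hM using Nat.le_induction with
  | base => simp
  | succ m hm ih =>
    rw [Finset.sum_Icc_succ_top (by omega), Finset.sum_Icc_succ_top (by omega), ih,
      Finset.sum_Ico_succ_top hm]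
    ring

theorem bua_id (g : ℕ → ℝ) (M : ℕ) (hM : 1 ≤ M) (ε D : ℝ) :
    ε * ∑ n ∈ Finset.Icc 1 M, g n + D * g 1 = (ε * M + D) * g M +
      ∑ n ∈ Finset.Ico 1 M, (ε * n + D) * (g n - g (n + 1)) := by
  induction M, hM using Nat.le_induction with
  | base => simp; ring
  | succ m hm ih =>
    rw [Finset.sum_Icc_succ_top (by omega), Finset.sum_Ico_succ_top hm]
    push_cast
    linear_combination ih

theorem bua_bound (b g : ℕ → ℝ) (M : ℕ) (hM : 1 ≤ M) (ε D : ℝ)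
    (hB : ∀ n ∈ Finset.Icc 1 M, |∑ k ∈ Finset.Icc 1 n, b k| ≤ ε * n + D)
    (hg0 : 0 ≤ g M) (hg : ∀ n ∈ Finset.Ico 1 M, g (n + 1) ≤ g n) :
    |∑ n ∈ Finset.Icc 1 M, b n * g n| ≤ ε * ∑ n ∈ Finset.Icc 1 M, g n + D * g 1 := by
  rw [bua_abel b g M hM, bua_id g M hM]
  refine (abs_add_le _ _).trans (add_le_add ?_ ?_)
  · rw [abs_mul, abs_of_nonneg hg0]
    exact mul_le_mul_of_nonneg_right (hB M (Finset.mem_Icc.2 ⟨hM, le_rfl⟩)) hg0
  · refine (Finset.abs_sum_le_sum_abs _ _).trans (Finset.sum_le_sum fun n hn => ?_)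
    have h1 := hg n hn
    rw [abs_mul, abs_of_nonneg (sub_nonneg.2 h1)]
    refine mul_le_mul_of_nonneg_right (hB n ?_) (sub_nonneg.2 h1)
    rw [Finset.mem_Ico] at hn
    exact Finset.mem_Icc.2 ⟨hn.1, hn.2.le⟩

/-- `(k+1) (u - v) v^k ≤ u^(k+1) - v^(k+1) ≤ (k+1) (u - v) u^k` for `0 ≤ v ≤ u` -/
theorem bua_pow (u v : ℝ) (hv : 0 ≤ v) (huv : v ≤ u) (k : ℕ) :
    (u ^ (k + 1) - v ^ (k + 1)) / (k + 1) ≤ (u - v) * u ^ k ∧
      (u - v) * v ^ k ≤ (u ^ (k + 1) - v ^ (k + 1)) / (k + 1) := by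
  have hk : (0 : ℝ) < (k : ℝ) + 1 := by positivity
  have hgeom : (∑ i ∈ Finset.range (k + 1), u ^ i * v ^ (k + 1 - 1 - i)) * (u - v) =
      u ^ (k + 1) - v ^ (k + 1) := Commute.geom_sum₂_mul (Commute.all u v) (k + 1)
  have hu : 0 ≤ u := hv.trans huv
  have h1 : ∑ i ∈ Finset.range (k + 1), u ^ i * v ^ (k + 1 - 1 - i) ≤
      ∑ i ∈ Finset.range (k + 1), u ^ k := by
    refine Finset.sum_le_sum fun i hi => ?_
    rw [Finset.mem_range] at hi
    calc u ^ i * v ^ (k + 1 - 1 - i) ≤ u ^ i * u ^ (k + 1 - 1 - i) := by gcongr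
      _ = u ^ k := by rw [← pow_add]; congr 1; omega
  have h2 : ∑ i ∈ Finset.range (k + 1), v ^ k ≤
      ∑ i ∈ Finset.range (k + 1), u ^ i * v ^ (k + 1 - 1 - i) := by
    refine Finset.sum_le_sum fun i hi => ?_
    rw [Finset.mem_range] at hi
    calc v ^ k = v ^ i * v ^ (k + 1 - 1 - i) := by rw [← pow_add]; congr 1; omega
      _ ≤ u ^ i * v ^ (k + 1 - 1 - i) := by gcongr
  rw [Finset.sum_const, Finset.card_range, nsmul_eq_mul] at h1 h2
  have hc : ((k + 1 : ℕ) : ℝ) = (k : ℝ) + 1 := by push_cast; ring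
  rw [hc] at h1 h2
  rw [div_le_iff₀ hk, le_div_iff₀ hk, ← hgeom]
  have h3 : 0 ≤ u - v := sub_nonneg.2 huv
  constructor
  · nlinarith [mul_le_mul_of_nonneg_right h1 h3]
  · nlinarith [mul_le_mul_of_nonneg_right h2 h3]

/-- the weight -/
def bua_g (y : ℝ) (k : ℕ) (n : ℕ) : ℝ := (1 / (n : ℝ)) * Real.log (y / n) ^ k

/-- its primitive -/
def bua_G (y : ℝ) (k : ℕ) (n : ℕ) : ℝ := Real.log (y / n) ^ (k + 1) / (k + 1)

theorem bua_log_nonneg (y : ℝ) (n : ℕ) (hn : 1 ≤ n) (hny : (n : ℝ) ≤ y) :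
    0 ≤ Real.log (y / n) := by
  apply Real.log_nonneg
  rw [le_div_iff₀ (by exact_mod_cast hn)]
  linarith

theorem bua_g_nonneg (y : ℝ) (k n : ℕ) (hn : 1 ≤ n) (hny : (n : ℝ) ≤ y) : 0 ≤ bua_g y k n := by
  have := bua_log_nonneg y n hn hny
  unfold bua_g
  positivity

theorem bua_logdiff (y : ℝ) (n : ℕ) (hn : 1 ≤ n) (hny : ((n + 1 : ℕ) : ℝ) ≤ y) :
    Real.log (y / n) - Real.log (y / (n + 1 : ℕ)) ≤ 1 / n ∧
      1 / ((n + 1 : ℕ) : ℝ) ≤ Real.log (y / n) - Real.log (y / (n + 1 : ℕ)) := by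
  have hn0 : (0 : ℝ) < n := by exact_mod_cast hn
  have hn1 : (0 : ℝ) < ((n + 1 : ℕ) : ℝ) := by positivity
  have hy : 0 < y := hn1.trans_le hny
  have h1 : Real.log (y / n) - Real.log (y / (n + 1 : ℕ)) = Real.log (((n + 1 : ℕ) : ℝ) / n) := by
    rw [Real.log_div hy.ne' hn0.ne', Real.log_div hy.ne' hn1.ne', Real.log_div hn1.ne' hn0.ne']
    ring
  rw [h1]
  constructor
  · have := Real.log_le_sub_one_of_pos (div_pos hn1 hn0)
    have h2 : ((n + 1 : ℕ) : ℝ) / n - 1 = 1 / n := by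
      push_cast
      field_simp
      ring
    linarith
  · have h3 := Real.one_sub_inv_le_log_of_pos (div_pos hn1 hn0)
    have h2 : 1 - (((n + 1 : ℕ) : ℝ) / n)⁻¹ = 1 / ((n + 1 : ℕ) : ℝ) := by
      push_cast
      field_simp
      ring
    linarith

theorem bua_step (y : ℝ) (k n : ℕ) (hn : 1 ≤ n) (hny : ((n + 1 : ℕ) : ℝ) ≤ y) :
    bua_G y k n - bua_G y k (n + 1) ≤ bua_g y k n ∧
      bua_g y k (n + 1) ≤ bua_G y k n - bua_G y k (n + 1) := by
  have hv : 0 ≤ Real.log (y / (n + 1 : ℕ)) := bua_log_nonneg y (n + 1) (by omega) hny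
  obtain ⟨h1, h2⟩ := bua_logdiff y n hn hny
  have h3 : (0 : ℝ) ≤ 1 / ((n + 1 : ℕ) : ℝ) := by positivity
  have hvu : Real.log (y / (n + 1 : ℕ)) ≤ Real.log (y / n) := by linarith
  obtain ⟨h4, h5⟩ := bua_pow _ _ hv hvu k
  have hu : 0 ≤ Real.log (y / n) := hv.trans hvu
  unfold bua_G bua_g
  rw [← sub_div]
  constructor
  · exact h4.trans (mul_le_mul_of_nonneg_right h1 (pow_nonneg hu k))
  · exact (mul_le_mul_of_nonneg_right h2 (pow_nonneg hv k)).trans h5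

theorem bua_anti (y : ℝ) (k n : ℕ) (hn : 1 ≤ n) (hny : ((n + 1 : ℕ) : ℝ) ≤ y) :
    bua_g y k (n + 1) ≤ bua_g y k n :=
  (bua_step y k n hn hny).2.trans (bua_step y k n hn hny).1

theorem bua_tele (y : ℝ) (k M : ℕ) (hM : 1 ≤ M) (hMy : (M : ℝ) ≤ y) :
    bua_G y k 1 - bua_G y k M + bua_g y k M ≤ ∑ n ∈ Finset.Icc 1 M, bua_g y k n ∧
      ∑ n ∈ Finset.Icc 1 M, bua_g y k n ≤ bua_g y k 1 + bua_G y k 1 - bua_G y k M := by
  induction M, hM using Nat.le_induction with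
  | base => simp
  | succ m hm ih =>
    have hm' : (m : ℝ) ≤ y := by push_cast at hMy; linarith
    obtain ⟨h1, h2⟩ := ih hm'
    obtain ⟨h3, h4⟩ := bua_step y k m hm hMy
    rw [Finset.sum_Icc_succ_top (by omega)]
    constructor <;> linarith

/-- `(log y)^(k+1)/(k+1) ≤ ∑ g ≤ (log y)^(k+1)/(k+1) + (log y)^k` -/
theorem bua_sum (y : ℝ) (k : ℕ) (hy : 1 ≤ y) :
    Real.log y ^ (k + 1) / (k + 1) ≤ ∑ n ∈ Finset.Icc 1 ⌊y⌋₊, bua_g y k n ∧
      ∑ n ∈ Finset.Icc 1 ⌊y⌋₊, bua_g y k n ≤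
        Real.log y ^ (k + 1) / (k + 1) + Real.log y ^ k := by
  have hM : 1 ≤ ⌊y⌋₊ := by rwa [Nat.one_le_floor_iff]
  have hMy : (⌊y⌋₊ : ℝ) ≤ y := Nat.floor_le (by linarith)
  have hlt : y < ⌊y⌋₊ + 1 := Nat.lt_floor_add_one y
  obtain ⟨h1, h2⟩ := bua_tele y k ⌊y⌋₊ hM hMy
  have hM0 : (0 : ℝ) < ⌊y⌋₊ := by exact_mod_cast hM
  have hl := bua_log_nonneg y ⌊y⌋₊ hM hMy
  have hG0 : 0 ≤ bua_G y k ⌊y⌋₊ := by unfold bua_G; positivity
  have hG1 : bua_G y k 1 = Real.log y ^ (k + 1) / (k + 1) := by simp [bua_G]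
  have hg1 : bua_g y k 1 = Real.log y ^ k := by simp [bua_g]
  have hGg : bua_G y k ⌊y⌋₊ ≤ bua_g y k ⌊y⌋₊ := by
    unfold bua_G bua_g
    have h3 : Real.log (y / ⌊y⌋₊) ≤ 1 / ⌊y⌋₊ := by
      have h4 := Real.log_le_sub_one_of_pos (div_pos (by linarith : 0 < y) hM0)
      have h5 : y / ⌊y⌋₊ - 1 ≤ 1 / ⌊y⌋₊ := by
        rw [sub_le_iff_le_add, div_add' _ _ _ hM0.ne']
        rw [div_le_div_iff_of_pos_right hM0]
        linarith
      linarith
    have hk : (1 : ℝ) ≤ (k : ℝ) + 1 := by linarith [Nat.cast_nonneg (α := ℝ) k]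
    calc Real.log (y / ⌊y⌋₊) ^ (k + 1) / (k + 1) ≤ Real.log (y / ⌊y⌋₊) ^ (k + 1) :=
          div_le_self (by positivity) hk
      _ = Real.log (y / ⌊y⌋₊) * Real.log (y / ⌊y⌋₊) ^ k := by ring
      _ ≤ 1 / ⌊y⌋₊ * Real.log (y / ⌊y⌋₊) ^ k := mul_le_mul_of_nonneg_right h3 (by positivity)
  rw [hG1] at h1 h2
  rw [hg1] at h2
  constructor <;> linarith

/-- partial sums of `a - α` -/
theorem bua_dev (a : ℕ → ℝ) (α : ℝ)
    (hα : Tendsto (fun n : ℕ => (∑ k ∈ Finset.Icc 1 n, a k) / (n : ℝ)) atTop (𝓝 α))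
    (ε : ℝ) (hε : 0 < ε) : ∃ D : ℝ, 0 ≤ D ∧ ∀ n : ℕ,
      |∑ k ∈ Finset.Icc 1 n, (a k - α)| ≤ ε * n + D := by
  rw [Metric.tendsto_atTop] at hα
  obtain ⟨N, hN⟩ := hα ε hε
  refine ⟨∑ n ∈ Finset.range (N + 1), |∑ k ∈ Finset.Icc 1 n, (a k - α)|,
    Finset.sum_nonneg fun _ _ => abs_nonneg _, fun n => ?_⟩
  have hD : 0 ≤ ∑ n ∈ Finset.range (N + 1), |∑ k ∈ Finset.Icc 1 n, (a k - α)| :=
    Finset.sum_nonneg fun _ _ => abs_nonneg _
  rcases Nat.lt_or_ge n (N + 1) with h | h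
  · have h1 : |∑ k ∈ Finset.Icc 1 n, (a k - α)| ≤
        ∑ n ∈ Finset.range (N + 1), |∑ k ∈ Finset.Icc 1 n, (a k - α)| :=
      Finset.single_le_sum (f := fun n => |∑ k ∈ Finset.Icc 1 n, (a k - α)|)
        (fun _ _ => abs_nonneg _) (Finset.mem_range.2 h)
    have h2 : 0 ≤ ε * n := by positivity
    linarith
  · have h1 := hN n (by omega)
    rw [Real.dist_eq] at h1
    have hn0 : (0 : ℝ) < n := by
      have : 0 < n := by omega
      exact_mod_cast this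
    have h2 : ∑ k ∈ Finset.Icc 1 n, (a k - α) =
        ((∑ k ∈ Finset.Icc 1 n, a k) / (n : ℝ) - α) * n := by
      rw [Finset.sum_sub_distrib, sub_mul, div_mul_cancel₀ _ hn0.ne']
      simp [mul_comm]
    rw [h2, abs_mul, abs_of_pos hn0]
    nlinarith

theorem bu_log (a : ℕ → ℝ) (ha : ∀ n, 0 ≤ a n) (α : ℝ)
    (hα : Tendsto (fun n : ℕ => (∑ k ∈ Finset.Icc 1 n, a k) / (n : ℝ)) atTop (𝓝 α)) (k : ℕ) :
    Tendsto (fun y : ℝ => (∑ n ∈ Finset.Icc 1 ⌊y⌋₊, a n * ((1 / (n : ℝ)) *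
      Real.log (y / n) ^ k)) / Real.log y ^ (k + 1)) atTop (𝓝 (α / (k + 1))) := by
  rw [Metric.tendsto_atTop]
  intro δ hδ
  obtain ⟨D, hD0, hD⟩ := bua_dev a α hα (δ / 2) (by positivity)
  have hlog : Tendsto (fun y : ℝ => (δ / 2 + D + |α|) / Real.log y) atTop (𝓝 0) :=
    Real.tendsto_log_atTop.const_div_atTop _
  have hev := hlog.eventually (gt_mem_nhds (show (0 : ℝ) < δ / 2 by positivity))
  rw [eventually_atTop] at hev
  obtain ⟨Y, hY⟩ := hev
  refine ⟨max Y (Real.exp 1), fun y hy => ?_⟩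
  have hyY : Y ≤ y := (le_max_left _ _).trans hy
  have hye : Real.exp 1 ≤ y := (le_max_right _ _).trans hy
  have hy1 : 1 ≤ y := (Real.one_le_exp (by norm_num)).trans hye
  have hL : 1 ≤ Real.log y := by
    rw [Real.le_log_iff_exp_le (by linarith)]
    exact hye
  have hL0 : 0 < Real.log y := by linarith
  have hM : 1 ≤ ⌊y⌋₊ := by rwa [Nat.one_le_floor_iff]
  have hMy : (⌊y⌋₊ : ℝ) ≤ y := Nat.floor_le (by linarith)
  obtain ⟨h1, h2⟩ := bua_sum y k hy1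
  have h3 := bua_bound (fun n => a n - α) (bua_g y k) ⌊y⌋₊ hM (δ / 2) D (fun n _ => hD n)
    (bua_g_nonneg y k _ hM hMy) (fun n hn => by
      rw [Finset.mem_Ico] at hn
      apply bua_anti y k n hn.1
      refine le_trans ?_ hMy
      exact_mod_cast hn.2)
  have hg1 : bua_g y k 1 = Real.log y ^ k := by simp [bua_g]
  rw [hg1] at h3
  set S : ℝ := ∑ n ∈ Finset.Icc 1 ⌊y⌋₊, bua_g y k n with hS
  have h4 : ∑ n ∈ Finset.Icc 1 ⌊y⌋₊, (a n - α) * bua_g y k n =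
      ∑ n ∈ Finset.Icc 1 ⌊y⌋₊, a n * ((1 / (n : ℝ)) * Real.log (y / n) ^ k) - α * S := by
    rw [hS, Finset.mul_sum, ← Finset.sum_sub_distrib]
    refine Finset.sum_congr rfl fun n _ => ?_
    unfold bua_g
    ring
  rw [h4] at h3
  set T : ℝ := ∑ n ∈ Finset.Icc 1 ⌊y⌋₊, a n * ((1 / (n : ℝ)) * Real.log (y / n) ^ k) with hT
  set L : ℝ := Real.log y with hLdef
  have hLk : 0 < L ^ k := by positivity
  have hLk1 : 0 < L ^ (k + 1) := by positivity
  have h5 : |S - L ^ (k + 1) / (k + 1)| ≤ L ^ k := by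
    rw [abs_le]; constructor <;> linarith
  have h6 : |T - α * (L ^ (k + 1) / (k + 1))| ≤
      δ / 2 * (L ^ (k + 1) / (k + 1)) + (δ / 2 + D + |α|) * L ^ k := by
    have h7 : T - α * (L ^ (k + 1) / (k + 1)) = (T - α * S) +
        α * (S - L ^ (k + 1) / (k + 1)) := by ring
    rw [h7]
    refine (abs_add_le _ _).trans ?_
    rw [abs_mul α]
    have h8 : |α| * |S - L ^ (k + 1) / (k + 1)| ≤ |α| * L ^ k :=
      mul_le_mul_of_nonneg_left h5 (abs_nonneg _)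
    have h9 : δ / 2 * S ≤ δ / 2 * (L ^ (k + 1) / (k + 1) + L ^ k) :=
      mul_le_mul_of_nonneg_left h2 (by positivity)
    linarith
  rw [Real.dist_eq]
  have h10 : T / L ^ (k + 1) - α / (k + 1) =
      (T - α * (L ^ (k + 1) / (k + 1))) / L ^ (k + 1) := by
    field_simp
  rw [h10, abs_div, abs_of_pos hLk1, div_lt_iff₀ hLk1]
  refine lt_of_le_of_lt h6 ?_
  have h11 := hY y hyY
  have h12 : (δ / 2 + D + |α|) * L ^ k < δ / 2 * L ^ (k + 1) := by
    rw [div_lt_iff₀ hL0] at h11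
    calc (δ / 2 + D + |α|) * L ^ k < δ / 2 * L * L ^ k := mul_lt_mul_of_pos_right h11 hLk
      _ = δ / 2 * L ^ (k + 1) := by ring
  have h13 : δ / 2 * (L ^ (k + 1) / (k + 1)) ≤ δ / 2 * L ^ (k + 1) := by
    apply mul_le_mul_of_nonneg_left _ (by positivity)
    exact div_le_self hLk1.le (by linarith [Nat.cast_nonneg (α := ℝ) k])
  linarith

theorem bu_conv (a : ℕ → ℝ) (ha : ∀ n, 0 ≤ a n) (α : ℝ)
    (hα : Tendsto (fun n : ℕ => (∑ k ∈ Finset.Icc 1 n, a k) / (n : ℝ)) atTop (𝓝 α)) (k : ℕ)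
    (f : ℝ → ℝ) (β C : ℝ)
    (hf : Tendsto (fun y : ℝ => f y / (y * Real.log y ^ k)) atTop (𝓝 β))
    (hb : ∀ y : ℝ, 1 ≤ y → |f y| ≤ C * y * (1 + Real.log y) ^ k) :
    Tendsto (fun y : ℝ => (∑ n ∈ Finset.Icc 1 ⌊y⌋₊, a n * f (y / n)) /
      (y * Real.log y ^ (k + 1))) atTop (𝓝 (α * β / (k + 1))) := by
  have hT := bu_log a ha α hα k
  -- it suffices that the difference tends to zero
  suffices hsuf : Tendsto (fun y : ℝ => (∑ n ∈ Finset.Icc 1 ⌊y⌋₊, a n * f (y / n)) /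
      (y * Real.log y ^ (k + 1)) - β * ((∑ n ∈ Finset.Icc 1 ⌊y⌋₊, a n * ((1 / (n : ℝ)) *
      Real.log (y / n) ^ k)) / Real.log y ^ (k + 1))) atTop (𝓝 0) by
    have h := hsuf.add (hT.const_mul β)
    refine (h.congr fun y => by ring).trans ?_
    rw [show (0 : ℝ) + β * (α / (k + 1)) = α * β / (k + 1) by ring]
  rw [Metric.tendsto_atTop]
  intro δ hδ
  -- the bound for f
  set ε : ℝ := δ / (2 * (|α / (k + 1)| + 1)) with hεdef
  have hε : 0 < ε := by positivity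
  have hf' := (Metric.tendsto_atTop.1 hf) ε hε
  obtain ⟨t₀, ht₀⟩ := hf'
  set t₁ : ℝ := max t₀ (Real.exp 1) with ht₁
  have ht₁1 : 1 ≤ t₁ := (Real.one_le_exp (by norm_num)).trans (le_max_right _ _)
  have ht₁L : 1 ≤ Real.log t₁ := by
    rw [Real.le_log_iff_exp_le (by linarith)]
    exact le_max_right _ _
  have hC0 : 0 ≤ C := by
    have := hb 1 le_rfl
    simp at this
    exact (abs_nonneg _).trans this
  set C' : ℝ := C * t₁ * (1 + Real.log t₁) ^ k + |β| * (t₁ * Real.log t₁ ^ k) with hC'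
  have hC'0 : 0 ≤ C' := by positivity
  have hmain : ∀ t : ℝ, 1 ≤ t → |f t - β * (t * Real.log t ^ k)| ≤
      ε * (t * Real.log t ^ k) + C' := by
    intro t ht
    have hlt : 0 ≤ Real.log t := Real.log_nonneg ht
    rcases le_or_gt t₁ t with h | h
    · have h1 := ht₀ t ((le_max_left _ _).trans h)
      rw [Real.dist_eq] at h1
      have hLt : 1 ≤ Real.log t := ht₁L.trans (Real.log_le_log (by linarith) h)
      have hpos : 0 < t * Real.log t ^ k := by positivity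
      have h2 : f t - β * (t * Real.log t ^ k) = (f t / (t * Real.log t ^ k) - β) *
          (t * Real.log t ^ k) := by
        rw [sub_mul, div_mul_cancel₀ _ hpos.ne']
      rw [h2, abs_mul, abs_of_pos hpos]
      have := mul_le_mul_of_nonneg_right h1.le hpos.le
      linarith
    · have h1 := hb t ht
      have hll : Real.log t ≤ Real.log t₁ := Real.log_le_log (by linarith) h.le
      have h2 : C * t * (1 + Real.log t) ^ k ≤ C * t₁ * (1 + Real.log t₁) ^ k := by gcongr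
      have h3 : |β * (t * Real.log t ^ k)| ≤ |β| * (t₁ * Real.log t₁ ^ k) := by
        rw [abs_mul, abs_of_nonneg (a := t * Real.log t ^ k) (by positivity)]
        gcongr
      have h4 : 0 ≤ ε * (t * Real.log t ^ k) := by positivity
      calc |f t - β * (t * Real.log t ^ k)| ≤ |f t| + |β * (t * Real.log t ^ k)| := abs_sub _ _
        _ ≤ C' := by rw [hC']; linarith
        _ ≤ _ := by linarith
  -- the density bound
  obtain ⟨D, hD0, hD⟩ := bua_dev a α hα 1 one_pos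
  have hA : ∀ y : ℝ, 1 ≤ y → ∑ n ∈ Finset.Icc 1 ⌊y⌋₊, a n ≤ (1 + D + |α|) * y := by
    intro y hy
    have h1 := hD ⌊y⌋₊
    rw [Finset.sum_sub_distrib] at h1
    simp only [Finset.sum_const, Nat.card_Icc, add_tsub_cancel_right, nsmul_eq_mul] at h1
    have h2 := (abs_le.1 h1).2
    have hMy : (⌊y⌋₊ : ℝ) ≤ y := Nat.floor_le (by linarith)
    have hM0 : (0 : ℝ) ≤ ⌊y⌋₊ := Nat.cast_nonneg _
    have h3 : (⌊y⌋₊ : ℝ) * α ≤ y * |α| :=
      (mul_le_mul_of_nonneg_left (le_abs_self α) hM0).trans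
        (mul_le_mul_of_nonneg_right hMy (abs_nonneg _))
    nlinarith
  -- choose y large
  have hT1 := (Metric.tendsto_atTop.1 hT) 1 one_pos
  obtain ⟨Y₁, hY₁⟩ := hT1
  have hlog : Tendsto (fun y : ℝ => (C' * (1 + D + |α|)) / Real.log y) atTop (𝓝 0) :=
    Real.tendsto_log_atTop.const_div_atTop _
  have hev := hlog.eventually (gt_mem_nhds (show (0 : ℝ) < δ / 2 by positivity))
  rw [eventually_atTop] at hev
  obtain ⟨Y₂, hY₂⟩ := hev
  refine ⟨max (max Y₁ Y₂) (Real.exp 1), fun y hy => ?_⟩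
  have hyY1 : Y₁ ≤ y := ((le_max_left _ _).trans (le_max_left _ _)).trans hy
  have hyY2 : Y₂ ≤ y := ((le_max_right _ _).trans (le_max_left _ _)).trans hy
  have hye : Real.exp 1 ≤ y := (le_max_right _ _).trans hy
  have hy1 : 1 ≤ y := (Real.one_le_exp (by norm_num)).trans hye
  have hy0 : 0 < y := by linarith
  have hL : 1 ≤ Real.log y := by
    rw [Real.le_log_iff_exp_le (by linarith)]
    exact hye
  have hL0 : 0 < Real.log y := by linarith
  have hMy : (⌊y⌋₊ : ℝ) ≤ y := Nat.floor_le (by linarith)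
  have h1 := hY₁ y hyY1
  have h2 := hY₂ y hyY2
  rw [Real.dist_eq] at h1
  rw [Real.dist_eq, sub_zero]
  set L : ℝ := Real.log y with hLdef
  set T : ℝ := ∑ n ∈ Finset.Icc 1 ⌊y⌋₊, a n * ((1 / (n : ℝ)) * Real.log (y / n) ^ k) with hTdef
  set Fs : ℝ := ∑ n ∈ Finset.Icc 1 ⌊y⌋₊, a n * f (y / n) with hFs
  have hLk1 : 0 < L ^ (k + 1) := by positivity
  have h3 : |Fs - β * (y * T)| ≤ ε * (y * T) + C' * ((1 + D + |α|) * y) := by
    have h4 : Fs - β * (y * T) = ∑ n ∈ Finset.Icc 1 ⌊y⌋₊,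
        a n * (f (y / n) - β * (y / n * Real.log (y / n) ^ k)) := by
      rw [hFs, hTdef, Finset.mul_sum, Finset.mul_sum, ← Finset.sum_sub_distrib]
      refine Finset.sum_congr rfl fun n _ => ?_
      ring
    have h5 : ε * (y * T) = ∑ n ∈ Finset.Icc 1 ⌊y⌋₊,
        a n * (ε * (y / n * Real.log (y / n) ^ k)) := by
      rw [hTdef, Finset.mul_sum, Finset.mul_sum]
      refine Finset.sum_congr rfl fun n _ => ?_
      ring
    have h6 : ∑ n ∈ Finset.Icc 1 ⌊y⌋₊, a n * C' ≤ C' * ((1 + D + |α|) * y) := by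
      rw [← Finset.sum_mul, mul_comm]
      exact mul_le_mul_of_nonneg_left (hA y hy1) hC'0
    rw [h4]
    refine (Finset.abs_sum_le_sum_abs _ _).trans ?_
    refine le_trans ?_ (add_le_add h5.ge h6)
    rw [← Finset.sum_add_distrib]
    refine Finset.sum_le_sum fun n hn => ?_
    rw [Finset.mem_Icc] at hn
    rw [abs_mul, abs_of_nonneg (ha n), ← mul_add]
    apply mul_le_mul_of_nonneg_left _ (ha n)
    apply hmain
    have hn0 : (0 : ℝ) < n := by exact_mod_cast hn.1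
    rw [le_div_iff₀ hn0, one_mul]
    refine le_trans ?_ hMy
    exact_mod_cast hn.2
  have h7 : Fs / (y * L ^ (k + 1)) - β * (T / L ^ (k + 1)) =
      (Fs - β * (y * T)) / (y * L ^ (k + 1)) := by
    field_simp
  have hden : 0 < y * L ^ (k + 1) := by positivity
  rw [h7, abs_div, abs_of_pos hden, div_lt_iff₀ hden]
  refine lt_of_le_of_lt h3 ?_
  -- bound T
  have h8 : T / L ^ (k + 1) < |α / (k + 1)| + 1 := by
    have := (abs_lt.1 h1).2
    linarith [le_abs_self (α / ((k : ℝ) + 1))]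
  have h9 : T < (|α / (k + 1)| + 1) * L ^ (k + 1) := by
    rwa [div_lt_iff₀ hLk1] at h8
  have h10 : ε * (y * T) < δ / 2 * (y * L ^ (k + 1)) := by
    have h11 : ε * (|α / (k + 1)| + 1) = δ / 2 := by
      rw [hεdef]
      field_simp
    calc ε * (y * T) < ε * (y * ((|α / (k + 1)| + 1) * L ^ (k + 1))) := by gcongr
      _ = ε * (|α / (k + 1)| + 1) * (y * L ^ (k + 1)) := by ring
      _ = δ / 2 * (y * L ^ (k + 1)) := by rw [h11]
  have h12 : C' * ((1 + D + |α|) * y) ≤ δ / 2 * (y * L ^ (k + 1)) := by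
    rw [div_lt_iff₀ hL0] at h2
    have hLL : L ≤ L ^ (k + 1) := by
      calc L = L ^ 1 := (pow_one L).symm
        _ ≤ L ^ (k + 1) := pow_le_pow_right₀ hL (by omega)
    calc C' * ((1 + D + |α|) * y) = C' * (1 + D + |α|) * y := by ring
      _ ≤ δ / 2 * L * y := mul_le_mul_of_nonneg_right h2.le hy0.le
      _ ≤ δ / 2 * L ^ (k + 1) * y := by gcongr
      _ = δ / 2 * (y * L ^ (k + 1)) := by ring
  linarith

end H63.MA
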