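import Pool.Agent.H63.MB.BDef
import Pool.Agent.H63.MA.ATupB

/-!
# MB-BEX: expansion of the local conditions, with special primes

`e i ⊆ E` pairwise disjoint, `E` outside `S0`; `f i` pairwise disjoint sets of good primes disjoint from `E`. `IS` is the sum over `f` of the weights of `e ∪ f`.
* `wt_exp`: multiplying out the factors `#Θ_i [F w ⊥ Θ_i] = ∑_{θ ∈ Θ_i} ep(θ · F w)` (`char_sum`), `w ∈ e i`: `wt c e F = ∑_{η ∈ I} ep(∑_i ∑_{w ∈ e i} η w · F w)`, `I` the finite set of the functions `η` with `η w ∈ Θ_i` for `w ∈ e i` and `η w = 0` for `w ∉ ⋃ e i`.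
  (Induction over the primes, or `Finset.prod_sum` / `Finset.prod_univ_sum`. For `I` take e.g. the image of `Finset.pi (⋃ e i) …`, extended by `0`.)
* `spf_iff`: for `S0`-units `ε k` and pairwise disjoint `e ∪ f` (i.e. `Dj e`, `Dj f`, `e i ∩ f j = ∅`) outside `S0`: `SpF c (ak ε e) f` iff the elements `ak ε (e ∪ f)` are independent modulo `p`-th powers. Let `b = ak ε e`; `ak ε (e ∪ f) = ak b f` (see `atupb_ak`), and by `atupb_bp`
  `bp (ak b f) θ = bp b θ * ∏_i ∏_{w ∈ f i} pi w ^ (∑_k (x i k).val (θ k).val)`. If `θ · x i = 0` whenever `f i ≠ ∅`, the product is a `p`-th power (see `atupb_spf`), so both conditions for `θ` are `¬ IsPow (bp b θ)`. If `v ∈ f i` and `θ · x i ≠ 0` then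
  `ord v (bp (ak b f) θ) ≡ θ · x i ≢ 0` modulo `p` (`pi_self`, `pi_ne`, `ord v (b k) = 0`), so it is not a `p`-th power and both conditions hold.
* `is_eq`: `IS = ∑_{η ∈ I} ep(∑_i ∑_{w ∈ e i} η w · LL w (b)) GS b E η (q ↦ H (cQ e + q))`, `b = ak ε e`. Proof: `wt c (e ∪ f) F = wt c e F * wt c f F` (disjoint unions); expand `wt c e` by `wt_exp`, and `wt c f` by `aexp` with `S = GF Y` (`c.J`-families `g` with `un c g = f`). For such `g`, `F v = (LL v (ak ε (e ∪ f) k))_k`,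
  `ak ε (e ∪ f) = ak b (un c g)`: the phase of the good primes is `ph D c.pd b g` (`phase`), and for `w ∈ e i`, `LL w (ak b f k) = LL w (b k) + ∑_j ∑_{v ∈ f j} x j k * LL w (pi v)` (`aexp_LL_prod`, `aexp_LL_pow`), so `∑_i ∑_{w ∈ e i} η w · F w = ∑_i ∑_{w ∈ e i} η w · LL w (b) + ex D c.pd E η g`
  (`η = 0` outside `⋃ e i ⊆ E`; `∑_{v ∈ f j} = ∑_θ ∑_{v ∈ g (j, θ)}`, `c.pd.x (j, θ) = x j`). Conditions: `un_nr_prod`, `atupa_sp`, `f i ∩ E = ∅` for all `i` iff `g a ∩ E = ∅` for all `a`. Classes: `cQ (e ∪ f) = cQ e + cQ f` and `cQ (un c g) = cJ (qf ∘ g)` (`un_qf`).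
-/

set_option autoImplicit false

open scoped NumberField
open IsDedekindDomain Filter Topology
open scoped Classical

noncomputable section

namespace H63.MA

variable {K : Type} [Field K] [NumberField K] {p : ℕ} {ζ : K} {m N : ℕ}

/-- the sum over the families of good primes outside `E`, the part `e` being fixed -/
def IS (D : RD0 K p ζ) (c : CD p m N) (ε : Fin m → Kˣ) (e : Fin N → Finset (Pl K))
    (E : Finset (Pl K)) (H : (Fin m → Fin D.r → ZMod p) → ℝ) (Y : ℝ) : ℝ :=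
  ∑ f ∈ Fintype.piFinset (fun _ : Fin N => GF D Y),
    if Dj f ∧ (∀ i, Disjoint (f i) E) ∧ ∏ i, nr (f i) ≤ Y ∧ SpF c (ak D c ε e) f then
      H (cQ D c fun i => e i ∪ f i) * wt c (fun i => e i ∪ f i)
        (fun v k => D.LL v (ak D c ε (fun i => e i ∪ f i) k)) else 0

theorem bex_sumU {M : Type*} [AddCommMonoid M] {e : Fin N → Finset (Pl K)} (he : Dj e)
    (G : Pl K → M) : ∑ w ∈ Finset.univ.biUnion e, G w = ∑ i, ∑ w ∈ e i, G w :=
  Finset.sum_biUnion fun i _ j _ hij => he i j hij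

theorem bex_prodU {M : Type*} [CommMonoid M] {e : Fin N → Finset (Pl K)} (he : Dj e)
    (G : Pl K → M) : ∏ w ∈ Finset.univ.biUnion e, G w = ∏ i, ∏ w ∈ e i, G w :=
  Finset.prod_biUnion fun i _ j _ hij => he i j hij

theorem bex_memU {e : Fin N → Finset (Pl K)} {w : Pl K} :
    w ∈ Finset.univ.biUnion e ↔ ∃ i, w ∈ e i := by
  simp

theorem wt_exp [NeZero p] (hp : p.Prime) (c : CD p m N) (e : Fin N → Finset (Pl K)) (he : Dj e) :
    ∃ I : Finset (Pl K → Fin m → ZMod p),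
      (∀ η, η ∈ I ↔ (∀ i, ∀ w ∈ e i, η w ∈ c.Θ i) ∧ ∀ w, (∀ i, w ∉ e i) → η w = 0) ∧
      ∀ F : Pl K → Fin m → ZMod p, ((wt c e F : ℝ) : ℂ) =
        ∑ η ∈ I, ep p (∑ i, ∑ w ∈ e i, dt (η w) (F w)) := by
  set U := Finset.univ.biUnion e with hU
  set T : Pl K → Finset (Fin m → ZMod p) := fun w =>
    Finset.univ.filter (fun θ => ∀ i, w ∈ e i → θ ∈ c.Θ i) with hT
  have hTe : ∀ i, ∀ w ∈ e i, ∀ θ, θ ∈ T w ↔ θ ∈ c.Θ i := by
    intro i w hw θ
    rw [hT]
    simp only [Finset.mem_filter, Finset.mem_univ, true_and]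
    constructor
    · intro h
      exact h i hw
    · intro h j hj
      by_cases hij : i = j
      · rw [← hij]
        exact h
      · exact absurd hj (Finset.disjoint_left.1 (he i j hij) hw)
  set R : ((w : Pl K) → w ∈ U → Fin m → ZMod p) → Pl K → Fin m → ZMod p := fun φ w =>
    if h : w ∈ U then φ w h else 0 with hR
  have hRinj : Function.Injective R := by
    intro φ ψ h
    funext w hw
    have h1 := congrFun h w
    rw [hR] at h1
    simp only [dif_pos hw] at h1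
    exact h1
  refine ⟨(U.pi T).image R, ?_, ?_⟩
  · intro η
    rw [Finset.mem_image]
    constructor
    · rintro ⟨φ, hφ, rfl⟩
      rw [Finset.mem_pi] at hφ
      refine ⟨fun i w hw => ?_, fun w hw => ?_⟩
      · have hwU : w ∈ U := bex_memU.2 ⟨i, hw⟩
        have h1 : R φ w = φ w hwU := by
          rw [hR]
          exact dif_pos hwU
        rw [h1]
        exact (hTe i w hw _).1 (hφ w hwU)
      · have hwU : w ∉ U := fun h => by
          obtain ⟨i, hi⟩ := bex_memU.1 h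
          exact hw i hi
        rw [hR]
        exact dif_neg hwU
    · rintro ⟨h1, h2⟩
      refine ⟨fun w _ => η w, ?_, ?_⟩
      · rw [Finset.mem_pi]
        intro w hw
        obtain ⟨i, hi⟩ := bex_memU.1 hw
        exact (hTe i w hi _).2 (h1 i w hi)
      · funext w
        rw [hR]
        by_cases hw : w ∈ U
        · simp only [dif_pos hw]
        · simp only [dif_neg hw]
          exact (h2 w fun i hi => hw (bex_memU.2 ⟨i, hi⟩)).symm
  · intro F
    rw [Finset.sum_image fun φ _ ψ _ h => hRinj h]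
    have h1 : ((wt c e F : ℝ) : ℂ) = ∏ w ∈ U, ∑ θ ∈ T w, ep p (dt θ (F w)) := by
      rw [hU, bex_prodU he]
      unfold wt
      rw [Complex.ofReal_prod]
      refine Finset.prod_congr rfl fun i _ => ?_
      rw [Complex.ofReal_prod]
      refine Finset.prod_congr rfl fun w hw => ?_
      have h2 := char_sum hp c i (F w)
      have h3 : ∑ θ : {θ : Fin m → ZMod p // θ ∈ c.Θ i}, ep p (dt θ.1 (F w)) =
          ∑ θ ∈ T w, ep p (dt θ (F w)) :=
        (Finset.sum_subtype (T w) (hTe i w hw) (fun θ => ep p (dt θ (F w)))).symm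
      rw [← h3]
      convert h2
    rw [h1, Finset.prod_sum]
    refine Finset.sum_congr rfl fun φ _ => ?_
    rw [← bex_sumU he (fun w => dt (R φ w) (F w)), aexp_ep_sum hp, ← hU, ← Finset.prod_attach U]
    refine Finset.prod_congr rfl fun w _ => ?_
    have h1 : R φ w.1 = φ w.1 w.2 := by
      rw [hR]
      exact dif_pos w.2
    rw [h1]

theorem bex_ak (D : RD0 K p ζ) (c : CD p m N) (ε : Fin m → Kˣ) (e f : Fin N → Finset (Pl K))
    (hef : ∀ i, Disjoint (e i) (f i)) :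
    ak D c ε (fun i => e i ∪ f i) = ak D c (ak D c ε e) f := by
  funext k
  unfold ak
  rw [mul_assoc]
  congr 1
  rw [← Finset.prod_mul_distrib]
  refine Finset.prod_congr rfl fun i _ => ?_
  rw [← Finset.prod_union (hef i)]

theorem bex_ord_bp [NeZero p] (v : Pl K) (b : Fin m → Kˣ) (θ : Fin m → ZMod p)
    (h : ∀ k, ord v (b k) = 0) : ord v (bp b θ) = 0 := by
  unfold bp
  rw [ord_prod]
  refine Finset.sum_eq_zero fun k _ => ?_
  rw [ord_pow, h k, mul_zero]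

theorem bex_dvd [NeZero p] (x θ : Fin m → ZMod p) :
    p ∣ ∑ k, (x k).val * (θ k).val ↔ dt θ x = 0 := by
  rw [← ZMod.natCast_eq_zero_iff]
  push_cast
  simp only [ZMod.natCast_zmod_val]
  have : ∑ k, x k * θ k = dt θ x := Finset.sum_congr rfl fun k _ => mul_comm _ _
  rw [this]

theorem bex_spf1 [NeZero p] (D : RD0 K p ζ) (c : CD p m N) (b : Fin m → Kˣ)
    (f : Fin N → Finset (Pl K)) (θ : Fin m → ZMod p)
    (h : ∀ i, f i ≠ ∅ → dt θ (c.x i) = 0) :
    IsPow p (bp (ak D c b f) θ) ↔ IsPow p (bp b θ) := by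
  rw [atupb_bp]
  set P : Kˣ := ∏ i, ∏ w ∈ f i, D.pi w ^ (∑ k, (c.x i k).val * (θ k).val) with hP
  have hy : ∃ y : Kˣ, y ^ p = P := by
    refine ⟨∏ i, ∏ w ∈ f i, D.pi w ^ ((∑ k, (c.x i k).val * (θ k).val) / p), ?_⟩
    rw [hP, ← Finset.prod_pow]
    refine Finset.prod_congr rfl fun i _ => ?_
    rw [← Finset.prod_pow]
    refine Finset.prod_congr rfl fun w hw => ?_
    have h3 := h i (Finset.ne_empty_of_mem hw)
    rw [← pow_mul, Nat.div_mul_cancel ((bex_dvd (c.x i) θ).2 h3)]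
  obtain ⟨y, hy⟩ := hy
  rw [← hy]
  constructor
  · rintro ⟨z, hz⟩
    refine ⟨z * y⁻¹, ?_⟩
    rw [mul_pow, hz, inv_pow, mul_assoc, mul_inv_cancel, mul_one]
  · rintro ⟨z, hz⟩
    exact ⟨z * y, by rw [mul_pow, hz]⟩

theorem bex_ord_prod [NeZero p] (D : RD0 K p ζ) (f : Fin N → Finset (Pl K)) (hf : Dj f)
    (hf0 : ∀ i, ∀ v ∈ f i, v ∉ D.S0) (n : Fin N → ℕ) (i : Fin N) (v : Pl K) (hv : v ∈ f i) :
    ord v (∏ j, ∏ w ∈ f j, D.pi w ^ n j) = n i := by
  rw [ord_prod, Finset.sum_eq_single i]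
  · rw [ord_prod, Finset.sum_eq_single v]
    · rw [ord_pow, D.pi_self v (hf0 i v hv), mul_one]
    · intro w hw hwv
      rw [ord_pow, D.pi_ne w v (hf0 i w hw) (hf0 i v hv) hwv.symm, mul_zero]
    · intro h
      exact absurd hv h
  · intro j _ hji
    rw [ord_prod]
    refine Finset.sum_eq_zero fun w hw => ?_
    rw [ord_pow, D.pi_ne w v (hf0 j w hw) (hf0 i v hv) ?_, mul_zero]
    rintro rfl
    exact Finset.disjoint_left.1 (hf j i hji) hw hv
  · intro h
    exact absurd (Finset.mem_univ i) h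

theorem bex_ord_ak [NeZero p] (D : RD0 K p ζ) (c : CD p m N) (ε : Fin m → Kˣ)
    (hε : ∀ k, TUnit D.S0 (ε k)) (e : Fin N → Finset (Pl K))
    (he0 : ∀ i, ∀ v ∈ e i, v ∉ D.S0) (v : Pl K) (hv : v ∉ D.S0) (hve : ∀ i, v ∉ e i)
    (k : Fin m) : ord v (ak D c ε e k) = 0 := by
  unfold ak
  rw [ord_mul, hε k v hv, ord_prod, zero_add]
  refine Finset.sum_eq_zero fun i _ => ?_
  rw [ord_prod]
  refine Finset.sum_eq_zero fun w hw => ?_
  rw [ord_pow, D.pi_ne w v (he0 i w hw) hv ?_, mul_zero]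
  rintro rfl
  exact hve i hw

theorem spf_iff [NeZero p] (hp : p.Prime) (D : RD0 K p ζ) (c : CD p m N) (ε : Fin m → Kˣ)
    (hε : ∀ k, TUnit D.S0 (ε k)) (e f : Fin N → Finset (Pl K)) (he : Dj e) (hf : Dj f)
    (hef : ∀ i j, Disjoint (e i) (f j)) (he0 : ∀ i, ∀ v ∈ e i, v ∉ D.S0)
    (hf0 : ∀ i, ∀ v ∈ f i, v ∉ D.S0) :
    SpF c (ak D c ε e) f ↔
      ∀ θ : Fin m → ZMod p, θ ≠ 0 → ¬ IsPow p (bp (ak D c ε (fun i => e i ∪ f i)) θ) := by
  rw [bex_ak D c ε e f (fun i => hef i i)]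
  unfold SpF
  refine forall_congr' fun θ => imp_congr_right fun _ => ?_
  by_cases h : ∃ i, f i ≠ ∅ ∧ dt θ (c.x i) ≠ 0
  · refine ⟨fun _ => ?_, fun _ => Or.inl h⟩
    obtain ⟨i, hi, hd⟩ := h
    obtain ⟨v, hv⟩ := Finset.nonempty_iff_ne_empty.2 hi
    rintro ⟨y, hy⟩
    apply hd
    rw [← bex_dvd]
    have h1 : ord v (bp (ak D c (ak D c ε e) f) θ) =
        ((∑ k, (c.x i k).val * (θ k).val : ℕ) : ℤ) := by
      rw [atupb_bp, ord_mul, bex_ord_bp v _ θ (fun k => bex_ord_ak D c ε hε e he0 v (hf0 i v hv)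
        (fun j hj => Finset.disjoint_left.1 (hef j i) hj hv) k), zero_add,
        bex_ord_prod D f hf hf0 (fun i => ∑ k, (c.x i k).val * (θ k).val) i v hv]
    rw [← hy, ord_pow] at h1
    have h2 : (p : ℤ) ∣ ((∑ k, (c.x i k).val * (θ k).val : ℕ) : ℤ) := ⟨_, h1.symm⟩
    exact_mod_cast h2
  · have h' : ∀ i, f i ≠ ∅ → dt θ (c.x i) = 0 := by
      intro i hi
      by_contra hd
      exact h ⟨i, hi, hd⟩
    rw [bex_spf1 D c (ak D c ε e) f θ h']
    exact ⟨fun h1 => h1.resolve_left h, fun h1 => Or.inr h1⟩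

theorem bex_wt (c : CD p m N) (e f : Fin N → Finset (Pl K)) (hef : ∀ i, Disjoint (e i) (f i))
    (F : Pl K → Fin m → ZMod p) : wt c (fun i => e i ∪ f i) F = wt c e F * wt c f F := by
  unfold wt
  rw [← Finset.prod_mul_distrib]
  exact Finset.prod_congr rfl fun i _ => Finset.prod_union (hef i)

theorem bex_cQ (D : RD0 K p ζ) (c : CD p m N) (e f : Fin N → Finset (Pl K))
    (hef : ∀ i, Disjoint (e i) (f i)) :
    cQ D c (fun i => e i ∪ f i) = cQ D c e + cQ D c f := by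
  funext k j
  rw [Pi.add_apply, Pi.add_apply]
  unfold cQ
  rw [← Finset.sum_add_distrib]
  refine Finset.sum_congr rfl fun i _ => ?_
  unfold qf
  rw [Finset.sum_union (hef i), Pi.add_apply, mul_add]

theorem bex_cJ [NeZero p] (D : RD0 K p ζ) (c : CD p m N) (g : c.J → Finset (Pl K)) (hg : Dj g) :
    cQ D c (un c g) = cJ D c fun a => qf D (g a) := by
  funext k j
  unfold cQ cJ
  rw [aexp_sum_J]
  refine Finset.sum_congr rfl fun i _ => ?_
  rw [un_qf D c g hg i, Finset.sum_apply, Finset.mul_sum]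
  rfl

theorem bex_ex [NeZero p] (hp : p.Prime) (hζ : IsPrimitiveRoot ζ p) (D : RD0 K p ζ)
    (c : CD p m N) (b : Fin m → Kˣ) (e : Fin N → Finset (Pl K)) (he : Dj e) (E : Finset (Pl K))
    (heE : ∀ i, e i ⊆ E) (hE : ∀ v ∈ E, v ∉ D.S0) (η : Pl K → Fin m → ZMod p)
    (hη : ∀ w, (∀ i, w ∉ e i) → η w = 0) (g : c.J → Finset (Pl K)) (hg : Dj g) :
    ∑ i, ∑ w ∈ e i, dt (η w) (fun k => D.LL w (ak D c b (un c g) k)) =
      ∑ i, ∑ w ∈ e i, dt (η w) (fun k => D.LL w (b k)) + ex D c.pd E η g := by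
  have hU : Finset.univ.biUnion e ⊆ E := by
    intro w hw
    obtain ⟨i, hi⟩ := bex_memU.1 hw
    exact heE i hi
  rw [← bex_sumU he (fun w => dt (η w) (fun k => D.LL w (ak D c b (un c g) k))),
    ← bex_sumU he (fun w => dt (η w) (fun k => D.LL w (b k)))]
  have h1 : ∀ w ∈ Finset.univ.biUnion e,
      dt (η w) (fun k => D.LL w (ak D c b (un c g) k)) =
      dt (η w) (fun k => D.LL w (b k)) +
        ∑ a, dt (η w) (c.pd.x a) * ∑ v ∈ g a, D.LL w (D.pi v) := by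
    intro w hw
    have hw0 := hE w (hU hw)
    have h2 : (fun k => D.LL w (ak D c b (un c g) k)) =
        fun k => D.LL w (b k) + ∑ a', c.pd.x a' k * ∑ v ∈ g a', D.LL w (D.pi v) := by
      funext k
      exact aexp_LL_ak hp hζ D c b g hg hw0 k
    rw [h2]
    unfold dt
    simp only [mul_add, Finset.sum_add_distrib]
    congr 1
    simp only [Finset.mul_sum, Finset.sum_mul]
    rw [Finset.sum_comm]
    refine Finset.sum_congr rfl fun a' _ => ?_
    rw [Finset.sum_comm]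
    refine Finset.sum_congr rfl fun w _ => Finset.sum_congr rfl fun k _ => ?_
    rw [mul_assoc]
  rw [Finset.sum_congr rfl h1, Finset.sum_add_distrib]
  congr 1
  unfold ex
  rw [Finset.sum_comm]
  refine Finset.sum_congr rfl fun a _ => ?_
  have h3 : ∀ v ∈ g a, ∑ w ∈ E, dt (η w) (c.pd.x a) * D.LL w (D.pi v) =
      ∑ w ∈ Finset.univ.biUnion e, dt (η w) (c.pd.x a) * D.LL w (D.pi v) := by
    intro v _
    refine (Finset.sum_subset hU fun w _ hw => ?_).symm
    have h4 : η w = 0 := hη w fun i hi => hw (bex_memU.2 ⟨i, hi⟩)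
    rw [h4]
    unfold dt
    simp
  rw [Finset.sum_congr rfl h3, Finset.sum_comm]
  refine Finset.sum_congr rfl fun w _ => ?_
  rw [Finset.mul_sum]

theorem bex_disj [NeZero p] (c : CD p m N) (g : c.J → Finset (Pl K)) (E : Finset (Pl K)) :
    (∀ i, Disjoint (un c g i) E) ↔ ∀ a, Disjoint (g a) E := by
  constructor
  · intro h a
    exact (h a.1).mono_left (aexp_un_sub c g a)
  · intro h i
    rw [Finset.disjoint_left]
    intro v hv
    obtain ⟨a, -, ha⟩ := aexp_mem_un.1 hv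
    exact Finset.disjoint_left.1 (h a) ha

theorem bex_term [NeZero p] (hp : p.Prime) (hζ : IsPrimitiveRoot ζ p) (D : RD K p ζ) (c : CD p m N)
    (ε : Fin m → Kˣ) (e : Fin N → Finset (Pl K)) (he : Dj e) (E : Finset (Pl K))
    (heE : ∀ i, e i ⊆ E) (hE : ∀ v ∈ E, v ∉ D.S0) (η : Pl K → Fin m → ZMod p)
    (hη : ∀ w, (∀ i, w ∉ e i) → η w = 0) (H : (Fin m → Fin D.r → ZMod p) → ℝ) (Y : ℝ) :
    ∑ f ∈ Fintype.piFinset (fun _ : Fin N => GF D.toRD0 Y),
      (if Dj f then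
        (if (∀ i, Disjoint (f i) E) ∧ ∏ i, nr (f i) ≤ Y ∧ SpF c (ak D.toRD0 c ε e) f then
          ((H (cQ D.toRD0 c fun i => e i ∪ f i) : ℝ) : ℂ) *
            ep p (∑ i, ∑ w ∈ e i, dt (η w)
              (fun k => D.LL w (ak D.toRD0 c (ak D.toRD0 c ε e) f k))) else 0) *
        ((wt c f (fun v k => D.LL v (ak D.toRD0 c (ak D.toRD0 c ε e) f k)) : ℝ) : ℂ) else 0) =
      ep p (∑ i, ∑ w ∈ e i, dt (η w) (fun k => D.LL w (ak D.toRD0 c ε e k))) *
        GS D.toRD0 c (ak D.toRD0 c ε e) E η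
          (fun q => ((H (cQ D.toRD0 c e + q) : ℝ) : ℂ)) Y := by
  set b := ak D.toRD0 c ε e with hb
  refine (gexp hp hζ D c b Y (fun f =>
    if (∀ i, Disjoint (f i) E) ∧ ∏ i, nr (f i) ≤ Y ∧ SpF c b f then
          ((H (cQ D.toRD0 c fun i => e i ∪ f i) : ℝ) : ℂ) *
            ep p (∑ i, ∑ w ∈ e i, dt (η w)
              (fun k => D.LL w (ak D.toRD0 c b f k))) else 0)).trans ?_
  unfold GS
  rw [Finset.mul_sum]
  refine Finset.sum_congr rfl fun g hg => ?_
  rw [Fintype.mem_piFinset] at hg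
  by_cases hd : Dj g
  · have e1 := un_nr_prod c g hd
    have e2 := atupa_sp c b g
    have e3 := bex_disj c g E
    by_cases hc : (∀ a, Disjoint (g a) E) ∧ ∏ a, nr (g a) ≤ Y ∧ Sp c b g
    · have hm : ∀ i, un c g i ∈ GF D.toRD0 Y := fun i =>
        atupa_mem D.toRD0 c g hd Y Y le_rfl hg (by rw [e1]; exact hc.2.1) i
      have hc' : (∀ i, Disjoint (un c g i) E) ∧ ∏ i, nr (un c g i) ≤ Y ∧ SpF c b (un c g) :=
        ⟨e3.2 hc.1, by rw [e1]; exact hc.2.1, e2.2 hc.2.2⟩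
      have hdis : ∀ i, Disjoint (e i) (un c g i) := fun i =>
        ((hc'.1 i).mono_right (heE i)).symm
      rw [if_pos ⟨hd, hm⟩, if_pos hc', if_pos ⟨hd, hc⟩, bex_cQ D.toRD0 c e (un c g) hdis,
        bex_cJ D.toRD0 c g hd, bex_ex hp hζ D.toRD0 c b e he E heE hE η hη g hd]
      unfold ph2
      rw [ep_add hp, ep_add hp]
      ring
    · have hc' : ¬ ((∀ i, Disjoint (un c g i) E) ∧ ∏ i, nr (un c g i) ≤ Y ∧
          SpF c b (un c g)) := by
        rintro ⟨a0, a1, a2⟩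
        exact hc ⟨e3.1 a0, by rw [← e1]; exact a1, e2.1 a2⟩
      rw [if_neg (fun h : Dj g ∧ (∀ a, Disjoint (g a) E) ∧ ∏ a, nr (g a) ≤ Y ∧ Sp c b g
        => hc h.2), mul_zero]
      split_ifs
      · rw [zero_mul]
      · rfl
  · rw [if_neg (fun h => hd h.1), if_neg (fun h => hd h.1), mul_zero]

theorem is_eq [NeZero p] (hp : p.Prime) (hζ : IsPrimitiveRoot ζ p) (D : RD K p ζ) (c : CD p m N)
    (ε : Fin m → Kˣ) (e : Fin N → Finset (Pl K)) (he : Dj e) (E : Finset (Pl K))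
    (heE : ∀ i, e i ⊆ E) (hE : ∀ v ∈ E, v ∉ D.S0) :
    ∃ I : Finset (Pl K → Fin m → ZMod p),
      (∀ η, η ∈ I ↔ (∀ i, ∀ w ∈ e i, η w ∈ c.Θ i) ∧ ∀ w, (∀ i, w ∉ e i) → η w = 0) ∧
      ∀ (H : (Fin m → Fin D.r → ZMod p) → ℝ) (Y : ℝ), ((IS D.toRD0 c ε e E H Y : ℝ) : ℂ) =
        ∑ η ∈ I, ep p (∑ i, ∑ w ∈ e i, dt (η w) (fun k => D.LL w (ak D.toRD0 c ε e k))) *
          GS D.toRD0 c (ak D.toRD0 c ε e) E η
            (fun q => ((H (cQ D.toRD0 c e + q) : ℝ) : ℂ)) Y := by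
  obtain ⟨I, hI, hexp⟩ := wt_exp hp c e he
  refine ⟨I, hI, fun H Y => ?_⟩
  rw [← Finset.sum_congr rfl fun η hη =>
    bex_term hp hζ D c ε e he E heE hE η ((hI η).1 hη).2 H Y, Finset.sum_comm]
  unfold IS
  rw [Complex.ofReal_sum]
  refine Finset.sum_congr rfl fun f _ => ?_
  by_cases hd : Dj f
  · by_cases hc : (∀ i, Disjoint (f i) E) ∧ ∏ i, nr (f i) ≤ Y ∧ SpF c (ak D.toRD0 c ε e) f
    · have hdis : ∀ i, Disjoint (e i) (f i) := fun i => ((hc.1 i).mono_right (heE i)).symm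
      rw [if_pos ⟨hd, hc⟩, bex_ak D.toRD0 c ε e f hdis, bex_wt c e f hdis]
      simp only [if_pos hd, if_pos hc]
      rw [Complex.ofReal_mul, Complex.ofReal_mul, hexp, Finset.sum_mul, Finset.mul_sum]
      refine Finset.sum_congr rfl fun η _ => ?_
      ring
    · rw [if_neg (fun h => hc h.2), Complex.ofReal_zero]
      simp only [if_pos hd, if_neg hc, zero_mul, Finset.sum_const_zero]
  · rw [if_neg (fun h => hd h.1), Complex.ofReal_zero]
    simp only [if_neg hd, Finset.sum_const_zero]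

end H63.MA
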