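import Pool.Agent.H63.MB.BIs
import Pool.Agent.H63.MB.BUe

/-!
# MB-BFB: the part with given bad primes

`MS`: the weighted number of all families `f` (of arbitrary primes outside `S0`, `∏ nr (f i) ≤ X`, the elements `ak ε f` independent) with class weight `H (cQ f)` and `f i₀ ∩ Z = ∅`. `FB e`: the part of `MS` where the bad (not good) primes form the family `e`.
* `ms_split`: `Z` good primes: `MS = ∑_e FB e`, `e` over the families with `atupbC D X e` (`MA/ATupB`): `f ↔ (atupbE f, atupbG f)` is a bijection onto the pairs (`e`, family of good primes), `f i = e i ∪ g i`; `spf_iff`; `f i₀ ∩ Z = g i₀ ∩ Z`; compare the proof of `atupb_main`.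
* `fb_up`: `0 ≤ FB e ≤ ∏_i P^{#(e i)} Sg D c (ak ε e) X (X / ∏ nr (e i))`, `P = #(ZMod p)^m`: `H ≤ 1`, drop the condition with `Z`, `wt c (e ∪ f) ≤ ∏ P^{#(e i)} wt c f` (`atupb_t`, as in `atupb_wt`), `ak ε (e ∪ f) = ak (ak ε e) f`.
* `fb_lim`: for a bad family `e`: `FB e / (X (log X)^{N-1})` converges to `L` with `0 ≤ L ≤ (∏ nr (e i))⁻¹ u (p^m)^N ∏_{v ∈ Z} (1 + (N-1)/nm v)`, `u` the limit of `UN D N Z y / (y (log y)^{N-1})`.
  Proof. Split `f i = s i ∪ f' i`, `s i = f i ∩ Z`: `FB e (X) = ∑_{s ∈ SD D N Z, s i₀ = ∅} IS D c ε (e ∪ s) E H (X / (∏ nr (e i) ∏ nr (s i)))` with `E = ⋃ e i ∪ Z`: the conditions on `f'` are `f' i ∩ E = ∅` (good primes are not in the `e i`), `∏ nr (f' i) ≤ X / …`, and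
  `SpF c (ak ε e) (s ∪ f') ↔ SpF c (ak ε (e ∪ s)) f'` by `spf_iff` (both say that `ak ε (e ∪ s ∪ f')` is independent). `UN D N E = UN D N Z` (`un_good`: `Z` and `E` have the same good primes). By `is_lim` every summand divided by `X (log X)^{N-1}` converges to `L_s / (∏ nr (e i) ∏ nr (s i))` with
  `L_s ≤ u (p^m)^N` (`log (X/c) / log X → 1`). Sum over `s`: `sd_sum` with `A = {i ≠ i₀}`, all `v ∈ Z` are good.
-/

set_option autoImplicit false

open scoped NumberField
open IsDedekindDomain Filter Topology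
open scoped Classical

noncomputable section

namespace H63.MA

variable {K : Type} [Field K] [NumberField K] {p : ℕ} {ζ : K} {m N : ℕ}

/-- the weighted number of all families, avoiding `Z` in the class `i₀` -/
def MS (D : RD0 K p ζ) (c : CD p m N) (ε : Fin m → Kˣ) (Z : Finset (Pl K)) (i₀ : Fin N)
    (H : (Fin m → Fin D.r → ZMod p) → ℝ) (X : ℝ) : ℝ :=
  ∑ f ∈ Fintype.piFinset (fun _ : Fin N => AF K X),
    if Dj f ∧ (∀ i, ∀ v ∈ f i, v ∉ D.S0) ∧ ∏ i, nr (f i) ≤ X ∧
        (∀ θ : Fin m → ZMod p, θ ≠ 0 → ¬ IsPow p (bp (ak D c ε f) θ)) ∧ Disjoint (f i₀) Z then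
      H (cQ D c f) * wt c f (fun v k => D.LL v (ak D c ε f k)) else 0

/-- the part of `MS` with the bad primes `e` -/
def FB (D : RD0 K p ζ) (c : CD p m N) (ε : Fin m → Kˣ) (e : Fin N → Finset (Pl K))
    (Z : Finset (Pl K)) (i₀ : Fin N) (H : (Fin m → Fin D.r → ZMod p) → ℝ) (X : ℝ) : ℝ :=
  ∑ f ∈ Fintype.piFinset (fun _ : Fin N => GF D X),
    if Dj f ∧ ∏ i, nr (f i) ≤ X / ∏ i, nr (e i) ∧ SpF c (ak D c ε e) f ∧ Disjoint (f i₀) Z then
      H (cQ D c fun i => e i ∪ f i) * wt c (fun i => e i ∪ f i)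
        (fun v k => D.LL v (ak D c ε (fun i => e i ∪ f i) k)) else 0

theorem bfb_E (D : RD0 K p ζ) (e f : Fin N → Finset (Pl K))
    (heb : ∀ i, ∀ v ∈ e i, v ∉ D.S0 ∧ ¬ D.Gd v) (hfg : ∀ i, ∀ v ∈ f i, D.Gd v) :
    atupbE D (fun i => e i ∪ f i) = e := by
  funext i
  ext v
  simp only [atupbE, Finset.mem_filter, Finset.mem_union]
  constructor
  · rintro ⟨h | h, h2⟩
    · exact h
    · exact absurd (hfg i v h) h2
  · intro h
    exact ⟨Or.inl h, (heb i v h).2⟩

theorem bfb_G (D : RD0 K p ζ) (e f : Fin N → Finset (Pl K))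
    (heb : ∀ i, ∀ v ∈ e i, v ∉ D.S0 ∧ ¬ D.Gd v) (hfg : ∀ i, ∀ v ∈ f i, D.Gd v) :
    atupbG D (fun i => e i ∪ f i) = f := by
  funext i
  ext v
  simp only [atupbG, Finset.mem_filter, Finset.mem_union]
  constructor
  · rintro ⟨h | h, h2⟩
    · exact absurd h2 (heb i v h).2
    · exact h
  · intro h
    exact ⟨Or.inr h, hfg i v h⟩

theorem bfb_disj (D : RD0 K p ζ) (e f : Fin N → Finset (Pl K))
    (heb : ∀ i, ∀ v ∈ e i, v ∉ D.S0 ∧ ¬ D.Gd v) (hfg : ∀ i, ∀ v ∈ f i, D.Gd v) (i j : Fin N) :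
    Disjoint (e i) (f j) := by
  rw [Finset.disjoint_left]
  intro v hv hv'
  exact (heb i v hv).2 (hfg j v hv')

theorem bfb_dj (e f : Fin N → Finset (Pl K)) (he : Dj e) (hf : Dj f)
    (hef : ∀ i j, Disjoint (e i) (f j)) : Dj (fun i => e i ∪ f i) := by
  intro i j hij
  simp only [Finset.disjoint_union_left, Finset.disjoint_union_right]
  exact ⟨⟨he i j hij, (hef j i).symm⟩, hef i j, hf i j hij⟩

theorem bfb_GF {D : RD0 K p ζ} {X : ℝ} {f : Fin N → Finset (Pl K)}
    (hf : f ∈ Fintype.piFinset (fun _ : Fin N => GF D X)) (i : Fin N) :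
    ∀ v ∈ f i, D.Gd v :=
  (atupa_mem_GF.1 ((Fintype.mem_piFinset.1 hf) i)).2

theorem ms_split [NeZero p] (hp : p.Prime) (D : RD0 K p ζ) (c : CD p m N) (ε : Fin m → Kˣ)
    (hε : ∀ k, TUnit D.S0 (ε k)) (Z : Finset (Pl K)) (hZ : ∀ v ∈ Z, D.Gd v) (i₀ : Fin N)
    (H : (Fin m → Fin D.r → ZMod p) → ℝ) (X : ℝ) :
    MS D c ε Z i₀ H X = ∑ e ∈ Fintype.piFinset (fun _ : Fin N => AF K X),
      if atupbC D X e then FB D c ε e Z i₀ H X else 0 := by
  set V : (Fin N → Finset (Pl K)) → ℝ := fun f =>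
    H (cQ D c f) * wt c f (fun v k => D.LL v (ak D c ε f k)) with hV
  set T : (Fin N → Finset (Pl K)) × (Fin N → Finset (Pl K)) → ℝ := fun x =>
    if atupbC D X x.1 then
      (if Dj x.2 ∧ ∏ i, nr (x.2 i) ≤ X / ∏ i, nr (x.1 i) ∧ SpF c (ak D c ε x.1) x.2 ∧
          Disjoint (x.2 i₀) Z then V (fun i => x.1 i ∪ x.2 i) else 0) else 0 with hT
  have hR : ∑ e ∈ Fintype.piFinset (fun _ : Fin N => AF K X),
      (if atupbC D X e then FB D c ε e Z i₀ H X else 0) =
      ∑ x ∈ Fintype.piFinset (fun _ : Fin N => AF K X) ×ˢ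
        Fintype.piFinset (fun _ : Fin N => GF D X), T x := by
    rw [Finset.sum_product]
    refine Finset.sum_congr rfl fun e _ => ?_
    rw [hT]
    dsimp only
    split_ifs
    · rfl
    · rw [Finset.sum_const_zero]
  rw [hR]
  have hinj : Function.Injective fun f : Fin N → Finset (Pl K) => (atupbE D f, atupbG D f) := by
    intro f f' h
    simp only [Prod.mk.injEq] at h
    funext i
    rw [← atupb_union D f i, ← atupb_union D f' i, h.1, h.2]
  have himg : ∑ f ∈ Fintype.piFinset (fun _ : Fin N => AF K X), T (atupbE D f, atupbG D f) =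
      ∑ x ∈ (Fintype.piFinset (fun _ : Fin N => AF K X)).image
        (fun f => (atupbE D f, atupbG D f)), T x :=
    (Finset.sum_image fun f _ f' _ h => hinj h).symm
  have hprod : ∀ f : Fin N → Finset (Pl K),
      ∏ i, nr (f i) = (∏ i, nr (atupbE D f i)) * ∏ i, nr (atupbG D f i) := by
    intro f
    rw [← Finset.prod_mul_distrib]
    exact Finset.prod_congr rfl fun i _ => atupb_nr D f i
  have hpt : ∀ f : Fin N → Finset (Pl K),
      (if Dj f ∧ (∀ i, ∀ v ∈ f i, v ∉ D.S0) ∧ ∏ i, nr (f i) ≤ X ∧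
        (∀ θ : Fin m → ZMod p, θ ≠ 0 → ¬ IsPow p (bp (ak D c ε f) θ)) ∧ Disjoint (f i₀) Z then
        V f else 0) = T (atupbE D f, atupbG D f) := by
    intro f
    have hun : (fun i => atupbE D f i ∪ atupbG D f i) = f := by
      funext i
      exact atupb_union D f i
    have hEb : (∀ i, ∀ v ∈ f i, v ∉ D.S0) → ∀ i, ∀ v ∈ atupbE D f i, v ∉ D.S0 ∧ ¬ D.Gd v :=
      fun h i v hv => ⟨h i v (Finset.mem_filter.1 hv).1, (Finset.mem_filter.1 hv).2⟩
    have hGg : ∀ i, ∀ v ∈ atupbG D f i, D.Gd v := fun i v hv => (Finset.mem_filter.1 hv).2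
    have hEG : ∀ i j, Disjoint (atupbE D f i) (atupbG D f j) := by
      intro i j
      rw [Finset.disjoint_left]
      intro v hv hv'
      exact (Finset.mem_filter.1 hv).2 (hGg j v hv')
    have hG0 : ∀ i, ∀ v ∈ atupbG D f i, v ∉ D.S0 := fun i v hv => (hGg i v hv).1
    have hE1 := atupb_one_le (atupbE D f)
    have hG1 := atupb_one_le (atupbG D f)
    have hiff : (Dj f ∧ (∀ i, ∀ v ∈ f i, v ∉ D.S0) ∧ ∏ i, nr (f i) ≤ X ∧
        (∀ θ : Fin m → ZMod p, θ ≠ 0 → ¬ IsPow p (bp (ak D c ε f) θ)) ∧ Disjoint (f i₀) Z) ↔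
        (atupbC D X (atupbE D f) ∧ (Dj (atupbG D f) ∧
          ∏ i, nr (atupbG D f i) ≤ X / ∏ i, nr (atupbE D f i) ∧
          SpF c (ak D c ε (atupbE D f)) (atupbG D f) ∧ Disjoint (atupbG D f i₀) Z)) := by
      constructor
      · rintro ⟨h1, h2, h3, h4, h5⟩
        refine ⟨⟨fun i j hij => ?_, hEb h2, ?_⟩, fun i j hij => ?_, ?_, atupb_spf D c ε f h4, ?_⟩
        · exact (h1 i j hij).mono (Finset.filter_subset _ _) (Finset.filter_subset _ _)
        · rw [hprod] at h3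
          nlinarith
        · exact (h1 i j hij).mono (Finset.filter_subset _ _) (Finset.filter_subset _ _)
        · rw [le_div_iff₀ (by linarith), mul_comm, ← hprod]
          exact h3
        · exact h5.mono_left (Finset.filter_subset _ _)
      · rintro ⟨⟨h1, h2, h3⟩, h4, h5, h6, h7⟩
        have hDj : Dj f := by
          rw [← hun]
          exact bfb_dj _ _ h1 h4 hEG
        refine ⟨hDj, fun i v hv => ?_, ?_, ?_, ?_⟩
        · by_cases hg : D.Gd v
          · exact hg.1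
          · exact (h2 i v (Finset.mem_filter.2 ⟨hv, hg⟩)).1
        · rw [le_div_iff₀ (by linarith), mul_comm, ← hprod] at h5
          exact h5
        · have h8 := (spf_iff hp D c ε hε (atupbE D f) (atupbG D f) h1 h4 hEG
            (fun i v hv => (h2 i v hv).1) hG0).1 h6
          rw [hun] at h8
          exact h8
        · rw [Finset.disjoint_left]
          intro v hv hvZ
          exact (Finset.disjoint_left.1 h7) (Finset.mem_filter.2 ⟨hv, hZ v hvZ⟩) hvZ
    rw [hT]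
    dsimp only
    rw [hun]
    by_cases hc : Dj f ∧ (∀ i, ∀ v ∈ f i, v ∉ D.S0) ∧ ∏ i, nr (f i) ≤ X ∧
        (∀ θ : Fin m → ZMod p, θ ≠ 0 → ¬ IsPow p (bp (ak D c ε f) θ)) ∧ Disjoint (f i₀) Z
    · rw [if_pos hc, if_pos (hiff.1 hc).1, if_pos (hiff.1 hc).2]
    · rw [if_neg hc]
      by_cases hC : atupbC D X (atupbE D f)
      · rw [if_pos hC, if_neg]
        intro h
        exact hc (hiff.2 ⟨hC, h⟩)
      · rw [if_neg hC]
  have hL : MS D c ε Z i₀ H X =
      ∑ f ∈ Fintype.piFinset (fun _ : Fin N => AF K X), T (atupbE D f, atupbG D f) := by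
    unfold MS
    refine Finset.sum_congr rfl fun f _ => ?_
    convert hpt f
  rw [hL, himg]
  refine Finset.sum_subset ?_ ?_
  · intro x hx
    obtain ⟨f, hf, rfl⟩ := Finset.mem_image.1 hx
    rw [Fintype.mem_piFinset] at hf
    rw [Finset.mem_product, Fintype.mem_piFinset, Fintype.mem_piFinset]
    refine ⟨fun i => ?_, fun i => ?_⟩
    · rw [mem_AF]
      exact (nr_mono (Finset.filter_subset _ _)).trans (mem_AF.1 (hf i))
    · rw [GF, Finset.mem_filter, mem_AF]
      exact ⟨(nr_mono (Finset.filter_subset _ _)).trans (mem_AF.1 (hf i)),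
        fun v hv => (Finset.mem_filter.1 hv).2⟩
  · rintro ⟨e, g⟩ hx hnot
    rw [hT]
    dsimp only
    split_ifs with hC hD
    · exfalso
      apply hnot
      rw [Finset.mem_product] at hx
      have hgg := fun i => bfb_GF hx.2 i
      dsimp only at hgg
      refine Finset.mem_image.2 ⟨fun i => e i ∪ g i, ?_, ?_⟩
      · rw [Fintype.mem_piFinset]
        intro i
        rw [mem_AF, nr_union (bfb_disj D e g hC.2.1 hgg i i)]
        have hE1 := atupb_one_le e
        have h5 := hD.2.1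
        rw [le_div_iff₀ (by linarith)] at h5
        have h6 : nr (e i) ≤ ∏ i, nr (e i) := atupa_le_prod e i
        have h7 : nr (g i) ≤ ∏ i, nr (g i) := atupa_le_prod g i
        have h8 := one_le_nr (e i)
        have h9 := one_le_nr (g i)
        calc nr (e i) * nr (g i) ≤ (∏ i, nr (e i)) * ∏ i, nr (g i) :=
              mul_le_mul h6 h7 (by linarith) (by linarith)
          _ ≤ X := by rw [mul_comm]; exact h5
      · rw [bfb_E D e g hC.2.1 hgg, bfb_G D e g hC.2.1 hgg]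
    · rfl
    · rfl

theorem fb_up [NeZero p] (D : RD0 K p ζ) (c : CD p m N) (ε : Fin m → Kˣ)
    (e : Fin N → Finset (Pl K)) (Z : Finset (Pl K)) (i₀ : Fin N)
    (H : (Fin m → Fin D.r → ZMod p) → ℝ) (hH : ∀ q, 0 ≤ H q ∧ H q ≤ 1) (X : ℝ)
    (he : Dj e) (heb : ∀ i, ∀ v ∈ e i, v ∉ D.S0 ∧ ¬ D.Gd v) :
    0 ≤ FB D c ε e Z i₀ H X ∧ FB D c ε e Z i₀ H X ≤
      (∏ i, (Nat.card (Fin m → ZMod p) : ℝ) ^ (e i).card) *
        Sg D c (ak D c ε e) X (X / ∏ i, nr (e i)) := by
  have hwt : ∀ f : Fin N → Finset (Pl K), ∀ F, 0 ≤ wt c f F := fun f F => atupb_wt_nonneg c f F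
  constructor
  · unfold FB
    refine Finset.sum_nonneg fun f _ => ?_
    split_ifs
    · exact mul_nonneg (hH _).1 (hwt _ _)
    · exact le_rfl
  · unfold FB Sg
    rw [Finset.mul_sum]
    refine Finset.sum_le_sum fun f hf => ?_
    have hfg := fun i => bfb_GF hf i
    have hP0 : 0 ≤ ∏ i, (Nat.card (Fin m → ZMod p) : ℝ) ^ (e i).card :=
      Finset.prod_nonneg fun i _ => by positivity
    by_cases hc : Dj f ∧ ∏ i, nr (f i) ≤ X / ∏ i, nr (e i) ∧ SpF c (ak D c ε e) f ∧
        Disjoint (f i₀) Z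
    · rw [if_pos hc, if_pos ⟨hc.1, hc.2.1, hc.2.2.1⟩]
      have h1 := atupb_wt D c (fun i => e i ∪ f i)
        (fun v k => D.LL v (ak D c ε (fun i => e i ∪ f i) k))
      have h2 := atupb_ak D c ε (fun i => e i ∪ f i)
      rw [bfb_E D e f heb hfg, bfb_G D e f heb hfg] at h1 h2
      have h3 : H (cQ D c fun i => e i ∪ f i) * wt c (fun i => e i ∪ f i)
          (fun v k => D.LL v (ak D c ε (fun i => e i ∪ f i) k)) ≤
          wt c (fun i => e i ∪ f i) (fun v k => D.LL v (ak D c ε (fun i => e i ∪ f i) k)) :=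
        mul_le_of_le_one_left (hwt _ _) (hH _).2
      refine h3.trans (h1.trans ?_)
      rw [h2]
    · rw [if_neg hc]
      refine mul_nonneg hP0 ?_
      split_ifs
      · exact hwt _ _
      · exact le_rfl

theorem bfb_iu (A Z : Finset (Pl K)) : (A ∩ Z) ∪ (A \ Z) = A := by
  ext v
  simp only [Finset.mem_union, Finset.mem_inter, Finset.mem_sdiff]
  tauto

theorem bfb_ratio (c0 : ℝ) (hc0 : 0 < c0) (k : ℕ) :
    Tendsto (fun X : ℝ => (X / c0 * Real.log (X / c0) ^ k) / (X * Real.log X ^ k))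
      atTop (𝓝 c0⁻¹) := by
  have h1 : Tendsto (fun X : ℝ => Real.log (X / c0) / Real.log X) atTop (𝓝 1) := by
    have h2 : Tendsto (fun X : ℝ => 1 - Real.log c0 / Real.log X) atTop (𝓝 (1 - 0)) :=
      tendsto_const_nhds.sub (Real.tendsto_log_atTop.const_div_atTop (Real.log c0))
    rw [sub_zero] at h2
    refine h2.congr' ?_
    filter_upwards [eventually_gt_atTop 1] with X hX
    have h3 : 0 < Real.log X := Real.log_pos hX
    rw [Real.log_div (by linarith) hc0.ne', sub_div, div_self h3.ne']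
  have h4 := (h1.pow k).const_mul c0⁻¹
  rw [one_pow, mul_one] at h4
  refine h4.congr' ?_
  filter_upwards [eventually_gt_atTop 1] with X hX
  have h3 : 0 < Real.log X := Real.log_pos hX
  have hX0 : X ≠ 0 := by linarith
  rw [div_pow]
  field_simp

theorem bfb_dec [NeZero p] (hp : p.Prime) (D : RD0 K p ζ) (c : CD p m N) (ε : Fin m → Kˣ)
    (hε : ∀ k, TUnit D.S0 (ε k)) (e : Fin N → Finset (Pl K)) (he : Dj e)
    (heb : ∀ i, ∀ v ∈ e i, v ∉ D.S0 ∧ ¬ D.Gd v) (Z : Finset (Pl K)) (i₀ : Fin N)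
    (H : (Fin m → Fin D.r → ZMod p) → ℝ) (X : ℝ) :
    FB D c ε e Z i₀ H X =
      ∑ s ∈ (SD D N Z).filter (fun s => ∀ i, i ∉ Finset.univ.erase i₀ → s i = ∅),
        IS D c ε (fun i => e i ∪ s i) (Finset.univ.biUnion e ∪ Z) H
          (X / ((∏ i, nr (e i)) * ∏ i, nr (s i))) := by
  set ne : ℝ := ∏ i, nr (e i) with hne
  have hne1 : 1 ≤ ne := atupb_one_le e
  set E : Finset (Pl K) := Finset.univ.biUnion e ∪ Z with hE
  set V : (Fin N → Finset (Pl K)) → ℝ := fun f =>
    H (cQ D c f) * wt c f (fun v k => D.LL v (ak D c ε f k)) with hV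
  have hL : FB D c ε e Z i₀ H X = ∑ f ∈ (Fintype.piFinset (fun _ : Fin N => GF D X)).filter
      (fun f => Dj f ∧ ∏ i, nr (f i) ≤ X / ne ∧ SpF c (ak D c ε e) f ∧ Disjoint (f i₀) Z),
      V (fun i => e i ∪ f i) := by
    rw [Finset.sum_filter]
    rfl
  have hR : ∀ s : Fin N → Finset (Pl K),
      IS D c ε (fun i => e i ∪ s i) E H (X / (ne * ∏ i, nr (s i))) =
      ∑ f ∈ (Fintype.piFinset (fun _ : Fin N => GF D (X / (ne * ∏ i, nr (s i))))).filter
      (fun f => Dj f ∧ (∀ i, Disjoint (f i) E) ∧ ∏ i, nr (f i) ≤ X / (ne * ∏ i, nr (s i)) ∧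
        SpF c (ak D c ε (fun i => e i ∪ s i)) f), V (fun i => (e i ∪ s i) ∪ f i) := by
    intro s
    rw [Finset.sum_filter]
    rfl
  rw [hL, Finset.sum_congr rfl fun s _ => hR s, Finset.sum_sigma']
  have hSDm : ∀ s : Fin N → Finset (Pl K),
      s ∈ (SD D N Z).filter (fun s => ∀ i, i ∉ Finset.univ.erase i₀ → s i = ∅) ↔
      (∀ i, s i ⊆ Z) ∧ Dj s ∧ (∀ i, ∀ v ∈ s i, D.Gd v) ∧ s i₀ = ∅ := by
    intro s
    rw [Finset.mem_filter, SD, Finset.mem_filter, Fintype.mem_piFinset]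
    constructor
    · rintro ⟨⟨h1, h2, h3⟩, h4⟩
      exact ⟨fun i => Finset.mem_powerset.1 (h1 i), h2, h3, h4 i₀ (Finset.notMem_erase _ _)⟩
    · rintro ⟨h1, h2, h3, h4⟩
      refine ⟨⟨fun i => Finset.mem_powerset.2 (h1 i), h2, h3⟩, fun i hi => ?_⟩
      have : i = i₀ := by
        by_contra hne'
        exact hi (Finset.mem_erase.2 ⟨hne', Finset.mem_univ _⟩)
      rw [this]
      exact h4
  refine Finset.sum_bij'
    (i := fun f _ => ⟨fun i => f i ∩ Z, fun i => f i \ Z⟩)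
    (j := fun x _ => fun i => x.1 i ∪ x.2 i) ?_ ?_ ?_ ?_ ?_
  · intro f hf
    rw [Finset.mem_filter] at hf
    obtain ⟨hf0, hf1, hf2, hf3, hf4⟩ := hf
    have hfg := fun i => bfb_GF hf0 i
    have hsdj : Dj (fun i => f i ∩ Z) := fun i j hij =>
      (hf1 i j hij).mono Finset.inter_subset_left Finset.inter_subset_left
    have hfdj : Dj (fun i => f i \ Z) := fun i j hij =>
      (hf1 i j hij).mono Finset.sdiff_subset Finset.sdiff_subset
    have hsg : ∀ i, ∀ v ∈ f i ∩ Z, D.Gd v := fun i v hv => hfg i v (Finset.mem_inter.1 hv).1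
    have hf'g : ∀ i, ∀ v ∈ f i \ Z, D.Gd v := fun i v hv => hfg i v (Finset.mem_sdiff.1 hv).1
    have hnr : ∀ i, nr (f i) = nr (f i ∩ Z) * nr (f i \ Z) := by
      intro i
      rw [← nr_union (Finset.disjoint_of_subset_left Finset.inter_subset_right
        Finset.disjoint_sdiff), bfb_iu]
    have hprod : ∏ i, nr (f i) = (∏ i, nr (f i ∩ Z)) * ∏ i, nr (f i \ Z) := by
      rw [← Finset.prod_mul_distrib]
      exact Finset.prod_congr rfl fun i _ => hnr i
    have hs1 : 1 ≤ ∏ i, nr (f i ∩ Z) := atupb_one_le (fun i => f i ∩ Z)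
    have hle : ∏ i, nr (f i \ Z) ≤ X / (ne * ∏ i, nr (f i ∩ Z)) := by
      rw [le_div_iff₀ (by positivity)]
      rw [hprod, le_div_iff₀ (by linarith)] at hf2
      calc (∏ i, nr (f i \ Z)) * (ne * ∏ i, nr (f i ∩ Z))
          = (∏ i, nr (f i ∩ Z)) * (∏ i, nr (f i \ Z)) * ne := by ring
        _ ≤ X := hf2
    rw [Finset.mem_sigma]
    refine ⟨(hSDm _).2 ⟨fun i => Finset.inter_subset_right, hsdj, hsg,
      Finset.disjoint_iff_inter_eq_empty.1 hf4⟩, ?_⟩
    rw [Finset.mem_filter, Fintype.mem_piFinset]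
    refine ⟨fun i => atupa_mem_GF.2 ⟨?_, hf'g i⟩, hfdj, fun i => ?_, hle, ?_⟩
    · exact (atupa_le_prod (fun i => f i \ Z) i).trans hle
    · rw [hE, Finset.disjoint_union_right]
      refine ⟨?_, Finset.sdiff_disjoint⟩
      rw [Finset.disjoint_biUnion_right]
      intro j _
      exact (bfb_disj D e (fun i => f i \ Z) heb hf'g j i).symm
    · have h8 := (spf_iff hp D c ε hε e f he hf1 (bfb_disj D e f heb hfg)
        (fun i v hv => (heb i v hv).1) (fun i v hv => (hfg i v hv).1)).1 hf3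
      refine (spf_iff hp D c ε hε (fun i => e i ∪ (f i ∩ Z)) (fun i => f i \ Z)
        (bfb_dj _ _ he hsdj (bfb_disj D e (fun i => f i ∩ Z) heb hsg)) hfdj ?_ ?_
        (fun i v hv => (hf'g i v hv).1)).2 ?_
      · intro i j
        rw [Finset.disjoint_union_left]
        refine ⟨bfb_disj D e (fun i => f i \ Z) heb hf'g i j, ?_⟩
        exact Finset.disjoint_of_subset_left Finset.inter_subset_right Finset.disjoint_sdiff
      · intro i v hv
        rcases Finset.mem_union.1 hv with h | h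
        · exact (heb i v h).1
        · exact (hsg i v h).1
      · have hfun : (fun i => (e i ∪ (f i ∩ Z)) ∪ (f i \ Z)) = fun i => e i ∪ f i := by
          funext i
          rw [Finset.union_assoc, bfb_iu]
        rw [hfun]
        exact h8
  · rintro ⟨s, f'⟩ hx
    rw [Finset.mem_sigma] at hx
    obtain ⟨hs, hf'⟩ := hx
    dsimp only at hs hf'
    obtain ⟨hs1, hs2, hs3, hs4⟩ := (hSDm s).1 hs
    rw [Finset.mem_filter] at hf'
    obtain ⟨hf0, hf1, hf2, hf3, hf4⟩ := hf'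
    have hfg := fun i => bfb_GF hf0 i
    have hfZ : ∀ i, Disjoint (f' i) Z := fun i =>
      (hf2 i).mono_right (by rw [hE]; exact Finset.subset_union_right)
    have hsf : ∀ i j, Disjoint (s i) (f' j) := fun i j =>
      Finset.disjoint_of_subset_left (hs1 i) (hfZ j).symm
    have hgood : ∀ i, ∀ v ∈ s i ∪ f' i, D.Gd v := by
      intro i v hv
      rcases Finset.mem_union.1 hv with h | h
      · exact hs3 i v h
      · exact hfg i v h
    have hs5 : 1 ≤ ∏ i, nr (s i) := atupb_one_le s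
    have hf5 : 1 ≤ ∏ i, nr (f' i) := atupb_one_le f'
    have hX0 : 0 < X := by
      have h1 : 1 ≤ X / (ne * ∏ i, nr (s i)) := hf5.trans hf3
      rw [le_div_iff₀ (by positivity)] at h1
      have : 0 < ne * ∏ i, nr (s i) := by positivity
      linarith
    have hprod : ∏ i, nr (s i ∪ f' i) = (∏ i, nr (s i)) * ∏ i, nr (f' i) := by
      rw [← Finset.prod_mul_distrib]
      exact Finset.prod_congr rfl fun i _ => nr_union (hsf i i)
    have hle : ∏ i, nr (s i ∪ f' i) ≤ X / ne := by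
      rw [hprod, le_div_iff₀ (by linarith)]
      rw [le_div_iff₀ (by positivity)] at hf3
      calc (∏ i, nr (s i)) * (∏ i, nr (f' i)) * ne
          = (∏ i, nr (f' i)) * (ne * ∏ i, nr (s i)) := by ring
        _ ≤ X := hf3
    have hdj : Dj (fun i => s i ∪ f' i) := bfb_dj s f' hs2 hf1 hsf
    rw [Finset.mem_filter, Fintype.mem_piFinset]
    refine ⟨fun i => atupa_mem_GF.2 ⟨?_, hgood i⟩, hdj, hle, ?_, ?_⟩
    · exact ((atupa_le_prod (fun i => s i ∪ f' i) i).trans hle).trans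
        (div_le_self hX0.le hne1)
    · refine (spf_iff hp D c ε hε e (fun i => s i ∪ f' i) he hdj
        (bfb_disj D e (fun i => s i ∪ f' i) heb hgood)
        (fun i v hv => (heb i v hv).1) (fun i v hv => (hgood i v hv).1)).2 ?_
      have h8 := (spf_iff hp D c ε hε (fun i => e i ∪ s i) f'
        (bfb_dj _ _ he hs2 (bfb_disj D e s heb hs3)) hf1 ?_ ?_
        (fun i v hv => (hfg i v hv).1)).1 hf4
      · have hfun : (fun i => (e i ∪ s i) ∪ f' i) = fun i => e i ∪ (s i ∪ f' i) := by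
          funext i
          rw [Finset.union_assoc]
        rw [hfun] at h8
        exact h8
      · intro i j
        rw [Finset.disjoint_union_left]
        exact ⟨bfb_disj D e f' heb hfg i j, hsf i j⟩
      · intro i v hv
        rcases Finset.mem_union.1 hv with h | h
        · exact (heb i v h).1
        · exact (hs3 i v h).1
    · dsimp only
      rw [hs4, Finset.empty_union]
      exact hfZ i₀
  · intro f _
    funext i
    exact bfb_iu (f i) Z
  · rintro ⟨s, f'⟩ hx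
    rw [Finset.mem_sigma] at hx
    obtain ⟨hs, hf'⟩ := hx
    dsimp only at hs hf'
    obtain ⟨hs1, hs2, hs3, hs4⟩ := (hSDm s).1 hs
    rw [Finset.mem_filter] at hf'
    obtain ⟨hf0, hf1, hf2, hf3, hf4⟩ := hf'
    have hfZ : ∀ i, Disjoint (f' i) Z := fun i =>
      (hf2 i).mono_right (by rw [hE]; exact Finset.subset_union_right)
    have h1 : (fun i => (s i ∪ f' i) ∩ Z) = s := by
      funext i
      rw [Finset.union_inter_distrib_right, Finset.inter_eq_left.2 (hs1 i),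
        Finset.disjoint_iff_inter_eq_empty.1 (hfZ i), Finset.union_empty]
    have h2 : (fun i => (s i ∪ f' i) \ Z) = f' := by
      funext i
      rw [Finset.union_sdiff_distrib, Finset.sdiff_eq_empty_iff_subset.2 (hs1 i),
        Finset.empty_union, Finset.sdiff_eq_self_of_disjoint (hfZ i)]
    dsimp only
    rw [h1, h2]
  · intro f _
    dsimp only
    congr 1
    funext i
    rw [Finset.union_assoc, bfb_iu]

theorem fb_lim [NeZero p] (hp : p.Prime) (hp2 : MOne p K) (hζ : IsPrimitiveRoot ζ p) (D : RD K p ζ)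
    (c : CD p m N) (hN : 1 ≤ N) (ε : Fin m → Kˣ) (hε : ∀ k, TUnit D.S0 (ε k))
    (e : Fin N → Finset (Pl K)) (he : Dj e) (heb : ∀ i, ∀ v ∈ e i, v ∉ D.S0 ∧ ¬ D.Gd v)
    (Z : Finset (Pl K)) (hZ : ∀ v ∈ Z, D.Gd v) (i₀ : Fin N)
    (H : (Fin m → Fin D.r → ZMod p) → ℝ) (hH : ∀ q, 0 ≤ H q ∧ H q ≤ 1) (u : ℝ)
    (hu : Tendsto (fun y : ℝ => UN D.toRD0 N Z y / (y * Real.log y ^ (N - 1))) atTop (𝓝 u)) :
    ∃ L : ℝ, 0 ≤ L ∧ L ≤ (∏ i, nr (e i))⁻¹ * (u * ((p : ℝ) ^ m) ^ N *
        ∏ v ∈ Z, (1 + ((N - 1 : ℕ) : ℝ) / nm v)) ∧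
      Tendsto (fun X : ℝ => FB D.toRD0 c ε e Z i₀ H X / (X * Real.log X ^ (N - 1)))
        atTop (𝓝 L) := by
  set E : Finset (Pl K) := Finset.univ.biUnion e ∪ Z with hE
  set A : Finset (Fin N) := Finset.univ.erase i₀ with hA
  set SS := (SD D.toRD0 N Z).filter (fun s => ∀ i, i ∉ A → s i = ∅) with hSS
  have hZf : Z.filter (fun v => D.toRD0.Gd v) = Z := Finset.filter_true_of_mem hZ
  have hEf : E.filter (fun v => D.toRD0.Gd v) = Z := by
    ext v
    simp only [hE, Finset.mem_filter, Finset.mem_union, Finset.mem_biUnion, Finset.mem_univ,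
      true_and]
    constructor
    · rintro ⟨⟨i, hi⟩ | h, h2⟩
      · exact absurd h2 (heb i v hi).2
      · exact h
    · intro h
      exact ⟨Or.inr h, hZ v h⟩
  have hE0 : ∀ v ∈ E, v ∉ D.S0 := by
    intro v hv
    rcases Finset.mem_union.1 hv with h | h
    · obtain ⟨i, -, hi⟩ := Finset.mem_biUnion.1 h
      exact (heb i v hi).1
    · exact (hZ v h).1
  have hUE : (fun y : ℝ => UN D.toRD0 N E y / (y * Real.log y ^ (N - 1))) =
      fun y : ℝ => UN D.toRD0 N Z y / (y * Real.log y ^ (N - 1)) := by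
    funext y
    rw [un_good D.toRD0 N E y, hEf]
  have hu' : Tendsto (fun y : ℝ => UN D.toRD0 N E y / (y * Real.log y ^ (N - 1))) atTop (𝓝 u) := by
    rw [hUE]
    exact hu
  -- facts on `s`
  have hs1 : ∀ s ∈ SS, (∀ i, s i ⊆ Z) ∧ Dj s ∧ (∀ i, ∀ v ∈ s i, D.toRD0.Gd v) ∧ s i₀ = ∅ := by
    intro s hs
    rw [hSS, Finset.mem_filter, SD, Finset.mem_filter, Fintype.mem_piFinset] at hs
    refine ⟨fun i => Finset.mem_powerset.1 (hs.1.1 i), hs.1.2.1, hs.1.2.2, hs.2 i₀ ?_⟩
    rw [hA]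
    exact Finset.notMem_erase _ _
  have hes : ∀ s ∈ SS, Dj (fun i => e i ∪ s i) := fun s hs =>
    bfb_dj e s he (hs1 s hs).2.1 (bfb_disj D.toRD0 e s heb (hs1 s hs).2.2.1)
  have hesE : ∀ s ∈ SS, ∀ i, e i ∪ s i ⊆ E := by
    intro s hs i
    refine Finset.union_subset ?_ ?_
    · exact (Finset.subset_biUnion_of_mem e (Finset.mem_univ i)).trans Finset.subset_union_left
    · exact ((hs1 s hs).1 i).trans Finset.subset_union_right
  have hlim : ∀ s ∈ SS, ∃ L : ℝ, 0 ≤ L ∧ L ≤ u * ((p : ℝ) ^ m) ^ N ∧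
      Tendsto (fun Y : ℝ => IS D.toRD0 c ε (fun i => e i ∪ s i) E H Y /
        (Y * Real.log Y ^ (N - 1))) atTop (𝓝 L) := fun s hs =>
    is_lim hp hp2 hζ D c hN ε hε _ (hes s hs) E (hesE s hs) hE0 H hH u hu'
  choose! L hL0 hL1 hL2 using hlim
  set ne : ℝ := ∏ i, nr (e i) with hne
  have hne1 : 1 ≤ ne := atupb_one_le e
  set cs : (Fin N → Finset (Pl K)) → ℝ := fun s => ne * ∏ i, nr (s i) with hcs
  have hcs1 : ∀ s, 1 ≤ cs s := by
    intro s
    rw [hcs]
    exact one_le_mul_of_one_le_of_one_le hne1 (atupb_one_le s)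
  have hdec : ∀ X : ℝ, FB D.toRD0 c ε e Z i₀ H X =
      ∑ s ∈ SS, IS D.toRD0 c ε (fun i => e i ∪ s i) E H (X / cs s) := by
    intro X
    exact bfb_dec hp D.toRD0 c ε hε e he heb Z i₀ H X
  refine ⟨∑ s ∈ SS, L s * (cs s)⁻¹, ?_, ?_, ?_⟩
  · refine Finset.sum_nonneg fun s hs => mul_nonneg (hL0 s hs) ?_
    exact inv_nonneg.2 (by linarith [hcs1 s])
  · calc ∑ s ∈ SS, L s * (cs s)⁻¹ ≤ ∑ s ∈ SS, (u * ((p : ℝ) ^ m) ^ N) * (cs s)⁻¹ := by
          refine Finset.sum_le_sum fun s hs => ?_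
          exact mul_le_mul_of_nonneg_right (hL1 s hs) (inv_nonneg.2 (by linarith [hcs1 s]))
      _ = ne⁻¹ * (u * ((p : ℝ) ^ m) ^ N * ∑ s ∈ SS, ∏ i, (nr (s i))⁻¹) := by
          rw [Finset.mul_sum, Finset.mul_sum]
          refine Finset.sum_congr rfl fun s _ => ?_
          rw [hcs, mul_inv, Finset.prod_inv_distrib]
          ring
      _ = _ := by
          have hsd := sd_sum D.toRD0 N Z A
          rw [hZf] at hsd
          have hcard : A.card = N - 1 := by
            rw [hA, Finset.card_erase_of_mem (Finset.mem_univ _), Finset.card_univ,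
              Fintype.card_fin]
          rw [hSS, hsd, hcard]
  · have hterm : ∀ s ∈ SS, Tendsto (fun X : ℝ =>
        IS D.toRD0 c ε (fun i => e i ∪ s i) E H (X / cs s) / (X * Real.log X ^ (N - 1)))
        atTop (𝓝 (L s * (cs s)⁻¹)) := by
      intro s hs
      have hc1 := hcs1 s
      have hc0 : 0 < cs s := by linarith
      have hdiv : Tendsto (fun X : ℝ => X / cs s) atTop atTop :=
        tendsto_id.atTop_div_const hc0
      have h1 := (hL2 s hs).comp hdiv
      have h2 := bfb_ratio (cs s) hc0 (N - 1)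
      have h3 := h1.mul h2
      refine h3.congr' ?_
      filter_upwards [hdiv.eventually_gt_atTop 1, eventually_gt_atTop 1] with X hX hX1
      simp only [Function.comp]
      have ha : 0 < X / cs s := by linarith
      have hb : 0 < Real.log (X / cs s) := Real.log_pos hX
      have hb2 : 0 < Real.log X := Real.log_pos hX1
      have hden : X / cs s * Real.log (X / cs s) ^ (N - 1) ≠ 0 := by positivity
      have hden2 : X * Real.log X ^ (N - 1) ≠ 0 := by positivity
      field_simp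
    have hsum := tendsto_finsetSum SS hterm
    refine hsum.congr fun X => ?_
    rw [hdec X, Finset.sum_div]

end H63.MA
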