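import Pool.Agent.H63.MB.BKA
import Pool.Agent.H63.MB.BKB
import Pool.Agent.H63.MB.BKM
import Pool.Agent.H63.MA.AUp

/-!
# MB-BGA: the blocks of the refined sum

`MainF Lg`: `Lg` has exactly one element in every class, its elements are pairwise unlinked and unlinked with the primes of `E`.
* `bg_inner` (compare `aup_inner` in `MA/AUp`): the part of `GS` belonging to a block `(Lg, s)` is `TT2` for one block (`t = 1`, `blk` constant, `Y = X`) and the class function `q ↦ H (cJ q)`, if the condition `SpL` holds, and `0` otherwise (`Sp c b g` depends only on the set of the nonempty `g a`;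
  for `a ∈ Lg`, `nr (g a) > z₂ ≥ 1` so `g a ≠ ∅`).
* `bg_block`: there are constants `cc Lg` (not depending on `X, z₁, z₂`) such that for `MainF Lg`, `s = ∅`: `TT2 = cc Lg * TN2 + small`; and in all other cases with `SpL`: `TT2` is small, or `#Lg < N` and `|TT2| ≤ TN2 + small`.
  Proof. Let `B₁`, `X₀` be the maxima of those of `kpa2`, `kpb2`, `kpm2` for `P = c.pd`, `blk` constant, `A = 1` (`z₁, log X ≥ 1`, so a larger `B₁` is a stronger hypothesis; `rpow_neg_one`). For `Lg` with `MainF Lg` let `cc Lg` be the constant `c₀` of `kpm2` for `s = ∅` (its hypotheses hold: `lk = 0`, the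
  second one is empty as `s = ∅`, `mu2 = 0`), otherwise `cc Lg = 0`. This is the first statement (`sn Lg ∅ = 1`). Second statement: let `h q = H (cJ q)`.
  If two elements of `Lg` are linked: `kpa2`. Otherwise, if an element of `Lg` is linked to `l ∉ Lg` with `s l ≠ ∅`, or `mu2 ≠ 0` for some `a ∈ Lg`, `w ∈ E`: `kpb2`. Otherwise `kpm2` applies. If there are `a ≠ a' ∈ Lg` with `x a = x a'` and `bp b (θ a - θ a')` not a `p`-th power, then `c₀ = 0`:
  `h` is invariant under the shifts of the pair because `cJ q k j = ∑_a x_a k * q a j` does not change. Otherwise `comb_up` (`Pw θ = IsPow p (bp b θ)`, `Ne = {l ∉ Lg : s l ≠ ∅}`, `h4` from `SpL`) gives `#Lg ≤ N`, and `Ne ⊆ Lg`, so `Ne = ∅`, if `#Lg = N`. If `#Lg < N`: `|TT2| ≤ |c₀| TN2 + small`. If `#Lg = N`: then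
  `a ↦ a.1` is injective on `Lg` (see the proof of `comb_up`: elements of `Lg` of the same class are equal), hence bijective, so `MainF Lg`; all `s l` are empty (for `l ∈ Lg` by hypothesis), `s = fun _ => ∅`: excluded by hypothesis.
* `bg_card`: the number of the `Lg` with `MainF Lg` is at most the number of elements of `FG D c b E η`: `Lg ↦ (θ_i)`, `(i, θ_i)` the element of `Lg` in the class `i`; it determines `Lg`.
-/

set_option autoImplicit false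

open scoped NumberField
open IsDedekindDomain Filter Topology
open scoped Classical

noncomputable section

namespace H63.MA

variable {K : Type} [Field K] [NumberField K] {p : ℕ} {ζ : K} {m N : ℕ}

/-- the main families -/
def MainF [NeZero p] (D : RD K p ζ) (c : CD p m N) (b : Fin m → Kˣ) (E : Finset (Pl K))
    (η : Pl K → Fin m → ZMod p) (Lg : Finset c.J) : Prop :=
  (∀ i : Fin N, ∃ a ∈ Lg, a.1 = i) ∧ (∀ a ∈ Lg, ∀ a' ∈ Lg, a.1 = a'.1 → a = a') ∧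
    (∀ a ∈ Lg, ∀ a' ∈ Lg, c.pd.lk a a' = 0) ∧ ∀ a ∈ Lg, ∀ w ∈ E, mu2 D c.pd b η a w = 0

theorem bg_inner [NeZero p] (D : RD K p ζ) (c : CD p m N) (b : Fin m → Kˣ) (E : Finset (Pl K))
    (η : Pl K → Fin m → ZMod p) (H : (Fin m → Fin D.r → ZMod p) → ℂ) (X z₂ : ℝ) (hz₂ : 1 ≤ z₂)
    (Lg : Finset c.J) (s : c.J → Finset (Pl K)) :
    (∑ g ∈ Fintype.piFinset (fun a => if a ∈ Lg then GF D.toRD0 X else {s a}),
      if ∀ a ∈ Lg, z₂ < nr (g a) then
        (if Dj g ∧ (∀ a, Disjoint (g a) E) ∧ ∏ a, nr (g a) ≤ X ∧ Sp c b g then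
          H (cJ D.toRD0 c fun a => qf D.toRD0 (g a)) * ep p (ph2 D.toRD0 c.pd b E η g)
        else 0) else 0) =
      if SpL c b Lg (Finset.univ.filter fun l => l ∉ Lg ∧ s l ≠ ∅) then
        TT2 D.toRD0 c.pd b E η (fun _ : c.J => (0 : Fin 1)) (fun _ => X) X Lg z₂ s
          (fun q => H (cJ D.toRD0 c q))
      else 0 := by
  have hSp : ∀ g ∈ Fintype.piFinset (fun a => if a ∈ Lg then GF D.toRD0 X else {s a}),
      (∀ a ∈ Lg, z₂ < nr (g a)) →
      (Sp c b g ↔ SpL c b Lg (Finset.univ.filter fun l => l ∉ Lg ∧ s l ≠ ∅)) := by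
    intro g hg hL
    have hg' : ∀ a, a ∉ Lg → g a = s a := by
      intro a ha
      have := (Fintype.mem_piFinset.1 hg) a
      rw [if_neg ha, Finset.mem_singleton] at this
      exact this
    have key : ∀ θ : Fin m → ZMod p, (∃ a, g a ≠ ∅ ∧ dt θ (c.pd.x a) ≠ 0) ↔
        ∃ a ∈ Lg ∪ (Finset.univ.filter fun l => l ∉ Lg ∧ s l ≠ ∅), dt θ (c.pd.x a) ≠ 0 := by
      intro θ
      constructor
      · rintro ⟨a, h1, h2⟩
        refine ⟨a, ?_, h2⟩
        rw [Finset.mem_union]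
        by_cases ha : a ∈ Lg
        · exact Or.inl ha
        · refine Or.inr ?_
          rw [Finset.mem_filter]
          refine ⟨Finset.mem_univ _, ha, ?_⟩
          rw [← hg' a ha]
          exact h1
      · rintro ⟨a, h1, h2⟩
        refine ⟨a, ?_, h2⟩
        rcases Finset.mem_union.1 h1 with h3 | h3
        · intro h4
          have h5 := hL a h3
          rw [h4, aup_nr_empty] at h5
          linarith
        · rw [Finset.mem_filter] at h3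
          rw [hg' a h3.2.1]
          exact h3.2.2
    unfold Sp SpL
    exact forall_congr' fun θ => forall_congr' fun _ => or_congr (key θ) Iff.rfl
  have hprod : ∀ g : c.J → Finset (Pl K),
      (∀ i : Fin 1, ∏ a ∈ Finset.univ.filter (fun _ : c.J => (0 : Fin 1) = i), nr (g a) ≤ X) ↔
        ∏ a, nr (g a) ≤ X := by
    intro g
    constructor
    · intro h
      have := h 0
      rwa [Finset.filter_true_of_mem (fun _ _ => rfl)] at this
    · intro h i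
      rw [Finset.filter_true_of_mem (fun _ _ => Subsingleton.elim _ _)]
      exact h
  by_cases hS : SpL c b Lg (Finset.univ.filter fun l => l ∉ Lg ∧ s l ≠ ∅)
  · rw [if_pos hS]
    unfold TT2
    refine Finset.sum_congr rfl fun g hg => ?_
    by_cases hL : ∀ a ∈ Lg, z₂ < nr (g a)
    · rw [if_pos hL]
      by_cases h1 : Dj g ∧ (∀ a, Disjoint (g a) E) ∧ ∏ a, nr (g a) ≤ X
      · rw [if_pos ⟨h1.1, h1.2.1, h1.2.2, (hSp g hg hL).2 hS⟩, if_pos]
        exact ⟨⟨h1.1, hL, (hprod g).2 h1.2.2⟩, h1.2.1⟩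
      · rw [if_neg (fun h => h1 ⟨h.1, h.2.1, h.2.2.1⟩), if_neg]
        intro h
        exact h1 ⟨h.1.1, h.2, (hprod g).1 h.1.2.2⟩
    · rw [if_neg hL, if_neg]
      intro h
      exact hL h.1.2.1
  · rw [if_neg hS]
    refine Finset.sum_eq_zero fun g hg => ?_
    by_cases hL : ∀ a ∈ Lg, z₂ < nr (g a)
    · rw [if_pos hL, if_neg]
      intro h
      exact hS ((hSp g hg hL).1 h.2.2.2)
    · rw [if_neg hL]

theorem bga_inj (c : CD p m N) (Lg Ne : Finset c.J) (Pw : (Fin m → ZMod p) → Prop)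
    (h1 : ∀ a ∈ Lg, ∀ a' ∈ Lg, c.pd.lk a a' = 0) (h2 : ∀ a ∈ Lg, ∀ l ∈ Ne, c.pd.lk a l = 0)
    (h3 : ∀ a ∈ Lg, ∀ a' ∈ Lg, a ≠ a' → c.pd.x a = c.pd.x a' → Pw (c.pd.θ a - c.pd.θ a'))
    (h4 : ∀ θ, θ ≠ 0 → (∃ a ∈ Lg ∪ Ne, dt θ (c.pd.x a) ≠ 0) ∨ ¬ Pw θ) :
    ∀ a ∈ Lg, ∀ a' ∈ Lg, a.1 = a'.1 → a = a' := by
  intro a ha a' ha' haa
  have hx := acmb_x c haa
  refine acmb_ext c haa ?_
  by_cases hne : a = a'
  · rw [hne]
  by_contra hθ
  have hδ : c.pd.θ a - c.pd.θ a' ≠ 0 := sub_ne_zero.2 hθ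
  rcases h4 _ hδ with ⟨b, hb, hb'⟩ | hP
  · apply hb'
    rcases Finset.mem_union.1 hb with hb | hb
    · exact acmb_lk c hx (h1 a ha b hb) (h1 a' ha' b hb)
    · exact acmb_lk c hx (h2 a ha b hb) (h2 a' ha' b hb)
  · exact hP (h3 a ha a' ha' hne hx)

theorem bga_surj (c : CD p m N) (Lg : Finset c.J)
    (hinj : ∀ a ∈ Lg, ∀ a' ∈ Lg, a.1 = a'.1 → a = a') (hN : Lg.card = N) :
    ∀ i : Fin N, ∃ a ∈ Lg, a.1 = i := by
  have hinj' : Set.InjOn (fun a : c.J => a.1) (Lg : Set c.J) := by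
    intro a ha a' ha' haa
    exact hinj a ha a' ha' haa
  have hcard : (Lg.image fun a : c.J => a.1).card = Lg.card := Finset.card_image_of_injOn hinj'
  have huniv : (Lg.image fun a : c.J => a.1) = Finset.univ := by
    apply Finset.eq_univ_of_card
    rw [hcard, hN]; simp
  intro i
  have : i ∈ Lg.image fun a : c.J => a.1 := by rw [huniv]; exact Finset.mem_univ _
  obtain ⟨a, ha, hai⟩ := Finset.mem_image.1 this
  exact ⟨a, ha, hai⟩

theorem bga_shift [NeZero p] (D : RD0 K p ζ) (c : CD p m N) {a a' : c.J} (hne : a ≠ a')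
    (hx : c.pd.x a = c.pd.x a') (q : c.J → Fin D.r → ZMod p) (u : Fin D.r → ZMod p) :
    cJ D c (Function.update (Function.update q a (q a + u)) a' (q a' - u)) = cJ D c q := by
  funext k j
  unfold cJ
  have h1 : ∀ e : c.J, c.pd.x e k *
      Function.update (Function.update q a (q a + u)) a' (q a' - u) e j =
      c.pd.x e k * q e j + ((if e = a then c.pd.x a k * u j else 0) -
        (if e = a' then c.pd.x a' k * u j else 0)) := by
    intro e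
    by_cases h2 : e = a'
    · subst h2
      rw [Function.update_self, if_pos rfl, if_neg (Ne.symm hne), Pi.sub_apply]
      ring
    · rw [Function.update_of_ne h2, if_neg h2]
      by_cases h3 : e = a
      · subst h3
        rw [Function.update_self, if_pos rfl, Pi.add_apply]
        ring
      · rw [Function.update_of_ne h3, if_neg h3]
        ring
  rw [Finset.sum_congr rfl fun e _ => h1 e, Finset.sum_add_distrib, Finset.sum_sub_distrib,
    Finset.sum_ite_eq', Finset.sum_ite_eq', if_pos (Finset.mem_univ _),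
    if_pos (Finset.mem_univ _), hx]
  ring

theorem bga_tn_nonneg (D : RD0 K p ζ) {J : Type} [Fintype J] {t : ℕ} (E : Finset (Pl K))
    (blk : J → Fin t) (Y : Fin t → ℝ) (X : ℝ) (Lg : Finset J) (z : ℝ) (s : J → Finset (Pl K)) :
    0 ≤ TN2 D E blk Y X Lg z s := by
  unfold TN2
  refine Finset.sum_nonneg fun g _ => ?_
  split_ifs
  · exact zero_le_one
  · exact le_rfl

theorem bg_block [NeZero p] (hp : p.Prime) (hp2 : MOne p K) (hζ : IsPrimitiveRoot ζ p) (D : RD K p ζ)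
    (c : CD p m N) :
    ∃ (B₁ : ℕ) (X₀ : ℝ), 3 ≤ X₀ ∧ ∀ (b : Fin m → Kˣ) (E : Finset (Pl K))
      (η : Pl K → Fin m → ZMod p), BS2 D.toRD0 b E →
      ∀ H : (Fin m → Fin D.r → ZMod p) → ℂ, (∀ q, ‖H q‖ ≤ 1) →
      ∃ cc : Finset c.J → ℂ, (∀ Lg, ‖cc Lg‖ ≤ 1) ∧ ∀ (X z₁ z₂ : ℝ), X₀ ≤ X → 1 ≤ z₁ →
        z₁ ^ B₁ ≤ z₂ → Real.log X ^ B₁ ≤ z₂ → nr E ≤ z₁ →
        (∀ Lg : Finset c.J, MainF D c b E η Lg →
          ‖TT2 D.toRD0 c.pd b E η (fun _ : c.J => (0 : Fin 1)) (fun _ => X) X Lg z₂ (fun _ => ∅)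
              (fun q => H (cJ D.toRD0 c q)) -
              cc Lg * (TN2 D.toRD0 E (fun _ : c.J => (0 : Fin 1)) (fun _ => X) X Lg z₂
                (fun _ => ∅) : ℂ)‖ ≤ X * (Real.log X)⁻¹) ∧
        ∀ (Lg : Finset c.J) (s : c.J → Finset (Pl K)), (∀ l ∈ Lg, s l = ∅) →
          (∀ l, l ∉ Lg → (∀ v ∈ s l, D.Gd v) ∧ nr (s l) ≤ z₁) →
          SpL c b Lg (Finset.univ.filter fun l => l ∉ Lg ∧ s l ≠ ∅) →
          ¬ (MainF D c b E η Lg ∧ s = fun _ => ∅) →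
          ‖TT2 D.toRD0 c.pd b E η (fun _ : c.J => (0 : Fin 1)) (fun _ => X) X Lg z₂ s
              (fun q => H (cJ D.toRD0 c q))‖ ≤ X / sn Lg s * (Real.log X)⁻¹ ∨
          (Lg.card < N ∧
            ‖TT2 D.toRD0 c.pd b E η (fun _ : c.J => (0 : Fin 1)) (fun _ => X) X Lg z₂ s
              (fun q => H (cJ D.toRD0 c q))‖ ≤
            TN2 D.toRD0 E (fun _ : c.J => (0 : Fin 1)) (fun _ => X) X Lg z₂ s +
              X / sn Lg s * (Real.log X)⁻¹) := by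
  obtain ⟨Ba, Xa, hXa, hka⟩ := kpa2 hp hζ D c.pd (fun _ : c.J => (0 : Fin 1)) 1
  obtain ⟨Bb, Xb, hXb, hkb⟩ := kpb2 hp hζ D c.pd (fun _ : c.J => (0 : Fin 1)) 1
  obtain ⟨Bc, Xc, hXc, hkc⟩ := kpm2 hp hp2 hζ D c.pd (fun _ : c.J => (0 : Fin 1)) 1
  obtain ⟨B, hB⟩ : ∃ B : ℕ, B = max Ba (max Bb Bc) := ⟨_, rfl⟩
  have hBa : Ba ≤ B := by rw [hB]; exact le_max_left _ _
  have hBb : Bb ≤ B := by rw [hB]; exact (le_max_left _ _).trans (le_max_right _ _)
  have hBc : Bc ≤ B := by rw [hB]; exact (le_max_right _ _).trans (le_max_right _ _)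
  obtain ⟨X₀, hX₀⟩ : ∃ X₀ : ℝ, X₀ = max Xa (max Xb Xc) := ⟨_, rfl⟩
  have hX₀a : Xa ≤ X₀ := by rw [hX₀]; exact le_max_left _ _
  have hX₀b : Xb ≤ X₀ := by rw [hX₀]; exact (le_max_left _ _).trans (le_max_right _ _)
  have hX₀c : Xc ≤ X₀ := by rw [hX₀]; exact (le_max_right _ _).trans (le_max_right _ _)
  refine ⟨B, X₀, hXa.trans hX₀a, fun b E η hb H hH => ?_⟩
  have hh : ∀ q : c.J → Fin D.r → ZMod p, ‖H (cJ D.toRD0 c q)‖ ≤ 1 := fun q => hH _
  have hlog : ∀ X : ℝ, X₀ ≤ X → 1 ≤ Real.log X := by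
    intro X hX
    have hX3 : 3 ≤ X := (hXa.trans hX₀a).trans hX
    rw [Real.le_log_iff_exp_le (by linarith)]
    linarith [Real.exp_one_lt_d9]
  have hpw : ∀ (x z₂ : ℝ) (B' : ℕ), 1 ≤ x → B' ≤ B → x ^ B ≤ z₂ → x ^ B' ≤ z₂ :=
    fun x z₂ B' hx hB' h => (pow_le_pow_right₀ hx hB').trans h
  have hcc : ∀ Lg : Finset c.J, ∃ c₀ : ℂ, ‖c₀‖ ≤ 1 ∧ (MainF D c b E η Lg →
      ∀ (X z₁ z₂ : ℝ), X₀ ≤ X → 1 ≤ z₁ → z₁ ^ B ≤ z₂ → Real.log X ^ B ≤ z₂ → nr E ≤ z₁ →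
        ‖TT2 D.toRD0 c.pd b E η (fun _ : c.J => (0 : Fin 1)) (fun _ => X) X Lg z₂ (fun _ => ∅)
            (fun q => H (cJ D.toRD0 c q)) -
            c₀ * (TN2 D.toRD0 E (fun _ : c.J => (0 : Fin 1)) (fun _ => X) X Lg z₂
              (fun _ => ∅) : ℂ)‖ ≤ X * (Real.log X)⁻¹) := by
    intro Lg
    by_cases hM : MainF D c b E η Lg
    · obtain ⟨c₀, hc₀, -, hc2⟩ := hkc b E η hb Lg (fun _ => ∅)
        (fun l _ v hv => absurd hv (Finset.notMem_empty v)) (fun q => H (cJ D.toRD0 c q)) hh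
        hM.2.2.1 (fun a _ l _ hl => absurd rfl hl) hM.2.2.2
      refine ⟨c₀, hc₀, fun _ X z₁ z₂ hX hz₁ hz₂ hlz hE => ?_⟩
      have hX3 : 3 ≤ X := (hXa.trans hX₀a).trans hX
      have h1 := hc2 X z₁ z₂ (hX₀c.trans hX) hz₁ (hpw _ _ _ hz₁ hBc hz₂)
        (hpw _ _ _ (hlog X hX) hBc hlz) (fun _ => X) (fun _ => ⟨by linarith, le_rfl⟩) hE
        (fun l _ => by rw [aup_nr_empty]; exact hz₁)
      have h2 : sn Lg (fun _ => (∅ : Finset (Pl K))) = 1 := by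
        rw [sn]
        exact Finset.prod_eq_one fun _ _ => aup_nr_empty
      rw [h2, div_one, Fin.prod_univ_one, Real.rpow_neg_one] at h1
      exact h1
    · exact ⟨0, by rw [norm_zero]; exact zero_le_one, fun h => absurd h hM⟩
  choose cc hcc1 hcc2 using hcc
  refine ⟨cc, hcc1, fun X z₁ z₂ hX hz₁ hz₂ hlz hE =>
    ⟨fun Lg hM => hcc2 Lg hM X z₁ z₂ hX hz₁ hz₂ hlz hE, ?_⟩⟩
  intro Lg s hs1 hs2 hS hnM
  have hX3 : 3 ≤ X := (hXa.trans hX₀a).trans hX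
  have hYi : ∀ _i : Fin 1, 0 < X ∧ X ≤ X := fun _ => ⟨by linarith, le_rfl⟩
  by_cases h1 : ∃ a ∈ Lg, ∃ a' ∈ Lg, c.pd.lk a a' ≠ 0
  · left
    have := hka X z₁ z₂ (hX₀a.trans hX) hz₁ (hpw _ _ _ hz₁ hBa hz₂)
      (hpw _ _ _ (hlog X hX) hBa hlz) (fun _ => X) hYi b E η hb hE Lg s hs2
      (fun q => H (cJ D.toRD0 c q)) hh h1
    rw [Fin.prod_univ_one, Real.rpow_neg_one] at this
    exact this
  have h1' : ∀ a ∈ Lg, ∀ a' ∈ Lg, c.pd.lk a a' = 0 := by
    intro a ha a' ha'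
    by_contra h
    exact h1 ⟨a, ha, a', ha', h⟩
  by_cases h2 : (∃ a ∈ Lg, ∃ l, l ∉ Lg ∧ s l ≠ ∅ ∧ c.pd.lk a l ≠ 0) ∨
      ∃ a ∈ Lg, ∃ w ∈ E, mu2 D c.pd b η a w ≠ 0
  · left
    have := hkb X z₁ z₂ (hX₀b.trans hX) hz₁ (hpw _ _ _ hz₁ hBb hz₂)
      (hpw _ _ _ (hlog X hX) hBb hlz) (fun _ => X) hYi b E η hb hE Lg s hs2
      (fun q => H (cJ D.toRD0 c q)) hh h1' h2
    rw [Fin.prod_univ_one, Real.rpow_neg_one] at this
    exact this
  have h2' : ∀ a ∈ Lg, ∀ l, l ∉ Lg → s l ≠ ∅ → c.pd.lk a l = 0 := by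
    intro a ha l hl hsl
    by_contra h
    exact h2 (Or.inl ⟨a, ha, l, hl, hsl, h⟩)
  have h2'' : ∀ a ∈ Lg, ∀ w ∈ E, mu2 D c.pd b η a w = 0 := by
    intro a ha w hw
    by_contra h
    exact h2 (Or.inr ⟨a, ha, w, hw, h⟩)
  obtain ⟨c₀, hc₀, hc₁, hc2⟩ := hkc b E η hb Lg s (fun l hl v hv => (hs2 l hl).1 v hv)
    (fun q => H (cJ D.toRD0 c q)) hh h1' h2' h2''
  have h3 := hc2 X z₁ z₂ (hX₀c.trans hX) hz₁ (hpw _ _ _ hz₁ hBc hz₂)
    (hpw _ _ _ (hlog X hX) hBc hlz) (fun _ => X) hYi hE (fun l hl => (hs2 l hl).2)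
  rw [Fin.prod_univ_one, Real.rpow_neg_one] at h3
  by_cases h4 : ∃ a ∈ Lg, ∃ a' ∈ Lg, a ≠ a' ∧ c.pd.x a = c.pd.x a' ∧
      ¬ IsPow p (bp b (c.pd.θ a - c.pd.θ a'))
  · left
    obtain ⟨a, ha, a', ha', hne, hx, hP⟩ := h4
    have h5 := hc₁ ⟨a, ha, a', ha', hne, hx, hP, fun q u => by
      show H _ = H _
      rw [bga_shift D.toRD0 c hne hx q u]⟩
    rw [h5, zero_mul, sub_zero] at h3
    exact h3
  right
  have h4' : ∀ a ∈ Lg, ∀ a' ∈ Lg, a ≠ a' → c.pd.x a = c.pd.x a' →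
      IsPow p (bp b (c.pd.θ a - c.pd.θ a')) := by
    intro a ha a' ha' hne hx
    by_contra h
    exact h4 ⟨a, ha, a', ha', hne, hx, h⟩
  have h2f : ∀ a ∈ Lg, ∀ l ∈ Finset.univ.filter (fun l => l ∉ Lg ∧ s l ≠ ∅),
      c.pd.lk a l = 0 := by
    intro a ha l hl
    rw [Finset.mem_filter] at hl
    exact h2' a ha l hl.2.1 hl.2.2
  obtain ⟨hd1, hd2⟩ := comb_up c Lg (Finset.univ.filter fun l => l ∉ Lg ∧ s l ≠ ∅)
    (fun θ => IsPow p (bp b θ)) h1' h2f h4' hS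
  have hinj := bga_inj c Lg (Finset.univ.filter fun l => l ∉ Lg ∧ s l ≠ ∅)
    (fun θ => IsPow p (bp b θ)) h1' h2f h4' hS
  have hlt : Lg.card < N := by
    refine lt_of_le_of_ne hd1 fun hN => hnM ⟨⟨bga_surj c Lg hinj hN, hinj, h1', h2''⟩, ?_⟩
    funext l
    by_cases hl : l ∈ Lg
    · exact hs1 l hl
    · by_contra h
      exact hl (hd2 hN (Finset.mem_filter.2 ⟨Finset.mem_univ _, hl, h⟩))
  refine ⟨hlt, ?_⟩
  have hTN := bga_tn_nonneg D.toRD0 E (fun _ : c.J => (0 : Fin 1)) (fun _ => X) X Lg z₂ s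
  have h6 : ‖c₀ * (TN2 D.toRD0 E (fun _ : c.J => (0 : Fin 1)) (fun _ => X) X Lg z₂ s : ℂ)‖ ≤
      TN2 D.toRD0 E (fun _ : c.J => (0 : Fin 1)) (fun _ => X) X Lg z₂ s := by
    rw [norm_mul, Complex.norm_real, Real.norm_of_nonneg hTN]
    exact mul_le_of_le_one_left hTN hc₀
  calc _ = ‖(TT2 D.toRD0 c.pd b E η (fun _ : c.J => (0 : Fin 1)) (fun _ => X) X Lg z₂ s
              (fun q => H (cJ D.toRD0 c q)) -
              c₀ * (TN2 D.toRD0 E (fun _ : c.J => (0 : Fin 1)) (fun _ => X) X Lg z₂ s : ℂ)) +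
              c₀ * (TN2 D.toRD0 E (fun _ : c.J => (0 : Fin 1)) (fun _ => X) X Lg z₂ s : ℂ)‖ := by
        rw [sub_add_cancel]
    _ ≤ _ := (norm_add_le _ _).trans (by linarith)

theorem bg_card [NeZero p] (D : RD K p ζ) (c : CD p m N) (b : Fin m → Kˣ) (E : Finset (Pl K))
    (η : Pl K → Fin m → ZMod p) :
    (Finset.univ.filter fun Lg : Finset c.J => MainF D c b E η Lg).card ≤
      (FG D c b E η).card := by
  have hspec : ∀ Lg : Finset c.J, ∃ th : Fin N → Fin m → ZMod p, MainF D c b E η Lg →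
      ∀ i, ∃ a ∈ Lg, a.1 = i ∧ th i = c.pd.θ a := by
    intro Lg
    by_cases hM : MainF D c b E η Lg
    · choose f hf1 hf2 using hM.1
      exact ⟨fun i => c.pd.θ (f i), fun _ i => ⟨f i, hf1 i, hf2 i, rfl⟩⟩
    · exact ⟨0, fun h => absurd h hM⟩
  choose th hth using hspec
  refine Finset.card_le_card_of_injOn th ?_ ?_
  · intro Lg hLg
    have hM := (Finset.mem_filter.1 (Finset.mem_coe.1 hLg)).2
    rw [Finset.mem_coe, FG, Finset.mem_filter]
    refine ⟨Finset.mem_univ _, fun i => ?_, fun i j => ?_, fun i w hw => ?_⟩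
    · obtain ⟨a, ha, rfl, hti⟩ := hth Lg hM i
      rw [hti]
      exact a.2.2
    · obtain ⟨a, ha, rfl, hti⟩ := hth Lg hM i
      obtain ⟨a', ha', rfl, htj⟩ := hth Lg hM j
      rw [hti, htj]
      exact hM.2.2.1 a ha a' ha'
    · obtain ⟨a, ha, rfl, hti⟩ := hth Lg hM i
      rw [hti]
      exact hM.2.2.2 a ha w hw
  · have hsub : ∀ Lg Lg' : Finset c.J, MainF D c b E η Lg → MainF D c b E η Lg' →
        th Lg = th Lg' → Lg ⊆ Lg' := by
      intro Lg Lg' hM hM' he a ha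
      obtain ⟨a1, ha1, h1, h1t⟩ := hth Lg hM a.1
      obtain ⟨a2, ha2, h2, h2t⟩ := hth Lg' hM' a.1
      have h3 : a1 = a := hM.2.1 a1 ha1 a ha h1
      have h4 : a2 = a := by
        refine acmb_ext c h2 ?_
        rw [← h2t, ← he, h1t, h3]
      rw [← h4]
      exact ha2
    intro Lg hLg Lg' hLg' he
    have hM := (Finset.mem_filter.1 (Finset.mem_coe.1 hLg)).2
    have hM' := (Finset.mem_filter.1 (Finset.mem_coe.1 hLg')).2
    exact Finset.Subset.antisymm (hsub Lg Lg' hM hM' he) (hsub Lg' Lg hM' hM he.symm)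

end H63.MA
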