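import Pool.Agent.H63.MB.BUd
import Pool.Agent.H63.MB.BGa

/-!
# MB-BGB: the number of terms of a main family; the sum over the main families

* `bg_main`: let `Lg` have exactly one element in every class (`N ≥ 1`) and `M ∈ ℕ`. With `z = (log X)^M` and `s = ∅` the number `TN2` of terms divided by `X (log X)^{N-1}` has the same limit `u` as `UN D N E X / (X (log X)^{N-1})`.
  Proof. The families `g` in the sum `TN2` are supported on `Lg`; by the bijection `Lg ≅ Fin N` they are the tuples `n` counted by `UN D N E X` with `z < nr (n i)` for all `i` (`nr ∅ = 1`). The difference `UN - TN2` is the number of tuples with `nr (n i) ≤ z` for some `i`, at most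
  `C z` (`N = 1`, `un_small_one`) or `C (1 + log z) X (1 + log X)^{N-2}` (`un_small_two`), `z = (log X)^M`, which is `o(X (log X)^{N-1})`.
* `bg_small` (size of the error terms): for every `n ∈ ℕ`, `M` and `ε > 0`: for `X` large `(1 + log ((log X)^M))^n ≤ ε log X`.
-/

set_option autoImplicit false

open scoped NumberField
open IsDedekindDomain Filter Topology
open scoped Classical

noncomputable section

namespace H63.MA

variable {K : Type} [Field K] [NumberField K] {p : ℕ} {ζ : K} {m N : ℕ}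

theorem bgb_tn [NeZero p] (D : RD0 K p ζ) (c : CD p m N) (E : Finset (Pl K))
    (Lg : Finset c.J) (h1 : ∀ i : Fin N, ∃ a ∈ Lg, a.1 = i)
    (h2 : ∀ a ∈ Lg, ∀ a' ∈ Lg, a.1 = a'.1 → a = a') (X z : ℝ) :
    TN2 D E (fun _ : c.J => (0 : Fin 1)) (fun _ => X) X Lg z (fun _ => ∅) =
      (((Fintype.piFinset fun _ : Fin N => GF D X).filter fun n =>
        (Dj n ∧ (∀ i, Disjoint (n i) E) ∧ ∏ i, nr (n i) ≤ X) ∧ ∀ i, z < nr (n i)).card : ℝ) := by
  choose e he1 he2 using h1
  have he3 : ∀ a ∈ Lg, e a.1 = a := fun a ha => h2 _ (he1 _) a ha (he2 _)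
  have hprod : ∀ g : c.J → Finset (Pl K), (∀ a, a ∉ Lg → g a = ∅) →
      ∏ a, nr (g a) = ∏ i, nr (g (e i)) := by
    intro g hg
    have h3 : ∏ a, nr (g a) = ∏ a ∈ Lg, nr (g a) := by
      symm
      refine Finset.prod_subset (Finset.subset_univ _) fun a _ ha => ?_
      rw [hg a ha, aup_nr_empty]
    rw [h3]
    refine Finset.prod_bij' (fun a _ => a.1) (fun i _ => e i) (fun _ _ => Finset.mem_univ _)
      (fun i _ => he1 i) (fun a ha => he3 a ha) (fun i _ => he2 i) (fun a ha => ?_)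
    rw [he3 a ha]
  have hblk : ∀ g : c.J → Finset (Pl K),
      (∀ i : Fin 1, ∏ a ∈ Finset.univ.filter (fun _ : c.J => (0 : Fin 1) = i), nr (g a) ≤ X) ↔
        ∏ a, nr (g a) ≤ X := by
    intro g
    constructor
    · intro h
      have := h 0
      rwa [Finset.filter_true_of_mem (fun _ _ => rfl)] at this
    · intro h i
      rw [Finset.filter_true_of_mem (fun _ _ => Subsingleton.elim _ _)]
      exact h
  unfold TN2
  rw [← Finset.sum_filter, Finset.sum_const, nsmul_eq_mul, mul_one]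
  congr 1
  refine Finset.card_bij' (fun g _ i => g (e i)) (fun n _ a => if a ∈ Lg then n a.1 else ∅)
    ?_ ?_ ?_ ?_
  · intro g hg
    rw [Finset.mem_filter, Fintype.mem_piFinset] at hg
    obtain ⟨hg1, ⟨hg2, hg3, hg4⟩, hg5⟩ := hg
    have hg6 : ∀ a, a ∉ Lg → g a = ∅ := by
      intro a ha
      have := hg1 a
      rw [if_neg ha, Finset.mem_singleton] at this
      exact this
    rw [Finset.mem_filter, Fintype.mem_piFinset]
    refine ⟨fun i => ?_, ⟨fun i j hij => ?_, fun i => hg5 _, ?_⟩, fun i => hg3 _ (he1 i)⟩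
    · have := hg1 (e i)
      rw [if_pos (he1 i)] at this
      exact this
    · refine hg2 _ _ fun h => hij ?_
      rw [← he2 i, ← he2 j, h]
    · rw [← hprod g hg6]
      exact (hblk g).1 hg4
  · intro n hn
    rw [Finset.mem_filter, Fintype.mem_piFinset] at hn
    obtain ⟨hn1, ⟨hn2, hn3, hn4⟩, hn5⟩ := hn
    rw [Finset.mem_filter, Fintype.mem_piFinset]
    have h0 : ∀ a, a ∉ Lg → (if a ∈ Lg then n a.1 else ∅) = (∅ : Finset (Pl K)) :=
      fun a ha => if_neg ha
    refine ⟨fun a => ?_, ⟨fun a a' haa => ?_, fun a ha => ?_, ?_⟩, fun a => ?_⟩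
    · by_cases ha : a ∈ Lg
      · rw [if_pos ha, if_pos ha]
        exact hn1 _
      · rw [if_neg ha, if_neg ha]
        exact Finset.mem_singleton_self _
    · show Disjoint (if a ∈ Lg then n a.1 else ∅) (if a' ∈ Lg then n a'.1 else ∅)
      by_cases ha : a ∈ Lg
      · by_cases ha' : a' ∈ Lg
        · rw [if_pos ha, if_pos ha']
          exact hn2 _ _ fun h => haa (h2 a ha a' ha' h)
        · rw [if_neg ha']
          exact Finset.disjoint_empty_right _
      · rw [if_neg ha]
        exact Finset.disjoint_empty_left _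
    · show z < nr (if a ∈ Lg then n a.1 else ∅)
      rw [if_pos ha]
      exact hn5 _
    · rw [hblk (fun a => if a ∈ Lg then n a.1 else ∅), hprod _ h0]
      refine le_trans (le_of_eq (Finset.prod_congr rfl fun i _ => ?_)) hn4
      rw [if_pos (he1 i), he2 i]
    · show Disjoint (if a ∈ Lg then n a.1 else ∅) E
      by_cases ha : a ∈ Lg
      · rw [if_pos ha]
        exact hn3 _
      · rw [if_neg ha]
        exact Finset.disjoint_empty_left _
  · intro g hg
    rw [Finset.mem_filter, Fintype.mem_piFinset] at hg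
    funext a
    by_cases ha : a ∈ Lg
    · show (if a ∈ Lg then g (e a.1) else ∅) = g a
      rw [if_pos ha, he3 a ha]
    · show (if a ∈ Lg then g (e a.1) else ∅) = g a
      rw [if_neg ha]
      have := hg.1 a
      rw [if_neg ha, Finset.mem_singleton] at this
      exact this.symm
  · intro n hn
    funext i
    show (if e i ∈ Lg then n (e i).1 else ∅) = n i
    rw [if_pos (he1 i), he2 i]

theorem bgb_diff [NeZero p] (D : RD0 K p ζ) (c : CD p m N) (E : Finset (Pl K))
    (Lg : Finset c.J) (h1 : ∀ i : Fin N, ∃ a ∈ Lg, a.1 = i)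
    (h2 : ∀ a ∈ Lg, ∀ a' ∈ Lg, a.1 = a'.1 → a = a') (X z : ℝ) :
    TN2 D E (fun _ : c.J => (0 : Fin 1)) (fun _ => X) X Lg z (fun _ => ∅) ≤ UN D N E X ∧
    UN D N E X ≤ TN2 D E (fun _ : c.J => (0 : Fin 1)) (fun _ => X) X Lg z (fun _ => ∅) +
      (((Fintype.piFinset fun _ : Fin N => GF D X).filter fun n =>
        Dj n ∧ ∏ i, nr (n i) ≤ X ∧ ∃ i, nr (n i) ≤ z).card : ℝ) := by
  rw [bgb_tn D c E Lg h1 h2 X z]
  unfold UN
  constructor
  · have h3 : ((Fintype.piFinset fun _ : Fin N => GF D X).filter fun n =>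
        (Dj n ∧ (∀ i, Disjoint (n i) E) ∧ ∏ i, nr (n i) ≤ X) ∧ ∀ i, z < nr (n i)) ⊆
        ((Fintype.piFinset fun _ : Fin N => GF D X).filter fun n =>
          Dj n ∧ (∀ i, Disjoint (n i) E) ∧ ∏ i, nr (n i) ≤ X) := by
      intro n hn
      rw [Finset.mem_filter] at hn ⊢
      exact ⟨hn.1, hn.2.1⟩
    exact_mod_cast Finset.card_le_card h3
  · rw [← Nat.cast_add]
    have h3 : ((Fintype.piFinset fun _ : Fin N => GF D X).filter fun n =>
        Dj n ∧ (∀ i, Disjoint (n i) E) ∧ ∏ i, nr (n i) ≤ X) ⊆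
        ((Fintype.piFinset fun _ : Fin N => GF D X).filter fun n =>
          (Dj n ∧ (∀ i, Disjoint (n i) E) ∧ ∏ i, nr (n i) ≤ X) ∧ ∀ i, z < nr (n i)) ∪
        ((Fintype.piFinset fun _ : Fin N => GF D X).filter fun n =>
          Dj n ∧ ∏ i, nr (n i) ≤ X ∧ ∃ i, nr (n i) ≤ z) := by
      intro n hn
      rw [Finset.mem_filter] at hn
      rw [Finset.mem_union, Finset.mem_filter, Finset.mem_filter]
      by_cases h4 : ∀ i, z < nr (n i)
      · exact Or.inl ⟨hn.1, hn.2, h4⟩
      · push Not at h4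
        exact Or.inr ⟨hn.1, hn.2.1, hn.2.2.2, h4⟩
    exact_mod_cast (Finset.card_le_card h3).trans (Finset.card_union_le _ _)

theorem bgb_small (M n : ℕ) (ε : ℝ) (hε : 0 < ε) : ∃ X₀ : ℝ, 3 ≤ X₀ ∧ ∀ X : ℝ, X₀ ≤ X →
    (1 + Real.log (Real.log X ^ M)) ^ n ≤ ε * Real.log X := by
  have h3 : ∀ᶠ t : ℝ in Filter.atTop, (1 + Real.log (t ^ M)) ^ n ≤ ε * t := by
    have hc : 0 < ε * ((1 + (M : ℝ)) ^ n)⁻¹ := by positivity
    filter_upwards [(Real.isLittleO_pow_log_id_atTop (n := n)).bound hc,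
      Filter.eventually_ge_atTop (Real.exp 1)] with t ht ht1
    have h4 : 1 ≤ Real.log t := by
      rw [Real.le_log_iff_exp_le (lt_of_lt_of_le (Real.exp_pos 1) ht1)]
      exact ht1
    have ht0 : 0 ≤ t := (Real.exp_pos 1).le.trans ht1
    rw [Real.norm_of_nonneg (pow_nonneg (by linarith) _), id, Real.norm_of_nonneg ht0] at ht
    have hM0 : (0 : ℝ) ≤ M := Nat.cast_nonneg _
    rw [Real.log_pow]
    calc (1 + (M : ℝ) * Real.log t) ^ n ≤ ((1 + M) * Real.log t) ^ n := by
          apply pow_le_pow_left₀ (by positivity)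
          nlinarith
      _ = (1 + (M : ℝ)) ^ n * Real.log t ^ n := mul_pow _ _ _
      _ ≤ (1 + (M : ℝ)) ^ n * (ε * ((1 + (M : ℝ)) ^ n)⁻¹ * t) :=
          mul_le_mul_of_nonneg_left ht (by positivity)
      _ = ε * t := by field_simp
  obtain ⟨X₀, hX₀⟩ := Filter.eventually_atTop.1 (Real.tendsto_log_atTop.eventually h3)
  exact ⟨max 3 X₀, le_max_left _ _, fun X hX => hX₀ X ((le_max_right _ _).trans hX)⟩

theorem bg_main [NeZero p] (D : RD0 K p ζ) (c : CD p m N) (hN : 1 ≤ N) (E : Finset (Pl K))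
    (Lg : Finset c.J) (h1 : ∀ i : Fin N, ∃ a ∈ Lg, a.1 = i)
    (h2 : ∀ a ∈ Lg, ∀ a' ∈ Lg, a.1 = a'.1 → a = a') (M : ℕ) (u : ℝ)
    (hu : Tendsto (fun y : ℝ => UN D N E y / (y * Real.log y ^ (N - 1))) atTop (𝓝 u)) :
    Tendsto (fun X : ℝ => TN2 D E (fun _ : c.J => (0 : Fin 1)) (fun _ => X) X Lg
      (Real.log X ^ M) (fun _ => ∅) / (X * Real.log X ^ (N - 1))) atTop (𝓝 u) := by
  have key : ∀ ε : ℝ, 0 < ε → ∀ᶠ X : ℝ in atTop,
      (((Fintype.piFinset fun _ : Fin N => GF D X).filter fun n =>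
        Dj n ∧ ∏ i, nr (n i) ≤ X ∧ ∃ i, nr (n i) ≤ Real.log X ^ M).card : ℝ) ≤
      ε * (X * Real.log X ^ (N - 1)) := by
    intro ε hε
    rcases Nat.lt_or_ge 1 N with hN2 | hN1
    · obtain ⟨C, hC, hcard⟩ := un_small_two D N hN2
      obtain ⟨X₀, hX₀, hlarge⟩ := bgb_small M 1 (ε * (C * 2 ^ (N - 2))⁻¹) (by positivity)
      filter_upwards [Filter.eventually_ge_atTop X₀] with X hX
      have hX3 : 3 ≤ X := hX₀.trans hX
      have hL1 : 1 ≤ Real.log X := by
        rw [Real.le_log_iff_exp_le (by linarith)]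
        linarith [Real.exp_one_lt_d9]
      have hz : 1 ≤ Real.log X ^ M := one_le_pow₀ hL1
      refine (hcard X (Real.log X ^ M) (by linarith) hz).trans ?_
      have h3 := hlarge X hX
      rw [pow_one] at h3
      have hX0 : 0 < X := by linarith
      have hL0 : 0 < Real.log X := by linarith
      calc C * (1 + Real.log (Real.log X ^ M)) * X * (1 + Real.log X) ^ (N - 2)
          ≤ C * (ε * (C * 2 ^ (N - 2))⁻¹ * Real.log X) * X * (2 * Real.log X) ^ (N - 2) := by
            refine mul_le_mul ?_ (pow_le_pow_left₀ (by linarith) (by linarith) _)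
              (by positivity) (by positivity)
            refine mul_le_mul_of_nonneg_right ?_ hX0.le
            exact mul_le_mul_of_nonneg_left h3 hC.le
        _ = ε * (X * (Real.log X ^ (N - 2) * Real.log X)) := by
            rw [mul_pow]
            field_simp
        _ = ε * (X * Real.log X ^ (N - 1)) := by
            rw [← pow_succ]
            congr 4
            omega
    · obtain rfl : N = 1 := by omega
      obtain ⟨C, hC, hcard⟩ := un_small_one D
      have h4 := (Real.isLittleO_pow_log_id_atTop (n := M)).bound (c := ε * C⁻¹) (by positivity)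
      filter_upwards [h4, Filter.eventually_ge_atTop (3 : ℝ)] with X hX1 hX3
      have hL1 : 1 ≤ Real.log X := by
        rw [Real.le_log_iff_exp_le (by linarith)]
        linarith [Real.exp_one_lt_d9]
      have hz : 1 ≤ Real.log X ^ M := one_le_pow₀ hL1
      rw [Real.norm_of_nonneg (by linarith), id, Real.norm_of_nonneg (by linarith)] at hX1
      refine (hcard X (Real.log X ^ M) (by linarith) hz).trans ?_
      calc C * Real.log X ^ M ≤ C * (ε * C⁻¹ * X) := mul_le_mul_of_nonneg_left hX1 hC.le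
        _ = ε * (X * Real.log X ^ (1 - 1)) := by
            rw [Nat.sub_self, pow_zero]
            field_simp
  have hdiff : Tendsto (fun X : ℝ => UN D N E X / (X * Real.log X ^ (N - 1)) -
      TN2 D E (fun _ : c.J => (0 : Fin 1)) (fun _ => X) X Lg
      (Real.log X ^ M) (fun _ => ∅) / (X * Real.log X ^ (N - 1))) atTop (𝓝 0) := by
    rw [Metric.tendsto_nhds]
    intro ε hε
    filter_upwards [key (ε / 2) (by positivity), Filter.eventually_ge_atTop (3 : ℝ)] with X hX1 hX3
    have hL1 : 1 ≤ Real.log X := by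
      rw [Real.le_log_iff_exp_le (by linarith)]
      linarith [Real.exp_one_lt_d9]
    have hX0 : 0 < X := by linarith
    have hW : 0 < X * Real.log X ^ (N - 1) := by positivity
    obtain ⟨h3, h4⟩ := bgb_diff D c E Lg h1 h2 X (Real.log X ^ M)
    rw [Real.dist_eq, sub_zero, ← sub_div, abs_of_nonneg (div_nonneg (by linarith) hW.le),
      div_lt_iff₀ hW]
    nlinarith
  have h5 := hu.sub hdiff
  rw [sub_zero] at h5
  refine h5.congr fun X => ?_
  ring

theorem bg_small (M n : ℕ) (ε : ℝ) (hε : 0 < ε) : ∃ X₀ : ℝ, 3 ≤ X₀ ∧ ∀ X : ℝ, X₀ ≤ X →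
    (1 + Real.log (Real.log X ^ M)) ^ n ≤ ε * Real.log X := by
  exact bgb_small M n ε hε

end H63.MA
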