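import Pool.Agent.H63.MB.BGb

/-!
# MB-BGC: asymptotic formula for the refined sum

`gs_lim`: fixed `b, E, η, H`. `GS / (Y (log Y)^{N-1}) → L`, `|L| ≤ u #FG`, where `u` is the limit of `UN D N E Y / (Y (log Y)^{N-1})`.

Proof (compare the proof of `aup` in `MA/AUp`). Let `B₁`, `X₀`, `cc` be as in `bg_block`, `B = max 2 B₁`, `A' ≥ max 1 B` , `z j = (log X)^{A' B^j}` with `X = Y`: for large `X` monotone, `z (j+1) = (z j)^B ≥ (z j)^{B₁}`, `z (j+1) ≥ (log X)^{B₁}`, `nr E ≤ z 0` for large `X` (`E` is fixed), `z j ≤ X` for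
`j ≤ #J` (`aup_large`). By `athr` and `bg_inner`, `GS = ∑_{j ≤ #J} ∑_Lg ∑_{s ∈ SmF (z) j Lg} [SpL] TT2(Lg, z (j+1), s)`; in `SmF` one has `s l = ∅` for `l ∈ Lg`, `s l` good, `nr (s l) ≤ z j`. Apply `bg_block` with `z₁ = z j`, `z₂ = z (j+1)`.
* Main blocks: `MainF Lg`, `s = ∅`. If `j ≥ 1` then `∅ ∉ SmF z j Lg` (for `j' = 0` some `l ∉ Lg` with `z 0 < nr (s l)` is required, but `nr ∅ = 1 ≤ z 0`), and `∅ ∈ SmF z 0 Lg`; so `j = 0`. `SpL` holds: for `θ ≠ 0` some `x_i` has `θ · x_i ≠ 0` (`acmb_zero`). So these blocks contribute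
  `∑_{Lg main} cc Lg * TN2(Lg, z 1, ∅)` up to `2^{#J} X / log X`.
* Other blocks: `|TT2| ≤ X/sn (log X)⁻¹ + [#Lg < N] TN2`. For `∅ ≠ Lg`, `#Lg < N` (so `N ≥ 2`): `TN2 ≤ C (X/sn) (1 + log X)^{N-2}` (`tn_le_one`; `TN2` is at most the number of the families in `fam`). For `Lg = ∅`, `TN2 ≤ 1` for every `s`, and the number of the `s ∈ SmF` is `≤ (C z j)^{#J} ≤ √X` for large `X` (`aup_large`, see
  the proof of `aup`). `∑_{s ∈ SmF} 1/sn ≤ C (1 + log (z j))^{#J} ≤ ε log X` for large `X` (`smf_sum`, `af_inv`, `bg_small`). So the total of all other blocks is at most `ε C' X (log X)^{N-1}` for large `X`, for every `ε > 0`: it is `o(X (log X)^{N-1})`.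
* By `bg_main` (`M = A' B`), `GS / (X (log X)^{N-1}) → L = u ∑_{Lg main} cc Lg`, `|L| ≤ u #{Lg main} ≤ u #FG` (`bg_card`; `u ≥ 0` as a limit of nonnegative numbers).
-/

set_option autoImplicit false

open scoped NumberField
open IsDedekindDomain Filter Topology
open scoped Classical

noncomputable section

namespace H63.MA

variable {K : Type} [Field K] [NumberField K] {p : ℕ} {ζ : K} {m N : ℕ}

theorem bgc_spl [NeZero p] (D : RD K p ζ) (c : CD p m N) (b : Fin m → Kˣ) (E : Finset (Pl K))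
    (η : Pl K → Fin m → ZMod p) (Lg Ne : Finset c.J) (h : MainF D c b E η Lg) :
    SpL c b Lg Ne := by
  intro θ hθ
  left
  by_contra hcon
  push Not at hcon
  apply hθ
  apply acmb_zero c θ
  intro i
  obtain ⟨a, ha, hai⟩ := h.1 i
  have := hcon a (Finset.mem_union_left _ ha)
  rw [← hai]
  exact this

theorem bgc_tn_card [NeZero p] (D : RD0 K p ζ) (c : CD p m N) (E : Finset (Pl K)) (X z₂ : ℝ)
    (Lg : Finset c.J) (s : c.J → Finset (Pl K)) :
    TN2 D E (fun _ : c.J => (0 : Fin 1)) (fun _ => X) X Lg z₂ s ≤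
      (((fam K X Lg Lg s).filter fun g => ∏ a, nr (g a) ≤ X).card : ℝ) := by
  unfold TN2
  have h1 : ∀ g ∈ Fintype.piFinset (fun a => if a ∈ Lg then GF D X else {s a}),
      (if Cond2 E (fun _ : c.J => (0 : Fin 1)) (fun _ => X) Lg z₂ g then (1 : ℝ) else 0) ≤
        if g ∈ (fam K X Lg Lg s).filter (fun g => ∏ a, nr (g a) ≤ X) then (1 : ℝ) else 0 := by
    intro g hg
    by_cases h2 : Cond2 E (fun _ : c.J => (0 : Fin 1)) (fun _ => X) Lg z₂ g
    · rw [if_pos h2, if_pos]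
      rw [Finset.mem_filter]
      constructor
      · rw [fam, Fintype.mem_piFinset]
        intro a
        have h3 := (Fintype.mem_piFinset.1 hg) a
        by_cases ha : a ∈ Lg
        · rw [if_pos ha] at h3 ⊢
          exact (Finset.mem_filter.1 h3).1
        · rw [if_neg ha] at h3 ⊢
          rw [if_neg ha]
          exact h3
      · have h3 := h2.1.2.2 0
        rwa [Finset.filter_true_of_mem (fun _ _ => rfl)] at h3
    · rw [if_neg h2]
      split_ifs
      · exact zero_le_one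
      · exact le_rfl
  refine (Finset.sum_le_sum h1).trans ?_
  rw [Finset.sum_ite_mem, Finset.sum_const, nsmul_eq_mul, mul_one]
  exact_mod_cast Finset.card_le_card Finset.inter_subset_right

theorem bgc_tn_one [NeZero p] (D : RD0 K p ζ) (c : CD p m N) (E : Finset (Pl K)) (X z₂ : ℝ)
    (s : c.J → Finset (Pl K)) :
    TN2 D E (fun _ : c.J => (0 : Fin 1)) (fun _ => X) X ∅ z₂ s ≤ 1 := by
  unfold TN2
  have h1 : ∀ g ∈ Fintype.piFinset (fun a => if a ∈ (∅ : Finset c.J) then GF D X else {s a}),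
      (if Cond2 E (fun _ : c.J => (0 : Fin 1)) (fun _ => X) ∅ z₂ g then (1 : ℝ) else 0) ≤ 1 := by
    intro g _
    split_ifs
    · exact le_rfl
    · exact zero_le_one
  refine (Finset.sum_le_card_nsmul _ _ _ h1).trans ?_
  rw [Fintype.card_piFinset]
  have h2 : ∀ a : c.J, (if a ∈ (∅ : Finset c.J) then GF D X else {s a}).card = 1 := by
    intro a
    rw [if_neg (Finset.notMem_empty a), Finset.card_singleton]
  simp only [h2, Finset.prod_const_one, one_smul]
  exact le_rfl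

theorem bgc_sn_one (K : Type) [Field K] [NumberField K] {J : Type} [Fintype J] (Lg : Finset J)
    (s : J → Finset (Pl K)) : 1 ≤ sn Lg s := by
  rw [sn]
  calc (1 : ℝ) = ∏ a ∈ Finset.univ.filter (fun a => a ∉ Lg), (1 : ℝ) :=
        (Finset.prod_const_one).symm
    _ ≤ _ := Finset.prod_le_prod (fun _ _ => zero_le_one) fun a _ => one_le_nr _

/-- the error in one block -/
theorem bgc_blk [NeZero p] (D : RD K p ζ) (c : CD p m N) (b : Fin m → Kˣ)
    (E : Finset (Pl K)) (η : Pl K → Fin m → ZMod p) (H : (Fin m → Fin D.r → ZMod p) → ℂ)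
    (cc : Finset c.J → ℂ) (X L z₁ z₂ C1 : ℝ) (hX : 1 ≤ X) (hL : L = Real.log X) (hL1 : 1 ≤ L)
    (hC1 : 0 < C1)
    (htn : ∀ (Lg : Finset c.J) (s : c.J → Finset (Pl K)) (Y X : ℝ), 1 ≤ X → 0 < Y → Y ≤ X →
      Lg.Nonempty →
      (((fam K X Lg Lg s).filter fun g => ∏ a, nr (g a) ≤ Y).card : ℝ) ≤
        C1 * Y / sn Lg s * (1 + Real.log X) ^ (Lg.card - 1))
    (hmain : ∀ Lg : Finset c.J, MainF D c b E η Lg →
          ‖TT2 D.toRD0 c.pd b E η (fun _ : c.J => (0 : Fin 1)) (fun _ => X) X Lg z₂ (fun _ => ∅)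
              (fun q => H (cJ D.toRD0 c q)) -
              cc Lg * (TN2 D.toRD0 E (fun _ : c.J => (0 : Fin 1)) (fun _ => X) X Lg z₂
                (fun _ => ∅) : ℂ)‖ ≤ X * (Real.log X)⁻¹)
    (hoth : ∀ (Lg : Finset c.J) (s : c.J → Finset (Pl K)), (∀ l ∈ Lg, s l = ∅) →
          (∀ l, l ∉ Lg → (∀ v ∈ s l, D.Gd v) ∧ nr (s l) ≤ z₁) →
          SpL c b Lg (Finset.univ.filter fun l => l ∉ Lg ∧ s l ≠ ∅) →
          ¬ (MainF D c b E η Lg ∧ s = fun _ => ∅) →
          ‖TT2 D.toRD0 c.pd b E η (fun _ : c.J => (0 : Fin 1)) (fun _ => X) X Lg z₂ s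
              (fun q => H (cJ D.toRD0 c q))‖ ≤ X / sn Lg s * (Real.log X)⁻¹ ∨
          (Lg.card < N ∧
            ‖TT2 D.toRD0 c.pd b E η (fun _ : c.J => (0 : Fin 1)) (fun _ => X) X Lg z₂ s
              (fun q => H (cJ D.toRD0 c q))‖ ≤
            TN2 D.toRD0 E (fun _ : c.J => (0 : Fin 1)) (fun _ => X) X Lg z₂ s +
              X / sn Lg s * (Real.log X)⁻¹))
    (j : ℕ) (Lg : Finset c.J) (s : c.J → Finset (Pl K)) (hs2 : ∀ l ∈ Lg, s l = ∅)
    (hs1 : ∀ l, l ∉ Lg → (∀ v ∈ s l, D.Gd v) ∧ nr (s l) ≤ z₁)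
    (hj : (s = fun _ => ∅) → j = 0) :
    ‖(if SpL c b Lg (Finset.univ.filter fun l => l ∉ Lg ∧ s l ≠ ∅) then
        TT2 D.toRD0 c.pd b E η (fun _ : c.J => (0 : Fin 1)) (fun _ => X) X Lg z₂ s
          (fun q => H (cJ D.toRD0 c q)) else 0) -
      (if s = (fun _ => ∅) then (if j = 0 ∧ MainF D c b E η Lg then
        cc Lg * (TN2 D.toRD0 E (fun _ : c.J => (0 : Fin 1)) (fun _ => X) X Lg z₂
                (fun _ => ∅) : ℂ) else 0) else 0)‖ ≤
      (1 + C1) * X * (1 + L) ^ (N - 1) / L * (sn Lg s)⁻¹ + 1 := by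
  have hL0 : 0 < L := by linarith
  have hX0 : 0 < X := by linarith
  have hsn := bgc_sn_one K Lg s
  have hsn0 : 0 < sn Lg s := by linarith
  have h1L : 1 ≤ (1 + L) ^ (N - 1) := one_le_pow₀ (by linarith)
  have hsmall : X / sn Lg s * (Real.log X)⁻¹ ≤
      X * (1 + L) ^ (N - 1) / L * (sn Lg s)⁻¹ := by
    rw [← hL]
    have h2 : X / sn Lg s * L⁻¹ = (X / L) * (sn Lg s)⁻¹ := by field_simp
    rw [h2]
    refine mul_le_mul_of_nonneg_right ?_ (inv_nonneg.2 hsn0.le)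
    apply div_le_div_of_nonneg_right _ hL0.le
    exact le_mul_of_one_le_right hX0.le h1L
  have hsplit : (1 + C1) * X * (1 + L) ^ (N - 1) / L * (sn Lg s)⁻¹ =
      X * (1 + L) ^ (N - 1) / L * (sn Lg s)⁻¹ +
        C1 * (X * (1 + L) ^ (N - 1) / L * (sn Lg s)⁻¹) := by ring
  have hpos : 0 ≤ X * (1 + L) ^ (N - 1) / L * (sn Lg s)⁻¹ := by positivity
  have hpos1 : 0 ≤ C1 * (X * (1 + L) ^ (N - 1) / L * (sn Lg s)⁻¹) := by positivity
  rw [hsplit]
  by_cases hM : MainF D c b E η Lg ∧ s = fun _ => ∅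
  · obtain ⟨hM1, hM2⟩ := hM
    have hj0 := hj hM2
    rw [if_pos (bgc_spl D c b E η Lg _ hM1), if_pos hM2, if_pos ⟨hj0, hM1⟩]
    have h1 := hmain Lg hM1
    have h6 : sn Lg s = 1 := by
      rw [sn, hM2]
      exact Finset.prod_eq_one fun _ _ => aup_nr_empty
    rw [h6, div_one] at hsmall
    rw [h6] at hpos1 ⊢
    rw [hM2]
    linarith
  · have h0 : (if s = (fun _ => ∅) then (if j = 0 ∧ MainF D c b E η Lg then
        cc Lg * (TN2 D.toRD0 E (fun _ : c.J => (0 : Fin 1)) (fun _ => X) X Lg z₂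
                (fun _ => ∅) : ℂ) else 0) else 0) = 0 := by
      by_cases hs : s = fun _ => ∅
      · rw [if_pos hs, if_neg]
        rintro ⟨-, h⟩
        exact hM ⟨h, hs⟩
      · rw [if_neg hs]
    rw [h0, sub_zero]
    by_cases hS : SpL c b Lg (Finset.univ.filter fun l => l ∉ Lg ∧ s l ≠ ∅)
    swap
    · rw [if_neg hS, norm_zero]
      linarith
    rw [if_pos hS]
    rcases hoth Lg s hs2 hs1 hS hM with h1 | ⟨h1, h2⟩
    · linarith
    · rcases Finset.eq_empty_or_nonempty Lg with hLe | hLn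
      · have h3 := bgc_tn_one D.toRD0 c E X z₂ s
        rw [← hLe] at h3
        linarith
      · have h4 := (bgc_tn_card D.toRD0 c E X z₂ Lg s).trans
          (htn Lg s X X hX hX0 le_rfl hLn)
        rw [← hL] at h4
        have h5 : (1 + L) ^ (Lg.card - 1) * L ≤ (1 + L) ^ (N - 1) := by
          have h6 : Lg.card - 1 + 1 ≤ N - 1 := by
            have := Finset.Nonempty.card_pos hLn
            omega
          calc (1 + L) ^ (Lg.card - 1) * L ≤ (1 + L) ^ (Lg.card - 1) * (1 + L) :=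
                mul_le_mul_of_nonneg_left (by linarith) (by positivity)
            _ = (1 + L) ^ (Lg.card - 1 + 1) := (pow_succ _ _).symm
            _ ≤ _ := pow_le_pow_right₀ (by linarith) h6
        have h6 : C1 * X / sn Lg s * (1 + L) ^ (Lg.card - 1) ≤
            C1 * (X * (1 + L) ^ (N - 1) / L * (sn Lg s)⁻¹) := by
          have h7 : C1 * X / sn Lg s * (1 + L) ^ (Lg.card - 1) =
              C1 * (X * (1 + L) ^ (Lg.card - 1) * (sn Lg s)⁻¹) := by
            field_simp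
          rw [h7]
          refine mul_le_mul_of_nonneg_left ?_ hC1.le
          refine mul_le_mul_of_nonneg_right ?_ (inv_nonneg.2 hsn0.le)
          rw [le_div_iff₀ hL0, mul_assoc]
          exact mul_le_mul_of_nonneg_left h5 hX0.le
        linarith


theorem bgc_mem_zero (D : RD0 K p ζ) {J : Type} [Fintype J] (z : ℕ → ℝ) (hz : 1 ≤ z 0)
    (Lg : Finset J) : (fun _ : J => (∅ : Finset (Pl K))) ∈ SmF D z 0 Lg := by
  rw [SmF, Finset.mem_filter, Fintype.mem_piFinset]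
  refine ⟨fun a => ?_, fun j' hj' => absurd hj' (Nat.not_lt_zero _)⟩
  by_cases ha : a ∈ Lg
  · rw [if_pos ha]
    exact Finset.mem_singleton_self _
  · rw [if_neg ha, GF, Finset.mem_filter, mem_AF, aup_nr_empty]
    exact ⟨hz, fun v hv => absurd hv (Finset.notMem_empty v)⟩

theorem bgc_mem_pos (D : RD0 K p ζ) {J : Type} [Fintype J] (z : ℕ → ℝ) (hz : 1 ≤ z 0) (j : ℕ)
    (Lg : Finset J) (s : J → Finset (Pl K)) (h : s ∈ SmF D z j Lg) (hs : s = fun _ => ∅) :
    j = 0 := by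
  by_contra hj
  rw [SmF, Finset.mem_filter] at h
  obtain ⟨l, -, h1, -⟩ := h.2 0 (Nat.pos_of_ne_zero hj)
  rw [hs, aup_nr_empty] at h1
  linarith

/-- the main terms as a sum over the blocks -/
theorem bgc_sum (D : RD0 K p ζ) {J : Type} [Fintype J] (z : ℕ → ℝ) (hz : 1 ≤ z 0) (n : ℕ)
    (P : Finset J → Prop) (T : ℕ → Finset J → ℂ) :
    ∑ j ∈ Finset.range (n + 1), ∑ Lg : Finset J, ∑ s ∈ SmF D z j Lg,
      (if s = (fun _ => ∅) then (if j = 0 ∧ P Lg then T j Lg else 0) else 0) =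
      ∑ Lg ∈ Finset.univ.filter P, T 0 Lg := by
  rw [Finset.sum_eq_single 0]
  · rw [Finset.sum_filter]
    refine Finset.sum_congr rfl fun Lg _ => ?_
    rw [Finset.sum_ite_eq', if_pos (bgc_mem_zero D z hz Lg)]
    by_cases h : P Lg
    · rw [if_pos h, if_pos ⟨rfl, h⟩]
    · rw [if_neg h, if_neg (fun h' => h h'.2)]
  · intro j _ hj
    refine Finset.sum_eq_zero fun Lg _ => Finset.sum_eq_zero fun s _ => ?_
    rw [if_neg (fun h : j = 0 ∧ P Lg => hj h.1)]
    exact ite_self _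
  · intro h
    exact absurd (Finset.mem_range.2 (Nat.succ_pos n)) h

theorem gs_err [NeZero p] (hp : p.Prime) (hp2 : MOne p K) (hζ : IsPrimitiveRoot ζ p) (D : RD K p ζ)
    (c : CD p m N) (b : Fin m → Kˣ) (E : Finset (Pl K)) (η : Pl K → Fin m → ZMod p)
    (hb : BS2 D.toRD0 b E) (H : (Fin m → Fin D.r → ZMod p) → ℂ) (hH : ∀ q, ‖H q‖ ≤ 1) :
    ∃ (cc : Finset c.J → ℂ) (B : ℕ), (∀ Lg, ‖cc Lg‖ ≤ 1) ∧ ∀ ε : ℝ, 0 < ε →
      ∃ X₀ : ℝ, 3 ≤ X₀ ∧ ∀ X : ℝ, X₀ ≤ X →
      ‖GS D.toRD0 c b E η H X -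
        ∑ Lg ∈ Finset.univ.filter (fun Lg : Finset c.J => MainF D c b E η Lg),
          cc Lg * (TN2 D.toRD0 E (fun _ : c.J => (0 : Fin 1)) (fun _ => X) X Lg
            (Real.log X ^ B) (fun _ => ∅) : ℂ)‖ ≤ ε * (X * Real.log X ^ (N - 1)) := by
  obtain ⟨B₁, Xa, hXa, hblk0⟩ := bg_block hp hp2 hζ D c
  obtain ⟨cc, hcc, hblk⟩ := hblk0 b E η hb H hH
  obtain ⟨C1, hC1, htn⟩ := tn_le_one K (J := c.J)
  obtain ⟨C2, hC2, hsm⟩ := smf_sum K (J := c.J) (af_inv K)
  obtain ⟨C0', hC0', haf'⟩ := af_card K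
  obtain ⟨C0, hC0⟩ : ∃ C0 : ℝ, C0 = max C0' 1 := ⟨_, rfl⟩
  have hC01 : 1 ≤ C0 := by rw [hC0]; exact le_max_right _ _
  have haf : ∀ y : ℝ, 1 ≤ y → ((AF K y).card : ℝ) ≤ C0 * y := by
    intro y hy
    refine (haf' y hy).trans (mul_le_mul_of_nonneg_right ?_ (by linarith))
    rw [hC0]
    exact le_max_left _ _
  obtain ⟨B, hB⟩ : ∃ B : ℕ, B = max 2 B₁ := ⟨_, rfl⟩
  have hB2 : 2 ≤ B := by rw [hB]; exact le_max_left _ _
  have hBa : B₁ ≤ B := by rw [hB]; exact le_max_right _ _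
  obtain ⟨n, hn⟩ : ∃ n : ℕ, n = Fintype.card c.J := ⟨_, rfl⟩
  refine ⟨cc, B, hcc, fun ε hε => ?_⟩
  obtain ⟨T, hT⟩ : ∃ T : ℝ, T = ((n : ℝ) + 1) * 2 ^ n := ⟨_, rfl⟩
  have hT0 : 0 < T := by rw [hT]; positivity
  obtain ⟨G, hG⟩ : ∃ G : ℝ, G = (1 + C1) * C2 * 2 ^ (N - 1) := ⟨_, rfl⟩
  have hG0 : 0 < G := by rw [hG]; positivity
  obtain ⟨δ, hδ⟩ : ∃ δ : ℝ, δ = ε / (2 * T * G) := ⟨_, rfl⟩
  have hδ0 : 0 < δ := by rw [hδ]; positivity
  obtain ⟨Xs, hXs, hsmall⟩ := bg_small (B ^ n) n δ hδ0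
  obtain ⟨Xl, hXl, hlarge⟩ := aup_large (B ^ n) n C0 hC01
  obtain ⟨X₀, hX₀⟩ : ∃ X₀ : ℝ, X₀ = max (max Xa Xs) (max Xl
    (max (Real.exp (nr E)) ((2 * T / ε) ^ 2))) := ⟨_, rfl⟩
  have hX₀a : Xa ≤ X₀ := by rw [hX₀]; exact (le_max_left _ _).trans (le_max_left _ _)
  have hX₀s : Xs ≤ X₀ := by rw [hX₀]; exact (le_max_right _ _).trans (le_max_left _ _)
  have hX₀l : Xl ≤ X₀ := by rw [hX₀]; exact (le_max_left _ _).trans (le_max_right _ _)
  have hX₀E : Real.exp (nr E) ≤ X₀ := by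
    rw [hX₀]
    exact (le_max_left _ _).trans ((le_max_right _ _).trans (le_max_right _ _))
  have hX₀T : (2 * T / ε) ^ 2 ≤ X₀ := by
    rw [hX₀]
    exact (le_max_right _ _).trans ((le_max_right _ _).trans (le_max_right _ _))
  refine ⟨X₀, hXa.trans hX₀a, fun X hX => ?_⟩
  have hX3 : 3 ≤ X := (hXa.trans hX₀a).trans hX
  have hX0 : 0 < X := by linarith
  have hL1 : 1 ≤ Real.log X := by
    rw [Real.le_log_iff_exp_le hX0]
    linarith [Real.exp_one_lt_d9]
  have hEL : nr E ≤ Real.log X := by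
    rw [Real.le_log_iff_exp_le hX0]
    exact hX₀E.trans hX
  obtain ⟨L, hL⟩ : ∃ L : ℝ, L = Real.log X := ⟨_, rfl⟩
  obtain ⟨hl1, hl2, hl3⟩ := hlarge X (hX₀l.trans hX)
  have hs := hsmall X (hX₀s.trans hX)
  rw [← hL] at hl1 hl2 hl3 hL1 hEL hs
  have hL0 : 0 < L := by linarith
  obtain ⟨z, hz⟩ : ∃ z : ℕ → ℝ, z = fun j => L ^ (B ^ j) := ⟨_, rfl⟩
  have hzj : ∀ j, z j = L ^ (B ^ j) := fun j => by rw [hz]
  have hzm : Monotone z := by
    intro i j hij
    rw [hzj, hzj]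
    exact pow_le_pow_right₀ hL1 (Nat.pow_le_pow_right (by omega) hij)
  have hz1 : ∀ j, 1 ≤ z j := fun j => by rw [hzj]; exact one_le_pow₀ hL1
  have hzX : ∀ j, j ≤ Fintype.card c.J → z j ≤ X := by
    intro j hj
    refine (hzm hj).trans ?_
    rw [hzj, ← hn]
    exact hl1
  have hzs : ∀ j, z (j + 1) = z j ^ B := by
    intro j
    rw [hzj, hzj, ← pow_mul, pow_succ]
  have hzB : ∀ j, z j ^ B₁ ≤ z (j + 1) := by
    intro j
    rw [hzs]
    exact pow_le_pow_right₀ (hz1 j) hBa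
  have hLz : ∀ j, L ^ B₁ ≤ z (j + 1) := by
    intro j
    rw [hzj]
    refine pow_le_pow_right₀ hL1 (hBa.trans ?_)
    calc B = B ^ 1 := by ring
      _ ≤ B ^ (j + 1) := Nat.pow_le_pow_right (by omega) (by omega)
  have hEz : ∀ j, nr E ≤ z j := by
    intro j
    refine hEL.trans ?_
    rw [hzj]
    exact le_self_pow₀ hL1 (by positivity)
  obtain ⟨U, hU⟩ : ∃ U : ℝ, U = (1 + C1) * X * (1 + L) ^ (N - 1) / L := ⟨_, rfl⟩
  have hU0 : 0 ≤ U := by rw [hU]; positivity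
  have hz1B : Real.log X ^ B = z (0 + 1) := by rw [hzj, ← hL, zero_add, pow_one]
  rw [hz1B, ← bgc_sum D.toRD0 z (hz1 0) (Fintype.card c.J) (fun Lg => MainF D c b E η Lg)
    (fun j Lg => cc Lg * (TN2 D.toRD0 E (fun _ : c.J => (0 : Fin 1)) (fun _ => X) X Lg
            (z (j + 1)) (fun _ => ∅) : ℂ)), GS, athr D.toRD0 z hzm X hzX, ← Finset.sum_sub_distrib]
  obtain ⟨W, hW⟩ : ∃ W : ℝ, W = U * (C2 * (δ * L)) + Real.sqrt X := ⟨_, rfl⟩
  have hW0 : 0 ≤ W := by rw [hW]; positivity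
  have htot : ∀ j ∈ Finset.range (Fintype.card c.J + 1), ∀ Lg ∈ (Finset.univ : Finset (Finset c.J)),
      ‖∑ s ∈ SmF D.toRD0 z j Lg,
        (∑ g ∈ Fintype.piFinset (fun a => if a ∈ Lg then GF D.toRD0 X else {s a}),
        if ∀ a ∈ Lg, z (j + 1) < nr (g a) then
        (if Dj g ∧ (∀ a, Disjoint (g a) E) ∧ ∏ a, nr (g a) ≤ X ∧ Sp c b g then
          H (cJ D.toRD0 c fun a => qf D.toRD0 (g a)) * ep p (ph2 D.toRD0 c.pd b E η g)
        else 0) else 0) -
        ∑ s ∈ SmF D.toRD0 z j Lg, (if s = (fun _ => ∅) then (if j = 0 ∧ MainF D c b E η Lg then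
          cc Lg * (TN2 D.toRD0 E (fun _ : c.J => (0 : Fin 1)) (fun _ => X) X Lg (z (j + 1))
                (fun _ => ∅) : ℂ) else 0) else 0)‖ ≤ W := by
    intro j hj Lg _
    have hj' : j ≤ n := by
      rw [Finset.mem_range] at hj
      omega
    rw [← Finset.sum_sub_distrib]
    have hb1 : ∀ s ∈ SmF D.toRD0 z j Lg,
        ‖(∑ g ∈ Fintype.piFinset (fun a => if a ∈ Lg then GF D.toRD0 X else {s a}),
        if ∀ a ∈ Lg, z (j + 1) < nr (g a) then
        (if Dj g ∧ (∀ a, Disjoint (g a) E) ∧ ∏ a, nr (g a) ≤ X ∧ Sp c b g then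
          H (cJ D.toRD0 c fun a => qf D.toRD0 (g a)) * ep p (ph2 D.toRD0 c.pd b E η g)
        else 0) else 0) -
        (if s = (fun _ => ∅) then (if j = 0 ∧ MainF D c b E η Lg then
          cc Lg * (TN2 D.toRD0 E (fun _ : c.J => (0 : Fin 1)) (fun _ => X) X Lg (z (j + 1))
                (fun _ => ∅) : ℂ) else 0) else 0)‖ ≤ U * (sn Lg s)⁻¹ + 1 := by
      intro s hs0
      rw [bg_inner D c b E η H X (z (j + 1)) (hz1 _) Lg s]
      have hs3 := hs0
      rw [SmF, Finset.mem_filter, Fintype.mem_piFinset] at hs0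
      have hs1 : ∀ l, l ∉ Lg → (∀ v ∈ s l, D.Gd v) ∧ nr (s l) ≤ z j := by
        intro l hl
        have := hs0.1 l
        rw [if_neg hl, GF, Finset.mem_filter, mem_AF] at this
        exact ⟨this.2, this.1⟩
      have hs2 : ∀ l, l ∈ Lg → s l = ∅ := by
        intro l hl
        have := hs0.1 l
        rw [if_pos hl, Finset.mem_singleton] at this
        exact this
      obtain ⟨hm1, hm2⟩ := hblk X (z j) (z (j + 1)) (hX₀a.trans hX) (hz1 j) (hzB j)
        (by rw [← hL]; exact hLz j) (hEz j)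
      rw [hU]
      exact bgc_blk D c b E η H cc X L (z j) (z (j + 1)) C1 (by linarith) hL hL1 hC1 htn hm1 hm2
        j Lg s hs2 hs1 (bgc_mem_pos D.toRD0 z (hz1 0) j Lg s hs3)
    refine (norm_sum_le _ _).trans ((Finset.sum_le_sum hb1).trans ?_)
    rw [Finset.sum_add_distrib, ← Finset.mul_sum]
    have h1 : ∑ s ∈ SmF D.toRD0 z j Lg, (sn Lg s)⁻¹ ≤ C2 * (δ * L) := by
      have h2 := hsm p ζ D.toRD0 z j Lg (hz1 j)
      have h3 : (1 + Real.log (z j)) ^ Fintype.card c.J ≤ δ * L := by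
        refine le_trans ?_ hs
        rw [← hn]
        refine pow_le_pow_left₀ (by linarith [Real.log_nonneg (hz1 j)]) ?_ n
        have h4 : z j ≤ L ^ (B ^ n) := by
          rw [← hzj]
          exact hzm hj'
        have := Real.log_le_log (by linarith [hz1 j]) h4
        linarith
      exact h2.trans (mul_le_mul_of_nonneg_left h3 hC2.le)
    have h3 : ∑ s ∈ SmF D.toRD0 z j Lg, (1 : ℝ) ≤ Real.sqrt X := by
      rw [Finset.sum_const, nsmul_eq_mul, mul_one]
      refine le_trans ?_ hl3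
      have h4 : ((SmF D.toRD0 z j Lg).card : ℝ) ≤
          ((Fintype.piFinset fun a => if a ∈ Lg then {∅} else GF D.toRD0 (z j)).card : ℝ) := by
        exact_mod_cast Finset.card_le_card (Finset.filter_subset _ _)
      refine h4.trans ?_
      rw [Fintype.card_piFinset]
      push_cast
      have h5 : ∀ a ∈ (Finset.univ : Finset c.J),
          (((if a ∈ Lg then {∅} else GF D.toRD0 (z j)).card : ℕ) : ℝ) ≤
            C0 * L ^ (B ^ n) := by
        intro a _
        have h6 : 1 ≤ L ^ (B ^ n) := one_le_pow₀ hL1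
        have h7 : 1 ≤ C0 * L ^ (B ^ n) := one_le_mul_of_one_le_of_one_le hC01 h6
        by_cases ha : a ∈ Lg
        · rw [if_pos ha, Finset.card_singleton, Nat.cast_one]
          exact h7
        · rw [if_neg ha]
          have h8 : ((GF D.toRD0 (z j)).card : ℝ) ≤ ((AF K (z j)).card : ℝ) := by
            exact_mod_cast Finset.card_le_card (Finset.filter_subset _ _)
          have h9 : z j ≤ L ^ (B ^ n) := by
            rw [← hzj]
            exact hzm hj'
          exact (h8.trans (haf _ (hz1 j))).trans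
            (mul_le_mul_of_nonneg_left h9 (by linarith))
      refine (Finset.prod_le_prod (fun _ _ => Nat.cast_nonneg _) h5).trans ?_
      rw [Finset.prod_const, Finset.card_univ, ← hn]
    have h4 : U * ∑ s ∈ SmF D.toRD0 z j Lg, (sn Lg s)⁻¹ ≤ U * (C2 * (δ * L)) :=
      mul_le_mul_of_nonneg_left h1 hU0
    rw [hW]
    linarith
  have hfin : T * W ≤ ε * (X * Real.log X ^ (N - 1)) := by
    rw [← hL, hW, hU]
    have h1 : (1 + L) ^ (N - 1) ≤ 2 ^ (N - 1) * L ^ (N - 1) := by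
      rw [← mul_pow]
      exact pow_le_pow_left₀ (by linarith) (by linarith) _
    have hLN : 1 ≤ L ^ (N - 1) := one_le_pow₀ hL1
    have h2 : T * ((1 + C1) * X * (1 + L) ^ (N - 1) / L * (C2 * (δ * L))) ≤
        ε / 2 * (X * L ^ (N - 1)) := by
      have h3 : T * ((1 + C1) * X * (1 + L) ^ (N - 1) / L * (C2 * (δ * L))) =
          T * (1 + C1) * C2 * δ * X * (1 + L) ^ (N - 1) := by
        field_simp
      rw [h3]
      calc T * (1 + C1) * C2 * δ * X * (1 + L) ^ (N - 1)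
          ≤ T * (1 + C1) * C2 * δ * X * (2 ^ (N - 1) * L ^ (N - 1)) :=
            mul_le_mul_of_nonneg_left h1 (by positivity)
        _ = T * G * δ * (X * L ^ (N - 1)) := by rw [hG]; ring
        _ = ε / 2 * (X * L ^ (N - 1)) := by
            have : T * G * δ = ε / 2 := by
              rw [hδ]
              field_simp
            rw [this]
    have h4 : T * Real.sqrt X ≤ ε / 2 * (X * L ^ (N - 1)) := by
      have h5 : 2 * T / ε ≤ Real.sqrt X := by
        apply Real.le_sqrt_of_sq_le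
        exact hX₀T.trans hX
      have h6 : T ≤ ε / 2 * Real.sqrt X := by
        rw [div_le_iff₀ hε] at h5
        linarith
      calc T * Real.sqrt X ≤ ε / 2 * Real.sqrt X * Real.sqrt X :=
            mul_le_mul_of_nonneg_right h6 (Real.sqrt_nonneg _)
        _ = ε / 2 * X := by rw [mul_assoc, Real.mul_self_sqrt hX0.le]
        _ ≤ ε / 2 * (X * L ^ (N - 1)) := by
            refine mul_le_mul_of_nonneg_left ?_ (by positivity)
            exact le_mul_of_one_le_right hX0.le hLN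
    rw [mul_add]
    linarith
  refine le_trans ?_ hfin
  refine (norm_sum_le _ _).trans ((Finset.sum_le_card_nsmul _ _ (2 ^ n * W) fun j hj => ?_).trans ?_)
  · rw [← Finset.sum_sub_distrib]
    refine (norm_sum_le _ _).trans ((Finset.sum_le_card_nsmul _ _ W (htot j hj)).trans ?_)
    rw [Finset.card_univ, Fintype.card_finset, nsmul_eq_mul, ← hn]
    push_cast
    exact le_rfl
  · rw [Finset.card_range, nsmul_eq_mul, ← hn, hT]
    push_cast
    exact le_of_eq (by ring)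

theorem gs_lim [NeZero p] (hp : p.Prime) (hp2 : MOne p K) (hζ : IsPrimitiveRoot ζ p) (D : RD K p ζ)
    (c : CD p m N) (hN : 1 ≤ N) (b : Fin m → Kˣ) (E : Finset (Pl K)) (η : Pl K → Fin m → ZMod p)
    (hb : BS2 D.toRD0 b E) (H : (Fin m → Fin D.r → ZMod p) → ℂ) (hH : ∀ q, ‖H q‖ ≤ 1) (u : ℝ)
    (hu : Tendsto (fun y : ℝ => UN D.toRD0 N E y / (y * Real.log y ^ (N - 1))) atTop (𝓝 u)) :
    ∃ L : ℂ, Tendsto (fun Y : ℝ => GS D.toRD0 c b E η H Y /
        ((Y * Real.log Y ^ (N - 1) : ℝ) : ℂ)) atTop (𝓝 L) ∧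
      ‖L‖ ≤ u * ((FG D c b E η).card : ℝ) := by
  obtain ⟨cc, B, hcc, herr⟩ := gs_err hp hp2 hζ D c b E η hb H hH
  have hu0 : 0 ≤ u := by
    refine ge_of_tendsto hu ?_
    filter_upwards [eventually_ge_atTop (1 : ℝ)] with y hy
    refine div_nonneg (Nat.cast_nonneg _) ?_
    exact mul_nonneg (by linarith) (pow_nonneg (Real.log_nonneg hy) _)
  refine ⟨∑ Lg ∈ Finset.univ.filter (fun Lg : Finset c.J => MainF D c b E η Lg), cc Lg * (u : ℂ),
    ?_, ?_⟩
  · have h1 : Tendsto (fun X : ℝ =>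
        ∑ Lg ∈ Finset.univ.filter (fun Lg : Finset c.J => MainF D c b E η Lg),
          cc Lg * (((TN2 D.toRD0 E (fun _ : c.J => (0 : Fin 1)) (fun _ => X) X Lg
            (Real.log X ^ B) (fun _ => ∅)) / (X * Real.log X ^ (N - 1)) : ℝ) : ℂ)) atTop
        (𝓝 (∑ Lg ∈ Finset.univ.filter (fun Lg : Finset c.J => MainF D c b E η Lg),
          cc Lg * (u : ℂ))) := by
      refine tendsto_finsetSum _ fun Lg hLg => ?_
      rw [Finset.mem_filter] at hLg
      refine Tendsto.const_mul _ ?_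
      exact (Complex.continuous_ofReal.tendsto u).comp
        (bg_main D.toRD0 c hN E Lg hLg.2.1 hLg.2.2.1 B u hu)
    have h2 : Tendsto (fun X : ℝ => GS D.toRD0 c b E η H X /
        ((X * Real.log X ^ (N - 1) : ℝ) : ℂ) -
        ∑ Lg ∈ Finset.univ.filter (fun Lg : Finset c.J => MainF D c b E η Lg),
          cc Lg * (((TN2 D.toRD0 E (fun _ : c.J => (0 : Fin 1)) (fun _ => X) X Lg
            (Real.log X ^ B) (fun _ => ∅)) / (X * Real.log X ^ (N - 1)) : ℝ) : ℂ)) atTop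
        (𝓝 0) := by
      rw [Metric.tendsto_atTop]
      intro ε hε
      obtain ⟨X₀, hX₀, h⟩ := herr (ε / 2) (by linarith)
      refine ⟨X₀, fun X hX => ?_⟩
      have hX0 : 0 < X := by linarith [hX₀.trans hX]
      have hL1 : 1 ≤ Real.log X := by
        rw [Real.le_log_iff_exp_le hX0]
        linarith [Real.exp_one_lt_d9, hX₀.trans hX]
      have hd : 0 < X * Real.log X ^ (N - 1) := by positivity
      have hdC : ((X * Real.log X ^ (N - 1) : ℝ) : ℂ) ≠ 0 := by exact_mod_cast hd.ne'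
      have h3 : GS D.toRD0 c b E η H X / ((X * Real.log X ^ (N - 1) : ℝ) : ℂ) -
        ∑ Lg ∈ Finset.univ.filter (fun Lg : Finset c.J => MainF D c b E η Lg),
          cc Lg * (((TN2 D.toRD0 E (fun _ : c.J => (0 : Fin 1)) (fun _ => X) X Lg
            (Real.log X ^ B) (fun _ => ∅)) / (X * Real.log X ^ (N - 1)) : ℝ) : ℂ) =
        (GS D.toRD0 c b E η H X -
        ∑ Lg ∈ Finset.univ.filter (fun Lg : Finset c.J => MainF D c b E η Lg),
          cc Lg * (TN2 D.toRD0 E (fun _ : c.J => (0 : Fin 1)) (fun _ => X) X Lg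
            (Real.log X ^ B) (fun _ => ∅) : ℂ)) / ((X * Real.log X ^ (N - 1) : ℝ) : ℂ) := by
        rw [sub_div, Finset.sum_div]
        congr 1
        refine Finset.sum_congr rfl fun Lg _ => ?_
        rw [Complex.ofReal_div, mul_div_assoc]
      rw [dist_zero_right, h3, norm_div, Complex.norm_real, Real.norm_of_nonneg hd.le,
        div_lt_iff₀ hd]
      refine lt_of_le_of_lt (h X hX) ?_
      have : ε / 2 < ε := by linarith
      exact mul_lt_mul_of_pos_right this hd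
    have h3 := h2.add h1
    simp only [sub_add_cancel, zero_add] at h3
    exact h3
  · refine (norm_sum_le _ _).trans ((Finset.sum_le_card_nsmul _ _ u fun Lg _ => ?_).trans ?_)
    · rw [norm_mul, Complex.norm_real, Real.norm_of_nonneg hu0]
      have := hcc Lg
      nlinarith
    · rw [nsmul_eq_mul, mul_comm]
      refine mul_le_mul_of_nonneg_left ?_ hu0
      exact_mod_cast bg_card D c b E η

end H63.MA
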