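import Pool.Agent.H63.MB.BEx
import Pool.Agent.H63.MB.BGc

/-!
# MB-BIS: asymptotic formula for `IS`

`is_lim`: `IS / (Y (log Y)^{N-1})` converges to some `L` with `0 ≤ L ≤ u (p^m)^N`, `u` the limit of `UN D N E Y / (Y (log Y)^{N-1})`.
Proof. `is_eq` and `gs_lim` for each of the finitely many `η ∈ I` (`b = ak ε e` satisfies `BS2 b E`: `ord w (b k) = 0` for `w ∉ S0 ∪ ⋃ e i`, because `ε k` is an `S0`-unit and `pi_ne`; compare `atupb_bsup`; `|H| ≤ 1`): the complex limit exists; it is real and `≥ 0` because `IS` is real and `≥ 0`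
(`wt ≥ 0`, `H ≥ 0`). Its absolute value is at most `u ∑_{η ∈ I} #FG D c b E η` (`|ep| = 1`), and `∑_{η ∈ I} #FG(η) ≤ (p^m)^N`: the pairs `(η, θ)`, `η ∈ I`, `θ ∈ FG(η)`, map injectively to the functions `θ : Fin N → (ZMod p)^m`: let `η, η' ∈ I` with `θ ∈ FG(η) ∩ FG(η')`; for `w ∈ e j ⊆ E` the third condition in `FG`
gives `dt (η w) (x i) = dt (η' w) (x i)` for all `i`, so `η w = η' w` (`acmb_zero`), and both are `0` outside `⋃ e i`.
-/

set_option autoImplicit false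

open scoped NumberField
open IsDedekindDomain Filter Topology
open scoped Classical

noncomputable section

namespace H63.MA

variable {K : Type} [Field K] [NumberField K] {p : ℕ} {ζ : K} {m N : ℕ}

theorem bis_bs2 (D : RD0 K p ζ) (c : CD p m N) (ε : Fin m → Kˣ)
    (hε : ∀ k, TUnit D.S0 (ε k)) (e : Fin N → Finset (Pl K)) (E : Finset (Pl K))
    (heE : ∀ i, e i ⊆ E) (hE : ∀ v ∈ E, v ∉ D.S0) : BS2 D (ak D c ε e) E := by
  refine ⟨hE, fun k v hv hv' => ?_⟩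
  unfold ak
  rw [ord_mul, hε k v hv, ord_prod, zero_add]
  refine Finset.sum_eq_zero fun i _ => ?_
  rw [ord_prod]
  refine Finset.sum_eq_zero fun w hw => ?_
  rw [ord_pow, D.pi_ne w v (hE w (heE i hw)) hv ?_, mul_zero]
  rintro rfl
  exact hv' (heE i hw)

theorem bis_disj [NeZero p] (D : RD K p ζ) (c : CD p m N) (b : Fin m → Kˣ)
    (e : Fin N → Finset (Pl K)) (E : Finset (Pl K)) (heE : ∀ i, e i ⊆ E)
    (η η' : Pl K → Fin m → ZMod p) (hη : ∀ w, (∀ i, w ∉ e i) → η w = 0)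
    (hη' : ∀ w, (∀ i, w ∉ e i) → η' w = 0) (h : η ≠ η') :
    Disjoint (FG D c b E η) (FG D c b E η') := by
  rw [Finset.disjoint_left]
  intro θ h1 h2
  apply h
  funext w
  by_cases hw : ∀ i, w ∉ e i
  · rw [hη w hw, hη' w hw]
  · push Not at hw
    obtain ⟨i, hi⟩ := hw
    have hwE : w ∈ E := heE i hi
    have h3 := (Finset.mem_filter.1 h1).2.2.2
    have h4 := (Finset.mem_filter.1 h2).2.2.2
    have h5 : η w - η' w = 0 := by
      refine acmb_zero c _ fun j => ?_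
      rw [acmb_dt_sub]
      have h6 := h3 j w hwE
      have h7 := h4 j w hwE
      linear_combination h6 - h7
    exact sub_eq_zero.1 h5

theorem bis_card [NeZero p] (D : RD K p ζ) (c : CD p m N) (b : Fin m → Kˣ)
    (e : Fin N → Finset (Pl K)) (E : Finset (Pl K)) (heE : ∀ i, e i ⊆ E)
    (I : Finset (Pl K → Fin m → ZMod p))
    (hI : ∀ η ∈ I, ∀ w, (∀ i, w ∉ e i) → η w = 0) :
    ∑ η ∈ I, ((FG D c b E η).card : ℝ) ≤ ((p : ℝ) ^ m) ^ N := by
  have h1 : (I.biUnion fun η => FG D c b E η).card = ∑ η ∈ I, (FG D c b E η).card := by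
    refine Finset.card_biUnion ?_
    intro η hη η' hη' hne
    exact bis_disj D c b e E heE η η' (hI η hη) (hI η' hη') hne
  have h2 : (I.biUnion fun η => FG D c b E η).card ≤ (p ^ m) ^ N := by
    refine (Finset.card_le_univ _).trans (le_of_eq ?_)
    simp [ZMod.card]
  rw [h1] at h2
  exact_mod_cast h2

theorem is_lim [NeZero p] (hp : p.Prime) (hp2 : MOne p K) (hζ : IsPrimitiveRoot ζ p) (D : RD K p ζ)
    (c : CD p m N) (hN : 1 ≤ N) (ε : Fin m → Kˣ) (hε : ∀ k, TUnit D.S0 (ε k))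
    (e : Fin N → Finset (Pl K)) (he : Dj e) (E : Finset (Pl K)) (heE : ∀ i, e i ⊆ E)
    (hE : ∀ v ∈ E, v ∉ D.S0) (H : (Fin m → Fin D.r → ZMod p) → ℝ)
    (hH : ∀ q, 0 ≤ H q ∧ H q ≤ 1) (u : ℝ)
    (hu : Tendsto (fun y : ℝ => UN D.toRD0 N E y / (y * Real.log y ^ (N - 1))) atTop (𝓝 u)) :
    ∃ L : ℝ, 0 ≤ L ∧ L ≤ u * ((p : ℝ) ^ m) ^ N ∧
      Tendsto (fun Y : ℝ => IS D.toRD0 c ε e E H Y / (Y * Real.log Y ^ (N - 1))) atTop (𝓝 L) := by
  obtain ⟨I, hI, hIS⟩ := is_eq hp hζ D c ε e he E heE hE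
  set b := ak D.toRD0 c ε e with hb
  have hBS : BS2 D.toRD0 b E := bis_bs2 D.toRD0 c ε hε e E heE hE
  have hH1 : ∀ q, ‖((H (cQ D.toRD0 c e + q) : ℝ) : ℂ)‖ ≤ 1 := by
    intro q
    rw [Complex.norm_real, Real.norm_eq_abs, abs_of_nonneg (hH _).1]
    exact (hH _).2
  have hall : ∀ η : Pl K → Fin m → ZMod p, ∃ L : ℂ,
      Tendsto (fun Y : ℝ => GS D.toRD0 c b E η
        (fun q => ((H (cQ D.toRD0 c e + q) : ℝ) : ℂ)) Y /
        ((Y * Real.log Y ^ (N - 1) : ℝ) : ℂ)) atTop (𝓝 L) ∧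
      ‖L‖ ≤ u * ((FG D c b E η).card : ℝ) := fun η =>
    gs_lim hp hp2 hζ D c hN b E η hBS _ hH1 u hu
  choose Lf hLf hLn using hall
  have hC : Tendsto (fun Y : ℝ =>
      ((IS D.toRD0 c ε e E H Y / (Y * Real.log Y ^ (N - 1)) : ℝ) : ℂ)) atTop
      (𝓝 (∑ η ∈ I, ep p (∑ i, ∑ w ∈ e i, dt (η w) (fun k => D.LL w (b k))) * Lf η)) := by
    have h1 : (fun Y : ℝ =>
        ((IS D.toRD0 c ε e E H Y / (Y * Real.log Y ^ (N - 1)) : ℝ) : ℂ)) =
        fun Y : ℝ => ∑ η ∈ I, ep p (∑ i, ∑ w ∈ e i, dt (η w) (fun k => D.LL w (b k))) *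
          (GS D.toRD0 c b E η (fun q => ((H (cQ D.toRD0 c e + q) : ℝ) : ℂ)) Y /
            ((Y * Real.log Y ^ (N - 1) : ℝ) : ℂ)) := by
      funext Y
      rw [Complex.ofReal_div, hIS H Y, Finset.sum_div]
      exact Finset.sum_congr rfl fun η _ => mul_div_assoc _ _ _
    rw [h1]
    exact tendsto_finsetSum _ fun η _ => (hLf η).const_mul _
  set LC : ℂ := ∑ η ∈ I, ep p (∑ i, ∑ w ∈ e i, dt (η w) (fun k => D.LL w (b k))) * Lf η with hLC
  have hR : Tendsto (fun Y : ℝ => IS D.toRD0 c ε e E H Y / (Y * Real.log Y ^ (N - 1))) atTop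
      (𝓝 LC.re) := by
    have h1 := (Complex.continuous_re.tendsto LC).comp hC
    refine h1.congr fun Y => ?_
    simp only [Function.comp_apply, Complex.ofReal_re]
  have hIS0 : ∀ Y : ℝ, 0 ≤ IS D.toRD0 c ε e E H Y := by
    intro Y
    unfold IS
    refine Finset.sum_nonneg fun f _ => ?_
    split_ifs
    · exact mul_nonneg (hH _).1 (atupb_wt_nonneg _ _ _)
    · exact le_rfl
  have hu0 : 0 ≤ u := by
    refine ge_of_tendsto hu ?_
    filter_upwards [eventually_ge_atTop (1 : ℝ)] with y hy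
    have h1 := Real.log_nonneg hy
    unfold UN
    positivity
  refine ⟨LC.re, ?_, ?_, hR⟩
  · refine ge_of_tendsto hR ?_
    filter_upwards [eventually_ge_atTop (1 : ℝ)] with y hy
    have h1 := Real.log_nonneg hy
    have h2 := hIS0 y
    positivity
  · calc LC.re ≤ ‖LC‖ := Complex.re_le_norm LC
      _ ≤ ∑ η ∈ I, u * ((FG D c b E η).card : ℝ) := by
          refine norm_sum_le_of_le _ fun η _ => ?_
          rw [norm_mul, ep_norm, one_mul]
          exact hLn η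
      _ = u * ∑ η ∈ I, ((FG D c b E η).card : ℝ) := (Finset.mul_sum _ _ _).symm
      _ ≤ u * ((p : ℝ) ^ m) ^ N :=
          mul_le_mul_of_nonneg_left
            (bis_card D c b e E heE I fun η hη => ((hI η).1 hη).2) hu0

end H63.MA
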