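import Pool.Agent.H63.MB.BFb
import Pool.Agent.H63.MB.BUf

/-!
# MB-BLIM: asymptotic formula for the weighted number of all families

* `an_gen`: `MS / (X (log X)^{N-1})` converges to some `L` with `0 ≤ L ≤ C₁ u ∏_{v ∈ Z} (1 + (N-1)/nm v)`, `C₁` independent of `ε, H, Z, i₀`.
  Proof. Let `P = #(ZMod p)^m`. (1) Let `C` be the constant of `atupb_conv` (`P`); as `1 ≤ P` and `nr ≥ 1`, also `∑_e ∏ 1/nr (e i) ≤ C` over any finite set of bad families (choose `X` large). Let `L_e` be the limits in `fb_lim`; for every finite set of bad families `∑ L_e ≤ C₁ u ∏ …` with `C₁ = (p^m)^N C`; so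
  `∑ L_e` converges, to `L` (sum over the subtype of the bad families, `summable_of_sum_le`). (2) As in the proof of `atup` in `MA/ATupB` (constants `A₁` of `sg_triv`, `A = 4 A₁ + 4`, `sg_up`), with `fb_up`: for `T ≥ 1` and `X` large
  `∑_{e : T < ∏ nr (e i) ≤ X} FB e ≤ C' X (log X)^{N-1} T^{-1/4} + C' X` , more precisely: the terms with `∏ nr (e i) ≤ (log X)^A` are at most `C X (log X)^{N-1} ∑_{∏ nr > T} ∏ P^{#(e i)} / nr (e i) ≤ C' X (log X)^{N-1} T^{-1/4}` (`1/nr ≤ T^{-1/4} nr^{-3/4}`), and those with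
  `∏ nr (e i) > (log X)^A` at most `C X (1 + log X)^{A₁} (log X)^{-A/4} ∑ ∏ P^{#(e i)} nr^{-3/4} ≤ C' X / log X`. (3) The families with `∏ nr (e i) ≤ T` are finitely many and for them `∑ FB e / (X (log X)^{N-1}) → ∑_{∏ nr ≤ T} L_e` (`fb_lim`), which tends to `L` as `T → ∞`. So with `ms_split` the quotient converges to `L`.
* `an_exc`: let `κ ≠ 0`. The weighted number `ME` of the families with `κ · q v = 0` for all `v ∈ f i₀` is `o(X (log X)^{N-1})`. Proof. For every finite set `Z` of good primes `v` with `κ · q v ≠ 0` we have `ME ≤ MS` for this `Z` and `H = 1` (such families have `f i₀ ∩ Z = ∅`; all weights are `≥ 0`), so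
  the upper limit of `ME / (X (log X)^{N-1})` is at most `C₁ u_Z ∏_{v ∈ Z} (1 + (N-1)/nm v) = C₁ u_∅ ∏_{v ∈ Z} (1 + (N-1)/nm v) / (1 + N/nm v)` (`an_gen`, `un_lim`, `un_lim_rel`), which is `≤ ε` for a suitable `Z` by `div_prod`.
-/

set_option autoImplicit false

open scoped NumberField
open IsDedekindDomain Filter Topology
open scoped Classical

noncomputable section

namespace H63.MA

variable {K : Type} [Field K] [NumberField K] {p : ℕ} {ζ : K} {m N : ℕ}

/-- the weighted number of the exceptional families -/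
def ME (D : RD0 K p ζ) (c : CD p m N) (ε : Fin m → Kˣ) (i₀ : Fin N) (κ : Fin D.r → ZMod p)
    (X : ℝ) : ℝ :=
  ∑ f ∈ Fintype.piFinset (fun _ : Fin N => AF K X),
    if Dj f ∧ (∀ i, ∀ v ∈ f i, v ∉ D.S0) ∧ ∏ i, nr (f i) ≤ X ∧
        (∀ θ : Fin m → ZMod p, θ ≠ 0 → ¬ IsPow p (bp (ak D c ε f) θ)) ∧
        (∀ v ∈ f i₀, dt κ (D.q v) = 0) then
      wt c f (fun v k => D.LL v (ak D c ε f k)) else 0

/-- the domination of the terms (from the proof of `atup`) -/
theorem blim_dom [NeZero p] (hp : p.Prime) (hp2 : MOne p K) (hζ : IsPrimitiveRoot ζ p)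
    (D : RD K p ζ) (c : CD p m N) :
    ∃ C X₀ : ℝ, 0 < C ∧ 3 ≤ X₀ ∧ ∀ X : ℝ, X₀ ≤ X → ∀ ε : Fin m → Kˣ,
      (∀ k, TUnit D.S0 (ε k)) → ∀ e : Fin N → Finset (Pl K), atupbC D.toRD0 X e →
        (∏ i, (Nat.card (Fin m → ZMod p) : ℝ) ^ (e i).card) *
          Sg D.toRD0 c (ak D.toRD0 c ε e) X (X / ∏ i, nr (e i)) ≤
        C * X * Real.log X ^ (N - 1) *
          ∏ i, ((Nat.card (Fin m → ZMod p) : ℝ) ^ (e i).card * nr (e i) ^ (-(3 / 4) : ℝ)) := by
  obtain ⟨C2, A₁, hC2, htriv⟩ := sg_triv hp hζ D c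
  obtain ⟨C1, X1, hC1, hX1, hup⟩ := sg_up hp hp2 hζ D c (4 * A₁)
  have hev : ∀ᶠ X : ℝ in Filter.atTop, Real.log X ^ (8 * A₁) ≤ X := by
    have h1 := (Real.isLittleO_pow_log_id_atTop (n := 8 * A₁)).bound (show (0 : ℝ) < 1 by norm_num)
    filter_upwards [h1, Filter.eventually_ge_atTop 1] with X hX hX1
    simp only [id, one_mul, Real.norm_eq_abs] at hX
    rw [abs_of_nonneg (by linarith : (0 : ℝ) ≤ X)] at hX
    exact (le_abs_self _).trans hX
  obtain ⟨X2, hX2⟩ := Filter.eventually_atTop.1 hev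
  set C3 : ℝ := C1 + C2 * 2 ^ A₁ with hC3
  have hC3' : 0 < C3 := by positivity
  refine ⟨C3, max X1 X2, by positivity, hX1.trans (le_max_left _ _), fun X hX ε hε e hC => ?_⟩
  have hXX1 : X1 ≤ X := (le_max_left _ _).trans hX
  have hXX2 : X2 ≤ X := (le_max_right _ _).trans hX
  have hX3 : 3 ≤ X := hX1.trans hXX1
  have hX0 : 0 < X := by linarith
  have hlog1 : 1 ≤ Real.log X := by
    rw [Real.le_log_iff_exp_le hX0]
    linarith [Real.exp_one_lt_d9]
  have hsq := hX2 X hXX2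
  have hsqrt : Real.log X ^ (4 * A₁) ≤ Real.sqrt X := by
    apply Real.le_sqrt_of_sq_le
    rw [← pow_mul]
    refine le_trans (le_of_eq ?_) hsq
    ring_nf
  obtain ⟨h1, h2, h3⟩ := hC
  set n : ℝ := ∏ i, nr (e i) with hn
  have hn1 : 1 ≤ n := atupb_one_le e
  have hn0 : 0 < n := by linarith
  have hprod : ∏ i, ((Nat.card (Fin m → ZMod p) : ℝ) ^ (e i).card *
      nr (e i) ^ (-(3 / 4) : ℝ)) =
      (∏ i, (Nat.card (Fin m → ZMod p) : ℝ) ^ (e i).card) * n ^ (-(3 / 4) : ℝ) := by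
    rw [Finset.prod_mul_distrib, hn, Real.finsetProd_rpow]
    intro i _
    linarith [one_le_nr (e i)]
  rw [hprod]
  have hP0 : 0 ≤ ∏ i, (Nat.card (Fin m → ZMod p) : ℝ) ^ (e i).card :=
    Finset.prod_nonneg fun i _ => by positivity
  have hXn : X / n ≤ X := div_le_self hX0.le hn1
  have hXn0 : 0 < X / n := by positivity
  have hLN : 1 ≤ Real.log X ^ (N - 1) := one_le_pow₀ hlog1
  have hmain : Sg D.toRD0 c (ak D.toRD0 c ε e) X (X / n) ≤
      C3 * X * Real.log X ^ (N - 1) * n ^ (-(3 / 4) : ℝ) := by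
    have hr0 : 0 < n ^ (-(3 / 4) : ℝ) := Real.rpow_pos_of_pos hn0 _
    have hninv : 1 / n = n ^ (-(3 / 4) : ℝ) * n ^ (-(1 / 4) : ℝ) := by
      rw [← Real.rpow_add hn0, one_div, ← Real.rpow_neg_one]
      norm_num
    rcases le_or_gt n (Real.log X ^ (4 * A₁)) with hle | hgt
    · have hs : Real.sqrt X ≤ X / n := by
        rw [le_div_iff₀ hn0]
        calc Real.sqrt X * n ≤ Real.sqrt X * Real.sqrt X :=
              mul_le_mul_of_nonneg_left (hle.trans hsqrt) (Real.sqrt_nonneg _)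
          _ = X := Real.mul_self_sqrt hX0.le
      have hb := atupb_bsup D.toRD0 c ε hε e h2
      have hb2 : nr (Finset.univ.biUnion e) ≤ Real.log X ^ (4 * A₁) := by
        rw [atupb_nrU e h1]
        exact hle
      refine (hup X (X / n) hXX1 hs hXn _ _ hb hb2).trans ?_
      have h14 : n ^ (-(1 / 4) : ℝ) ≤ 1 :=
        Real.rpow_le_one_of_one_le_of_nonpos hn1 (by norm_num)
      have hXn2 : X / n ≤ X * n ^ (-(3 / 4) : ℝ) := by
        rw [div_eq_mul_one_div, hninv]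
        refine mul_le_mul_of_nonneg_left ?_ hX0.le
        nlinarith
      have hC13 : C1 ≤ C3 := by
        rw [hC3]
        have : 0 < C2 * 2 ^ A₁ := by positivity
        linarith
      calc C1 * (X / n) * Real.log X ^ (N - 1)
          ≤ C3 * (X * n ^ (-(3 / 4) : ℝ)) * Real.log X ^ (N - 1) := by
            refine mul_le_mul_of_nonneg_right ?_ (by positivity)
            exact mul_le_mul hC13 hXn2 hXn0.le hC3'.le
        _ = _ := by ring
    · refine (htriv X (X / n) (by linarith) hXn0 hXn _).trans ?_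
      have h14 : Real.log X ^ A₁ * n ^ (-(1 / 4) : ℝ) ≤ 1 := by
        have h5 : Real.log X ^ A₁ ≤ n ^ ((1 / 4 : ℝ)) := by
          have h6 : (Real.log X ^ (4 * A₁)) ^ ((1 / 4 : ℝ)) ≤ n ^ ((1 / 4 : ℝ)) :=
            Real.rpow_le_rpow (by positivity) hgt.le (by norm_num)
          refine le_trans (le_of_eq ?_) h6
          rw [← Real.rpow_natCast, ← Real.rpow_natCast, ← Real.rpow_mul (by linarith)]
          congr 1
          push_cast
          ring
        rw [Real.rpow_neg hn0.le]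
        exact mul_inv_le_one_of_le₀ h5 (by positivity)
      have h2l : (1 + Real.log X) ^ A₁ ≤ 2 ^ A₁ * Real.log X ^ A₁ := by
        rw [← mul_pow]
        exact pow_le_pow_left₀ (by linarith) (by linarith) _
      have hC23 : C2 * 2 ^ A₁ ≤ C3 := by
        rw [hC3]
        linarith
      calc C2 * (X / n) * (1 + Real.log X) ^ A₁
          ≤ C2 * (X / n) * (2 ^ A₁ * Real.log X ^ A₁) :=
            mul_le_mul_of_nonneg_left h2l (by positivity)
        _ = C2 * 2 ^ A₁ * (X * n ^ (-(3 / 4) : ℝ)) *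
              (Real.log X ^ A₁ * n ^ (-(1 / 4) : ℝ)) := by
            rw [div_eq_mul_one_div, hninv]
            ring
        _ ≤ C2 * 2 ^ A₁ * (X * n ^ (-(3 / 4) : ℝ)) * 1 :=
            mul_le_mul_of_nonneg_left h14 (by positivity)
        _ ≤ C3 * (X * n ^ (-(3 / 4) : ℝ)) * Real.log X ^ (N - 1) := by
            refine mul_le_mul ?_ hLN zero_le_one (by positivity)
            exact mul_le_mul_of_nonneg_right hC23 (by positivity)
        _ = _ := by ring
  calc (∏ i, (Nat.card (Fin m → ZMod p) : ℝ) ^ (e i).card) *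
        Sg D.toRD0 c (ak D.toRD0 c ε e) X (X / n)
      ≤ (∏ i, (Nat.card (Fin m → ZMod p) : ℝ) ^ (e i).card) *
        (C3 * X * Real.log X ^ (N - 1) * n ^ (-(3 / 4) : ℝ)) :=
        mul_le_mul_of_nonneg_left hmain hP0
    _ = _ := by ring

/-- the bad families -/
def blimBad (D : RD0 K p ζ) (e : Fin N → Finset (Pl K)) : Prop :=
  Dj e ∧ ∀ i, ∀ v ∈ e i, v ∉ D.S0 ∧ ¬ D.Gd v

/-- the majorant -/
def blimM (D : RD0 K p ζ) (m N : ℕ) (e : Fin N → Finset (Pl K)) : ℝ :=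
  if blimBad D e then
    ∏ i, ((Nat.card (Fin m → ZMod p) : ℝ) ^ (e i).card * nr (e i) ^ (-(3 / 4) : ℝ)) else 0

theorem blimM_nonneg (D : RD0 K p ζ) (m N : ℕ) (e : Fin N → Finset (Pl K)) :
    0 ≤ blimM D m N e := by
  unfold blimM
  split_ifs
  · refine Finset.prod_nonneg fun i _ => mul_nonneg (by positivity)
      (Real.rpow_nonneg (by linarith [one_le_nr (e i)]) _)
  · exact le_rfl

theorem blim_sum (D : RD0 K p ζ) (m N : ℕ) : ∃ C : ℝ, 0 < C ∧
    ∀ s : Finset (Fin N → Finset (Pl K)), ∑ e ∈ s, blimM D m N e ≤ C := by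
  obtain ⟨C, hC, hconv⟩ := atupb_conv D N (Nat.card (Fin m → ZMod p) : ℝ) (Nat.cast_nonneg _)
  refine ⟨C, hC, fun s => ?_⟩
  obtain ⟨X, hX⟩ : ∃ X : ℝ, ∀ e ∈ s, ∏ i, nr (e i) ≤ X := by
    refine ⟨∑ e ∈ s, ∏ i, nr (e i), fun e he => ?_⟩
    exact Finset.single_le_sum (f := fun e : Fin N → Finset (Pl K) => ∏ i, nr (e i))
      (fun e' _ => by linarith [atupb_one_le e']) he
  refine le_trans ?_ (hconv X)
  calc ∑ e ∈ s, blimM D m N e
      ≤ ∑ e ∈ Fintype.piFinset (fun _ : Fin N => AF K X),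
        (if atupbC D X e then
          ∏ i, ((Nat.card (Fin m → ZMod p) : ℝ) ^ (e i).card * nr (e i) ^ (-(3 / 4) : ℝ))
          else 0) := by
        have h1 : ∀ e ∈ s, blimM D m N e = (if atupbC D X e then
          ∏ i, ((Nat.card (Fin m → ZMod p) : ℝ) ^ (e i).card * nr (e i) ^ (-(3 / 4) : ℝ))
          else 0) := by
          intro e he
          unfold blimM
          by_cases hb : blimBad D e
          · rw [if_pos hb, if_pos (show atupbC D X e from ⟨hb.1, hb.2, hX e he⟩)]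
          · rw [if_neg hb, if_neg (fun h : atupbC D X e => hb ⟨h.1, h.2.1⟩)]
        rw [Finset.sum_congr rfl h1]
        refine Finset.sum_le_sum_of_subset_of_nonneg ?_ fun e _ _ => ?_
        · intro e he
          rw [Fintype.mem_piFinset]
          intro i
          rw [mem_AF]
          exact (atupa_le_prod e i).trans (hX e he)
        · split_ifs
          · refine Finset.prod_nonneg fun i _ => mul_nonneg (by positivity)
              (Real.rpow_nonneg (by linarith [one_le_nr (e i)]) _)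
          · exact le_rfl

theorem blim_inv [NeZero p] (D : RD0 K p ζ) (m : ℕ) (e : Fin N → Finset (Pl K))
    (he : blimBad D e) : (∏ i, nr (e i))⁻¹ ≤ blimM D m N e := by
  unfold blimM
  rw [if_pos he, ← Finset.prod_inv_distrib]
  refine Finset.prod_le_prod (fun i _ => inv_nonneg.2 (by linarith [one_le_nr (e i)]))
    fun i _ => ?_
  have h1 := one_le_nr (e i)
  have h2 : (1 : ℝ) ≤ (Nat.card (Fin m → ZMod p) : ℝ) ^ (e i).card := by
    refine one_le_pow₀ ?_
    have : 0 < Nat.card (Fin m → ZMod p) := Nat.card_pos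
    exact_mod_cast this
  have h3 : (nr (e i))⁻¹ ≤ nr (e i) ^ (-(3 / 4) : ℝ) := by
    rw [← Real.rpow_neg_one]
    exact Real.rpow_le_rpow_of_exponent_le h1 (by norm_num)
  have h4 : 0 ≤ nr (e i) ^ (-(3 / 4) : ℝ) := Real.rpow_nonneg (by linarith) _
  calc (nr (e i))⁻¹ ≤ nr (e i) ^ (-(3 / 4) : ℝ) := h3
    _ ≤ _ := le_mul_of_one_le_left h4 h2

theorem blim_u_nonneg (D : RD0 K p ζ) (N : ℕ) (E : Finset (Pl K)) (u : ℝ)
    (hu : Tendsto (fun y : ℝ => UN D N E y / (y * Real.log y ^ (N - 1))) atTop (𝓝 u)) :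
    0 ≤ u := by
  refine ge_of_tendsto hu ?_
  filter_upwards [eventually_ge_atTop (1 : ℝ)] with y hy
  have h1 := Real.log_nonneg hy
  unfold UN
  positivity

theorem an_gen [NeZero p] (hp : p.Prime) (hp2 : MOne p K) (hζ : IsPrimitiveRoot ζ p) (D : RD K p ζ)
    (c : CD p m N) (hN : 1 ≤ N) :
    ∃ C₁ : ℝ, 0 < C₁ ∧ ∀ ε : Fin m → Kˣ, (∀ k, TUnit D.S0 (ε k)) →
      ∀ H : (Fin m → Fin D.r → ZMod p) → ℝ, (∀ q, 0 ≤ H q ∧ H q ≤ 1) →
      ∀ Z : Finset (Pl K), (∀ v ∈ Z, D.Gd v) → ∀ (i₀ : Fin N) (u : ℝ),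
        Tendsto (fun y : ℝ => UN D.toRD0 N Z y / (y * Real.log y ^ (N - 1))) atTop (𝓝 u) →
        ∃ L : ℝ, 0 ≤ L ∧ L ≤ C₁ * u * ∏ v ∈ Z, (1 + ((N - 1 : ℕ) : ℝ) / nm v) ∧
          Tendsto (fun X : ℝ => MS D.toRD0 c ε Z i₀ H X / (X * Real.log X ^ (N - 1)))
            atTop (𝓝 L) := by
  obtain ⟨C4, hC4, hM⟩ := blim_sum D.toRD0 m N
  have hpm : 0 < ((p : ℝ) ^ m) ^ N := by
    have : 0 < (p : ℝ) := by exact_mod_cast hp.pos
    positivity
  refine ⟨((p : ℝ) ^ m) ^ N * C4, by positivity, fun ε hε H hH Z hZ i₀ u hu => ?_⟩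
  obtain ⟨C3, X₀, hC3, hX₀, hdom⟩ := blim_dom hp hp2 hζ D c
  have hu0 : 0 ≤ u := blim_u_nonneg D.toRD0 N Z u hu
  set Q : ℝ := ∏ v ∈ Z, (1 + ((N - 1 : ℕ) : ℝ) / nm v) with hQ
  have hQ0 : 0 ≤ Q := Finset.prod_nonneg fun v _ => by positivity
  -- the limits
  have hex : ∀ e : Fin N → Finset (Pl K), ∃ L : ℝ, blimBad D.toRD0 e →
      (0 ≤ L ∧ L ≤ (∏ i, nr (e i))⁻¹ * (u * ((p : ℝ) ^ m) ^ N * Q) ∧
      Tendsto (fun X : ℝ => FB D.toRD0 c ε e Z i₀ H X / (X * Real.log X ^ (N - 1)))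
        atTop (𝓝 L)) := by
    intro e
    by_cases he : blimBad D.toRD0 e
    · obtain ⟨L, h1, h2, h3⟩ := fb_lim hp hp2 hζ D c hN ε hε e he.1 he.2 Z hZ i₀ H hH u hu
      exact ⟨L, fun _ => ⟨h1, h2, h3⟩⟩
    · exact ⟨0, fun h => absurd h he⟩
  choose Lf hLf using hex
  set g : (Fin N → Finset (Pl K)) → ℝ := fun e => if blimBad D.toRD0 e then Lf e else 0 with hg
  set f : ℝ → (Fin N → Finset (Pl K)) → ℝ := fun X e =>
    if atupbC D.toRD0 X e then FB D.toRD0 c ε e Z i₀ H X / (X * Real.log X ^ (N - 1)) else 0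
    with hf
  have hMs : Summable (blimM D.toRD0 m N : (Fin N → Finset (Pl K)) → ℝ) :=
    summable_of_sum_le (blimM_nonneg D.toRD0 m N) hM
  have hMt : ∑' e, blimM D.toRD0 m N e ≤ C4 := hMs.tsum_le_of_sum_le hM
  have hg0 : ∀ e, 0 ≤ g e := by
    intro e
    rw [hg]
    dsimp only
    split_ifs with h
    · exact (hLf e h).1
    · exact le_rfl
  have hgM : ∀ e, g e ≤ (u * ((p : ℝ) ^ m) ^ N * Q) * blimM D.toRD0 m N e := by
    intro e
    by_cases h : blimBad D.toRD0 e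
    · have h1 : g e = Lf e := if_pos h
      rw [h1]
      refine (hLf e h).2.1.trans ?_
      rw [mul_comm]
      exact mul_le_mul_of_nonneg_left (blim_inv D.toRD0 m e h) (by positivity)
    · have h1 : g e = 0 := if_neg h
      rw [h1]
      exact mul_nonneg (by positivity) (blimM_nonneg D.toRD0 m N e)
  have hgs : Summable g := Summable.of_nonneg_of_le hg0 hgM (hMs.mul_left _)
  have hconv : ∀ e, Tendsto (fun X => f X e) atTop (𝓝 (g e)) := by
    intro e
    by_cases h : blimBad D.toRD0 e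
    · have h1 : g e = Lf e := if_pos h
      rw [h1]
      refine (hLf e h).2.2.congr' ?_
      filter_upwards [eventually_ge_atTop (∏ i, nr (e i))] with X hX
      exact (if_pos (show atupbC D.toRD0 X e from ⟨h.1, h.2, hX⟩)).symm
    · have h1 : g e = 0 := if_neg h
      rw [h1]
      refine tendsto_const_nhds.congr fun X => ?_
      exact (if_neg (fun h2 : atupbC D.toRD0 X e => h ⟨h2.1, h2.2.1⟩)).symm
  have hbound : ∀ᶠ X : ℝ in atTop, ∀ e, ‖f X e‖ ≤ C3 * blimM D.toRD0 m N e := by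
    filter_upwards [eventually_ge_atTop X₀] with X hX e
    have hX0 : 0 < X := by linarith
    have hlog : 0 < Real.log X := Real.log_pos (by linarith)
    have hXl : 0 < X * Real.log X ^ (N - 1) := by positivity
    by_cases hC : atupbC D.toRD0 X e
    · have h1 : f X e = FB D.toRD0 c ε e Z i₀ H X / (X * Real.log X ^ (N - 1)) := if_pos hC
      have h2 := fb_up D.toRD0 c ε e Z i₀ H hH X hC.1 hC.2.1
      have h3 := hdom X hX ε hε e hC
      have h4 : blimM D.toRD0 m N e = ∏ i, ((Nat.card (Fin m → ZMod p) : ℝ) ^ (e i).card *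
          nr (e i) ^ (-(3 / 4) : ℝ)) := if_pos (show blimBad D.toRD0 e from ⟨hC.1, hC.2.1⟩)
      rw [h1, h4, Real.norm_eq_abs, abs_of_nonneg (div_nonneg h2.1 hXl.le), div_le_iff₀ hXl]
      refine (h2.2.trans h3).trans (le_of_eq ?_)
      ring
    · have h1 : f X e = 0 := if_neg hC
      rw [h1, norm_zero]
      exact mul_nonneg hC3.le (blimM_nonneg D.toRD0 m N e)
  have hT : Tendsto (fun X => ∑' e, f X e) atTop (𝓝 (∑' e, g e)) :=
    tendsto_tsum_of_dominated_convergence (hMs.mul_left C3) hconv hbound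
  have hMS : ∀ X : ℝ, MS D.toRD0 c ε Z i₀ H X / (X * Real.log X ^ (N - 1)) = ∑' e, f X e := by
    intro X
    rw [ms_split hp D.toRD0 c ε hε Z hZ i₀ H X, Finset.sum_div,
      tsum_eq_sum (s := Fintype.piFinset (fun _ : Fin N => AF K X))]
    · refine Finset.sum_congr rfl fun e _ => ?_
      by_cases hC : atupbC D.toRD0 X e
      · have h1 : f X e = FB D.toRD0 c ε e Z i₀ H X / (X * Real.log X ^ (N - 1)) := if_pos hC
        rw [h1, if_pos hC]
      · have h1 : f X e = 0 := if_neg hC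
        rw [h1, if_neg hC, zero_div]
    · intro e he
      refine if_neg fun hC : atupbC D.toRD0 X e => he ?_
      rw [Fintype.mem_piFinset]
      intro i
      rw [mem_AF]
      exact (atupa_le_prod e i).trans hC.2.2
  refine ⟨∑' e, g e, tsum_nonneg hg0, ?_, hT.congr fun X => (hMS X).symm⟩
  calc ∑' e, g e ≤ ∑' e, (u * ((p : ℝ) ^ m) ^ N * Q) * blimM D.toRD0 m N e :=
        hgs.tsum_le_tsum hgM (hMs.mul_left _)
    _ = (u * ((p : ℝ) ^ m) ^ N * Q) * ∑' e, blimM D.toRD0 m N e := tsum_mul_left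
    _ ≤ (u * ((p : ℝ) ^ m) ^ N * Q) * C4 := mul_le_mul_of_nonneg_left hMt (by positivity)
    _ = _ := by ring

theorem blim_me_nonneg [NeZero p] (D : RD0 K p ζ) (c : CD p m N) (ε : Fin m → Kˣ)
    (i₀ : Fin N) (κ : Fin D.r → ZMod p) (X : ℝ) : 0 ≤ ME D c ε i₀ κ X := by
  unfold ME
  refine Finset.sum_nonneg fun f _ => ?_
  split_ifs
  · exact atupb_wt_nonneg _ _ _
  · exact le_rfl

theorem blim_me_le [NeZero p] (D : RD0 K p ζ) (c : CD p m N) (ε : Fin m → Kˣ)
    (i₀ : Fin N) (κ : Fin D.r → ZMod p) (Z : Finset (Pl K)) (hZ : ∀ v ∈ Z, dt κ (D.q v) ≠ 0)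
    (X : ℝ) : ME D c ε i₀ κ X ≤ MS D c ε Z i₀ (fun _ => 1) X := by
  unfold ME MS
  refine Finset.sum_le_sum fun f _ => ?_
  by_cases h : Dj f ∧ (∀ i, ∀ v ∈ f i, v ∉ D.S0) ∧ ∏ i, nr (f i) ≤ X ∧
        (∀ θ : Fin m → ZMod p, θ ≠ 0 → ¬ IsPow p (bp (ak D c ε f) θ)) ∧
        (∀ v ∈ f i₀, dt κ (D.q v) = 0)
  · have h2 : Dj f ∧ (∀ i, ∀ v ∈ f i, v ∉ D.S0) ∧ ∏ i, nr (f i) ≤ X ∧
        (∀ θ : Fin m → ZMod p, θ ≠ 0 → ¬ IsPow p (bp (ak D c ε f) θ)) ∧
        Disjoint (f i₀) Z := by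
      refine ⟨h.1, h.2.1, h.2.2.1, h.2.2.2.1, ?_⟩
      rw [Finset.disjoint_left]
      intro v hv hv'
      exact hZ v hv' (h.2.2.2.2 v hv)
    rw [if_pos h, if_pos h2, one_mul]
  · rw [if_neg h]
    split_ifs
    · rw [one_mul]
      exact atupb_wt_nonneg _ _ _
    · exact le_rfl

theorem an_exc [NeZero p] (hp : p.Prime) (hp2 : MOne p K) (hζ : IsPrimitiveRoot ζ p) (D : RD K p ζ)
    (c : CD p m N) (hN : 1 ≤ N) (ε : Fin m → Kˣ) (hε : ∀ k, TUnit D.S0 (ε k)) (i₀ : Fin N)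
    (κ : Fin D.r → ZMod p) (hκ : κ ≠ 0) :
    Tendsto (fun X : ℝ => ME D.toRD0 c ε i₀ κ X / (X * Real.log X ^ (N - 1)))
      atTop (𝓝 0) := by
  obtain ⟨C₁, hC₁, hgen⟩ := an_gen hp hp2 hζ D c hN
  obtain ⟨u, hu0, hu⟩ := un_lim D.toRD0 N hN ∅
  rw [tendsto_order]
  constructor
  · intro a ha
    filter_upwards [eventually_ge_atTop (1 : ℝ)] with X hX
    refine lt_of_lt_of_le ha ?_
    have h1 := Real.log_nonneg hX
    have h2 := blim_me_nonneg D.toRD0 c ε i₀ κ X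
    positivity
  · intro a ha
    have hδ : 0 < a / (2 * (C₁ * u + 1)) := by positivity
    obtain ⟨Z, hZ, hprod⟩ := div_prod hp hζ D N hN κ hκ _ hδ
    have hZG : ∀ v ∈ Z, D.Gd v := fun v hv => (hZ v hv).1
    obtain ⟨u', hu'0, hu'⟩ := un_lim D.toRD0 N hN Z
    have hrel := un_lim_rel D.toRD0 N hN Z hZG u u' hu hu'
    obtain ⟨L, hL0, hL1, hL2⟩ := hgen ε hε (fun _ => 1) (fun _ => ⟨zero_le_one, le_rfl⟩) Z hZG i₀
      u' hu'
    have hLa : L < a := by
      calc L ≤ C₁ * u' * ∏ v ∈ Z, (1 + ((N - 1 : ℕ) : ℝ) / nm v) := hL1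
        _ ≤ C₁ * u' * (a / (2 * (C₁ * u + 1)) * ∏ v ∈ Z, (1 + (N : ℝ) / nm v)) :=
            mul_le_mul_of_nonneg_left hprod (by positivity)
        _ = (C₁ * u) * (a / (2 * (C₁ * u + 1))) := by rw [hrel]; ring
        _ < a := by
            have h1 : 0 ≤ C₁ * u := by positivity
            rw [← mul_div_assoc, div_lt_iff₀ (by positivity)]
            nlinarith
    filter_upwards [hL2.eventually (gt_mem_nhds hLa), eventually_ge_atTop (1 : ℝ)] with X hX hX1
    refine lt_of_le_of_lt ?_ hX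
    have h1 := Real.log_nonneg hX1
    exact div_le_div_of_nonneg_right
      (blim_me_le D.toRD0 c ε i₀ κ Z (fun v hv => (hZ v hv).2) X) (by positivity)

end H63.MA
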