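import Pool.Agent.H63.MB.BUa
import Pool.Agent.H63.MA.ACntB
import Pool.Agent.H63.MA.ADivI

/-!
# MB-BUB: tuples of ideals prime to a finite set of primes

`TI K F N y` = number of `N`-tuples of nonzero ideals, not divisible by any `v ∈ F`, with product of norms `≤ y`.
* `ti_lim` (`N ≥ 1`): `TI K F N y / (y (log y)^{N-1})` converges. Induction on `N`: `N = 1`: `cnt_cop`. Step: singling out one ideal, `TI K F (N+1) y = ∑_{n ≤ y} a n TI K F N (y/n)` with `a n` the number of ideals of norm `n` prime to `F` (`Fin.consEquiv` or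
  `Fin.snoc`; a tuple with product of norms `≤ y` has all norms `≤ y`, and `TI K F N (y/n)` counts the tuples in `acG K F (y/n)`, the remaining ideals have norms `≤ y/n`); `(∑_{k ≤ n} a k)/n → κ ∏ (1 - 1/nm v)` by `cnt_cop`; apply `bu_conv` (`k = N-1`). The bound
  `|TI K F N y| ≤ C y (1 + log y)^{N-1}` for `y ≥ 1` follows from the convergence for `y ≥ y₀` and from monotonicity in `y` for `1 ≤ y ≤ y₀`.
* `ti_up`: `TI K F N y ≤ TI K ∅ N y ≤ C y (1 + log y)^{N-1}` with a constant independent of `F`.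
* `ti_mono`, `ti_nonneg`: clear. For `y < 1` there are no tuples (if `N ≥ 1`).
-/

set_option autoImplicit false

open scoped NumberField
open IsDedekindDomain Filter Topology
open scoped Classical

noncomputable section

namespace H63.MA

/-- tuples of ideals prime to `F` -/
def TI (K : Type) [Field K] [NumberField K] (F : Finset (Pl K)) (N : ℕ) (y : ℝ) : ℝ :=
  (((Fintype.piFinset fun _ : Fin N => acG K F y).filter fun I =>
    ∏ i, (Ideal.absNorm (I i) : ℝ) ≤ y).card : ℝ)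

/-- the set counted by `TI` -/
def bubT (K : Type) [Field K] [NumberField K] (F : Finset (Pl K)) (N : ℕ) (y : ℝ) :
    Finset (Fin N → Ideal (𝓞 K)) :=
  (Fintype.piFinset fun _ : Fin N => acG K F y).filter fun I =>
    ∏ i, (Ideal.absNorm (I i) : ℝ) ≤ y

theorem bub_memT {K : Type} [Field K] [NumberField K] {F : Finset (Pl K)} {N : ℕ} {y : ℝ}
    (hy : 0 ≤ y) {I : Fin N → Ideal (𝓞 K)} :
    I ∈ bubT K F N y ↔ (∀ i, I i ≠ ⊥ ∧ ∀ v ∈ F, ¬ v.asIdeal ∣ I i) ∧
      ∏ i, (Ideal.absNorm (I i) : ℝ) ≤ y := by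
  unfold bubT
  rw [Finset.mem_filter, Fintype.mem_piFinset]
  constructor
  · rintro ⟨h1, h2⟩
    refine ⟨fun i => ?_, h2⟩
    have h3 := h1 i
    rw [acG, Finset.mem_filter, mem_IN hy] at h3
    exact ⟨h3.1.2, h3.2⟩
  · rintro ⟨h1, h2⟩
    refine ⟨fun i => ?_, h2⟩
    rw [acG, Finset.mem_filter, mem_IN hy]
    exact ⟨⟨(adivi_single_le (fun j => (h1 j).1) i).trans h2, (h1 i).1⟩, (h1 i).2⟩

theorem bub_rec (K : Type) [Field K] [NumberField K] (F : Finset (Pl K)) (N : ℕ) {y : ℝ}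
    (hy : 0 ≤ y) : TI K F (N + 1) y =
      ∑ J ∈ acG K F y, TI K F N (y / (Ideal.absNorm J : ℝ)) := by
  have h : (bubT K F (N + 1) y).card =
      ∑ J ∈ acG K F y, (bubT K F N (y / (Ideal.absNorm J : ℝ))).card := by
    rw [← Finset.card_sigma]
    refine Finset.card_nbij'
      (fun f => (⟨f 0, Fin.tail f⟩ : Σ _ : Ideal (𝓞 K), Fin N → Ideal (𝓞 K)))
      (fun x => Fin.cons x.1 x.2) ?_ ?_ ?_ ?_
    · intro f hf
      rw [Finset.mem_coe] at hf ⊢
      obtain ⟨h1, h2⟩ := (bub_memT hy).1 hf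
      have h0 : (1 : ℝ) ≤ (Ideal.absNorm (f 0) : ℝ) := by
        exact_mod_cast adivi_norm_pos (h1 0).1
      have h00 : (0 : ℝ) < (Ideal.absNorm (f 0) : ℝ) := by linarith
      rw [Finset.mem_sigma]
      refine ⟨?_, ?_⟩
      · rw [acG, Finset.mem_filter, mem_IN hy]
        exact ⟨⟨(adivi_single_le (fun j => (h1 j).1) 0).trans h2, (h1 0).1⟩, (h1 0).2⟩
      · refine (bub_memT (div_nonneg hy h00.le)).2 ⟨fun i => h1 i.succ, ?_⟩
        rw [le_div_iff₀ h00]
        rw [Fin.prod_univ_succ] at h2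
        have : ∏ i : Fin N, (Ideal.absNorm (Fin.tail f i) : ℝ) =
          ∏ i : Fin N, (Ideal.absNorm (f i.succ) : ℝ) := rfl
        rw [this]
        linarith
    · rintro ⟨J, g⟩ hx
      rw [Finset.mem_coe] at hx ⊢
      rw [Finset.mem_sigma] at hx
      obtain ⟨hJ, hg⟩ := hx
      simp only at hJ hg
      rw [acG, Finset.mem_filter, mem_IN hy] at hJ
      have h0 : (1 : ℝ) ≤ (Ideal.absNorm J : ℝ) := by
        exact_mod_cast adivi_norm_pos hJ.1.2
      have h00 : (0 : ℝ) < (Ideal.absNorm J : ℝ) := by linarith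
      obtain ⟨h1, h2⟩ := (bub_memT (div_nonneg hy h00.le)).1 hg
      refine (bub_memT hy).2 ⟨?_, ?_⟩
      · intro i
        refine Fin.cases ?_ ?_ i
        · exact ⟨hJ.1.2, hJ.2⟩
        · intro j
          exact h1 j
      · rw [Fin.prod_univ_succ]
        simp only [Fin.cons_zero, Fin.cons_succ]
        rw [le_div_iff₀ h00] at h2
        linarith
    · intro f _
      exact Fin.cons_self_tail f
    · rintro ⟨J, g⟩ _
      simp
  have h' : ((bubT K F (N + 1) y).card : ℝ) =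
      ∑ J ∈ acG K F y, ((bubT K F N (y / (Ideal.absNorm J : ℝ))).card : ℝ) := by
    rw [h, Nat.cast_sum]
  exact h'

/-- the number of ideals of norm `n` prime to `F` -/
def buba (K : Type) [Field K] [NumberField K] (F : Finset (Pl K)) (n : ℕ) : ℝ :=
  (((acG K F (n : ℝ)).filter fun J => Ideal.absNorm J = n).card : ℝ)

theorem bub_group (K : Type) [Field K] [NumberField K] (F : Finset (Pl K)) {y : ℝ}
    (hy : 0 ≤ y) (g : ℕ → ℝ) : ∑ J ∈ acG K F y, g (Ideal.absNorm J) =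
      ∑ n ∈ Finset.Icc 1 ⌊y⌋₊, buba K F n * g n := by
  have hmap : ∀ J ∈ acG K F y, Ideal.absNorm J ∈ Finset.Icc 1 ⌊y⌋₊ := by
    intro J hJ
    rw [acG, Finset.mem_filter, mem_IN hy] at hJ
    exact Finset.mem_Icc.2 ⟨adivi_norm_pos hJ.1.2, Nat.le_floor hJ.1.1⟩
  rw [← Finset.sum_fiberwise_of_maps_to hmap]
  refine Finset.sum_congr rfl fun n hn => ?_
  rw [Finset.mem_Icc] at hn
  have hny : (n : ℝ) ≤ y := (Nat.le_floor_iff hy).1 hn.2
  have hset : ((acG K F y).filter fun J => Ideal.absNorm J = n) =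
      (acG K F (n : ℝ)).filter fun J => Ideal.absNorm J = n := by
    ext J
    rw [Finset.mem_filter, Finset.mem_filter, acG, acG, Finset.mem_filter, Finset.mem_filter,
      mem_IN hy, mem_IN (Nat.cast_nonneg n)]
    constructor
    · rintro ⟨⟨⟨h1, h2⟩, h3⟩, h4⟩
      exact ⟨⟨⟨by rw [h4], h2⟩, h3⟩, h4⟩
    · rintro ⟨⟨⟨h1, h2⟩, h3⟩, h4⟩
      exact ⟨⟨⟨by rw [h4]; exact hny, h2⟩, h3⟩, h4⟩
  rw [hset, Finset.sum_congr rfl (g := fun _ => g n)
    (fun J hJ => by rw [(Finset.mem_filter.1 hJ).2]), Finset.sum_const, nsmul_eq_mul]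
  rfl

theorem bub_card (K : Type) [Field K] [NumberField K] (F : Finset (Pl K)) (n : ℕ) :
    ∑ k ∈ Finset.Icc 1 n, buba K F k = ((acG K F (n : ℝ)).card : ℝ) := by
  have h := bub_group K F (y := (n : ℝ)) (Nat.cast_nonneg n) (fun _ => 1)
  rw [Nat.floor_natCast] at h
  simp only [mul_one, Finset.sum_const, nsmul_eq_mul] at h
  exact h.symm

theorem bub_lim1 (K : Type) [Field K] [NumberField K] (F : Finset (Pl K)) :
    ∃ α : ℝ, Tendsto (fun y : ℝ => ((acG K F y).card : ℝ) / y) atTop (𝓝 α) := by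
  obtain ⟨κ, δ, hκ, hδ, hδ1, hcop⟩ := cnt_cop K
  obtain ⟨C, hC, hcF⟩ := hcop F
  refine ⟨κ * ∏ v ∈ F, (1 - (nm v : ℝ)⁻¹), ?_⟩
  rw [tendsto_iff_norm_sub_tendsto_zero]
  have hz : Tendsto (fun y : ℝ => C * y ^ (-δ)) atTop (𝓝 0) := by
    have := (tendsto_rpow_neg_atTop hδ).const_mul C
    simpa using this
  refine squeeze_zero' (Eventually.of_forall fun y => norm_nonneg _) ?_ hz
  filter_upwards [eventually_ge_atTop (1 : ℝ)] with y hy
  have hy0 : 0 < y := by linarith
  have h1 := hcF y hy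
  have h3 : (((IN K y).filter fun I => ∀ v ∈ F, ¬ v.asIdeal ∣ I).card : ℝ) =
    ((acG K F y).card : ℝ) := rfl
  rw [h3] at h1
  have h4 : ((acG K F y).card : ℝ) / y - κ * ∏ v ∈ F, (1 - (nm v : ℝ)⁻¹) =
      (((acG K F y).card : ℝ) - κ * (∏ v ∈ F, (1 - (nm v : ℝ)⁻¹)) * y) / y := by
    field_simp
  rw [h4, Real.norm_eq_abs, abs_div, abs_of_pos hy0, div_le_iff₀ hy0]
  refine h1.trans (le_of_eq ?_)
  rw [sub_eq_add_neg, Real.rpow_add hy0, Real.rpow_one]
  ring

theorem bub_zero (K : Type) [Field K] [NumberField K] (F : Finset (Pl K)) {y : ℝ}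
    (hy : 1 ≤ y) : TI K F 0 y = 1 := by
  have h : bubT K F 0 y = {Fin.elim0} := by
    rw [Finset.eq_singleton_iff_unique_mem]
    refine ⟨(bub_memT (by linarith)).2 ⟨fun i => i.elim0, by simpa using hy⟩, ?_⟩
    intro f _
    exact Subsingleton.elim _ _
  have h2 : TI K F 0 y = ((bubT K F 0 y).card : ℝ) := rfl
  rw [h2, h]
  simp

theorem bub_one (K : Type) [Field K] [NumberField K] (F : Finset (Pl K)) {y : ℝ}
    (hy : 0 ≤ y) : TI K F 1 y = ((acG K F y).card : ℝ) := by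
  rw [bub_rec K F 0 hy, Finset.sum_congr rfl (g := fun _ => (1 : ℝ))]
  · simp
  · intro J hJ
    rw [acG, Finset.mem_filter, mem_IN hy] at hJ
    have h0 : (1 : ℝ) ≤ (Ideal.absNorm J : ℝ) := by
      exact_mod_cast adivi_norm_pos hJ.1.2
    refine bub_zero K F ?_
    rw [le_div_iff₀ (by linarith)]
    linarith [hJ.1.1]

theorem bub_mono (K : Type) [Field K] [NumberField K] (F : Finset (Pl K)) (N : ℕ) {y : ℝ}
    (hy : 0 ≤ y) : TI K F N y ≤ TI K ∅ N y := by
  have h : (bubT K F N y).card ≤ (bubT K ∅ N y).card := by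
    refine Finset.card_le_card fun I hI => ?_
    obtain ⟨h1, h2⟩ := (bub_memT hy).1 hI
    exact (bub_memT hy).2 ⟨fun i => ⟨(h1 i).1, fun v hv => absurd hv (Finset.notMem_empty v)⟩, h2⟩
  have h' : ((bubT K F N y).card : ℝ) ≤ ((bubT K ∅ N y).card : ℝ) := by exact_mod_cast h
  exact h'

theorem bub_acG_empty (K : Type) [Field K] [NumberField K] (y : ℝ) : acG K ∅ y = IN K y := by
  unfold acG
  rw [Finset.filter_eq_self]
  intro I _ v hv
  exact absurd hv (Finset.notMem_empty v)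

theorem bub_up0 (K : Type) [Field K] [NumberField K] (k : ℕ) :
    ∃ C : ℝ, 0 < C ∧ ∀ y : ℝ, 1 ≤ y →
      TI K ∅ (k + 1) y ≤ C * y * (1 + Real.log y) ^ k := by
  induction k with
  | zero =>
    obtain ⟨C, hC, h⟩ := adivi_card K
    refine ⟨C, hC, fun y hy => ?_⟩
    rw [bub_one K ∅ (by linarith), bub_acG_empty, pow_zero, mul_one]
    exact h y hy
  | succ k ih =>
    obtain ⟨C, hC, h⟩ := ih
    obtain ⟨D, hD, hharm⟩ := adivi_harm K
    refine ⟨C * D, by positivity, fun y hy => ?_⟩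
    have hy0 : 0 < y := by linarith
    have hl : 0 ≤ Real.log y := Real.log_nonneg hy
    rw [bub_rec K ∅ (k + 1) hy0.le, bub_acG_empty]
    calc ∑ J ∈ IN K y, TI K ∅ (k + 1) (y / (Ideal.absNorm J : ℝ))
        ≤ ∑ J ∈ IN K y, (C * y * (1 + Real.log y) ^ k) * (1 / (Ideal.absNorm J : ℝ)) := by
          refine Finset.sum_le_sum fun J hJ => ?_
          rw [mem_IN hy0.le] at hJ
          have h0 : (1 : ℝ) ≤ (Ideal.absNorm J : ℝ) := by
            exact_mod_cast adivi_norm_pos hJ.2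
          have h00 : (0 : ℝ) < (Ideal.absNorm J : ℝ) := by linarith
          have h1 : 1 ≤ y / (Ideal.absNorm J : ℝ) := by
            rw [le_div_iff₀ h00]
            linarith [hJ.1]
          refine (h _ h1).trans ?_
          have h2 : Real.log (y / (Ideal.absNorm J : ℝ)) ≤ Real.log y :=
            Real.log_le_log (by linarith) (div_le_self hy0.le h0)
          have h3 : 0 ≤ Real.log (y / (Ideal.absNorm J : ℝ)) := Real.log_nonneg h1
          have h4 : (1 + Real.log (y / (Ideal.absNorm J : ℝ))) ^ k ≤ (1 + Real.log y) ^ k :=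
            pow_le_pow_left₀ (by linarith) (by linarith) k
          calc C * (y / (Ideal.absNorm J : ℝ)) * (1 + Real.log (y / (Ideal.absNorm J : ℝ))) ^ k
              ≤ C * (y / (Ideal.absNorm J : ℝ)) * (1 + Real.log y) ^ k :=
                mul_le_mul_of_nonneg_left h4 (by positivity)
            _ = _ := by ring
      _ = (C * y * (1 + Real.log y) ^ k) * ∑ J ∈ IN K y, 1 / (Ideal.absNorm J : ℝ) := by
          rw [Finset.mul_sum]
      _ ≤ (C * y * (1 + Real.log y) ^ k) * (D * (1 + Real.log y)) :=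
          mul_le_mul_of_nonneg_left (hharm y hy) (by positivity)
      _ = C * D * y * (1 + Real.log y) ^ (k + 1) := by ring

theorem ti_up (K : Type) [Field K] [NumberField K] (N : ℕ) (hN : 1 ≤ N) :
    ∃ C : ℝ, 0 < C ∧ ∀ (F : Finset (Pl K)) (y : ℝ), 1 ≤ y →
      TI K F N y ≤ C * y * (1 + Real.log y) ^ (N - 1) := by
  obtain ⟨k, rfl⟩ : ∃ k, N = k + 1 := ⟨N - 1, by omega⟩
  obtain ⟨C, hC, h⟩ := bub_up0 K k
  exact ⟨C, hC, fun F y hy => (bub_mono K F (k + 1) (by linarith)).trans (h y hy)⟩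

theorem bub_nonneg (K : Type) [Field K] [NumberField K] (F : Finset (Pl K)) (N : ℕ) (y : ℝ) :
    0 ≤ TI K F N y := Nat.cast_nonneg _

theorem bub_lim (K : Type) [Field K] [NumberField K] (F : Finset (Pl K)) (k : ℕ) :
    ∃ τ : ℝ, Tendsto (fun y : ℝ => TI K F (k + 1) y / (y * Real.log y ^ k)) atTop (𝓝 τ) := by
  obtain ⟨α, hα⟩ := bub_lim1 K F
  induction k with
  | zero =>
    refine ⟨α, hα.congr' ?_⟩
    filter_upwards [eventually_ge_atTop (0 : ℝ)] with y hy
    rw [bub_one K F hy, pow_zero, mul_one]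
  | succ k ih =>
    obtain ⟨β, hβ⟩ := ih
    obtain ⟨C, hC, hup⟩ := ti_up K (k + 1) (by omega)
    have hαn : Tendsto (fun n : ℕ => (∑ j ∈ Finset.Icc 1 n, buba K F j) / (n : ℝ)) atTop
        (𝓝 α) := by
      have := hα.comp tendsto_natCast_atTop_atTop
      refine this.congr fun n => ?_
      simp only [Function.comp]
      rw [bub_card]
    have h := bu_conv (buba K F) (fun n => Nat.cast_nonneg _) α hαn k
      (fun y => TI K F (k + 1) y) β C hβ (fun y hy => by
        rw [abs_of_nonneg (bub_nonneg K F (k + 1) y)]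
        have := hup F y hy
        simpa using this)
    refine ⟨α * β / (k + 1), h.congr' ?_⟩
    filter_upwards [eventually_ge_atTop (0 : ℝ)] with y hy
    rw [bub_rec K F (k + 1) hy, ← bub_group K F hy (fun n => TI K F (k + 1) (y / (n : ℝ)))]

theorem ti_lim (K : Type) [Field K] [NumberField K] (F : Finset (Pl K)) (N : ℕ) (hN : 1 ≤ N) :
    ∃ τ : ℝ, Tendsto (fun y : ℝ => TI K F N y / (y * Real.log y ^ (N - 1))) atTop (𝓝 τ) := by
  obtain ⟨k, rfl⟩ : ∃ k, N = k + 1 := ⟨N - 1, by omega⟩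
  exact bub_lim K F k

end H63.MA
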