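import Pool.Agent.H63.MB.BUb
import Pool.Agent.H63.MB.BDef

/-!
# MB-BUC: tuples of ideals and disjoint tuples of sets of good primes

`un_ti` (`N ≥ 1`): there is `C` such that for `T ≥ 1` and every finite set `F` of primes which contains `S0` and all primes of norm `≤ T`: `|UN D N F y - TI K F N y| ≤ C T^{-1/4} y (1 + log y)^{N-1}`, `y ≥ 1`.
Proof. `n ↦ (idl (n i))_i` maps the tuples counted by `UN D N F y` injectively (`idl_inj`, `idl_norm`) to tuples counted by `TI K F N y` (`alem_dvd` / `asq_mem`: `v ∣ idl n` iff `v ∈ n`). A tuple `I` counted by `TI` which is not in the image has a prime `v ∉ F`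
(so `nm v > T`, `v ∉ S0`) such that either `v` is not of prime norm and `v ∣ I i` for some `i`, or `v² ∣ I i` for some `i`, or `v ∣ I i` and `v ∣ I j` for some `i ≠ j` (otherwise every `I i` is `idl` of the set of its prime divisors, see `asq_bij`; these sets consist of good primes and are
pairwise disjoint). For given `v, i`: dividing `I i` by `v` gives an injective map to the tuples counted by `TI K ∅ N (y / nm v)`; in the other two cases to `TI K ∅ N (y / (nm v)²)`. By `ti_up` (`0` if the argument is `< 1`) the number of the exceptions is at most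
`∑_{v ∉ F, nm v not prime, nm v ≤ y} N C y (1 + log y)^{N-1} / nm v + ∑_{v ∉ F, (nm v)² ≤ y} 2 N² C y (1 + log y)^{N-1} / (nm v)²`, and `1/nm v ≤ T^{-1/4} (nm v)^{-3/4}`, `1/(nm v)² ≤ T^{-1/2} (nm v)^{-3/2}` for `nm v > T`; use `deg_summable` (`σ = 3/4`) and `pz_summable` (`s = 3/2`).
(Compare `acntb_exc`, `acntb_one` in `MA/ACntB` and `acntc_bad` in `MA/ACntC`.)
-/

set_option autoImplicit false

open scoped NumberField
open IsDedekindDomain Filter Topology
open scoped Classical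

noncomputable section

namespace H63.MA

variable {K : Type} [Field K] [NumberField K] {p : ℕ} {ζ : K}

/-- the tuples counted by `TI` -/
def bucB (K : Type) [Field K] [NumberField K] (F : Finset (Pl K)) (N : ℕ) (y : ℝ) :
    Finset (Fin N → Ideal (𝓞 K)) :=
  (Fintype.piFinset fun _ : Fin N => acG K F y).filter fun I =>
    ∏ i, (Ideal.absNorm (I i) : ℝ) ≤ y

theorem buc_mem {F : Finset (Pl K)} {N : ℕ} {y : ℝ} (hy : 0 ≤ y) {I : Fin N → Ideal (𝓞 K)} :
    I ∈ bucB K F N y ↔ (∀ i, I i ≠ ⊥ ∧ ∀ v ∈ F, ¬ v.asIdeal ∣ I i) ∧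
      ∏ i, (Ideal.absNorm (I i) : ℝ) ≤ y := by
  unfold bucB
  rw [Finset.mem_filter, Fintype.mem_piFinset]
  constructor
  · rintro ⟨h1, h2⟩
    refine ⟨fun i => ?_, h2⟩
    have := h1 i
    rw [acG, Finset.mem_filter, mem_IN hy] at this
    exact ⟨this.1.2, this.2⟩
  · rintro ⟨h1, h2⟩
    refine ⟨fun i => ?_, h2⟩
    rw [acG, Finset.mem_filter, mem_IN hy]
    refine ⟨⟨?_, (h1 i).1⟩, (h1 i).2⟩
    refine le_trans ?_ h2
    rw [← Finset.mul_prod_erase Finset.univ _ (Finset.mem_univ i)]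
    have h3 : (1 : ℝ) ≤ ∏ j ∈ Finset.univ.erase i, (Ideal.absNorm (I j) : ℝ) := by
      have : ∏ j ∈ Finset.univ.erase i, (1 : ℝ) ≤
          ∏ j ∈ Finset.univ.erase i, (Ideal.absNorm (I j) : ℝ) :=
        Finset.prod_le_prod (fun _ _ => zero_le_one) fun j _ => asq_norm_pos (h1 j).1
      rwa [Finset.prod_const_one] at this
    exact le_mul_of_one_le_right (Nat.cast_nonneg _) h3

theorem buc_lt {F : Finset (Pl K)} {N : ℕ} {y : ℝ} (hy : 0 ≤ y) (hy1 : y < 1) :
    bucB K F N y = ∅ := by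
  rw [Finset.eq_empty_iff_forall_notMem]
  intro I hI
  rw [buc_mem hy] at hI
  have : (1 : ℝ) ≤ ∏ i, (Ideal.absNorm (I i) : ℝ) := by
    have h : ∏ i : Fin N, (1 : ℝ) ≤ ∏ i, (Ideal.absNorm (I i) : ℝ) :=
      Finset.prod_le_prod (fun _ _ => zero_le_one) fun j _ => asq_norm_pos (hI.1 j).1
    rwa [Finset.prod_const_one] at h
  linarith [hI.2]

theorem buc_dvd (F : Finset (Pl K)) (N : ℕ) {y : ℝ} (hy : 0 ≤ y) (J : Fin N → Ideal (𝓞 K))
    (hJ : ∀ i, J i ≠ ⊥) :
    ((bucB K F N y).filter fun I => ∀ i, J i ∣ I i).card ≤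
      (bucB K ∅ N (y / ∏ i, (Ideal.absNorm (J i) : ℝ))).card := by
  set M : ℝ := ∏ i, (Ideal.absNorm (J i) : ℝ) with hM
  have hM1 : (1 : ℝ) ≤ M := by
    have h : ∏ i : Fin N, (1 : ℝ) ≤ ∏ i, (Ideal.absNorm (J i) : ℝ) :=
      Finset.prod_le_prod (fun _ _ => zero_le_one) fun j _ => asq_norm_pos (hJ j)
    rwa [Finset.prod_const_one] at h
  have hM0 : 0 < M := by linarith
  have hy' : 0 ≤ y / M := by positivity
  have hsub : (bucB K F N y).filter (fun I => ∀ i, J i ∣ I i) ⊆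
      (bucB K ∅ N (y / M)).image (fun L i => J i * L i) := by
    intro I hI
    rw [Finset.mem_filter, buc_mem hy] at hI
    obtain ⟨⟨h1, h2⟩, h3⟩ := hI
    choose L hL using h3
    rw [Finset.mem_image]
    refine ⟨L, ?_, funext fun i => (hL i).symm⟩
    rw [buc_mem hy']
    refine ⟨fun i => ⟨?_, fun v hv => absurd hv (Finset.notMem_empty v)⟩, ?_⟩
    · intro h
      apply (h1 i).1
      rw [hL i, h, Ideal.mul_bot]
    · rw [le_div_iff₀ hM0, hM, ← Finset.prod_mul_distrib]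
      refine le_trans (le_of_eq ?_) h2
      refine Finset.prod_congr rfl fun i _ => ?_
      rw [hL i, map_mul, Nat.cast_mul, mul_comm]
  exact (Finset.card_le_card hsub).trans Finset.card_image_le

theorem buc_up (K : Type) [Field K] [NumberField K] (N : ℕ) (hN : 1 ≤ N) :
    ∃ C : ℝ, 0 < C ∧ ∀ y M : ℝ, 1 ≤ y → 1 ≤ M →
      ((bucB K ∅ N (y / M)).card : ℝ) ≤ C * y * (1 + Real.log y) ^ (N - 1) * M⁻¹ := by
  obtain ⟨C, hC, h⟩ := ti_up K N hN
  refine ⟨C, hC, fun y M hy hM => ?_⟩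
  have hy0 : 0 < y := by linarith
  have hM0 : 0 < M := by linarith
  have hlog : 0 ≤ Real.log y := Real.log_nonneg hy
  by_cases h1 : 1 ≤ y / M
  · have h2 := h ∅ (y / M) h1
    have h3 : TI K ∅ N (y / M) = ((bucB K ∅ N (y / M)).card : ℝ) := rfl
    rw [h3] at h2
    refine h2.trans ?_
    have h4 : Real.log (y / M) ≤ Real.log y := by
      apply Real.log_le_log (by positivity)
      exact div_le_self hy0.le hM
    have h5 : 0 ≤ Real.log (y / M) := Real.log_nonneg h1
    have h6 : (1 + Real.log (y / M)) ^ (N - 1) ≤ (1 + Real.log y) ^ (N - 1) :=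
      pow_le_pow_left₀ (by linarith) (by linarith) _
    calc C * (y / M) * (1 + Real.log (y / M)) ^ (N - 1)
        ≤ C * (y / M) * (1 + Real.log y) ^ (N - 1) :=
          mul_le_mul_of_nonneg_left h6 (by positivity)
      _ = _ := by rw [div_eq_mul_inv]; ring
  · rw [buc_lt (by positivity) (not_le.1 h1), Finset.card_empty, Nat.cast_zero]
    positivity

theorem buc_ex (D : RD0 K p ζ) (F : Finset (Pl K)) {y : ℝ} (hy : 1 ≤ y) {I : Ideal (𝓞 K)}
    (hI : I ∈ IN K y) (h : ∀ v : Pl K, ¬ v.asIdeal ^ asq_e D F v ∣ I) :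
    ∃ n ∈ GF D y, Disjoint n F ∧ idl n = I := by
  by_contra hcon
  push Not at hcon
  have h1 := asq_bij D F y hy (fun J => if J = I then (1 : ℂ) else 0)
  have h2 : ∑ n ∈ (GF D y).filter (fun n => Disjoint n F),
      (fun J => if J = I then (1 : ℂ) else 0) (idl n) = 0 := by
    refine Finset.sum_eq_zero fun n hn => ?_
    rw [Finset.mem_filter] at hn
    exact if_neg (hcon n hn.1 hn.2)
  rw [h2, Finset.sum_ite_eq', if_pos (Finset.mem_filter.2 ⟨hI, h⟩)] at h1
  exact zero_ne_one h1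

/-- the pair divisor -/
def bucJ {N : ℕ} (v : Pl K) (i j : Fin N) (k : Fin N) : Ideal (𝓞 K) :=
  (if k = i then v.asIdeal else 1) * (if k = j then v.asIdeal else 1)

/-- the single divisor -/
def bucI {N : ℕ} (v : Pl K) (i : Fin N) (k : Fin N) : Ideal (𝓞 K) :=
  if k = i then v.asIdeal else 1

theorem bucI_ne {N : ℕ} (v : Pl K) (i k : Fin N) : bucI v i k ≠ ⊥ := by
  unfold bucI
  split_ifs
  · exact v.ne_bot
  · rw [Ideal.one_eq_top]
    exact top_ne_bot

theorem bucJ_ne {N : ℕ} (v : Pl K) (i j k : Fin N) : bucJ v i j k ≠ ⊥ := by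
  have h : bucJ v i j k = bucI v i k * bucI v j k := rfl
  rw [h, Ne, Ideal.mul_eq_bot, not_or]
  exact ⟨bucI_ne v i k, bucI_ne v j k⟩

theorem bucI_prod {N : ℕ} (v : Pl K) (i : Fin N) :
    ∏ k, (Ideal.absNorm (bucI v i k) : ℝ) = (nm v : ℝ) := by
  have : ∀ k, (Ideal.absNorm (bucI v i k) : ℝ) = if k = i then (nm v : ℝ) else 1 := by
    intro k
    unfold bucI
    split_ifs
    · rfl
    · rw [map_one, Nat.cast_one]
  simp only [this]
  rw [Finset.prod_ite_eq', if_pos (Finset.mem_univ i)]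

theorem bucJ_prod {N : ℕ} (v : Pl K) (i j : Fin N) :
    ∏ k, (Ideal.absNorm (bucJ v i j k) : ℝ) = (nm v : ℝ) ^ 2 := by
  have : ∀ k, (Ideal.absNorm (bucJ v i j k) : ℝ) =
      (Ideal.absNorm (bucI v i k) : ℝ) * (Ideal.absNorm (bucI v j k) : ℝ) := by
    intro k
    have h : bucJ v i j k = bucI v i k * bucI v j k := rfl
    rw [h, map_mul, Nat.cast_mul]
  simp only [this]
  rw [Finset.prod_mul_distrib, bucI_prod, bucI_prod, pow_two]

theorem buc_nm {I : Ideal (𝓞 K)} (hI : I ≠ ⊥) {y : ℝ} (hIy : (Ideal.absNorm I : ℝ) ≤ y)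
    {v : Pl K} (hv : v.asIdeal ∣ I) : (nm v : ℝ) ≤ y := by
  have h1 : nm v ∣ Ideal.absNorm I := map_dvd (Ideal.absNorm (S := 𝓞 K)) hv
  have h2 : Ideal.absNorm I ≠ 0 := by
    rw [Ne, Ideal.absNorm_eq_zero_iff]
    exact hI
  have h3 : nm v ≤ Ideal.absNorm I := Nat.le_of_dvd (Nat.pos_of_ne_zero h2) h1
  have h4 : (nm v : ℝ) ≤ (Ideal.absNorm I : ℝ) := by exact_mod_cast h3
  exact h4.trans hIy

theorem un_ti (D : RD0 K p ζ) (N : ℕ) (hN : 1 ≤ N) :
    ∃ C : ℝ, 0 < C ∧ ∀ (T : ℝ), 1 ≤ T → ∀ F : Finset (Pl K), (∀ v ∈ D.S0, v ∈ F) →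
      (∀ v : Pl K, (nm v : ℝ) ≤ T → v ∈ F) → ∀ y : ℝ, 1 ≤ y →
        |UN D N F y - TI K F N y| ≤
          C * T ^ (-(1 / 4) : ℝ) * y * (1 + Real.log y) ^ (N - 1) := by
  obtain ⟨C0, hC0, hup⟩ := buc_up K N hN
  have hs3 := deg_summable K (σ := 3 / 4) (by norm_num)
  have hs4 := pz_summable K (s := 3 / 2) (by norm_num)
  set S1 : ℝ := ∑' v : Pl K, Set.indicator {v : Pl K | ¬ (nm v).Prime}
    (fun v => (nm v : ℝ) ^ (-(3 / 4 : ℝ))) v with hS1
  set S2 : ℝ := ∑' v : Pl K, (nm v : ℝ) ^ (-(3 / 2 : ℝ)) with hS2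
  have hS10 : 0 ≤ S1 := tsum_nonneg fun v => Set.indicator_nonneg (fun v _ => pzb_nonneg v _) v
  have hS20 : 0 ≤ S2 := tsum_nonneg fun v => pzb_nonneg v _
  refine ⟨C0 * (N * S1 + (N : ℝ) ^ 2 * S2) + 1, by positivity,
    fun T hT F hF0 hFT y hy => ?_⟩
  have hy0 : 0 < y := by linarith
  have hT0 : 0 < T := by linarith
  have hlog : 0 ≤ Real.log y := Real.log_nonneg hy
  set Lg : ℝ := (1 + Real.log y) ^ (N - 1) with hLg
  have hLg0 : 0 ≤ Lg := by positivity
  have hn1 : ∀ v : Pl K, (1 : ℝ) ≤ nm v := fun v => by exact_mod_cast (one_lt_nm v).le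
  have hn0 : ∀ v : Pl K, (0 : ℝ) < nm v := fun v => lt_of_lt_of_le one_pos (hn1 v)
  have hT1 : ∀ v, v ∉ F → T < (nm v : ℝ) := by
    intro v hv
    by_contra hcon
    exact hv (hFT v (not_lt.1 hcon))
  -- the sets
  set A : Finset (Fin N → Finset (Pl K)) := (Fintype.piFinset fun _ : Fin N => GF D y).filter
    fun n => Dj n ∧ (∀ i, Disjoint (n i) F) ∧ ∏ i, nr (n i) ≤ y with hA
  have hUN : UN D N F y = (A.card : ℝ) := rfl
  have hTI : TI K F N y = ((bucB K F N y).card : ℝ) := rfl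
  set Φ : (Fin N → Finset (Pl K)) → (Fin N → Ideal (𝓞 K)) := fun n i => idl (n i) with hΦ
  have hΦinj : Function.Injective Φ := by
    intro n n' h
    funext i
    exact idl_inj (congrFun h i)
  have hAB : A.image Φ ⊆ bucB K F N y := by
    intro I hI
    rw [Finset.mem_image] at hI
    obtain ⟨n, hn, rfl⟩ := hI
    rw [hA, Finset.mem_filter, Fintype.mem_piFinset] at hn
    obtain ⟨h1, h2, h3, h4⟩ := hn
    rw [buc_mem hy0.le]
    refine ⟨fun i => ⟨idl_ne _, fun v hv hd => ?_⟩, ?_⟩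
    · exact Finset.disjoint_left.1 (h3 i) (asq_mem.1 hd) hv
    · simp only [hΦ, idl_norm]
      exact h4
  -- the exceptions
  set V1 : Finset (Pl K) := (acntb_fin K y).toFinset.filter
    (fun v => v ∉ F ∧ ¬ (nm v).Prime) with hV1
  set V2 : Finset (Pl K) := (acntb_fin K y).toFinset.filter (fun v => v ∉ F) with hV2
  set E1 : Finset (Fin N → Ideal (𝓞 K)) := (V1 ×ˢ (Finset.univ : Finset (Fin N))).biUnion
    fun q => (bucB K F N y).filter fun I => ∀ k, bucI q.1 q.2 k ∣ I k with hE1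
  set E2 : Finset (Fin N → Ideal (𝓞 K)) :=
    (V2 ×ˢ (Finset.univ : Finset (Fin N × Fin N))).biUnion
    fun q => (bucB K F N y).filter fun I => ∀ k, bucJ q.1 q.2.1 q.2.2 k ∣ I k with hE2
  have hsub : bucB K F N y \ A.image Φ ⊆ E1 ∪ E2 := by
    intro I hI
    rw [Finset.mem_sdiff] at hI
    obtain ⟨hIB, hIA⟩ := hI
    by_contra hcon
    rw [Finset.mem_union, not_or] at hcon
    obtain ⟨hc1, hc2⟩ := hcon
    have hIB' := (buc_mem hy0.le).1 hIB
    have hIG : ∀ i, I i ∈ acG K F y := by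
      have := hIB
      unfold bucB at this
      rw [Finset.mem_filter, Fintype.mem_piFinset] at this
      exact this.1
    have hIN : ∀ i, I i ∈ IN K y := fun i => (Finset.mem_filter.1 (hIG i)).1
    have hnm : ∀ i (v : Pl K), v.asIdeal ∣ I i → (nm v : ℝ) ≤ y := fun i v hv =>
      buc_nm (hIB'.1 i).1 ((mem_IN hy0.le).1 (hIN i)).1 hv
    have hno1 : ∀ v ∈ V1, ∀ i, ¬ v.asIdeal ∣ I i := by
      intro v hv i hd
      apply hc1
      rw [hE1, Finset.mem_biUnion]
      refine ⟨(v, i), Finset.mem_product.2 ⟨hv, Finset.mem_univ _⟩, ?_⟩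
      rw [Finset.mem_filter]
      refine ⟨hIB, fun k => ?_⟩
      show bucI v i k ∣ I k
      unfold bucI
      split_ifs with hk
      · rw [hk]
        exact hd
      · exact one_dvd _
    have hno2 : ∀ v ∈ V2, ∀ i j, (∀ k, bucJ v i j k ∣ I k) → False := by
      intro v hv i j hd
      apply hc2
      rw [hE2, Finset.mem_biUnion]
      exact ⟨(v, (i, j)), Finset.mem_product.2 ⟨hv, Finset.mem_univ _⟩,
        Finset.mem_filter.2 ⟨hIB, hd⟩⟩
    have hex : ∀ i, ∃ n ∈ GF D y, Disjoint n F ∧ idl n = I i := by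
      intro i
      apply buc_ex D F hy (hIN i)
      intro v hv
      by_cases hvF : v ∈ F
      · have he : asq_e D F v = 1 := by
          unfold asq_e
          rw [if_pos (Or.inl hvF)]
        rw [he, pow_one] at hv
        exact (hIB'.1 i).2 v hvF hv
      · by_cases hg : D.Gd v
        · have he : asq_e D F v = 2 := by
            unfold asq_e
            rw [if_neg]
            rintro (h | h)
            · exact hvF h
            · exact h hg
          rw [he] at hv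
          have hv1 : v.asIdeal ∣ I i := (dvd_pow_self _ two_ne_zero).trans hv
          refine hno2 v (Finset.mem_filter.2 ⟨?_, hvF⟩) i i fun k => ?_
          · rw [Set.Finite.mem_toFinset]
            exact hnm i v hv1
          · unfold bucJ
            split_ifs with hk
            · rw [hk, ← pow_two]
              exact hv
            · rw [one_mul]
              exact one_dvd _
        · have he : asq_e D F v = 1 := by
            unfold asq_e
            rw [if_pos (Or.inr hg)]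
          rw [he, pow_one] at hv
          have hnp : ¬ (nm v).Prime := by
            intro hpr
            apply hg
            exact ⟨fun hS => hvF (hF0 v hS), hpr⟩
          refine hno1 v (Finset.mem_filter.2 ⟨?_, hvF, hnp⟩) i hv
          rw [Set.Finite.mem_toFinset]
          exact hnm i v hv
    choose n hnG hnF hnI using hex
    apply hIA
    rw [Finset.mem_image]
    refine ⟨n, ?_, funext hnI⟩
    rw [hA, Finset.mem_filter, Fintype.mem_piFinset]
    refine ⟨hnG, ?_, hnF, ?_⟩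
    · intro i j hij
      rw [Finset.disjoint_left]
      intro v hvi hvj
      have hvF : v ∉ F := Finset.disjoint_left.1 (hnF i) hvi
      have hdi : v.asIdeal ∣ I i := by rw [← hnI i]; exact asq_mem.2 hvi
      have hdj : v.asIdeal ∣ I j := by rw [← hnI j]; exact asq_mem.2 hvj
      refine hno2 v (Finset.mem_filter.2 ⟨?_, hvF⟩) i j fun k => ?_
      · rw [Set.Finite.mem_toFinset]
        exact hnm i v hdi
      · unfold bucJ
        by_cases hki : k = i
        · rw [if_pos hki, if_neg (fun h => hij (hki.symm.trans h)), mul_one, hki]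
          exact hdi
        · rw [if_neg hki, one_mul]
          split_ifs with hkj
          · rw [hkj]
            exact hdj
          · exact one_dvd _
    · have : ∏ i, nr (n i) = ∏ i, (Ideal.absNorm (I i) : ℝ) := by
        refine Finset.prod_congr rfl fun i _ => ?_
        rw [← hnI i, idl_norm]
      rw [this]
      exact hIB'.2
  -- the numbers
  have hcard1 : (E1.card : ℝ) ≤ C0 * (N * S1) * T ^ (-(1 / 4) : ℝ) * y * Lg := by
    have h1 : (E1.card : ℝ) ≤ ∑ q ∈ V1 ×ˢ (Finset.univ : Finset (Fin N)),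
        C0 * y * Lg * (nm q.1 : ℝ)⁻¹ := by
      have h2 : (E1.card : ℝ) ≤ ∑ q ∈ V1 ×ˢ (Finset.univ : Finset (Fin N)),
          (((bucB K F N y).filter fun I => ∀ k, bucI q.1 q.2 k ∣ I k).card : ℝ) := by
        exact_mod_cast Finset.card_biUnion_le
      refine h2.trans (Finset.sum_le_sum fun q _ => ?_)
      have h3 := buc_dvd F N hy0.le (bucI q.1 q.2) (bucI_ne q.1 q.2)
      rw [bucI_prod] at h3
      refine le_trans ?_ (hup y (nm q.1) hy (hn1 q.1))
      exact_mod_cast h3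
    rw [Finset.sum_product] at h1
    simp only [Finset.sum_const, Finset.card_univ, Fintype.card_fin, nsmul_eq_mul] at h1
    refine h1.trans ?_
    rw [← Finset.mul_sum, ← Finset.mul_sum]
    have h4 : ∑ v ∈ V1, (nm v : ℝ)⁻¹ ≤ T ^ (-(1 / 4) : ℝ) * S1 := by
      have h5 := hs3.sum_le_tsum V1
        (fun v _ => Set.indicator_nonneg (fun v _ => pzb_nonneg v _) v)
      refine le_trans ?_ (mul_le_mul_of_nonneg_left h5 (Real.rpow_nonneg hT0.le _))
      rw [Finset.mul_sum]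
      refine Finset.sum_le_sum fun v hv => ?_
      have hv' := (Finset.mem_filter.1 hv).2
      rw [Set.indicator_of_mem (show v ∈ {v : Pl K | ¬ (nm v).Prime} from hv'.2)]
      have h6 : (nm v : ℝ)⁻¹ = (nm v : ℝ) ^ (-(1 / 4) : ℝ) * (nm v : ℝ) ^ (-(3 / 4 : ℝ)) := by
        rw [← Real.rpow_add (hn0 v), ← Real.rpow_neg_one]
        norm_num
      rw [h6]
      apply mul_le_mul_of_nonneg_right _ (Real.rpow_nonneg (hn0 v).le _)
      exact Real.rpow_le_rpow_of_nonpos hT0 (hT1 v hv'.1).le (by norm_num)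
    have h7 : 0 ≤ C0 * y * Lg := by positivity
    calc (N : ℝ) * (C0 * y * Lg * ∑ v ∈ V1, (nm v : ℝ)⁻¹)
        ≤ (N : ℝ) * (C0 * y * Lg * (T ^ (-(1 / 4) : ℝ) * S1)) :=
          mul_le_mul_of_nonneg_left (mul_le_mul_of_nonneg_left h4 h7) (Nat.cast_nonneg _)
      _ = _ := by ring
  have hcard2 : (E2.card : ℝ) ≤ C0 * ((N : ℝ) ^ 2 * S2) * T ^ (-(1 / 4) : ℝ) * y * Lg := by
    have h1 : (E2.card : ℝ) ≤ ∑ q ∈ V2 ×ˢ (Finset.univ : Finset (Fin N × Fin N)),
        C0 * y * Lg * ((nm q.1 : ℝ) ^ 2)⁻¹ := by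
      have h2 : (E2.card : ℝ) ≤ ∑ q ∈ V2 ×ˢ (Finset.univ : Finset (Fin N × Fin N)),
          (((bucB K F N y).filter fun I => ∀ k, bucJ q.1 q.2.1 q.2.2 k ∣ I k).card : ℝ) := by
        exact_mod_cast Finset.card_biUnion_le
      refine h2.trans (Finset.sum_le_sum fun q _ => ?_)
      have h3 := buc_dvd F N hy0.le (bucJ q.1 q.2.1 q.2.2) (bucJ_ne q.1 q.2.1 q.2.2)
      rw [bucJ_prod] at h3
      refine le_trans ?_ (hup y ((nm q.1 : ℝ) ^ 2) hy (one_le_pow₀ (hn1 q.1)))
      exact_mod_cast h3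
    rw [Finset.sum_product] at h1
    simp only [Finset.sum_const, Finset.card_univ, Fintype.card_prod, Fintype.card_fin,
      nsmul_eq_mul] at h1
    refine h1.trans ?_
    rw [← Finset.mul_sum, ← Finset.mul_sum]
    have h4 : ∑ v ∈ V2, ((nm v : ℝ) ^ 2)⁻¹ ≤ T ^ (-(1 / 4) : ℝ) * S2 := by
      have h5 := hs4.sum_le_tsum V2 (fun v _ => pzb_nonneg v _)
      refine le_trans ?_ (mul_le_mul_of_nonneg_left h5 (Real.rpow_nonneg hT0.le _))
      rw [Finset.mul_sum]
      refine Finset.sum_le_sum fun v hv => ?_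
      have hv' := (Finset.mem_filter.1 hv).2
      have h6 : ((nm v : ℝ) ^ 2)⁻¹ =
          (nm v : ℝ) ^ (-(1 / 2) : ℝ) * (nm v : ℝ) ^ (-(3 / 2 : ℝ)) := by
        rw [← Real.rpow_add (hn0 v), ← Real.rpow_natCast, ← Real.rpow_neg (hn0 v).le]
        norm_num
      rw [h6]
      apply mul_le_mul_of_nonneg_right _ (Real.rpow_nonneg (hn0 v).le _)
      calc (nm v : ℝ) ^ (-(1 / 2) : ℝ) ≤ (nm v : ℝ) ^ (-(1 / 4) : ℝ) :=
            Real.rpow_le_rpow_of_exponent_le (hn1 v) (by norm_num)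
        _ ≤ T ^ (-(1 / 4) : ℝ) :=
            Real.rpow_le_rpow_of_nonpos hT0 (hT1 v hv').le (by norm_num)
    have h7 : 0 ≤ C0 * y * Lg := by positivity
    have h8 : (((N * N : ℕ) : ℝ)) = (N : ℝ) ^ 2 := by push_cast; ring
    rw [h8]
    calc (N : ℝ) ^ 2 * (C0 * y * Lg * ∑ v ∈ V2, ((nm v : ℝ) ^ 2)⁻¹)
        ≤ (N : ℝ) ^ 2 * (C0 * y * Lg * (T ^ (-(1 / 4) : ℝ) * S2)) :=
          mul_le_mul_of_nonneg_left (mul_le_mul_of_nonneg_left h4 h7) (by positivity)
      _ = _ := by ring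
  -- conclusion
  have hfin1 : ((bucB K F N y \ A.image Φ).card : ℝ) ≤ (E1.card : ℝ) + (E2.card : ℝ) := by
    exact_mod_cast (Finset.card_le_card hsub).trans (Finset.card_union_le _ _)
  have hfin2 : ((bucB K F N y \ A.image Φ).card : ℝ) + (A.card : ℝ) =
      ((bucB K F N y).card : ℝ) := by
    have h1 := Finset.card_sdiff_add_card_eq_card hAB
    rw [Finset.card_image_of_injective A hΦinj] at h1
    exact_mod_cast h1
  rw [hUN, hTI, abs_sub_comm, abs_of_nonneg (by
    have : (0 : ℝ) ≤ ((bucB K F N y \ A.image Φ).card : ℝ) := Nat.cast_nonneg _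
    linarith)]
  have hpos : 0 ≤ T ^ (-(1 / 4) : ℝ) * y * Lg := by
    have := Real.rpow_nonneg hT0.le (-(1 / 4) : ℝ)
    positivity
  have hexp : (C0 * (N * S1 + (N : ℝ) ^ 2 * S2) + 1) * T ^ (-(1 / 4) : ℝ) * y * Lg =
      C0 * (N * S1) * T ^ (-(1 / 4) : ℝ) * y * Lg +
        C0 * ((N : ℝ) ^ 2 * S2) * T ^ (-(1 / 4) : ℝ) * y * Lg +
        T ^ (-(1 / 4) : ℝ) * y * Lg := by ring
  rw [hexp]
  linarith

end H63.MA
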